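import Pool.Agent.AT.Defs

/-! Module C, part 2: the forest `TG` is connected on every block of heights. -/

namespace Pool.Agent.AT.C381

/-- bottom graph on heights 0 and 1 -/
def BG (q : Bool × Bool × ℤ) : SimpleGraph W :=
  SimpleGraph.fromRel (fun w w' => ht q w = 0 ∧ ht q w' = 1 ∧ ∃ s, w' = gen s * w)

/-- `s` is descending at `u` -/
def dsc (q : Bool × Bool × ℤ) (u : W) (s : V) : Prop :=
  asc (stt q u).1 (stt q u).2.1 s = false

lemma stt_gen (q : Bool × Bool × ℤ) (s : V) (w : W) :
    stt q (gen s * w) = step ℤ s (stt q w) := by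
  unfold stt
  rw [map_mul, Equiv.Perm.mul_apply, θ_gen]

lemma ht_gen (q : Bool × Bool × ℤ) (s : V) (w : W) :
    ht q (gen s * w) = ht q w + if asc (stt q w).1 (stt q w).2.1 s then 1 else -1 := by
  unfold ht
  rw [stt_gen]
  rfl

lemma ht_dsc {q : Bool × Bool × ℤ} {s : V} {w : W} (h : dsc q w s) :
    ht q (gen s * w) = ht q w - 1 := by
  rw [ht_gen, h]
  simp
  ring

lemma gen_sq (s : V) : gen s * gen s = 1 := cs.simple_mul_simple_self s

lemma gen_gen (s : V) (w : W) : gen s * (gen s * w) = w := by
  rw [← mul_assoc, gen_sq, one_mul]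

lemma gen_inv (s : V) : (gen s)⁻¹ = gen s := cs.inv_simple s

lemma cubeM_two {s t : V} (h : hammingDist s t = 1) : cubeM.M s t = 2 := by
  have hne : s ≠ t := by
    intro e; subst e; simp at h
  simp [cubeM, hne, h]

lemma gen_comm {s t : V} (h : hammingDist s t = 1) : gen s * gen t = gen t * gen s := by
  have h1 : (gen s * gen t) ^ (cubeM.M s t) = 1 := cs.simple_mul_simple_pow s t
  rw [cubeM_two h, pow_two] at h1
  have h2 : gen s * gen t = (gen s * gen t)⁻¹ := eq_inv_of_mul_eq_one_left h1
  rw [h2, mul_inv_rev, gen_inv, gen_inv]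

lemma gen_comm' {s t : V} (h : hammingDist s t = 1) (u : W) :
    gen s * (gen t * u) = gen t * (gen s * u) := by
  rw [← mul_assoc, gen_comm h, mul_assoc]

lemma asc_comm (a b : Bool) (s t : V) (h : hammingDist s t = 1) :
    asc (if ev s then !a else a) (if ev s then b else !b) t = asc a b t := by
  revert a b s t; decide

/-- commuting generators do not influence each other's direction -/
lemma dsc_comm {q : Bool × Bool × ℤ} {s t : V} {u : W} (h : hammingDist s t = 1)
    (ht' : dsc q u t) : dsc q (gen s * u) t := by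
  unfold dsc at *
  rw [stt_gen]
  rw [← ht']
  exact asc_comm (stt q u).1 (stt q u).2.1 s t h

/-- root map -/
noncomputable def rtn (q : Bool × Bool × ℤ) : ℕ → W → W
  | 0, u => u
  | n + 1, u => rtn q n (gen (ldesc (stt q u).1 (stt q u).2.1) * u)

lemma BG_adj {q : Bool × Bool × ℤ} {u : W} {s : V} (h0 : ht q u = 0)
    (h1 : ht q (gen s * u) = 1) : (BG q).Adj u (gen s * u) := by
  unfold BG
  rw [SimpleGraph.fromRel_adj]
  refine ⟨?_, Or.inl ⟨h0, h1, s, rfl⟩⟩
  intro e
  rw [← e, h0] at h1
  exact absurd h1 (by norm_num)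

/-- at height one a descending generator is an edge of the bottom graph -/
lemma BG_adj_dsc {q : Bool × Bool × ℤ} {u : W} {s : V} (h1 : ht q u = 1)
    (hs : dsc q u s) : (BG q).Adj u (gen s * u) := by
  have h0 : ht q (gen s * u) = 0 := by rw [ht_dsc hs, h1]; norm_num
  have h := BG_adj (q := q) (u := gen s * u) (s := s) h0 (by rw [gen_gen]; exact h1)
  rw [gen_gen] at h
  exact h.symm

lemma chain_of_comm {q : Bool × Bool × ℤ} (n : ℕ) (u : W)
    (hC : ∀ s t : V, dsc q u s → dsc q u t → hammingDist s t = 1 →
      (BG q).Reachable (rtn q n (gen s * u)) (rtn q n (gen t * u))) (s t : V)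
    (hs : dsc q u s) (ht' : dsc q u t) :
    (BG q).Reachable (rtn q n (gen s * u)) (rtn q n (gen t * u)) := by
  set a := (stt q u).1 with ha
  set b := (stt q u).2.1 with hb
  have hd : ∀ i, dsc q u (dpath a b i) := fun i => (dpath_desc a b _).2 ⟨i, rfl⟩
  have hstep : ∀ i j : Fin 4, i.val + 1 = j.val →
      (BG q).Reachable (rtn q n (gen (dpath a b i) * u)) (rtn q n (gen (dpath a b j) * u)) := by
    intro i j hij
    exact hC _ _ (hd i) (hd j) ((dpath_adj a b i j).2 (Or.inl hij))
  have h01 := hstep 0 1 rfl
  have h12 := hstep 1 2 rfl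
  have h23 := hstep 2 3 rfl
  have h0 : ∀ i : Fin 4,
      (BG q).Reachable (rtn q n (gen (dpath a b 0) * u)) (rtn q n (gen (dpath a b i) * u)) := by
    intro i
    fin_cases i
    · exact SimpleGraph.Reachable.refl _
    · exact h01
    · exact h01.trans h12
    · exact (h01.trans h12).trans h23
  obtain ⟨i, hi⟩ := (dpath_desc a b s).1 hs
  obtain ⟨j, hj⟩ := (dpath_desc a b t).1 ht'
  rw [← hi, ← hj]
  exact (h0 i).symm.trans (h0 j)

lemma ldesc_dsc (q : Bool × Bool × ℤ) (u : W) :
    dsc q u (ldesc (stt q u).1 (stt q u).2.1) := asc_ldesc _ _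

lemma comm_step {q : Bool × Bool × ℤ} (n : ℕ) : ∀ (u : W) (s t : V), ht q u = n + 2 →
    dsc q u s → dsc q u t → hammingDist s t = 1 →
      (BG q).Reachable (rtn q n (gen s * u)) (rtn q n (gen t * u)) := by
  induction n with
  | zero =>
    intro u s t hu hs ht' hst
    have hts : hammingDist t s = 1 := by rw [hammingDist_comm]; exact hst
    have h1 : (BG q).Adj (gen s * u) (gen t * (gen s * u)) := by
      apply BG_adj_dsc
      · rw [ht_dsc hs, hu]; norm_num
      · exact dsc_comm hst ht'
    have h2 : (BG q).Adj (gen t * u) (gen s * (gen t * u)) := by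
      apply BG_adj_dsc
      · rw [ht_dsc ht', hu]; norm_num
      · exact dsc_comm hts hs
    rw [gen_comm' hts] at h1
    exact h1.reachable.trans h2.reachable.symm
  | succ n ih =>
    intro u s t hu hs ht' hst
    have hts : hammingDist t s = 1 := by rw [hammingDist_comm]; exact hst
    have hsu : ht q (gen s * u) = n + 2 := by rw [ht_dsc hs, hu]; push_cast; ring
    have htu : ht q (gen t * u) = n + 2 := by rw [ht_dsc ht', hu]; push_cast; ring
    have h1 : (BG q).Reachable (rtn q n (gen t * (gen s * u))) (rtn q (n + 1) (gen s * u)) :=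
      chain_of_comm n (gen s * u) (fun s' t' => ih _ s' t' hsu) t _ (dsc_comm hst ht')
        (ldesc_dsc q (gen s * u))
    have h2 : (BG q).Reachable (rtn q n (gen s * (gen t * u))) (rtn q (n + 1) (gen t * u)) :=
      chain_of_comm n (gen t * u) (fun s' t' => ih _ s' t' htu) s _ (dsc_comm hts hs)
        (ldesc_dsc q (gen t * u))
    rw [gen_comm' hts] at h1
    exact h1.symm.trans h2

lemma rtn_step {q : Bool × Bool × ℤ} (n : ℕ) (u : W) (s : V) (hu : ht q u = n + 2)
    (hs : dsc q u s) : (BG q).Reachable (rtn q n (gen s * u)) (rtn q (n + 1) u) :=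
  chain_of_comm n u (fun s' t' => comm_step n u s' t' hu) s _ hs (ldesc_dsc q u)

/-! ### mirror symmetry -/

/-- mirrored base state -/
def mir (q : Bool × Bool × ℤ) : Bool × Bool × ℤ := (!q.1, !q.2.1, 1 - q.2.2)

lemma step_mir (s : V) (p : Bool × Bool × ℤ) : step ℤ s (mir p) = mir (step ℤ s p) := by
  obtain ⟨a, b, k⟩ := p
  simp only [step, mir, asc_not]
  cases ev s <;> cases asc a b s <;> simp <;> ring

lemma stt_one (q : Bool × Bool × ℤ) : stt q 1 = q := by
  unfold stt; simp

lemma stt_mir (q : Bool × Bool × ℤ) (w : W) : stt (mir q) w = mir (stt q w) := by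
  induction w using cs.simple_induction_left with
  | one => rw [stt_one, stt_one]
  | mul_simple_left w i ih =>
    have h := stt_gen (mir q) i w
    have h' := stt_gen q i w
    unfold gen at h h'
    rw [h, h', ih, step_mir]

lemma ht_mir (q : Bool × Bool × ℤ) (w : W) : ht (mir q) w = 1 - ht q w := by
  unfold ht
  rw [stt_mir]; rfl

lemma mir_mir (q : Bool × Bool × ℤ) : mir (mir q) = q := by
  obtain ⟨a, b, k⟩ := q
  simp [mir]

lemma BG_mir_le (q : Bool × Bool × ℤ) : BG (mir q) ≤ BG q := by
  intro u v h
  unfold BG at *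
  rw [SimpleGraph.fromRel_adj] at *
  refine ⟨h.1, ?_⟩
  simp only [ht_mir] at h
  rcases h.2 with ⟨h0, h1, s, hs⟩ | ⟨h0, h1, s, hs⟩
  · refine Or.inr ⟨by linarith, by linarith, s, ?_⟩
    rw [hs, gen_gen]
  · refine Or.inl ⟨by linarith, by linarith, s, ?_⟩
    rw [hs, gen_gen]

/-- the root of any element -/
noncomputable def root (q : Bool × Bool × ℤ) (u : W) : W :=
  if 1 ≤ ht q u then rtn q (ht q u - 1).toNat u else rtn (mir q) (- ht q u).toNat u

lemma root_step_dsc (q : Bool × Bool × ℤ) (u : W) (s : V) (hs : dsc q u s) :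
    (BG q).Reachable (root q (gen s * u)) (root q u) := by
  have hd := ht_dsc hs
  rcases le_or_gt 2 (ht q u) with h2 | h2
  · obtain ⟨n, hn⟩ : ∃ n : ℕ, ht q u = n + 2 := ⟨(ht q u - 2).toNat, by omega⟩
    have e1 : root q (gen s * u) = rtn q n (gen s * u) := by
      unfold root
      rw [if_pos (by omega)]
      congr 1
      omega
    have e2 : root q u = rtn q (n + 1) u := by
      unfold root
      rw [if_pos (by omega)]
      congr 1
      omega
    rw [e1, e2]
    exact rtn_step n u s hn hs
  · rcases le_or_gt 1 (ht q u) with h1 | h1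
    · have h1' : ht q u = 1 := by omega
      have e1 : root q (gen s * u) = gen s * u := by
        unfold root
        rw [if_neg (by omega)]
        have : (- ht q (gen s * u)).toNat = 0 := by omega
        rw [this]; rfl
      have e2 : root q u = u := by
        unfold root
        rw [if_pos (by omega)]
        have : (ht q u - 1).toNat = 0 := by omega
        rw [this]; rfl
      rw [e1, e2]
      exact (BG_adj_dsc h1' hs).reachable.symm
    · obtain ⟨n, hn⟩ : ∃ n : ℕ, - ht q u = n := ⟨(- ht q u).toNat, by omega⟩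
      have e1 : root q (gen s * u) = rtn (mir q) (n + 1) (gen s * u) := by
        unfold root
        rw [if_neg (by omega)]
        congr 1
        omega
      have e2 : root q u = rtn (mir q) n u := by
        unfold root
        rw [if_neg (by omega)]
        congr 1
        omega
      rw [e1, e2]
      have hm : ht (mir q) (gen s * u) = n + 2 := by rw [ht_mir, hd]; omega
      have hdm : dsc (mir q) (gen s * u) s := by
        unfold dsc
        by_contra hcon
        have h3 := ht_gen (mir q) s (gen s * u)
        rw [if_pos (by simpa using hcon), gen_gen, ht_mir, ht_mir, hd] at h3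
        omega
      have h := rtn_step n (gen s * u) s hm hdm
      rw [gen_gen] at h
      exact (h.mono (BG_mir_le q)).symm

lemma root_step (q : Bool × Bool × ℤ) (u : W) (s : V) :
    (BG q).Reachable (root q (gen s * u)) (root q u) := by
  by_cases hs : dsc q u s
  · exact root_step_dsc q u s hs
  · have hs' : dsc q (gen s * u) s := by
      unfold dsc at *
      by_contra hcon
      have h1 := ht_gen q s u
      have h2 := ht_gen q s (gen s * u)
      rw [if_pos (by simpa using hs)] at h1
      rw [if_pos (by simpa using hcon), gen_gen] at h2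
      omega
    have h := root_step_dsc q (gen s * u) s hs'
    rw [gen_gen] at h
    exact h.symm

lemma root_mul (q : Bool × Bool × ℤ) (g u : W) :
    (BG q).Reachable (root q (g * u)) (root q u) := by
  induction g using cs.simple_induction_left with
  | one => rw [one_mul]
  | mul_simple_left w i ih =>
    rw [mul_assoc]
    exact (root_step q (w * u) i).trans ih

lemma BG_le_TG (N : ℤ) (q : Bool × Bool × ℤ) : BG q ≤ TG N q := by
  intro u v h
  unfold BG at h
  unfold TG
  rw [SimpleGraph.fromRel_adj] at *
  exact ⟨h.1, h.2.imp Or.inl Or.inl⟩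

lemma TG_dn {N : ℤ} {q : Bool × Bool × ℤ} {u : W} (h2 : 2 ≤ ht q u) (hN : ht q u < N) :
    (TG N q).Adj u (gen (ldesc (stt q u).1 (stt q u).2.1) * u) := by
  unfold TG
  rw [SimpleGraph.fromRel_adj]
  refine ⟨?_, Or.inl (Or.inr ⟨h2, hN, rfl⟩)⟩
  intro e
  have h := ht_dsc (ldesc_dsc q u)
  rw [← e] at h
  omega

lemma TG_root {N : ℤ} {q : Bool × Bool × ℤ} (n : ℕ) : ∀ u : W, ht q u = n + 1 →
    ht q u < N → (TG N q).Reachable u (rtn q n u) := by
  induction n with
  | zero => intro u _ _; exact SimpleGraph.Reachable.refl _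
  | succ n ih =>
    intro u hu hN
    have h := TG_dn (N := N) (q := q) (u := u) (by rw [hu]; push_cast; omega) hN
    have hd := ht_dsc (ldesc_dsc q u)
    refine h.reachable.trans (ih _ ?_ ?_)
    · rw [hd, hu]; push_cast; ring
    · rw [hd]; omega

theorem treeConn : TreeConn := by
  intro N q hN w w' h0 h1 h0' h1'
  have key : ∀ u : W, 0 ≤ ht q u → ht q u < N → (TG N q).Reachable u (root q u) := by
    intro u hu hu'
    rcases le_or_gt 1 (ht q u) with h | h
    · have e : root q u = rtn q (ht q u - 1).toNat u := by unfold root; rw [if_pos h]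
      rw [e]
      exact TG_root _ u (by omega) hu'
    · have e : root q u = u := by
        unfold root
        rw [if_neg (by omega)]
        have : (- ht q u).toNat = 0 := by omega
        rw [this]; rfl
      rw [e]
  have hm := root_mul q (w * w'⁻¹) w'
  rw [inv_mul_cancel_right] at hm
  exact (key w h0 h1).trans ((hm.mono (BG_le_TG N q)).trans (key w' h0' h1').symm)

end Pool.Agent.AT.C381
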