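import Pool.Agent.AT.Geo2

/-! Module M2: the cusp set has finite Haar measure (given right invariance under involutions). -/

open MeasureTheory Matrix

namespace Pool.Agent.AT.M381

/-- the orbit point `g⁻¹ e₀` -/
noncomputable def pt (g : G) : Fin 4 → ℝ := (g⁻¹).mat *ᵥ e0

lemma pt_val (g : G) (i : Fin 4) : pt g i = (g⁻¹).mat i 3 := by
  simp [pt, e0, Matrix.mulVec, dotProduct, Fin.sum_univ_four]

lemma pt_mul (g h : G) : pt (g * h) = (h⁻¹).mat *ᵥ pt g := by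
  unfold pt
  rw [_root_.mul_inv_rev, G.mat_mul, Matrix.mulVec_mulVec]

lemma continuous_pt : Continuous pt := by
  unfold pt
  have h : Continuous fun g : G => (g⁻¹).mat := G.continuous_mat.comp continuous_inv
  exact h.matrix_mulVec continuous_const

lemma pt_three (g : G) : pt g 3 = g.mat 3 3 := by
  rw [pt_val, G.mat_inv]
  simp [J, Matrix.mul_apply, Matrix.diagonal, Fin.sum_univ_four]

lemma pt_hyp (g : G) : pt g 3 ^ 2 = 1 + (pt g 0 ^ 2 + pt g 1 ^ 2 + pt g 2 ^ 2) ∧ 0 < pt g 3 := by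
  constructor
  · simp only [pt_val]
    exact lor_col (G.lor g⁻¹)
  · rw [pt_val]; exact G.pos g⁻¹

/-- push forward of Haar measure to the hyperboloid -/
noncomputable def pm (A : Set (Fin 4 → ℝ)) : ENNReal := (Measure.haar : Measure G) {g | pt g ∈ A}

lemma pm_mono {A B : Set (Fin 4 → ℝ)} (h : A ⊆ B) : pm A ≤ pm B :=
  measure_mono fun _ hg => h hg

lemma meas_pre {A : Set (Fin 4 → ℝ)} (hA : MeasurableSet A) : MeasurableSet {g : G | pt g ∈ A} :=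
  continuous_pt.measurable hA

lemma pm_inv (h1 : StM1) (σ : G) (hσ : σ * σ = 1) {A : Set (Fin 4 → ℝ)} (hA : MeasurableSet A) :
    pm {z | σ.mat *ᵥ z ∈ A} = pm A := by
  have h := (h1 σ hσ).measure_preimage (meas_pre hA).nullMeasurableSet
  have hinv : σ⁻¹ = σ := inv_eq_of_mul_eq_one_left hσ
  unfold pm
  rw [← h]
  congr 1
  ext g
  simp only [Set.mem_setOf_eq, Set.mem_preimage, pt_mul, hinv]

/-- the involution `ζ ↦ b - ζ` -/
noncomputable def rhoM (a b : ℝ) : Mat :=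
  !![1 - (a ^ 2 + b ^ 2) / 2, -a, -b, (a ^ 2 + b ^ 2) / 2;
     -a, -1, 0, a;
     -b, 0, -1, b;
     -(a ^ 2 + b ^ 2) / 2, -a, -b, 1 + (a ^ 2 + b ^ 2) / 2]

lemma rhoM_lor (a b : ℝ) : (rhoM a b)ᵀ * J * rhoM a b = J := by
  ext i j
  fin_cases i <;> fin_cases j <;>
    simp [rhoM, J, Matrix.mul_apply, Matrix.diagonal, Fin.sum_univ_four,
      Matrix.transpose_apply] <;> ring

noncomputable def rho (a b : ℝ) : G := ⟨rhoM a b, rhoM_lor a b, by simp [rhoM]; positivity⟩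

lemma rho_sq (a b : ℝ) : rho a b * rho a b = 1 := by
  apply G.ext
  show rhoM a b * rhoM a b = 1
  ext i j
  fin_cases i <;> fin_cases j <;>
    simp [rhoM, Matrix.mul_apply, Fin.sum_univ_four] <;> ring

/-- the involution exchanging `u` and `v` up to the factor `c` -/
noncomputable def iotM (c d : ℝ) : Mat :=
  !![-(c + d) / 2, 0, 0, (c - d) / 2;
     0, 1, 0, 0;
     0, 0, 1, 0;
     (d - c) / 2, 0, 0, (c + d) / 2]

lemma iotM_lor (c d : ℝ) (h : c * d = 1) : (iotM c d)ᵀ * J * iotM c d = J := by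
  ext i j
  fin_cases i <;> fin_cases j <;>
    simp [iotM, J, Matrix.mul_apply, Matrix.diagonal, Fin.sum_univ_four,
      Matrix.transpose_apply] <;> nlinarith [h]

noncomputable def iot (c d : ℝ) (h : c * d = 1) (hc : 0 < c) (hd : 0 < d) : G :=
  ⟨iotM c d, iotM_lor c d h, by simp [iotM]; positivity⟩

lemma iot_sq (c d : ℝ) (h : c * d = 1) (hc : 0 < c) (hd : 0 < d) :
    iot c d h hc hd * iot c d h hc hd = 1 := by
  apply G.ext
  show iotM c d * iotM c d = 1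
  ext i j
  fin_cases i <;> fin_cases j <;>
    simp [iotM, Matrix.mul_apply, Fin.sum_univ_four] <;> nlinarith [h]

/-- blocks in the cusp at `y₀` -/
def Sq (a b lo hi w : ℝ) : Set (Fin 4 → ℝ) :=
  {z | lo < z 3 - z 0 ∧ z 3 - z 0 ≤ hi ∧ a * (z 3 - z 0) ≤ z 1 ∧ z 1 < (a + w) * (z 3 - z 0) ∧
    b * (z 3 - z 0) ≤ z 2 ∧ z 2 < (b + w) * (z 3 - z 0)}

lemma Sq_meas (a b lo hi w : ℝ) : MeasurableSet (Sq a b lo hi w) := by
  unfold Sq
  simp only [Set.setOf_and]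
  refine MeasurableSet.inter (measurableSet_lt (by fun_prop) (by fun_prop)) ?_
  refine MeasurableSet.inter (measurableSet_le (by fun_prop) (by fun_prop)) ?_
  refine MeasurableSet.inter (measurableSet_le (by fun_prop) (by fun_prop)) ?_
  refine MeasurableSet.inter (measurableSet_lt (by fun_prop) (by fun_prop)) ?_
  refine MeasurableSet.inter (measurableSet_le (by fun_prop) (by fun_prop)) ?_
  exact measurableSet_lt (by fun_prop) (by fun_prop)

lemma mulVec_meas (σ : G) {A : Set (Fin 4 → ℝ)} (hA : MeasurableSet A) :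
    MeasurableSet {z : Fin 4 → ℝ | σ.mat *ᵥ z ∈ A} := by
  have h : Continuous fun z : Fin 4 → ℝ => σ.mat *ᵥ z :=
    continuous_const.matrix_mulVec continuous_id
  exact h.measurable hA

lemma pm_two (h1 : StM1) (σ τ : G) (hσ : σ * σ = 1) (hτ : τ * τ = 1) {A : Set (Fin 4 → ℝ)}
    (hA : MeasurableSet A) : pm {z | σ.mat *ᵥ (τ.mat *ᵥ z) ∈ A} = pm A := by
  have h := pm_inv h1 τ hτ (mulVec_meas σ hA)
  rw [pm_inv h1 σ hσ hA] at h
  exact h

lemma rho_vec (a b : ℝ) (z : Fin 4 → ℝ) : (rho a b).mat *ᵥ z =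
    ![z 0 - a * z 1 - b * z 2 + (a ^ 2 + b ^ 2) / 2 * (z 3 - z 0), a * (z 3 - z 0) - z 1,
      b * (z 3 - z 0) - z 2,
      z 3 - a * z 1 - b * z 2 + (a ^ 2 + b ^ 2) / 2 * (z 3 - z 0)] := by
  show rhoM a b *ᵥ z = _
  ext i
  fin_cases i <;> simp [rhoM, Matrix.mulVec, dotProduct, Fin.sum_univ_four] <;> ring

lemma iot_vec (c d : ℝ) (h : c * d = 1) (hc : 0 < c) (hd : 0 < d) (z : Fin 4 → ℝ) :
    (iot c d h hc hd).mat *ᵥ z =
    ![(c * (z 3 - z 0) - d * (z 3 + z 0)) / 2, z 1, z 2,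
      (c * (z 3 - z 0) + d * (z 3 + z 0)) / 2] := by
  show iotM c d *ᵥ z = _
  ext i
  fin_cases i <;> simp [iotM, Matrix.mulVec, dotProduct, Fin.sum_univ_four] <;> ring

lemma shift_comp (a b : ℝ) (z : Fin 4 → ℝ) :
    ((rho 0 0).mat *ᵥ ((rho a b).mat *ᵥ z)) 3 - ((rho 0 0).mat *ᵥ ((rho a b).mat *ᵥ z)) 0
      = z 3 - z 0 ∧
    ((rho 0 0).mat *ᵥ ((rho a b).mat *ᵥ z)) 1 = z 1 - a * (z 3 - z 0) ∧
    ((rho 0 0).mat *ᵥ ((rho a b).mat *ᵥ z)) 2 = z 2 - b * (z 3 - z 0) := by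
  simp only [rho_vec]
  refine ⟨?_, ?_, ?_⟩ <;> simp

lemma pm_shift (h1 : StM1) (a b lo hi : ℝ) : pm (Sq a b lo hi 1) = pm (Sq 0 0 lo hi 1) := by
  rw [← pm_two h1 (rho 0 0) (rho a b) (rho_sq 0 0) (rho_sq a b) (Sq_meas 0 0 lo hi 1)]
  congr 1
  ext z
  obtain ⟨c0, c1, c2⟩ := shift_comp a b z
  show (lo < z 3 - z 0 ∧ z 3 - z 0 ≤ hi ∧ a * (z 3 - z 0) ≤ z 1 ∧ z 1 < (a + 1) * (z 3 - z 0) ∧
    b * (z 3 - z 0) ≤ z 2 ∧ z 2 < (b + 1) * (z 3 - z 0)) ↔
    ((rho 0 0).mat *ᵥ ((rho a b).mat *ᵥ z)) ∈ Sq 0 0 lo hi 1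
  rw [Sq, Set.mem_setOf_eq, c0, c1, c2]
  constructor
  · rintro ⟨h1, h2, h3, h4, h5, h6⟩
    refine ⟨?_, ?_, ?_, ?_, ?_, ?_⟩ <;> nlinarith
  · rintro ⟨h1, h2, h3, h4, h5, h6⟩
    refine ⟨?_, ?_, ?_, ?_, ?_, ?_⟩ <;> nlinarith

lemma pm_dil (h1 : StM1) (lo hi : ℝ) : pm (Sq 0 0 (lo / 2) (hi / 2) 2) = pm (Sq 0 0 lo hi 1) := by
  have e1 : (1 : ℝ) * 1 = 1 := by norm_num
  have e2 : (2 : ℝ) * (1 / 2) = 1 := by norm_num
  rw [← pm_two h1 (iot 1 1 e1 one_pos one_pos) (iot 2 (1 / 2) e2 two_pos (by norm_num))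
    (iot_sq _ _ _ _ _) (iot_sq _ _ _ _ _) (Sq_meas 0 0 lo hi 1)]
  congr 1
  ext z
  have c : ((iot 1 1 e1 one_pos one_pos).mat *ᵥ
      ((iot 2 (1 / 2) e2 two_pos (by norm_num)).mat *ᵥ z)) 3 -
      ((iot 1 1 e1 one_pos one_pos).mat *ᵥ
      ((iot 2 (1 / 2) e2 two_pos (by norm_num)).mat *ᵥ z)) 0 = 2 * (z 3 - z 0) ∧
      ((iot 1 1 e1 one_pos one_pos).mat *ᵥ
      ((iot 2 (1 / 2) e2 two_pos (by norm_num)).mat *ᵥ z)) 1 = z 1 ∧
      ((iot 1 1 e1 one_pos one_pos).mat *ᵥ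
      ((iot 2 (1 / 2) e2 two_pos (by norm_num)).mat *ᵥ z)) 2 = z 2 := by
    simp only [iot_vec]
    refine ⟨?_, ?_, ?_⟩ <;> simp
    try ring
  obtain ⟨c0, c1, c2⟩ := c
  show (lo / 2 < z 3 - z 0 ∧ z 3 - z 0 ≤ hi / 2 ∧ 0 * (z 3 - z 0) ≤ z 1 ∧
    z 1 < (0 + 2) * (z 3 - z 0) ∧ 0 * (z 3 - z 0) ≤ z 2 ∧ z 2 < (0 + 2) * (z 3 - z 0)) ↔
    ((iot 1 1 e1 one_pos one_pos).mat *ᵥ
      ((iot 2 (1 / 2) e2 two_pos (by norm_num)).mat *ᵥ z)) ∈ Sq 0 0 lo hi 1
  rw [Sq, Set.mem_setOf_eq, c0, c1, c2]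
  constructor
  · rintro ⟨h1, h2, h3, h4, h5, h6⟩
    refine ⟨?_, ?_, ?_, ?_, ?_, ?_⟩ <;> nlinarith
  · rintro ⟨h1, h2, h3, h4, h5, h6⟩
    refine ⟨?_, ?_, ?_, ?_, ?_, ?_⟩ <;> nlinarith

lemma Sq_disj {a b a' b' lo hi : ℝ} (hlo : 0 ≤ lo) (h : a + 1 ≤ a' ∨ b + 1 ≤ b') :
    Disjoint (Sq a b lo hi 1) (Sq a' b' lo hi 1) := by
  rw [Set.disjoint_left]
  rintro z ⟨h1, h2, h3, h4, h5, h6⟩ ⟨k1, k2, k3, k4, k5, k6⟩
  have hv : 0 < z 3 - z 0 := lt_of_le_of_lt hlo h1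
  rcases h with h | h
  · have := mul_le_mul_of_nonneg_right h hv.le
    linarith
  · have := mul_le_mul_of_nonneg_right h hv.le
    linarith

lemma pm_union {A B : Set (Fin 4 → ℝ)} (hd : Disjoint A B) (hB : MeasurableSet B) :
    pm (A ∪ B) = pm A + pm B := by
  unfold pm
  rw [← measure_union _ (meas_pre hB)]
  · rfl
  · rw [Set.disjoint_left] at *
    exact fun g hg hg' => hd hg hg'

lemma four_le (h1 : StM1) {lo hi : ℝ} (hlo : 0 ≤ lo) :
    4 * pm (Sq 0 0 lo hi 1) ≤ pm (Sq 0 0 lo hi 2) := by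
  have e : pm (((Sq 0 0 lo hi 1 ∪ Sq 1 0 lo hi 1) ∪ Sq 0 1 lo hi 1) ∪ Sq 1 1 lo hi 1)
      = 4 * pm (Sq 0 0 lo hi 1) := by
    rw [pm_union ?_ (Sq_meas _ _ _ _ _), pm_union ?_ (Sq_meas _ _ _ _ _),
      pm_union ?_ (Sq_meas _ _ _ _ _), pm_shift h1 1 0, pm_shift h1 0 1, pm_shift h1 1 1]
    · ring
    · exact Sq_disj hlo (Or.inl (by norm_num))
    · rw [Set.disjoint_union_left]
      exact ⟨Sq_disj hlo (Or.inr (by norm_num)), Sq_disj hlo (Or.inr (by norm_num))⟩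
    · rw [Set.disjoint_union_left, Set.disjoint_union_left]
      exact ⟨⟨Sq_disj hlo (Or.inl (by norm_num)), Sq_disj hlo (Or.inr (by norm_num))⟩,
        Sq_disj hlo (Or.inl (by norm_num))⟩
  rw [← e]
  apply pm_mono
  rintro z (((h | h) | h) | h) <;> obtain ⟨a1, a2, a3, a4, a5, a6⟩ := h <;>
    have hv : 0 < z 3 - z 0 := lt_of_le_of_lt hlo a1 <;>
    refine ⟨a1, a2, ?_, ?_, ?_, ?_⟩ <;> nlinarith

/-- all entries are bounded by the last one -/
lemma entry_le (g : G) (i j : Fin 4) : |g.mat i j| ≤ g.mat 3 3 := by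
  have hc := lor_col (G.lor g)
  have hr := lor_row (G.lor g)
  have hp := G.pos g
  have hT := lor_transpose (G.lor g)
  apply abs_le_of_sq_le_sq _ hp.le
  have key : ∀ i : Fin 4, i ≠ 3 →
      g.mat i 0 ^ 2 + g.mat i 1 ^ 2 + g.mat i 2 ^ 2 - g.mat i 3 ^ 2 = 1 := by
    intro i hi
    have h3 := congrFun (congrFun hT i) i
    simp [Matrix.mul_apply, J, Matrix.diagonal, Fin.sum_univ_four, Matrix.transpose_apply] at h3
    fin_cases i
    · simp at h3 ⊢; linarith [h3, sq (g.mat 0 0), sq (g.mat 0 1), sq (g.mat 0 2), sq (g.mat 0 3)]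
    · simp at h3 ⊢; linarith [h3, sq (g.mat 1 0), sq (g.mat 1 1), sq (g.mat 1 2), sq (g.mat 1 3)]
    · simp at h3 ⊢; linarith [h3, sq (g.mat 2 0), sq (g.mat 2 1), sq (g.mat 2 2), sq (g.mat 2 3)]
    · exact absurd rfl hi
  have col : ∀ i : Fin 4, i ≠ 3 → g.mat i 3 ^ 2 ≤ g.mat 3 3 ^ 2 - 1 := by
    intro i hi
    have q0 := sq_nonneg (g.mat 0 3)
    have q1 := sq_nonneg (g.mat 1 3)
    have q2 := sq_nonneg (g.mat 2 3)
    fin_cases i
    · simp; linarith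
    · simp; linarith
    · simp; linarith
    · exact absurd rfl hi
  by_cases hi : i = 3
  · subst hi
    have q0 := sq_nonneg (g.mat 3 0)
    have q1 := sq_nonneg (g.mat 3 1)
    have q2 := sq_nonneg (g.mat 3 2)
    fin_cases j
    · simp; linarith
    · simp; linarith
    · simp; linarith
    · simp
  · have a := key i hi
    have b := col i hi
    have q0 := sq_nonneg (g.mat i 0)
    have q1 := sq_nonneg (g.mat i 1)
    have q2 := sq_nonneg (g.mat i 2)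
    fin_cases j
    · simp; linarith
    · simp; linarith
    · simp; linarith
    · simp; linarith

lemma haar_ball (R : ℝ) : (Measure.haar : Measure G) {g | g.mat 3 3 ≤ R} < ⊤ := by
  have hK : IsCompact {A : Mat | ∀ i j, A i j ∈ Set.Icc (-R) R} := by
    have h : IsCompact (Set.pi Set.univ fun _ : Fin 4 => Set.pi Set.univ fun _ : Fin 4 =>
        Set.Icc (-R) R) := isCompact_univ_pi fun _ => isCompact_univ_pi fun _ => isCompact_Icc
    have e : {A : Mat | ∀ i j, A i j ∈ Set.Icc (-R) R} =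
        (Set.pi Set.univ fun _ : Fin 4 => Set.pi Set.univ fun _ : Fin 4 => Set.Icc (-R) R) := by
      ext A
      constructor
      · intro h i _ j _; exact h i j
      · intro h i j; exact h i trivial j trivial
    rw [e]; exact h
  have hK' := G.isClosedEmbedding.isCompact_preimage hK
  refine lt_of_le_of_lt (measure_mono ?_) hK'.measure_lt_top
  intro g hg i j
  have h := entry_le g i j
  rw [abs_le] at h
  constructor
  · linarith [h.1, show g.mat 3 3 ≤ R from hg]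
  · linarith [h.2, show g.mat 3 3 ≤ R from hg]

lemma block_fin : pm (Sq 0 0 (1 / 2) 1 1) < ⊤ := by
  refine lt_of_le_of_lt (measure_mono ?_) (haar_ball 4)
  rintro g ⟨h1, h2, h3, h4, h5, h6⟩
  have hy := pt_hyp g
  show g.mat 3 3 ≤ 4
  rw [← pt_three]
  generalize pt g 0 = a at *
  generalize pt g 1 = b at *
  generalize pt g 2 = c at *
  generalize pt g 3 = d at *
  have hb : b ^ 2 ≤ 1 := by nlinarith
  have hc : c ^ 2 ≤ 1 := by nlinarith
  have huv : (d - a) * (d + a) ≤ 3 := by nlinarith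
  by_contra hcon
  push Not at hcon
  have : 7 < d + a := by linarith
  nlinarith

/-! ### the cusp -/

lemma Sq_zero_bound (h1 : StM1) (k : ℕ) :
    pm (Sq 0 0 ((1 / 2 : ℝ) ^ (k + 1)) ((1 / 2 : ℝ) ^ k) 1) ≤
      pm (Sq 0 0 (1 / 2) 1 1) * (4⁻¹ : ENNReal) ^ k := by
  induction k with
  | zero => simp
  | succ k ih =>
    have e := pm_dil h1 ((1 / 2 : ℝ) ^ (k + 1)) ((1 / 2 : ℝ) ^ k)
    have e1 : (1 / 2 : ℝ) ^ (k + 1) / 2 = (1 / 2 : ℝ) ^ (k + 1 + 1) := by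
      rw [pow_succ (1 / 2 : ℝ) (k + 1)]; ring
    have e2 : (1 / 2 : ℝ) ^ k / 2 = (1 / 2 : ℝ) ^ (k + 1) := by
      rw [pow_succ]; ring
    rw [e1, e2] at e
    have f := four_le h1 (lo := (1 / 2 : ℝ) ^ (k + 1 + 1)) (hi := (1 / 2 : ℝ) ^ (k + 1))
      (by positivity)
    rw [e] at f
    have g := f.trans ih
    have h4 : (4 : ENNReal) ≠ 0 := by norm_num
    have h4' : (4 : ENNReal) ≠ ⊤ := by norm_num
    calc pm (Sq 0 0 ((1 / 2 : ℝ) ^ (k + 1 + 1)) ((1 / 2 : ℝ) ^ (k + 1)) 1)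
        = 4⁻¹ * (4 * pm (Sq 0 0 ((1 / 2 : ℝ) ^ (k + 1 + 1)) ((1 / 2 : ℝ) ^ (k + 1)) 1)) := by
          rw [← mul_assoc, ENNReal.inv_mul_cancel h4 h4', one_mul]
      _ ≤ 4⁻¹ * (pm (Sq 0 0 (1 / 2) 1 1) * (4⁻¹ : ENNReal) ^ k) := by gcongr
      _ = pm (Sq 0 0 (1 / 2) 1 1) * (4⁻¹ : ENNReal) ^ (k + 1) := by
          rw [pow_succ]; ring

/-- the cusp at `y₀` -/
def C01 : Set (Fin 4 → ℝ) := {z | |z 1| + |z 2| ≤ z 3 - z 0 ∧ z 3 - z 0 ≤ 1}

lemma C01_meas : MeasurableSet C01 := by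
  unfold C01
  simp only [Set.setOf_and]
  refine MeasurableSet.inter (measurableSet_le ?_ (by fun_prop)) (measurableSet_le (by fun_prop) (by fun_prop))
  fun_prop

lemma C01_cover (g : G) (hg : pt g ∈ C01) :
    ∃ (k : ℕ) (a b : Fin 3), pt g ∈ Sq ((a : ℕ) - 1 : ℝ) ((b : ℕ) - 1 : ℝ)
      ((1 / 2 : ℝ) ^ (k + 1)) ((1 / 2 : ℝ) ^ k) 1 := by
  obtain ⟨h1, h2⟩ := hg
  have hy := pt_hyp g
  have hv : 0 < pt g 3 - pt g 0 := by
    by_contra hcon
    push Not at hcon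
    nlinarith [sq_nonneg (pt g 1), sq_nonneg (pt g 2), hy.1, hy.2]
  obtain ⟨k, hk1, hk2⟩ := exists_nat_pow_near_of_lt_one hv h2 (by norm_num : (0:ℝ) < 1 / 2)
    (by norm_num)
  have main : ∀ x v : ℝ, 0 < v → |x| ≤ v → ∃ a : Fin 3, ((a : ℕ) - 1 : ℝ) * v ≤ x ∧
      x < (((a : ℕ) - 1 : ℝ) + 1) * v := by
    intro x v hv hx
    rw [abs_le] at hx
    rcases lt_or_ge x 0 with h | h
    · exact ⟨0, by simp; linarith [hx.1], by simp; linarith⟩
    · rcases lt_or_ge x v with h' | h'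
      · exact ⟨1, by simp; linarith, by simp; linarith⟩
      · refine ⟨2, ?_, ?_⟩
        · norm_num; linarith
        · norm_num; nlinarith [hx.2]
  obtain ⟨a, ha1, ha2⟩ := main (pt g 1) _ hv (by linarith [abs_nonneg (pt g 2)])
  obtain ⟨b, hb1, hb2⟩ := main (pt g 2) _ hv (by linarith [abs_nonneg (pt g 1)])
  exact ⟨k, a, b, hk1, hk2, ha1, ha2, hb1, hb2⟩

lemma C01_fin (h1 : StM1) : pm C01 < ⊤ := by
  have hsub : {g : G | pt g ∈ C01} ⊆ ⋃ k : ℕ, ⋃ a : Fin 3, ⋃ b : Fin 3,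
      {g : G | pt g ∈ Sq ((a : ℕ) - 1 : ℝ) ((b : ℕ) - 1 : ℝ)
        ((1 / 2 : ℝ) ^ (k + 1)) ((1 / 2 : ℝ) ^ k) 1} := by
    intro g hg
    obtain ⟨k, a, b, h⟩ := C01_cover g hg
    simp only [Set.mem_iUnion]
    exact ⟨k, a, b, h⟩
  have hle : pm C01 ≤ ∑' k : ℕ, (9 * pm (Sq 0 0 (1 / 2) 1 1)) * (4⁻¹ : ENNReal) ^ k := by
    refine (measure_mono hsub).trans ((measure_iUnion_le _).trans (ENNReal.tsum_le_tsum ?_))
    intro k
    have hb : ∀ a b : Fin 3, (Measure.haar : Measure G)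
        {g : G | pt g ∈ Sq ((a : ℕ) - 1 : ℝ) ((b : ℕ) - 1 : ℝ)
        ((1 / 2 : ℝ) ^ (k + 1)) ((1 / 2 : ℝ) ^ k) 1} ≤
        pm (Sq 0 0 (1 / 2) 1 1) * (4⁻¹ : ENNReal) ^ k := by
      intro a b
      have := pm_shift h1 ((a : ℕ) - 1 : ℝ) ((b : ℕ) - 1 : ℝ)
        ((1 / 2 : ℝ) ^ (k + 1)) ((1 / 2 : ℝ) ^ k)
      unfold pm at this
      rw [this]
      exact Sq_zero_bound h1 k
    refine (measure_iUnion_le _).trans ?_
    rw [tsum_fintype]
    calc ∑ a : Fin 3, (Measure.haar : Measure G) (⋃ b : Fin 3,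
          {g : G | pt g ∈ Sq ((a : ℕ) - 1 : ℝ) ((b : ℕ) - 1 : ℝ)
          ((1 / 2 : ℝ) ^ (k + 1)) ((1 / 2 : ℝ) ^ k) 1})
        ≤ ∑ a : Fin 3, ∑ b : Fin 3, pm (Sq 0 0 (1 / 2) 1 1) * (4⁻¹ : ENNReal) ^ k := by
          refine Finset.sum_le_sum fun a _ => ?_
          refine (measure_iUnion_le _).trans ?_
          rw [tsum_fintype]
          exact Finset.sum_le_sum fun b _ => hb a b
      _ = (9 * pm (Sq 0 0 (1 / 2) 1 1)) * (4⁻¹ : ENNReal) ^ k := by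
          simp only [Finset.sum_const, Finset.card_univ, Fintype.card_fin, nsmul_eq_mul]
          push_cast
          ring
  refine lt_of_le_of_lt hle ?_
  rw [ENNReal.tsum_mul_left, ENNReal.tsum_geometric]
  refine ENNReal.mul_lt_top (ENNReal.mul_lt_top (by norm_num) block_fin) ?_
  rw [ENNReal.inv_lt_top, tsub_pos_iff_lt]
  rw [ENNReal.inv_lt_one]
  norm_num

/-- signed swap of coordinates -/
noncomputable def swM (i : Fin 3) (e : ℝ) : Mat := fun r c =>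
  if r = 3 then (if c = 3 then 1 else 0)
  else if r = 0 then (if c = i.castSucc then e else 0)
  else if r = i.castSucc then (if c = 0 then e else 0)
  else (if c = r then 1 else 0)

lemma swM_lor (i : Fin 3) (e : ℝ) (he : e = 1 ∨ e = -1) : (swM i e)ᵀ * J * swM i e = J := by
  have he2 : e * e = 1 := by rcases he with h | h <;> rw [h] <;> norm_num
  ext r c
  fin_cases i <;> fin_cases r <;> fin_cases c <;>
    simp [swM, J, Matrix.mul_apply, Matrix.diagonal, Fin.sum_univ_four,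
      Matrix.transpose_apply, he2]

noncomputable def sw (i : Fin 3) (e : ℝ) (he : e = 1 ∨ e = -1) : G :=
  ⟨swM i e, swM_lor i e he, by simp [swM]⟩

lemma sw_sq (i : Fin 3) (e : ℝ) (he : e = 1 ∨ e = -1) : sw i e he * sw i e he = 1 := by
  have he2 : e * e = 1 := by rcases he with h | h <;> rw [h] <;> norm_num
  apply G.ext
  show swM i e * swM i e = 1
  ext r c
  fin_cases i <;> fin_cases r <;> fin_cases c <;>
    simp [swM, Matrix.mul_apply, Fin.sum_univ_four, he2]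

theorem stM2 (h1 : StM1) : StM2 := by
  have hsub : {g : G | (g⁻¹).mat *ᵥ e0 ∈ Cusp} ⊆
      ⋃ i : Fin 3, ⋃ s : Bool, {g : G | pt g ∈ {z : Fin 4 → ℝ |
        (sw i (if s then 1 else -1) (by cases s <;> simp)).mat *ᵥ z ∈ C01}} := by
    rintro g ⟨_, i, e, he, h2, h3⟩
    simp only [Set.mem_iUnion]
    refine ⟨i, if e = 1 then true else false, ?_⟩
    have hee : (if (if e = 1 then true else false) = true then (1:ℝ) else -1) = e := by
      rcases he with h | h <;> subst h <;> norm_num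
    show (swM i _) *ᵥ pt g ∈ C01
    simp only [hee]
    have habs : ∀ x : ℝ, |e * x| = |x| := by
      intro x
      rcases he with h | h <;> subst h <;> simp
    change _ ≤ pt g 3 - e * pt g i.castSucc at h2
    change pt g 3 - e * pt g i.castSucc ≤ 1 at h3
    change (∑ j : Fin 3, |pt g j.castSucc|) - |pt g i.castSucc| ≤ _ at h2
    rw [Fin.sum_univ_three] at h2
    constructor
    · fin_cases i <;>
        simp [swM, Matrix.mulVec, dotProduct, Fin.sum_univ_four, habs] at h2 ⊢ <;> linarith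
    · fin_cases i <;>
        simp [swM, Matrix.mulVec, dotProduct, Fin.sum_univ_four] at h3 ⊢ <;> linarith
  unfold StM2
  refine lt_of_le_of_lt (measure_mono hsub) ?_
  refine lt_of_le_of_lt (measure_iUnion_le _) ?_
  rw [tsum_fintype]
  refine ENNReal.sum_lt_top.2 fun i _ => ?_
  refine lt_of_le_of_lt (measure_iUnion_le _) ?_
  rw [tsum_fintype]
  refine ENNReal.sum_lt_top.2 fun s _ => ?_
  have := pm_inv h1 (sw i (if s then 1 else -1) (by cases s <;> simp))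
    (sw_sq i _ (by cases s <;> simp)) C01_meas
  unfold pm at this
  rw [this]
  exact C01_fin h1

end Pool.Agent.AT.M381
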