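import Mathlib

/-! Local `C^{1,1}` estimates for `C²` maps. -/

namespace Pool.Agent.Helper381

universe u v w

open Metric Set Filter
open scoped Topology ContDiff

theorem c2_est {E : Type v} [NormedAddCommGroup E] [NormedSpace ℝ E] {F : Type w}
    [NormedAddCommGroup F] [NormedSpace ℝ F] {f : E → F} {x₀ : E} (hf : ContDiffAt ℝ 2 f x₀) :
    ∃ r > 0, ∃ C > 0, ∀ x ∈ ball x₀ r, ∀ y ∈ ball x₀ r, ‖f x - f y‖ ≤ C * ‖x - y‖ ∧
      ‖(1 / 2 : ℝ) • (f x + f y) - f ((1 / 2 : ℝ) • (x + y))‖ ≤ C * ‖x - y‖ ^ 2 := by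
  have hf1 : ContDiffAt ℝ 1 f x₀ := hf.of_le one_le_two
  have hf' : ContDiffAt ℝ 1 (fderiv ℝ f) x₀ := hf.fderiv_right (m := 1) (by norm_num)
  obtain ⟨K₁, t₁, ht₁, h₁⟩ := hf1.exists_lipschitzOnWith
  obtain ⟨K₂, t₂, ht₂, h₂⟩ := hf'.exists_lipschitzOnWith
  have hd : ∀ᶠ x in 𝓝 x₀, DifferentiableAt ℝ f x := by
    have h3 : ∀ᶠ x in 𝓝 x₀, ContDiffAt ℝ 1 f x := hf1.eventually (by simp)
    filter_upwards [h3] with x hx using hx.differentiableAt one_ne_zero
  obtain ⟨r, hr, hball⟩ := Metric.mem_nhds_iff.mp (inter_mem (inter_mem ht₁ ht₂) hd)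
  refine ⟨r, hr, max 1 (K₁ + K₂ : ℝ), lt_of_lt_of_le one_pos (le_max_left _ _), ?_⟩
  intro x hx y hy
  have hC1 : (K₁ : ℝ) ≤ max 1 (K₁ + K₂ : ℝ) :=
    le_trans (by have := K₂.2; simp) (le_max_right _ _)
  have hC2 : (K₂ : ℝ) ≤ max 1 (K₁ + K₂ : ℝ) :=
    le_trans (by have := K₁.2; simp) (le_max_right _ _)
  constructor
  · have := h₁.dist_le_mul x (hball hx).1.1 y (hball hy).1.1
    rw [dist_eq_norm, dist_eq_norm] at this
    refine this.trans ?_
    gcongr
  · set m : E := (1 / 2 : ℝ) • (x + y) with hm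
    set δ : E := (1 / 2 : ℝ) • (x - y) with hδ
    have hseg : ∀ t ∈ Icc (0 : ℝ) 1, m + t • δ ∈ ball x₀ r ∧ m - t • δ ∈ ball x₀ r := by
      intro t ht
      constructor
      · have := (convex_ball x₀ r) hx hy (a := (1 + t) / 2) (b := (1 - t) / 2)
          (by linarith [ht.1]) (by linarith [ht.2]) (by ring)
        have e : ((1 + t) / 2) • x + ((1 - t) / 2) • y = m + t • δ := by
          rw [hm, hδ]; module
        rwa [e] at this
      · have := (convex_ball x₀ r) hx hy (a := (1 - t) / 2) (b := (1 + t) / 2)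
          (by linarith [ht.2]) (by linarith [ht.1]) (by ring)
        have e : ((1 - t) / 2) • x + ((1 + t) / 2) • y = m - t • δ := by
          rw [hm, hδ]; module
        rwa [e] at this
    let h : ℝ → F := fun t => f (m + t • δ) + f (m - t • δ)
    let h' : ℝ → F := fun t => fderiv ℝ f (m + t • δ) δ - fderiv ℝ f (m - t • δ) δ
    have hder : ∀ t ∈ Icc (0 : ℝ) 1, HasDerivWithinAt h (h' t) (Icc 0 1) t := by
      intro t ht
      have a1 : HasDerivAt (fun t : ℝ => m + t • δ) δ t := by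
        have := ((hasDerivAt_id t).smul_const δ).const_add m
        simpa using this
      have a2 : HasDerivAt (fun t : ℝ => m - t • δ) (-δ) t := by
        have := ((hasDerivAt_id t).smul_const δ).const_sub m
        simpa using this
      have b1 := (hball (hseg t ht).1).2.hasFDerivAt.comp_hasDerivAt t a1
      have b2 := (hball (hseg t ht).2).2.hasFDerivAt.comp_hasDerivAt t a2
      have b3 := (b1.add b2).hasDerivWithinAt (s := Icc 0 1)
      have e : h' t = fderiv ℝ f (m + t • δ) δ + fderiv ℝ f (m - t • δ) (-δ) := by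
        simp only [h', map_neg, sub_eq_add_neg]
      rw [e]
      exact b3
    have hbd : ∀ t ∈ Ico (0 : ℝ) 1, ‖h' t‖ ≤ 2 * K₂ * ‖δ‖ ^ 2 := by
      intro t ht
      have ht' : t ∈ Icc (0 : ℝ) 1 := ⟨ht.1, ht.2.le⟩
      have h3 := h₂.dist_le_mul _ (hball (hseg t ht').1).1.2 _ (hball (hseg t ht').2).1.2
      rw [dist_eq_norm, dist_eq_norm] at h3
      have e : m + t • δ - (m - t • δ) = (2 * t) • δ := by module
      rw [e, norm_smul, Real.norm_of_nonneg (by linarith [ht.1])] at h3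
      have h4 : h' t = (fderiv ℝ f (m + t • δ) - fderiv ℝ f (m - t • δ)) δ := rfl
      rw [h4]
      refine (ContinuousLinearMap.le_opNorm _ _).trans ?_
      have h5 : ‖fderiv ℝ f (m + t • δ) - fderiv ℝ f (m - t • δ)‖ * ‖δ‖ ≤
        (K₂ * (2 * t * ‖δ‖)) * ‖δ‖ := by gcongr
      refine h5.trans ?_
      have h6 : (K₂ * (2 * t * ‖δ‖)) * ‖δ‖ = 2 * K₂ * ‖δ‖ ^ 2 * t := by ring
      rw [h6]
      have : 0 ≤ 2 * (K₂ : ℝ) * ‖δ‖ ^ 2 := by positivity
      nlinarith [ht.2]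
    have key := norm_image_sub_le_of_norm_deriv_le_segment_01' hder hbd
    have e1 : h 1 = f x + f y := by
      simp only [h]
      have q1 : m + (1 : ℝ) • δ = x := by rw [hm, hδ]; module
      have q2 : m - (1 : ℝ) • δ = y := by rw [hm, hδ]; module
      rw [q1, q2]
    have e0 : h 0 = (2 : ℝ) • f m := by
      simp only [h, zero_smul, add_zero, sub_zero]
      rw [two_smul]
    rw [e1, e0] at key
    have e2 : (1 / 2 : ℝ) • (f x + f y) - f m = (1 / 2 : ℝ) • (f x + f y - (2 : ℝ) • f m) := by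
      module
    rw [e2, norm_smul]
    have e3 : ‖δ‖ = 1 / 2 * ‖x - y‖ := by
      rw [hδ, norm_smul]; norm_num
    rw [e3] at key
    have e4 : ‖(1 / 2 : ℝ)‖ = 1 / 2 := by norm_num
    rw [e4]
    have h7 : (K₂ : ℝ) * ‖x - y‖ ^ 2 ≤ max 1 (K₁ + K₂ : ℝ) * ‖x - y‖ ^ 2 := by gcongr
    have h8 : 0 ≤ (K₂ : ℝ) * ‖x - y‖ ^ 2 := by positivity
    nlinarith

end Pool.Agent.Helper381
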