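import Mathlib

/-! Chains of points along minimal geodesics in spaces with midpoints. -/

namespace Pool.Agent.Helper381

universe u v w

open Metric Set

section Chain

variable {M : Type u} [MetricSpace M]

/-- existence of chains by repeated midpoints -/
theorem exists_chain (hmid : ∀ x y : M, ∃ m : M, dist x m = dist x y / 2 ∧ dist m y = dist x y / 2)
    (k : ℕ) : ∀ a x : M, ∃ c : ℕ → M, c 0 = a ∧ c (2 ^ k) = x ∧
      ∀ i < 2 ^ k, dist (c i) (c (i + 1)) = dist a x / 2 ^ k := by
  induction k with
  | zero =>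
    intro a x
    refine ⟨fun i => if i = 0 then a else x, by simp, by simp, ?_⟩
    intro i hi
    have : i = 0 := by simpa using hi
    subst this
    simp
  | succ k ih =>
    intro a x
    obtain ⟨m, hm1, hm2⟩ := hmid a x
    obtain ⟨c, c0, c1, hc⟩ := ih a m
    obtain ⟨d, d0, d1, hd⟩ := ih m x
    refine ⟨fun i => if i ≤ 2 ^ k then c i else d (i - 2 ^ k), ?_, ?_, ?_⟩
    · simp [c0]
    · have h1 : ¬ (2 ^ (k + 1) ≤ 2 ^ k) := by
        have : 0 < 2 ^ k := by positivity
        rw [pow_succ]; omega
      have h2 : 2 ^ (k + 1) - 2 ^ k = 2 ^ k := by rw [pow_succ]; omega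
      simp only [h1, if_false, h2, d1]
    · intro i hi
      rcases lt_trichotomy i (2 ^ k) with h | h | h
      · have h1 : i ≤ 2 ^ k := h.le
        have h2 : i + 1 ≤ 2 ^ k := h
        simp only [h1, h2, if_true]
        rw [hc i h, hm1, pow_succ]
        field_simp
      · have h1 : i ≤ 2 ^ k := h.le
        have h2 : ¬ (i + 1 ≤ 2 ^ k) := by omega
        simp only [h1, h2, if_true, if_false]
        have h3 : c i = d 0 := by rw [h, c1, d0]
        have h4 : i + 1 - 2 ^ k = 0 + 1 := by omega
        rw [h3, h4, hd 0 (by positivity), hm2, pow_succ]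
        field_simp
      · have h1 : ¬ (i ≤ 2 ^ k) := by omega
        have h2 : ¬ (i + 1 ≤ 2 ^ k) := by omega
        simp only [h1, h2, if_false]
        have h4 : i + 1 - 2 ^ k = (i - 2 ^ k) + 1 := by omega
        have h5 : i - 2 ^ k < 2 ^ k := by
          have : 2 ^ (k + 1) = 2 ^ k + 2 ^ k := by rw [pow_succ]; omega
          omega
        rw [h4, hd _ h5, hm2, pow_succ]
        field_simp

/-- upper bound for distances in a chain -/
theorem chain_dist_le {c : ℕ → M} {N : ℕ} {h : ℝ} (hc : ∀ i < N, dist (c i) (c (i + 1)) ≤ h)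
    (i d : ℕ) (hid : i + d ≤ N) : dist (c i) (c (i + d)) ≤ d * h := by
  induction d with
  | zero => simp
  | succ d ih =>
    have h1 := ih (by omega)
    have h2 := hc (i + d) (by omega)
    have h3 := dist_triangle (c i) (c (i + d)) (c (i + (d + 1)))
    have h4 : i + (d + 1) = i + d + 1 := by ring
    rw [h4] at h3 ⊢
    push_cast
    linarith

/-- distances in a minimal chain are exact -/
theorem chain_dist_eq {c : ℕ → M} {N : ℕ} {h : ℝ} (hc : ∀ i < N, dist (c i) (c (i + 1)) ≤ h)
    (htot : dist (c 0) (c N) = N * h)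
    (i d : ℕ) (hid : i + d ≤ N) : dist (c i) (c (i + d)) = d * h := by
  apply le_antisymm (chain_dist_le hc i d hid)
  have h1 := chain_dist_le hc 0 i (by omega)
  rw [zero_add] at h1
  obtain ⟨e, he⟩ := Nat.exists_eq_add_of_le hid
  have h2 := chain_dist_le hc (i + d) e (by omega)
  rw [← he] at h2
  have h3 := dist_triangle4 (c 0) (c i) (c (i + d)) (c N)
  rw [htot] at h3
  have h4 : (N : ℝ) = i + d + e := by rw [he]; push_cast; ring
  rw [h4] at h3
  nlinarith

end Chain

end Pool.Agent.Helper381
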