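import Pool.Agent.Helper381.Line

/-! Closed geodesics and antipodal points. -/

namespace Pool.Agent.Helper381

universe u v w

open Metric Set Module Filter Topology

section CircleDefs

/-- `γ` is a unit speed geodesic `ℝ → M`: locally it preserves distances. -/
def IsGeodesicLine {M : Type u} [MetricSpace M] (γ : ℝ → M) : Prop :=
  ∀ t : ℝ, ∃ ε > 0, ∀ a b : ℝ, |a - t| < ε → |b - t| < ε → dist (γ a) (γ b) = |a - b|

/-- `γ` is a closed geodesic (circle) of length `T`, parametrized by arc length: a unit speed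
geodesic of period `T` that is injective on `[0, T)`. -/
def IsCircle {M : Type u} [MetricSpace M] (γ : ℝ → M) (T : ℝ) : Prop :=
  0 < T ∧ IsGeodesicLine γ ∧ (∀ t, γ (t + T) = γ t) ∧ Set.InjOn γ (Set.Ico 0 T)

/-- Antipodal set in the sense of Chen and Nagano: any two distinct points lie on a circle and are
antipodal on it, that is, they cut it into two arcs of equal length `T / 2`. -/
def IsCircleAntipodal {M : Type u} [MetricSpace M] (A : Set M) : Prop :=
  ∀ x ∈ A, ∀ y ∈ A, x ≠ y → ∃ (γ : ℝ → M) (T : ℝ), IsCircle γ T ∧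
    ∃ a : ℝ, γ a = x ∧ γ (a + T / 2) = y

/-- The two-number: the supremum of the cardinalities of the antipodal sets. -/
noncomputable def circleTwoNumber (M : Type u) [MetricSpace M] : ℕ∞ :=
  ⨆ A : {A : Set M // IsCircleAntipodal A}, A.1.encard

end CircleDefs

section Period

variable {M : Type u} {E : Type v} [MetricSpace M] [NormedAddCommGroup E] [NormedSpace ℝ E]
  {R : ℝ} (G : Geo M E R) {σ : M → (M ≃ᵢ M)} {h : ∀ m z, σ m (σ m z) = z} {p : M × M}
  (hσ : ∀ m, IsSymmetryAt m (σ m)) (hc : ∀ a b z, σ a (σ b z) = σ (σ a b) (σ a z))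

include G hσ hc

theorem Geo.dl_two (hp : 2 * dist p.1 p.2 < R) (i : ℤ) :
    dist (dl σ h p i) (dl σ h p (i + 1 + 1)) = 2 * dist p.1 p.2 := by
  have := G.dl_pow (h := h) hσ hc 1 (by simpa using hp) i
  rw [pow_one, pow_one] at this
  have e : i + 2 = i + 1 + 1 := by ring
  rwa [e] at this

theorem Geo.dl_period (hp : 2 * dist p.1 p.2 < R) (n : ℤ)
    (hn : dl σ h p n = dl σ h p (-n)) (i : ℤ) : dl σ h p (i + 2 * n) = dl σ h p i := by
  have even_case : ∀ j : ℤ, dl σ h p (2 * j - n + 2 * n) = dl σ h p (2 * j - n) := by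
    intro j
    have h1 := dl_refl' (h := h) (p := p) hσ hc j n
    have h2 := dl_refl' (h := h) (p := p) hσ hc j (-n)
    rw [← hn, h1] at h2
    have e1 : 2 * j - -n = 2 * j - n + 2 * n := by ring
    rw [e1] at h2
    exact h2.symm
  rcases Int.even_or_odd (i + n) with ⟨j, hj⟩ | ⟨j, hj⟩
  · have e : i = 2 * j - n := by linarith
    rw [e]; exact even_case j
  · have ea : i - 1 = 2 * j - n := by linarith
    have eb : i + 1 = 2 * (j + 1) - n := by linarith
    have ha := even_case j
    have hb := even_case (j + 1)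
    rw [← ea] at ha
    rw [← eb] at hb
    -- both points are midpoints of `i - 1` and `i + 1`
    have s1 := dl_step (h := h) (p := p) hσ (i - 1)
    have s2 := dl_step (h := h) (p := p) hσ i
    have s3 := dl_step (h := h) (p := p) hσ (i - 1 + 2 * n)
    have s4 := dl_step (h := h) (p := p) hσ (i + 2 * n)
    have t1 := G.dl_two (h := h) hσ hc hp (i - 1)
    rw [sub_add_cancel] at s1 t1
    have e3 : i - 1 + 2 * n + 1 = i + 2 * n := by ring
    have e4 : i + 2 * n + 1 = i + 1 + 2 * n := by ring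
    rw [e3, ha] at s3
    rw [e4, hb] at s4
    apply G.midpt_unique (x := dl σ h p (i - 1)) (y := dl σ h p (i + 1))
    · rw [t1]; exact hp
    · rw [s3, t1]; ring
    · rw [s4, t1]; ring
    · rw [s1, t1]; ring
    · rw [s2, t1]; ring

end Period

section Ulim

variable {M : Type u} [MetricSpace M] [CompactSpace M]

/-- the ultrafilter used for limits -/
noncomputable def Uf : Ultrafilter ℕ := hyperfilter ℕ

theorem Uf_le : (Uf : Filter ℕ) ≤ atTop := Nat.hyperfilter_le_atTop

theorem exists_ulim (f : ℕ → M) : ∃ x, Tendsto f (Uf : Filter ℕ) (𝓝 x) := by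
  obtain ⟨x, _, hx⟩ := isCompact_univ.ultrafilter_le_nhds (Uf.map f) (by simp)
  exact ⟨x, hx⟩

/-- limit along the ultrafilter -/
noncomputable def ulim (f : ℕ → M) : M := (exists_ulim f).choose

theorem tendsto_ulim (f : ℕ → M) : Tendsto f (Uf : Filter ℕ) (𝓝 (ulim f)) :=
  (exists_ulim f).choose_spec

theorem ulim_congr {f g : ℕ → M} (h : ∀ k, f k = g k) : ulim f = ulim g := by
  have : f = g := funext h
  rw [this]

theorem ulim_const {f : ℕ → M} {x : M} (h : ∀ k, f k = x) : ulim f = x := by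
  apply tendsto_nhds_unique (tendsto_ulim f)
  have : f = fun _ => x := funext h
  rw [this]
  exact tendsto_const_nhds

theorem dist_ulim {f g : ℕ → M} {r : ℝ} (h : Tendsto (fun k => dist (f k) (g k)) atTop (𝓝 r)) :
    dist (ulim f) (ulim g) = r := by
  have h1 := (tendsto_ulim f).dist (tendsto_ulim g)
  exact tendsto_nhds_unique h1 (h.mono_left Uf_le)

end Ulim

section Floor

theorem floor_tendsto (a b : ℝ) (l : ℕ → ℝ) (hl : ∀ k, 0 < l k) (hl0 : Tendsto l atTop (𝓝 0)) :
    Tendsto (fun k => |((⌊a / l k⌋ : ℤ) : ℝ) - ((⌊b / l k⌋ : ℤ) : ℝ)| * l k) atTop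
      (𝓝 |a - b|) := by
  have h1 : ∀ (c : ℝ) (k : ℕ), |((⌊c / l k⌋ : ℤ) : ℝ) * l k - c| ≤ l k := by
    intro c k
    have e1 := Int.floor_le (c / l k)
    have e2 := Int.lt_floor_add_one (c / l k)
    have hk := hl k
    rw [le_div_iff₀ hk] at e1
    rw [div_lt_iff₀ hk] at e2
    rw [abs_le]
    constructor
    · nlinarith
    · linarith
  have h2 : ∀ c : ℝ, Tendsto (fun k => ((⌊c / l k⌋ : ℤ) : ℝ) * l k) atTop (𝓝 c) := by
    intro c
    rw [tendsto_iff_norm_sub_tendsto_zero]
    exact squeeze_zero (fun k => norm_nonneg _) (fun k => h1 c k) hl0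
  have h3 := ((h2 a).sub (h2 b)).abs
  refine h3.congr ?_
  intro k
  rw [← sub_mul, abs_mul, abs_of_pos (hl k)]

end Floor

section Build

variable {M : Type u} {E : Type v} [MetricSpace M] [NormedAddCommGroup E] [NormedSpace ℝ E]
  {R : ℝ} (G : Geo M E R) {σ : M → (M ≃ᵢ M)}
  (hσ : ∀ m, IsSymmetryAt m (σ m))

include G hσ

/-- the discrete line through `x` and `y` -/
theorem Geo.exists_dl [PreconnectedSpace M] (h : ∀ m z, σ m (σ m z) = z) (x y : M) (k : ℕ)
    (hk : 2 * (dist x y / 2 ^ k) < R) :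
    ∃ p : M × M, dist p.1 p.2 = dist x y / 2 ^ k ∧ dl σ h p 0 = x ∧ dl σ h p (2 ^ k) = y := by
  obtain ⟨c, c0, c1, hcc⟩ := exists_chain G.midpt k x y
  have hd := chain_dist_eq (c := c) (N := 2 ^ k) (h := dist x y / 2 ^ k)
    (fun i hi => (hcc i hi).le) (by rw [c0, c1]; push_cast; field_simp)
  refine ⟨(c 0, c 1), ?_, ?_, ?_⟩
  · have := hcc 0 (by positivity)
    simpa using this
  · rw [dl_zero]; exact c0
  · have h1 := G.dl_chain (h := h) (p := (c 0, c 1)) hσ (G.sigma_conj hσ) hk hd rfl (2 ^ k - 1)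
      (by have := Nat.one_le_two_pow (n := k); omega)
    have h2 : 2 ^ k - 1 + 1 = 2 ^ k := by have := Nat.one_le_two_pow (n := k); omega
    rw [h2, c1] at h1
    have := h1.2
    push_cast at this
    exact this

/-- a periodic geodesic through `x` and `y` if `s_x (y) = y` -/
theorem Geo.exists_periodic [CompactSpace M] [PreconnectedSpace M] {x y : M} (hxy : x ≠ y)
    (hfix : σ x y = y) : ∃ γ : ℝ → M, γ 0 = x ∧ γ (dist x y) = y ∧
      (∀ t, γ (t + 2 * dist x y) = γ t) ∧
      ∀ a b : ℝ, |a - b| < R / 4 → dist (γ a) (γ b) = |a - b| := by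
  have hR := G.Rpos
  have h : ∀ m z, σ m (σ m z) = z := fun m => (hσ m).1
  have hconj := G.sigma_conj hσ
  set L := dist x y with hL
  have hL0 : 0 < L := dist_pos.mpr hxy
  obtain ⟨k0, hk0⟩ : ∃ k0 : ℕ, L / 2 ^ k0 < R / 8 := by
    obtain ⟨k, hk⟩ := pow_unbounded_of_one_lt (L / (R / 8)) (one_lt_two)
    refine ⟨k, ?_⟩
    rw [div_lt_iff₀ (by linarith)] at hk
    rw [div_lt_iff₀ (by positivity)]
    linarith
  set l : ℕ → ℝ := fun k => L / 2 ^ (k0 + k) with hl
  have hl0 : ∀ k, 0 < l k := fun k => by positivity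
  have hlR : ∀ k, l k < R / 8 := by
    intro k
    refine lt_of_le_of_lt ?_ hk0
    apply div_le_div_of_nonneg_left hL0.le (by positivity)
    exact pow_le_pow_right₀ (by norm_num) (by omega)
  have hlt : Tendsto l atTop (𝓝 0) := by
    have h1 : Tendsto (fun k : ℕ => (L / 2 ^ k0) * (1 / 2 : ℝ) ^ k) atTop (𝓝 ((L / 2 ^ k0) * 0)) :=
      (tendsto_pow_atTop_nhds_zero_of_lt_one (by norm_num) (by norm_num)).const_mul _
    rw [mul_zero] at h1
    refine h1.congr ?_
    intro k
    simp only [hl]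
    rw [pow_add, one_div, inv_pow]
    field_simp
  have hex : ∀ k, ∃ p : M × M, dist p.1 p.2 = l k ∧ dl σ h p 0 = x ∧
      dl σ h p (2 ^ (k0 + k)) = y := by
    intro k
    apply G.exists_dl hσ h x y (k0 + k)
    have := hlR k
    change 2 * l k < R
    linarith
  choose p hp1 hp2 hp3 using hex
  have hper : ∀ k (i : ℤ), dl σ h (p k) (i + 2 * 2 ^ (k0 + k)) = dl σ h (p k) i := by
    intro k i
    apply G.dl_period hσ hconj
    · rw [hp1]; have := hlR k; linarith
    · have h1 := dl_refl' (h := h) (p := p k) hσ hconj 0 (2 ^ (k0 + k))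
      rw [hp2, hp3, hfix] at h1
      rw [hp3, h1]
      congr 1
      ring
  refine ⟨fun t => ulim (fun k => dl σ h (p k) ⌊t / l k⌋), ?_, ?_, ?_, ?_⟩
  · apply ulim_const
    intro k
    rw [zero_div, Int.floor_zero, hp2]
  · apply ulim_const
    intro k
    have : L / l k = ((2 ^ (k0 + k) : ℤ) : ℝ) := by
      simp only [hl]; push_cast; field_simp
    rw [this, Int.floor_intCast, hp3]
  · intro t
    apply ulim_congr
    intro k
    have : (t + 2 * L) / l k = t / l k + ((2 * 2 ^ (k0 + k) : ℤ) : ℝ) := by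
      simp only [hl]; push_cast; field_simp
    rw [this, Int.floor_add_intCast, hper]
  · intro a b hab
    apply dist_ulim
    have h1 := floor_tendsto a b l hl0 hlt
    refine h1.congr' ?_
    have h2 : ∀ᶠ k in atTop, |((⌊a / l k⌋ : ℤ) : ℝ) - ((⌊b / l k⌋ : ℤ) : ℝ)| * l k < R / 4 :=
      h1.eventually_lt_const hab
    filter_upwards [h2] with k hk
    rw [G.dl_dist' hσ hconj, hp1]
    rw [hp1]
    linarith

end Build

end Pool.Agent.Helper381
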