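import Pool.Agent.Helper381.Circle

/-! The circle definition of antipodal sets agrees with the one by symmetries. -/

namespace Pool.Agent.Helper381

universe u v w

open Metric Set Module Filter Topology

section Unif

variable {M : Type u} [MetricSpace M]

/-- a closed geodesic is uniformly locally distance preserving -/
theorem exists_uniform {γ : ℝ → M} {T : ℝ} (hT : 0 < T) (hγ : IsGeodesicLine γ)
    (hper : ∀ t, γ (t + T) = γ t) :
    ∃ ε > 0, ∀ a b : ℝ, |a - b| < ε → dist (γ a) (γ b) = |a - b| := by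
  choose e he1 he2 using hγ
  obtain ⟨δ, hδ, hleb⟩ := lebesgue_number_lemma_of_metric (s := Icc (0 : ℝ) T)
    (c := fun t : ℝ => ball t (e t)) isCompact_Icc (fun t => isOpen_ball)
    (fun t _ => mem_iUnion.mpr ⟨t, mem_ball_self (he1 t)⟩)
  refine ⟨δ, hδ, ?_⟩
  intro a b hab
  have hP : Function.Periodic γ T := hper
  set k : ℤ := ⌊a / T⌋ with hk
  have h1 : γ (a - k * T) = γ a := (hP.int_mul k).sub_eq a
  have h2 : γ (b - k * T) = γ b := (hP.int_mul k).sub_eq b
  have h3 := Int.floor_le (a / T)
  have h4 := Int.lt_floor_add_one (a / T)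
  rw [← hk, le_div_iff₀ hT] at h3
  rw [← hk, div_lt_iff₀ hT] at h4
  obtain ⟨t, ht⟩ := hleb (a - k * T) ⟨by linarith, by linarith⟩
  have m1 : a - k * T ∈ ball t (e t) := ht (mem_ball_self hδ)
  have m2 : b - k * T ∈ ball t (e t) := ht (by
    rw [mem_ball, Real.dist_eq]
    have : b - k * T - (a - k * T) = -(a - b) := by ring
    rw [this, abs_neg]; exact hab)
  rw [mem_ball, Real.dist_eq] at m1 m2
  have h5 := he2 t _ _ m1 m2
  rw [h1, h2] at h5
  rw [h5]
  congr 1
  ring

end Unif

section Refl

variable {M : Type u} {E : Type v} [MetricSpace M] [NormedAddCommGroup E] [NormedSpace ℝ E]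
  {R : ℝ} (G : Geo M E R)

include G

/-- symmetries reverse geodesics through their centre -/
theorem Geo.symm_line {γ : ℝ → M} {ε : ℝ} (hε : 0 < ε)
    (hγ : ∀ a b : ℝ, |a - b| < ε → dist (γ a) (γ b) = |a - b|) {u : ℝ} {s : M ≃ᵢ M}
    (hs : IsSymmetryAt (γ u) s) (t : ℝ) : s (γ (u + t)) = γ (u - t) := by
  have hR := G.Rpos
  have key : ∀ l : ℝ, 0 ≤ l → 2 * l < ε → 2 * l < R → ∀ i : ℕ,
      s (γ (u + i * l)) = γ (u - i * l) ∧ s (γ (u + (i + 1) * l)) = γ (u - (i + 1) * l) := by
    intro l hl h1 h2 i
    have hd : ∀ a b : ℝ, |a - b| = l → dist (γ a) (γ b) = l := by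
      intro a b hab
      rw [hγ a b (by rw [hab]; linarith), hab]
    have hd2 : ∀ a b : ℝ, |a - b| = 2 * l → dist (γ a) (γ b) = 2 * l := by
      intro a b hab
      rw [hγ a b (by rw [hab]; linarith), hab]
    induction i with
    | zero =>
      constructor
      · simpa using hs.2.1
      · have d1 : dist (γ (u + l)) (γ u) = l := hd _ _ (by
          rw [add_sub_cancel_left, abs_of_nonneg hl])
        have d2 : dist (γ u) (γ (u - l)) = l := hd _ _ (by
          rw [sub_sub_cancel, abs_of_nonneg hl])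
        have d3 : dist (γ (u + l)) (γ (u - l)) = 2 * l := hd2 _ _ (by
          have : u + l - (u - l) = 2 * l := by ring
          rw [this, abs_of_nonneg (by linarith)])
        have e1 : u + (((0 : ℕ) : ℝ) + 1) * l = u + l := by push_cast; ring
        have e2 : u - (((0 : ℕ) : ℝ) + 1) * l = u - l := by push_cast; ring
        rw [e1, e2]
        apply G.symm_eq_of_midpt hs
        · rw [d1]; exact h2
        · rw [d1, d2]
        · rw [d1, d3]
    | succ i ih =>
      obtain ⟨i1, i2⟩ := ih
      refine ⟨by push_cast; exact i2, ?_⟩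
      push_cast
      apply G.nonbranching (x := γ (u - i * l)) (q := γ (u - (i + 1) * l)) (r := l) h2
      · apply hd
        have : u - (i : ℝ) * l - (u - (i + 1) * l) = l := by ring
        rw [this, abs_of_nonneg hl]
      · rw [← i2, s.isometry.dist_eq]
        apply hd
        have : u + ((i : ℝ) + 1) * l - (u + (i + 1 + 1) * l) = -l := by ring
        rw [this, abs_neg, abs_of_nonneg hl]
      · rw [← i1, s.isometry.dist_eq]
        apply hd2
        have : u + (i : ℝ) * l - (u + (i + 1 + 1) * l) = -(2 * l) := by ring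
        rw [this, abs_neg, abs_of_nonneg (by linarith)]
      · apply hd
        have : u - ((i : ℝ) + 1) * l - (u - (i + 1 + 1) * l) = l := by ring
        rw [this, abs_of_nonneg hl]
      · apply hd2
        have : u - (i : ℝ) * l - (u - (i + 1 + 1) * l) = 2 * l := by ring
        rw [this, abs_of_nonneg (by linarith)]
  have pos : ∀ t : ℝ, 0 ≤ t → s (γ (u + t)) = γ (u - t) := by
    intro t ht
    have hm : 0 < min ε R := lt_min hε hR
    obtain ⟨n, hn⟩ := exists_nat_gt (2 * t / min ε R)
    have hn0 : (0 : ℝ) < n := lt_of_le_of_lt (by positivity) hn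
    rw [div_lt_iff₀ hm] at hn
    have h1 : 2 * (t / n) < min ε R := by
      rw [← mul_div_assoc, div_lt_iff₀ hn0]
      linarith
    have := (key (t / n) (by positivity) (lt_of_lt_of_le h1 (min_le_left _ _))
      (lt_of_lt_of_le h1 (min_le_right _ _)) n).1
    have e : (n : ℝ) * (t / n) = t := by field_simp
    rwa [e] at this
  rcases le_total 0 t with ht | ht
  · exact pos t ht
  · have h1 := pos (-t) (by linarith)
    have e1 : u + -t = u - t := by ring
    have e2 : u - -t = u + t := by ring
    rw [e1, e2] at h1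
    rw [← h1, hs.1]

theorem Geo.period_of_eq {σ : M → (M ≃ᵢ M)} (hσ : ∀ m, IsSymmetryAt m (σ m)) {γ : ℝ → M} {ε : ℝ}
    (hε : 0 < ε) (hγ : ∀ a b : ℝ, |a - b| < ε → dist (γ a) (γ b) = |a - b|) {a b : ℝ}
    (hab : γ a = γ b) (t : ℝ) : γ (t + (a - b)) = γ t := by
  set m := (a + t) / 2 with hm
  have h1 := G.symm_line hε hγ (hσ (γ m)) (a - m)
  have h2 := G.symm_line hε hγ (hσ (γ m)) (b - m)
  have e1 : m + (a - m) = a := by ring
  have e2 : m + (b - m) = b := by ring
  have e3 : m - (a - m) = t := by rw [hm]; ring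
  have e4 : m - (b - m) = t + (a - b) := by rw [hm]; ring
  rw [e1, e3] at h1
  rw [e2, e4] at h2
  rw [← h2, ← hab, h1]

/-- antipodal points of circles are exactly the fixed points of symmetries -/
theorem Geo.circle_iff [CompactSpace M] [PreconnectedSpace M]
    (hsym : ∀ m : M, ∃ s : M ≃ᵢ M, IsSymmetryAt m s) (A : Set M) :
    IsCircleAntipodal A ↔ IsAntipodal A := by
  have hR := G.Rpos
  choose σ hσ using hsym
  constructor
  · intro hA x hx y hy
    by_cases hxy : x = y
    · subst hxy
      exact ⟨σ x, hσ x, (hσ x).2.1⟩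
    · obtain ⟨γ, T, ⟨hT, hg, hper, _⟩, a, rfl, rfl⟩ := hA x hx y hy hxy
      obtain ⟨ε, hε, hγ⟩ := exists_uniform hT hg hper
      refine ⟨σ (γ a), hσ _, ?_⟩
      rw [G.symm_line hε hγ (hσ (γ a)) (T / 2), ← hper (a - T / 2)]
      congr 1
      ring
  · intro hA x hx y hy hxy
    obtain ⟨s, hs, hsy⟩ := hA x hx y hy
    have hfix : σ x y = y := by rw [G.symm_unique (hσ x) hs, hsy]
    obtain ⟨γ, h0, hL, hper, hγ⟩ := G.exists_periodic hσ hxy hfix
    have hL0 : 0 < dist x y := dist_pos.mpr hxy
    set L := dist x y with hLdef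
    have hR4 : 0 < R / 4 := by linarith
    let H : AddSubgroup ℝ :=
      { carrier := {p | ∀ t, γ (t + p) = γ t}
        zero_mem' := fun t => by rw [add_zero]
        add_mem' := fun {p q} hp hq t => by
          have : t + (p + q) = (t + p) + q := by ring
          rw [this, hq, hp]
        neg_mem' := fun {p} hp t => by
          have := hp (t + -p)
          rw [neg_add_cancel_right] at this
          exact this.symm }
    have hmem : ∀ p, p ∈ H ↔ ∀ t, γ (t + p) = γ t := fun p => Iff.rfl
    have hLH : 2 * L ∈ H := hper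
    have hbot : H ≠ ⊥ := by
      intro h
      rw [h, AddSubgroup.mem_bot] at hLH
      linarith
    have hdisj : Disjoint (H : Set ℝ) (Ioo 0 (R / 4)) := by
      rw [Set.disjoint_left]
      rintro p hp ⟨hp1, hp2⟩
      have h1 := (hmem p).mp hp 0
      have h2 := hγ (0 + p) 0 (by rw [zero_add, sub_zero, abs_of_pos hp1]; exact hp2)
      rw [h1, dist_self, zero_add, sub_zero, abs_of_pos hp1] at h2
      linarith
    obtain ⟨T, hTl⟩ := AddSubgroup.exists_isLeast_pos hbot hR4 hdisj
    have hTH : T ∈ H := hTl.1.1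
    have hT0 : 0 < T := hTl.1.2
    have hTper := (hmem T).mp hTH
    have hPer : Function.Periodic γ T := hTper
    have hcyc := AddSubgroup.cyclic_of_min hTl
    rw [hcyc, AddSubgroup.mem_closure_singleton] at hLH
    obtain ⟨k, hk⟩ := hLH
    rw [zsmul_eq_mul] at hk
    refine ⟨γ, T, ⟨hT0, ?_, hTper, ?_⟩, 0, h0, ?_⟩
    · intro t
      refine ⟨R / 8, by linarith, ?_⟩
      intro a b ha hb
      apply hγ
      have h1 : a - b = (a - t) - (b - t) := by ring
      rw [h1]
      calc |(a - t) - (b - t)| ≤ |a - t| + |b - t| := abs_sub _ _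
        _ < R / 8 + R / 8 := add_lt_add ha hb
        _ = R / 4 := by ring
    · have key : ∀ a ∈ Ico 0 T, ∀ b ∈ Ico 0 T, γ a = γ b → ¬ b < a := by
        intro a ha b hb hab hlt
        have h1 : a - b ∈ H := fun t => G.period_of_eq hσ hR4 hγ hab t
        have h2 := hTl.2 ⟨h1, sub_pos.mpr hlt⟩
        have := ha.2
        have := hb.1
        linarith
      intro a ha b hb hab
      exact le_antisymm (not_lt.mp (key a ha b hb hab)) (not_lt.mp (key b hb a ha hab.symm))
    · rw [zero_add]
      rcases Int.even_or_odd k with ⟨j, hj⟩ | ⟨j, hj⟩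
      · exfalso
        apply hxy
        have h1 : L = 0 + j * T := by
          rw [hj] at hk; push_cast at hk; linarith
        rw [← hL, h1, hPer.int_mul j 0, h0]
      · have h1 : L = T / 2 + j * T := by
          rw [hj] at hk; push_cast at hk; linarith
        rw [← hL, h1, hPer.int_mul j (T / 2)]

theorem Geo.circleTwoNumber_eq [CompactSpace M] [PreconnectedSpace M]
    (hsym : ∀ m : M, ∃ s : M ≃ᵢ M, IsSymmetryAt m s) : circleTwoNumber M = twoNumber M := by
  have h : (IsCircleAntipodal : Set M → Prop) = IsAntipodal :=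
    funext fun A => propext (G.circle_iff hsym A)
  rw [circleTwoNumber, h]
  rfl

end Refl

end Pool.Agent.Helper381
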