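import Pool.Agent.Helper381.Smith
import Pool.Agent.Helper381.Nerve

/-! Order complexes of finite posets: Smith inequality, parity, components. -/

namespace Pool.Agent.Helper381

universe u v w

open Module

section Basic

variable {P : Type u} [PartialOrder P]

theorem finite_Ch {Q : Set P} (hQ : Q.Finite) (n : ℕ) : Finite (Ch Q n) := by
  have : Finite Q := hQ
  let f : Ch Q n → (Fin (n + 1) → Q) := fun c i => ⟨c.1 i, c.2.2 i⟩
  apply Finite.of_injective f
  intro c c' h
  apply Subtype.ext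
  funext i
  exact congrArg Subtype.val (congrFun h i)

theorem isEmpty_Ch {Q : Set P} (hQ : Q.Finite) (n : ℕ) (hn : Q.ncard ≤ n) : IsEmpty (Ch Q n) := by
  have : Finite Q := hQ
  constructor
  intro c
  let f : Fin (n + 1) → Q := fun i => ⟨c.1 i, c.2.2 i⟩
  have hf : Function.Injective f := by
    intro i j hij
    exact c.2.1.injective (congrArg Subtype.val hij)
  have := Nat.card_le_card_of_injective f hf
  rw [Nat.card_fin, Nat.card_coe_set_eq] at this
  omega

/-- the subset of elements fixed by all maps of a list -/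
def fixS (Q : Set P) (gs : List (P → P)) : Set P := {x | x ∈ Q ∧ ∀ g ∈ gs, g x = x}

theorem fixS_nil (Q : Set P) : fixS Q [] = Q := by
  ext x; simp [fixS]

theorem fixS_cons (Q : Set P) (g : P → P) (gs : List (P → P)) :
    fixS Q (g :: gs) = {x | x ∈ fixS Q gs ∧ g x = x} := by
  ext x
  simp only [fixS, List.mem_cons, forall_eq_or_imp, Set.mem_ofPred_eq]
  tauto

theorem fixS_subset (Q : Set P) (gs : List (P → P)) : fixS Q gs ⊆ Q := fun _ h => h.1

/-- action on chains -/
def gCh {Q : Set P} (g : P → P) (hg : StrictMono g) (hQ : ∀ x ∈ Q, g x ∈ Q) (n : ℕ) (c : Ch Q n) :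
    Ch Q n := ⟨g ∘ c.1, hg.comp c.2.1, fun i => hQ _ (c.2.2 i)⟩

/-- inclusion of chains -/
def iCh {Q Q' : Set P} (h : Q' ⊆ Q) (n : ℕ) (c : Ch Q' n) : Ch Q n :=
  ⟨c.1, c.2.1, fun i => h (c.2.2 i)⟩

theorem gCh_fix {Q : Set P} (g : P → P) (hg : StrictMono g) (hQ : ∀ x ∈ Q, g x ∈ Q) (n : ℕ)
    (c : Ch Q n) :
    gCh g hg hQ n c = c ↔ ∃ x : Ch {x | x ∈ Q ∧ g x = x} n, iCh (fun _ h => h.1) n x = c := by
  constructor
  · intro h
    refine ⟨⟨c.1, c.2.1, fun i => ⟨c.2.2 i, ?_⟩⟩, rfl⟩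
    exact congrFun (congrArg Subtype.val h) i
  · rintro ⟨x, rfl⟩
    apply Subtype.ext
    funext i
    exact (x.2.2 i).2

theorem smith_order {Q : Set P} (hQf : Q.Finite) (g : P → P) (hg : StrictMono g)
    (hgg : ∀ x, g (g x) = x) (hQ : ∀ x ∈ Q, g x ∈ Q) (N : ℕ) (hN : Q.ncard ≤ N) :
    ∑ n ∈ Finset.range N, finrank (ZMod 2) (OrdCoh (ZMod 2) {x | x ∈ Q ∧ g x = x} n) ≤
      ∑ n ∈ Finset.range N, finrank (ZMod 2) (OrdCoh (ZMod 2) Q n) := by
  have h1 : ∀ n, Finite (Ch Q n) := finite_Ch hQf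
  have h2 : ∀ n, Finite (Ch {x | x ∈ Q ∧ g x = x} n) := finite_Ch (hQf.subset fun _ h => h.1)
  refine smith_ineq (S := fun n => Ch Q n) (cface (Q := Q)) (gCh g hg hQ)
    (F := fun n => Ch {x | x ∈ Q ∧ g x = x} n) (cface (Q := {x | x ∈ Q ∧ g x = x}))
    (iCh fun _ h => h.1) ?_ ?_ ?_ ?_ ?_ ?_ ?_ N ?_
  · intro n i j σ h; exact cface_cface n i j σ h
  · intro n i j σ h; exact cface_cface n i j σ h
  · intro n c
    apply Subtype.ext
    funext i
    exact hgg _
  · intro n i c; rfl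
  · intro n c c' h
    apply Subtype.ext
    have h' : (iCh (fun _ h => h.1) n c : Ch Q n).1 = (iCh (fun _ h => h.1) n c' : Ch Q n).1 :=
      congrArg Subtype.val h
    exact h'
  · intro n i x; rfl
  · intro n c; exact gCh_fix g hg hQ n c
  · intro n hn; exact isEmpty_Ch hQf n (hN.trans hn)

theorem parity_order {Q : Set P} (hQf : Q.Finite) (g : P → P) (hg : StrictMono g)
    (hgg : ∀ x, g (g x) = x) (hQ : ∀ x ∈ Q, g x ∈ Q) (n : ℕ) :
    Nat.card (Ch Q n) ≡ Nat.card (Ch {x | x ∈ Q ∧ g x = x} n) [MOD 2] := by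
  classical
  have h1 : Finite (Ch Q n) := finite_Ch hQf n
  have h2 : Finite (Ch {x | x ∈ Q ∧ g x = x} n) := finite_Ch (hQf.subset fun _ h => h.1) n
  have := Fintype.ofFinite (Ch Q n)
  have := Fintype.ofFinite (Ch {x | x ∈ Q ∧ g x = x} n)
  have hp : Fact (Nat.Prime 2) := ⟨Nat.prime_two⟩
  let f : Function.End (Ch Q n) := gCh g hg hQ n
  have hf : f ^ 2 ^ 1 = 1 := by
    funext c
    apply Subtype.ext
    funext i
    exact hgg _
  have h3 := Equiv.Perm.card_fixedPoints_modEq hf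
  rw [Nat.card_eq_fintype_card]
  refine h3.trans ?_
  rw [← Nat.card_eq_fintype_card]
  have e : Function.fixedPoints f ≃ Ch {x | x ∈ Q ∧ g x = x} n := by
    refine Equiv.ofBijective (fun c => ⟨c.1.1, c.1.2.1, fun i => ⟨c.1.2.2 i, ?_⟩⟩) ⟨?_, ?_⟩
    · exact congrFun (congrArg Subtype.val c.2) i
    · intro c c' h
      apply Subtype.ext
      apply Subtype.ext
      have h' := congrArg (fun c : Ch {x | x ∈ Q ∧ g x = x} n => c.1) h
      exact h'
    · intro c
      refine ⟨⟨iCh (fun _ h => h.1) n c, ?_⟩, rfl⟩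
      exact (gCh_fix g hg hQ n _).mpr ⟨c, rfl⟩
  rw [Nat.card_congr e]

/-- hypotheses on a list of commuting involutions preserving Q -/
structure GoodList (Q : Set P) (gs : List (P → P)) : Prop where
  mono : ∀ g ∈ gs, StrictMono g
  invol : ∀ g ∈ gs, ∀ x, g (g x) = x
  maps : ∀ g ∈ gs, ∀ x ∈ Q, g x ∈ Q
  comm : ∀ g ∈ gs, ∀ h ∈ gs, ∀ x, g (h x) = h (g x)

theorem GoodList.tail {Q : Set P} {g : P → P} {gs : List (P → P)} (h : GoodList Q (g :: gs)) :
    GoodList Q gs :=
  ⟨fun x hx => h.mono x (List.mem_cons_of_mem _ hx),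
   fun x hx => h.invol x (List.mem_cons_of_mem _ hx),
   fun x hx => h.maps x (List.mem_cons_of_mem _ hx),
   fun x hx y hy => h.comm x (List.mem_cons_of_mem _ hx) y (List.mem_cons_of_mem _ hy)⟩

theorem GoodList.maps_fix {Q : Set P} {g : P → P} {gs : List (P → P)} (h : GoodList Q (g :: gs)) :
    ∀ x ∈ fixS Q gs, g x ∈ fixS Q gs := by
  rintro x ⟨hx1, hx2⟩
  refine ⟨h.maps g (List.mem_cons_self) x hx1, ?_⟩
  intro g' hg'
  rw [h.comm g' (List.mem_cons_of_mem _ hg') g List.mem_cons_self, hx2 g' hg']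

theorem smith_list {Q : Set P} (hQf : Q.Finite) (gs : List (P → P)) (h : GoodList Q gs) (N : ℕ)
    (hN : Q.ncard ≤ N) :
    ∑ n ∈ Finset.range N, finrank (ZMod 2) (OrdCoh (ZMod 2) (fixS Q gs) n) ≤
      ∑ n ∈ Finset.range N, finrank (ZMod 2) (OrdCoh (ZMod 2) Q n) := by
  induction gs with
  | nil => rw [fixS_nil]
  | cons g gs ih =>
    refine le_trans ?_ (ih h.tail)
    rw [fixS_cons]
    apply smith_order (hQf.subset (fixS_subset _ _)) g (h.mono g List.mem_cons_self)
      (h.invol g List.mem_cons_self) h.maps_fix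
    exact (Set.ncard_le_ncard (fixS_subset _ _) hQf).trans hN

theorem parity_list {Q : Set P} (hQf : Q.Finite) (gs : List (P → P)) (h : GoodList Q gs) (n : ℕ) :
    Nat.card (Ch Q n) ≡ Nat.card (Ch (fixS Q gs) n) [MOD 2] := by
  induction gs with
  | nil => rw [fixS_nil]
  | cons g gs ih =>
    refine (ih h.tail).trans ?_
    rw [fixS_cons]
    exact parity_order (hQf.subset (fixS_subset _ _)) g (h.mono g List.mem_cons_self)
      (h.invol g List.mem_cons_self) h.maps_fix n

/-- constant chain -/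
def pt0 {Q : Set P} (x : P) (hx : x ∈ Q) : Ch Q 0 :=
  ⟨fun _ => x, fun a b hab => absurd hab (by
    have := Subsingleton.elim (α := Fin 1) a b; rw [this]; exact lt_irrefl _), fun _ => hx⟩

theorem ch0_eq {Q : Set P} (c : Ch Q 0) : c = pt0 (c.1 0) (c.2.2 0) := by
  apply Subtype.ext
  funext i
  have : i = 0 := Subsingleton.elim (α := Fin 1) i 0
  rw [this]
  rfl

theorem components_le {Q : Set P} (hQf : Q.Finite) {ι : Type w} [Fintype ι] [DecidableEq ι]
    (J : ι → P) (hJ : ∀ a, J a ∈ Q)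
    (e : ι → P → ZMod 2) (he : ∀ a, ∀ x ∈ Q, ∀ y ∈ Q, x ≤ y → e a x = e a y)
    (heJ : ∀ a b, e a (J b) = if a = b then 1 else 0) :
    Fintype.card ι ≤ finrank (ZMod 2) (OrdCoh (ZMod 2) Q 0) := by
  have h1 : ∀ n, Finite (Ch Q n) := finite_Ch hQf
  let L0 : (ι → ZMod 2) →ₗ[ZMod 2] (Ch Q 0 → ZMod 2) :=
    { toFun := fun v c => ∑ a, v a * e a (c.1 0)
      map_add' := by
        intro v w
        funext c
        simp only [Pi.add_apply, add_mul, Finset.sum_add_distrib]
      map_smul' := by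
        intro r v
        funext c
        simp only [Pi.smul_apply, smul_eq_mul, RingHom.id_apply, Finset.mul_sum, mul_assoc] }
  have hL0 : ∀ v, L0 v ∈ LinearMap.ker (altd (ZMod 2) (cface (Q := Q)) 0) := by
    intro v
    rw [LinearMap.mem_ker]
    funext c
    rw [altd_apply, Fin.sum_univ_two]
    have hc : c.1 0 ≤ c.1 1 := c.2.1.monotone (by simp)
    have e1 : ∀ a, e a ((cface 0 0 c).1 0) = e a ((cface 0 1 c).1 0) := by
      intro a
      have : (cface 0 0 c).1 0 = c.1 1 := rfl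
      have h2 : (cface 0 1 c).1 0 = c.1 0 := rfl
      rw [this, h2]
      exact (he a _ (c.2.2 0) _ (c.2.2 1) hc).symm
    have e2 : L0 v (cface 0 0 c) = L0 v (cface 0 1 c) := by
      change ∑ a, v a * e a ((cface 0 0 c).1 0) = ∑ a, v a * e a ((cface 0 1 c).1 0)
      simp only [e1]
    rw [e2]
    simp only [Fin.val_zero, pow_zero, one_mul, Fin.val_one, pow_one, neg_mul, Pi.zero_apply]
    exact add_neg_cancel _
  let L : (ι → ZMod 2) →ₗ[ZMod 2] OrdCoh (ZMod 2) Q 0 :=
    (Submodule.mkQ _).comp (L0.codRestrict _ hL0)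
  have hinj : Function.Injective L := by
    rw [← LinearMap.ker_eq_bot, LinearMap.ker_eq_bot']
    intro v hv
    have h2 := (Submodule.Quotient.mk_eq_zero _).mp hv
    have h3 : L0 v = 0 := h2
    funext b
    have h4 := congrFun h3 (pt0 (J b) (hJ b))
    change ∑ a, v a * e a (J b) = 0 at h4
    simp only [heJ] at h4
    simpa using h4
  have := LinearMap.finrank_le_finrank_of_injective hinj
  rwa [Module.finrank_fintype_fun_eq_card] at this

end Basic

section Cone

variable {P : Type u} [PartialOrder P] {k : Type v} [Field k]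

theorem ordcoh_cone {Q : Set P} (J : P → P) (hJQ : ∀ x ∈ Q, J x ∈ Q) (hJle : ∀ x ∈ Q, J x ≤ x)
    (hJc : ∀ x ∈ Q, ∀ y ∈ Q, x ≤ y → J x = J y) (n : ℕ)
    (f : Ch Q (n + 1) → k) (hf : altd k (cface (Q := Q)) (n + 1) f = 0) :
    ∃ g : Ch Q n → k, altd k (cface (Q := Q)) n g = f := by
  classical
  have hJJ : ∀ x ∈ Q, J (J x) = J x := fun x hx => hJc _ (hJQ x hx) _ hx (hJle x hx)
  let g : Ch Q n → k := fun c =>
    if h : J (c.1 0) < c.1 0 then f (c.consC (J (c.1 0)) (hJQ _ (c.2.2 0)) h) else 0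
  have gpos : ∀ (c : Ch Q n) (h : J (c.1 0) < c.1 0),
      g c = f (c.consC (J (c.1 0)) (hJQ _ (c.2.2 0)) h) := fun c h => dif_pos h
  have gneg : ∀ (c : Ch Q n) (h : ¬ (J (c.1 0) < c.1 0)), g c = 0 := fun c h => dif_neg h
  refine ⟨g, ?_⟩
  funext c
  rw [altd_apply]
  have hJi : ∀ i, J (c.1 i) = J (c.1 0) := fun i =>
    (hJc _ (c.2.2 0) _ (c.2.2 i) (c.2.1.monotone (Fin.zero_le _))).symm
  have hJf : ∀ i, J ((cface n i c).1 0) = J (c.1 0) := fun i => hJi _
  rcases eq_or_lt_of_le (hJle _ (c.2.2 0)) with heq | hlt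
  · rw [Fin.sum_univ_succ]
    have hlt1 : J ((cface n 0 c).1 0) < (cface n 0 c).1 0 := by
      rw [hJf, heq]
      simp only [cface, Function.comp_apply]
      exact c.2.1 (by simp [Fin.succAbove])
    have e : ∑ i : Fin (n + 1), (-1 : k) ^ ((i.succ : Fin (n + 2)) : ℕ) *
        g (cface n i.succ c) = 0 := by
      apply Finset.sum_eq_zero
      intro i _
      rw [gneg, mul_zero]
      rw [hJf, heq]
      have : (cface n i.succ c).1 0 = c.1 0 := by simp [cface]
      rw [this]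
      exact lt_irrefl _
    rw [e, gpos _ hlt1]
    simp only [Fin.val_zero, pow_zero, one_mul, add_zero]
    congr 1
    apply Subtype.ext
    funext x
    refine Fin.cases ?_ (fun x => ?_) x
    · simp only [Ch.consC, Fin.cons_zero]
      rw [hJf, heq]
    · simp [Ch.consC, cface]
  · have hlti : ∀ i : Fin (n + 2), J ((cface n i c).1 0) < (cface n i c).1 0 := by
      intro i
      rw [hJf]
      refine lt_of_lt_of_le hlt ?_
      exact c.2.1.monotone (Fin.zero_le _)
    have h2 := congrFun hf (c.consC (J (c.1 0)) (hJQ _ (c.2.2 0)) hlt)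
    rw [altd_apply, Fin.sum_univ_succ] at h2
    simp only [Fin.val_zero, pow_zero, one_mul, Pi.zero_apply] at h2
    rw [consC_face_zero] at h2
    rw [eq_neg_of_add_eq_zero_left h2, ← Finset.sum_neg_distrib]
    refine Finset.sum_congr rfl fun i _ => ?_
    have hlt' : J (c.1 0) < (cface n i c).1 0 := by
      have := hlti i
      rwa [hJf] at this
    rw [consC_face_succ c _ _ hlt i hlt', gpos _ (hlti i)]
    have e3 : (cface n i c).consC (J ((cface n i c).1 0)) (hJQ _ ((cface n i c).2.2 0)) (hlti i) =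
        (cface n i c).consC (J (c.1 0)) (hJQ _ (c.2.2 0)) hlt' := by
      apply Subtype.ext
      funext x
      refine Fin.cases ?_ (fun x => ?_) x
      · simp only [Ch.consC, Fin.cons_zero]
        rw [hJf]
      · simp [Ch.consC]
    rw [e3]
    simp only [Fin.val_succ, pow_succ]
    ring

theorem ordcoh_cone_zero {Q : Set P} (hQf : Q.Finite) (J : P → P) (hJQ : ∀ x ∈ Q, J x ∈ Q)
    (hJle : ∀ x ∈ Q, J x ≤ x) (hJc : ∀ x ∈ Q, ∀ y ∈ Q, x ≤ y → J x = J y) :
    finrank k (OrdCoh k Q 0) = (J '' Q).ncard := by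
  classical
  have hJJ : ∀ x ∈ Q, J (J x) = J x := fun x hx => hJc _ (hJQ x hx) _ hx (hJle x hx)
  have hfin : (J '' Q).Finite := hQf.image J
  have : Fintype (J '' Q) := hfin.fintype
  have h1 : ∀ n, Finite (Ch Q n) := finite_Ch hQf
  have hsub : J '' Q ⊆ Q := by
    rintro _ ⟨x, hx, rfl⟩
    exact hJQ x hx
  -- linear equivalence
  have hker : ∀ f : Ch Q 0 → k, f ∈ LinearMap.ker (altd k (cface (Q := Q)) 0) ↔
      ∀ x (hx : x ∈ Q) y (hy : y ∈ Q), x < y → f (pt0 x hx) = f (pt0 y hy) := by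
    intro f
    rw [LinearMap.mem_ker]
    constructor
    · intro h x hx y hy hxy
      let c : Ch Q 1 := (pt0 y hy).consC x hx hxy
      have h2 := congrFun h c
      rw [altd_apply, Fin.sum_univ_two] at h2
      simp only [Fin.val_zero, pow_zero, one_mul, Fin.val_one, pow_one, neg_mul,
        Pi.zero_apply] at h2
      rw [← sub_eq_add_neg, sub_eq_zero] at h2
      have e0 : cface 0 0 c = pt0 y hy := consC_face_zero _ _ hx hxy
      have e1 : cface 0 1 c = pt0 x hx := by
        apply Subtype.ext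
        funext i
        have hi0 : i = 0 := Subsingleton.elim (α := Fin 1) i 0
        rw [hi0]
        simp [c, cface, Ch.consC, pt0]
      rw [e0, e1] at h2
      exact h2.symm
    · intro h
      funext c
      rw [altd_apply, Fin.sum_univ_two]
      simp only [Fin.val_zero, pow_zero, one_mul, Fin.val_one, pow_one, neg_mul,
        Pi.zero_apply]
      rw [← sub_eq_add_neg, sub_eq_zero]
      rw [ch0_eq (cface 0 0 c), ch0_eq (cface 0 1 c)]
      symm
      apply h
      exact c.2.1 (by simp [Fin.succAbove])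
  let R : LinearMap.ker (altd k (cface (Q := Q)) 0) →ₗ[k] (J '' Q → k) :=
    { toFun := fun f x => f.1 (pt0 x.1 (hsub x.2))
      map_add' := fun _ _ => rfl
      map_smul' := fun _ _ => rfl }
  have hRinj : Function.Injective R := by
    intro f g hfg
    apply Subtype.ext
    funext c
    rw [ch0_eq c]
    have hf := (hker f.1).mp f.2
    have hg := (hker g.1).mp g.2
    have hx := c.2.2 0
    have h2 := congrFun hfg ⟨J (c.1 0), ⟨c.1 0, hx, rfl⟩⟩
    change f.1 (pt0 (J (c.1 0)) _) = g.1 (pt0 (J (c.1 0)) _) at h2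
    rcases eq_or_lt_of_le (hJle _ hx) with heq | hlt
    · have e : pt0 (J (c.1 0)) (hJQ _ hx) = pt0 (c.1 0) hx := by
        apply Subtype.ext; funext i; exact heq
      rw [e] at h2
      exact h2
    · rw [← hf _ (hJQ _ hx) _ hx hlt, ← hg _ (hJQ _ hx) _ hx hlt]
      exact h2
  have hRsurj : Function.Surjective R := by
    intro v
    refine ⟨⟨fun c => v ⟨J (c.1 0), ⟨c.1 0, c.2.2 0, rfl⟩⟩, ?_⟩, ?_⟩
    · rw [hker]
      intro x hx y hy hxy
      have : J x = J y := hJc x hx y hy hxy.le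
      simp only [pt0, this]
    · funext x
      obtain ⟨_, y, hy, rfl⟩ := x
      change v ⟨J (J y), _⟩ = v ⟨J y, _⟩
      congr 1
      apply Subtype.ext
      exact hJJ y hy
  have e1 : finrank k (LinearMap.ker (altd k (cface (Q := Q)) 0)) = (J '' Q).ncard := by
    rw [(LinearEquiv.ofBijective R ⟨hRinj, hRsurj⟩).finrank_eq, Module.finrank_fintype_fun_eq_card,
      Set.ncard_eq_toFinset_card', Set.toFinset_card]
  have h3 := Submodule.finrank_quotient_add_finrank
    ((cobound k (fun n => Ch Q n → k) (fun n => altd k (cface (Q := Q)) n) 0).comap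
      (LinearMap.ker (altd k (cface (Q := Q)) 0)).subtype)
  have h4 : ((cobound k (fun n => Ch Q n → k) (fun n => altd k (cface (Q := Q)) n) 0).comap
      (LinearMap.ker (altd k (cface (Q := Q)) 0)).subtype) = ⊥ := by
    change Submodule.comap _ ⊥ = ⊥
    rw [Submodule.comap_bot, Submodule.ker_subtype]
  rw [h4, finrank_bot, add_zero] at h3
  rw [← e1, ← h3]
  change finrank k (_ ⧸ _) = _
  rw [h4]

end Cone

end Pool.Agent.Helper381
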