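import Pool.Agent.Helper381.LES

/-! Two-torsion and mod 2 dimensions for finite semisimplicial sets. -/

namespace Pool.Agent.Helper381

universe u v w

open Module

theorem altd_map {R : Type u} [CommRing R] {R' : Type w} [CommRing R'] (φ : R →+* R')
    {S : ℕ → Type v} (face : ∀ n, Fin (n + 2) → S (n + 1) → S n) (n : ℕ) (f : S n → R)
    (σ : S (n + 1)) :
    φ (altd R face n f σ) = altd R' face n (fun τ => φ (f τ)) σ := by
  rw [altd_apply, altd_apply, map_sum]
  refine Finset.sum_congr rfl fun i _ => ?_
  simp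

section UCT

variable {S : ℕ → Type v} (face : ∀ n, Fin (n + 2) → S (n + 1) → S n) [∀ n, Finite (S n)]

theorem rank_le_free {K : Type u} [Field K] (n : ℕ) :
    finrank K (LinearMap.range (altd K face n)) ≤ finrank ℤ (LinearMap.range (altd ℤ face n)) := by
  classical
  have := Fintype.ofFinite (S n)
  have := Fintype.ofFinite (S (n + 1))
  let L := LinearMap.range (altd ℤ face n)
  let b := Module.finBasis ℤ L
  let v : Fin (finrank ℤ L) → (S (n + 1) → K) := fun i σ => ((b i).1 σ : K)
  have hle : LinearMap.range (altd K face n) ≤ Submodule.span K (Set.range v) := by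
    rintro _ ⟨f, rfl⟩
    have h1 : f = ∑ σ, f σ • (Pi.single σ (1 : K) : S n → K) := by
      funext τ
      simp [Finset.sum_apply, Pi.single_apply]
    rw [h1, map_sum]
    apply Submodule.sum_mem
    intro σ _
    rw [map_smul]
    apply Submodule.smul_mem
    have h2 : altd K face n (Pi.single σ (1 : K)) =
        fun τ => ((altd ℤ face n (Pi.single σ (1 : ℤ)) τ : ℤ) : K) := by
      funext τ
      have := altd_map (Int.castRingHom K) face n (Pi.single σ (1 : ℤ)) τ
      simp only [eq_intCast] at this
      rw [this]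
      have h0 : (Pi.single σ (1 : K) : S n → K) = fun ρ => (((Pi.single σ (1 : ℤ) : S n → ℤ) ρ : ℤ) : K) := by
        funext ρ
        simp only [Pi.single_apply]
        split_ifs <;> simp
      rw [h0]
    have h3 : altd ℤ face n (Pi.single σ (1 : ℤ)) ∈ L := ⟨_, rfl⟩
    have h4 := b.sum_repr ⟨_, h3⟩
    have h5 : altd K face n (Pi.single σ (1 : K)) =
        ∑ i, ((b.repr ⟨_, h3⟩ i : ℤ) : K) • v i := by
      rw [h2]
      funext τ
      have h6 : altd ℤ face n (Pi.single σ (1 : ℤ)) τ = ∑ i, (b.repr ⟨_, h3⟩ i) * (b i).1 τ := by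
        have := congrArg (fun x : L => x.1 τ) h4
        simp only [Submodule.coe_sum, Finset.sum_apply, Submodule.coe_smul, Pi.smul_apply,
          smul_eq_mul] at this
        exact this.symm
      rw [h6]
      simp only [Finset.sum_apply, Pi.smul_apply, smul_eq_mul, v]
      push_cast
      rfl
    rw [h5]
    apply Submodule.sum_mem
    intro i _
    apply Submodule.smul_mem
    exact Submodule.subset_span ⟨i, rfl⟩
  refine (Submodule.finrank_mono hle).trans ?_
  refine (finrank_range_le_card v).trans ?_
  simp [L]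

theorem free_le_rank2 (n : ℕ)
    (htor : ∀ c : Coh ℤ (fun n => S n → ℤ) (fun n => altd ℤ face n) (n + 1),
      (2 : ℤ) • c = 0 → c = 0)
    (hdd : ∀ n (f : S n → ℤ), altd ℤ face (n + 1) (altd ℤ face n f) = 0) :
    finrank ℤ (LinearMap.range (altd ℤ face n)) ≤
      finrank (ZMod 2) (LinearMap.range (altd (ZMod 2) face n)) := by
  classical
  have : Fact (Nat.Prime 2) := ⟨Nat.prime_two⟩
  have := Fintype.ofFinite (S n)
  have := Fintype.ofFinite (S (n + 1))
  let L := LinearMap.range (altd ℤ face n)
  let b := Module.finBasis ℤ L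
  let v : Fin (finrank ℤ L) → (S (n + 1) → ZMod 2) := fun i σ => ((b i).1 σ : ZMod 2)
  have hcast : ∀ f : S n → ℤ, (fun σ => ((altd ℤ face n f σ : ℤ) : ZMod 2)) =
      altd (ZMod 2) face n (fun σ => ((f σ : ℤ) : ZMod 2)) := by
    intro f
    funext σ
    have := altd_map (Int.castRingHom (ZMod 2)) face n f σ
    simpa only [eq_intCast] using this
  have hv : ∀ i, v i ∈ LinearMap.range (altd (ZMod 2) face n) := by
    intro i
    obtain ⟨f, hf⟩ := (b i).2
    refine ⟨fun σ => ((f σ : ℤ) : ZMod 2), ?_⟩
    rw [← hcast, hf]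
  -- saturation
  have hsat : ∀ x : S (n + 1) → ℤ, (2 : ℤ) • x ∈ L → x ∈ L := by
    rintro x ⟨f, hf⟩
    have hx : altd ℤ face (n + 1) x = 0 := by
      have h1 : altd ℤ face (n + 1) ((2 : ℤ) • x) = 0 := by rw [← hf, hdd]
      rw [map_smul] at h1
      funext σ
      have := congrFun h1 σ
      simp only [Pi.smul_apply, smul_eq_mul, Pi.zero_apply] at this
      simp only [Pi.zero_apply]
      omega
    let c : Coh ℤ (fun n => S n → ℤ) (fun n => altd ℤ face n) (n + 1) :=
      Submodule.Quotient.mk ⟨x, hx⟩
    have hc : (2 : ℤ) • c = 0 := by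
      rw [← Submodule.Quotient.mk_smul]
      apply (Submodule.Quotient.mk_eq_zero _).mpr
      exact ⟨f, hf⟩
    have := htor c hc
    have h2 := (Submodule.Quotient.mk_eq_zero _).mp this
    exact h2
  have hli : LinearIndependent (ZMod 2) v := by
    rw [Fintype.linearIndependent_iff]
    intro g hg i
    -- lift
    let w : L := ∑ i, ((g i).val : ℤ) • b i
    have hw : ∀ σ, ((w.1 σ : ℤ) : ZMod 2) = 0 := by
      intro σ
      have h1 := congrFun hg σ
      simp only [Finset.sum_apply, Pi.smul_apply, smul_eq_mul, v, Pi.zero_apply] at h1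
      simp only [w, Submodule.coe_sum, Finset.sum_apply, Submodule.coe_smul, Pi.smul_apply,
        smul_eq_mul]
      push_cast
      rw [← h1]
      refine Finset.sum_congr rfl fun j _ => ?_
      simp
    have hw2 : ∀ σ, ∃ y : ℤ, w.1 σ = 2 * y := by
      intro σ
      have := (ZMod.intCast_zmod_eq_zero_iff_dvd (w.1 σ) 2).mp (hw σ)
      exact this
    choose y hy using hw2
    have hyL : y ∈ L := by
      apply hsat
      have : (2 : ℤ) • y = w.1 := by
        funext σ
        simp only [Pi.smul_apply, smul_eq_mul]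
        exact (hy σ).symm
      rw [this]
      exact w.2
    have h5 : w = (2 : ℤ) • (⟨y, hyL⟩ : L) := by
      apply Subtype.ext
      funext σ
      simp only [Submodule.coe_smul, Pi.smul_apply, smul_eq_mul]
      exact hy σ
    have h6 : b.repr w i = ((g i).val : ℤ) := by
      simp only [w, map_sum, map_smul, Basis.repr_self]
      simp [Finsupp.single_apply]
    have h7 : b.repr w i = 2 * b.repr ⟨y, hyL⟩ i := by
      rw [h5, map_smul]
      simp
    have h8 : ((g i).val : ℤ) = 2 * b.repr ⟨y, hyL⟩ i := h6.symm.trans h7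
    have h9 : (((g i).val : ℤ) : ZMod 2) = 0 := by
      rw [h8]
      push_cast
      have h2z : (2 : ZMod 2) = 0 := rfl
      rw [h2z, zero_mul]
    simpa using h9
  have h1 := finrank_span_eq_card hli
  rw [Fintype.card_fin] at h1
  rw [← h1]
  apply Submodule.finrank_mono
  rw [Submodule.span_le]
  rintro _ ⟨i, rfl⟩
  exact hv i

theorem sum_coh2_le {K : Type u} [Field K]
    (hface : ∀ n (i j : Fin (n + 2)) (σ : S (n + 2)), i ≤ j →
      face n i (face (n + 1) j.succ σ) = face n j (face (n + 1) i.castSucc σ))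
    (htor : ∀ n, ∀ c : Coh ℤ (fun n => S n → ℤ) (fun n => altd ℤ face n) n,
      (2 : ℤ) • c = 0 → c = 0) (N : ℕ) :
    ∑ n ∈ Finset.range N,
      finrank (ZMod 2) (Coh (ZMod 2) (fun n => S n → ZMod 2) (fun n => altd (ZMod 2) face n) n) ≤
    ∑ n ∈ Finset.range N, finrank K (Coh K (fun n => S n → K) (fun n => altd K face n) n) := by
  classical
  have : Fact (Nat.Prime 2) := ⟨Nat.prime_two⟩
  have hF : ∀ n, Fintype (S n) := fun n => Fintype.ofFinite (S n)
  have h1 := sum_finrank_coh (k := ZMod 2) (C := fun n => S n → ZMod 2)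
    (fun n => altd (ZMod 2) face n) (fun n x => altd_altd face hface n x) N
  have h2 := sum_finrank_coh (k := K) (C := fun n => S n → K)
    (fun n => altd K face n) (fun n x => altd_altd face hface n x) N
  have e1 : ∀ n, finrank (ZMod 2) (S n → ZMod 2) = finrank K (S n → K) := by
    intro n
    rw [Module.finrank_fintype_fun_eq_card, Module.finrank_fintype_fun_eq_card]
  have hr : ∀ n, rkb (k := K) (C := fun n => S n → K) (fun n => altd K face n) n ≤
      rkb (k := ZMod 2) (C := fun n => S n → ZMod 2) (fun n => altd (ZMod 2) face n) n := by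
    intro n
    cases n with
    | zero => rw [rkb_zero]; exact Nat.zero_le _
    | succ n =>
      rw [rkb_succ, rkb_succ]
      exact (rank_le_free face n).trans (free_le_rank2 face n (htor (n + 1))
        (fun n f => altd_altd face hface n f))
  have hs := Finset.sum_le_sum (fun n (_ : n ∈ Finset.range N) => hr n)
  simp only [e1] at h1
  have h4 := hr N
  omega

end UCT

end Pool.Agent.Helper381
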