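import Pool.Agent.Helper381.Geo
import Pool.Agent.Helper381.Cone
import Pool.Agent.Helper381.Order
import Pool.Agent.Helper381.UCT

/-! Good covers invariant under commuting involutive isometries. -/

namespace Pool.Agent.Helper381

universe u v w

open Metric Set Module

section Family

variable {M : Type u} [MetricSpace M]

/-- nonempty intersections of balls of radius `ρ` centred in `F` -/
def Fam (F : Finset M) (ρ : ℝ) : Set (Set M) :=
  {C | C.Nonempty ∧ ∃ S : Finset M, S ⊆ F ∧ S.Nonempty ∧ C = {y | ∀ p ∈ S, dist p y < ρ}}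

theorem Fam_finite (F : Finset M) (ρ : ℝ) : (Fam F ρ).Finite := by
  classical
  have : Fam F ρ ⊆ (fun S : Finset M => {y | ∀ p ∈ S, dist p y < ρ}) '' (F.powerset : Set (Finset M)) := by
    rintro C ⟨_, S, hS, _, rfl⟩
    exact ⟨S, by simpa using hS, rfl⟩
  exact Set.Finite.subset (F.powerset.finite_toSet.image _) this

theorem Fam_open (F : Finset M) (ρ : ℝ) : ∀ C ∈ Fam F ρ, IsOpen C := by
  rintro C ⟨_, S, _, _, rfl⟩
  have : {y | ∀ p ∈ S, dist p y < ρ} = ⋂ p ∈ S, ball p ρ := by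
    ext y
    simp only [Set.mem_ofPred_eq, mem_iInter, mem_ball, dist_comm y]
  rw [this]
  exact isOpen_biInter_finset (fun p _ => isOpen_ball)

theorem Fam_cover (F : Finset M) (ρ : ℝ) (hF : ∀ x : M, ∃ p ∈ F, dist p x < ρ) :
    ∀ x : M, ∃ C ∈ Fam F ρ, x ∈ C := by
  classical
  intro x
  obtain ⟨p, hp, hx⟩ := hF x
  refine ⟨{y | ∀ q ∈ ({p} : Finset M), dist q y < ρ}, ⟨⟨x, ?_⟩, {p}, ?_, ?_, rfl⟩, ?_⟩
  · intro q hq
    rw [Finset.mem_singleton] at hq
    rw [hq]; exact hx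
  · simpa using hp
  · simp
  · intro q hq
    rw [Finset.mem_singleton] at hq
    rw [hq]; exact hx

open Classical in
/-- smallest member containing a given set -/
noncomputable def Jm (F : Finset M) (ρ : ℝ) (s : Set M) : Set M :=
  {y | ∀ p ∈ F.filter (fun p => ∀ x ∈ s, dist p x < ρ), dist p y < ρ}

theorem subset_Jm (F : Finset M) (ρ : ℝ) (s : Set M) : s ⊆ Jm F ρ s := by
  classical
  intro x hx p hp
  exact (Finset.mem_filter.mp hp).2 x hx

theorem Jm_mem (F : Finset M) (ρ : ℝ) {s : Set M} (hs : s.Nonempty)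
    (h : ∃ C ∈ Fam F ρ, s ⊆ C) : Jm F ρ s ∈ Fam F ρ := by
  classical
  obtain ⟨C, ⟨_, S, hS, hSne, rfl⟩, hsC⟩ := h
  refine ⟨hs.mono (subset_Jm F ρ s), F.filter (fun p => ∀ x ∈ s, dist p x < ρ),
    Finset.filter_subset _ _, ?_, rfl⟩
  obtain ⟨p, hp⟩ := hSne
  exact ⟨p, Finset.mem_filter.mpr ⟨hS hp, fun x hx => hsC hx p hp⟩⟩

theorem Jm_le (F : Finset M) (ρ : ℝ) {s : Set M} {C : Set M} (hC : C ∈ Fam F ρ) (h : s ⊆ C) :
    Jm F ρ s ⊆ C := by
  classical
  obtain ⟨_, S, hS, _, rfl⟩ := hC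
  intro y hy p hp
  exact hy p (Finset.mem_filter.mpr ⟨hS hp, fun x hx => h hx p hp⟩)

theorem Jm_self (F : Finset M) (ρ : ℝ) {C : Set M} (hC : C ∈ Fam F ρ) : Jm F ρ C = C :=
  Subset.antisymm (Jm_le F ρ hC Subset.rfl) (subset_Jm F ρ C)

theorem Fam_hcap (F : Finset M) (ρ : ℝ) (σ : Σ n, Sing M n)
    (h : ∃ C ∈ Fam F ρ, Set.range σ.2 ⊆ C) :
    ∃ J ∈ Fam F ρ, Set.range σ.2 ⊆ J ∧ ∀ C ∈ Fam F ρ, Set.range σ.2 ⊆ C → J ⊆ C :=
  ⟨Jm F ρ (Set.range σ.2), Jm_mem F ρ (Set.range_nonempty _) h, subset_Jm F ρ _,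
    fun _ hC hσ => Jm_le F ρ hC hσ⟩

theorem image_Jm (F : Finset M) (ρ : ℝ) (g : M ≃ᵢ M) (hgF : ∀ p, p ∈ F ↔ g p ∈ F) (s : Set M) :
    g '' (Jm F ρ s) = Jm F ρ (g '' s) := by
  classical
  ext y
  constructor
  · rintro ⟨z, hz, rfl⟩ p hp
    obtain ⟨hpF, hps⟩ := Finset.mem_filter.mp hp
    have h1 : g.symm p ∈ F := by rw [hgF]; simpa using hpF
    have h2 : dist (g.symm p) z < ρ := by
      apply hz
      refine Finset.mem_filter.mpr ⟨h1, fun x hx => ?_⟩
      have := hps (g x) ⟨x, hx, rfl⟩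
      calc dist (g.symm p) x = dist (g (g.symm p)) (g x) := (g.isometry.dist_eq _ _).symm
        _ = dist p (g x) := by simp
        _ < ρ := this
    calc dist p (g z) = dist (g (g.symm p)) (g z) := by simp
      _ = dist (g.symm p) z := g.isometry.dist_eq _ _
      _ < ρ := h2
  · intro hy
    refine ⟨g.symm y, ?_, by simp⟩
    intro p hp
    obtain ⟨hpF, hps⟩ := Finset.mem_filter.mp hp
    have h1 : g p ∈ F := (hgF p).mp hpF
    have h2 : dist (g p) y < ρ := by
      apply hy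
      refine Finset.mem_filter.mpr ⟨h1, ?_⟩
      rintro _ ⟨x, hx, rfl⟩
      rw [g.isometry.dist_eq]
      exact hps x hx
    calc dist p (g.symm y) = dist (g p) (g (g.symm y)) := (g.isometry.dist_eq _ _).symm
      _ = dist (g p) y := by simp
      _ < ρ := h2

theorem image_Fam (F : Finset M) (ρ : ℝ) (g : M ≃ᵢ M) (hgF : ∀ p, p ∈ F ↔ g p ∈ F) {C : Set M}
    (hC : C ∈ Fam F ρ) : g '' C ∈ Fam F ρ := by
  classical
  obtain ⟨hne, S, hS, hSne, rfl⟩ := hC
  refine ⟨hne.image _, S.image g, ?_, hSne.image _, ?_⟩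
  · intro p hp
    obtain ⟨q, hq, rfl⟩ := Finset.mem_image.mp hp
    exact (hgF q).mp (hS hq)
  · ext y
    constructor
    · rintro ⟨z, hz, rfl⟩ p hp
      obtain ⟨q, hq, rfl⟩ := Finset.mem_image.mp hp
      rw [g.isometry.dist_eq]
      exact hz q hq
    · intro hy
      refine ⟨g.symm y, ?_, by simp⟩
      intro p hp
      have := hy (g p) (Finset.mem_image_of_mem _ hp)
      calc dist p (g.symm y) = dist (g p) (g (g.symm y)) := (g.isometry.dist_eq _ _).symm
        _ = dist (g p) y := by simp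
        _ < ρ := this

/-- existence of invariant finite nets -/
theorem exists_net [CompactSpace M] (gs : List (M ≃ᵢ M)) (hinv : ∀ g ∈ gs, ∀ x, g (g x) = x)
    (hcomm : ∀ g ∈ gs, ∀ h ∈ gs, ∀ x, g (h x) = h (g x)) (ρ : ℝ) (hρ : 0 < ρ) :
    ∃ F : Finset M, (∀ x : M, ∃ p ∈ F, dist p x < ρ) ∧ ∀ g ∈ gs, ∀ p ∈ F, g p ∈ F := by
  classical
  induction gs with
  | nil =>
    obtain ⟨t, _, ht, hcov⟩ := (isCompact_univ (X := M)).finite_cover_balls hρ
    refine ⟨ht.toFinset, ?_, by simp⟩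
    intro x
    have := hcov (Set.mem_univ x)
    simp only [mem_iUnion] at this
    obtain ⟨p, hp, hx⟩ := this
    exact ⟨p, ht.mem_toFinset.mpr hp, by rw [dist_comm]; exact hx⟩
  | cons g gs ih =>
    obtain ⟨F, hF1, hF2⟩ := ih (fun g' hg' => hinv g' (List.mem_cons_of_mem _ hg'))
      (fun g' hg' h hh => hcomm g' (List.mem_cons_of_mem _ hg') h (List.mem_cons_of_mem _ hh))
    refine ⟨F ∪ F.image g, ?_, ?_⟩
    · intro x
      obtain ⟨p, hp, hx⟩ := hF1 x
      exact ⟨p, Finset.mem_union_left _ hp, hx⟩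
    · intro g' hg' p hp
      rcases List.mem_cons.mp hg' with rfl | hg''
      · rcases Finset.mem_union.mp hp with hp | hp
        · exact Finset.mem_union_right _ (Finset.mem_image_of_mem _ hp)
        · obtain ⟨q, hq, rfl⟩ := Finset.mem_image.mp hp
          rw [hinv g' List.mem_cons_self]
          exact Finset.mem_union_left _ hq
      · rcases Finset.mem_union.mp hp with hp | hp
        · exact Finset.mem_union_left _ (hF2 g' hg'' p hp)
        · obtain ⟨q, hq, rfl⟩ := Finset.mem_image.mp hp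
          rw [hcomm g' hg' g List.mem_cons_self]
          exact Finset.mem_union_right _ (Finset.mem_image_of_mem _ (hF2 g' hg'' q hq))

theorem net_iff (F : Finset M) (g : M ≃ᵢ M) (hinv : ∀ x, g (g x) = x) (h : ∀ p ∈ F, g p ∈ F) :
    ∀ p, p ∈ F ↔ g p ∈ F := fun p => ⟨h p, fun hp => by have := h _ hp; rwa [hinv] at this⟩

end Family

section Convex

variable {M : Type u} {E : Type v} [MetricSpace M] [NormedAddCommGroup E] [NormedSpace ℝ E]
  {R : ℝ} (G : Geo M E R)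

include G

/-- every member of the family sits in a chart together with its centres -/
theorem Geo.fam_chart {F : Finset M} {ρ : ℝ} (hρR : 4 * ρ ≤ R) {C : Set M} {S : Finset M}
    (hne : C.Nonempty) (hSne : S.Nonempty) (hC : C = {y | ∀ p ∈ S, dist p y < ρ}) :
    ∃ c : CChart M E, (∀ p ∈ S, p ∈ c.W) ∧ C ⊆ c.W := by
  obtain ⟨p0, hp0⟩ := hSne
  obtain ⟨y0, hy0⟩ := hne
  have hy0' : ∀ p ∈ S, dist p y0 < ρ := by rw [hC] at hy0; exact hy0
  have hρ0 : 0 < ρ := lt_of_le_of_lt dist_nonneg (hy0' p0 hp0)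
  obtain ⟨c, hc⟩ := G.chart p0
  refine ⟨c, ?_, ?_⟩
  · intro p hp
    apply hc
    rw [mem_ball]
    have := dist_triangle p y0 p0
    rw [dist_comm y0 p0] at this
    linarith [hy0' p hp, hy0' p0 hp0]
  · intro y hy
    rw [hC] at hy
    apply hc
    rw [mem_ball, dist_comm]
    linarith [hy p0 hp0]

theorem Geo.fam_cone {F : Finset M} {ρ : ℝ} (hρR : 4 * ρ ≤ R) {C : Set M} (hC : C ∈ Fam F ρ) :
    ConeData C := by
  obtain ⟨hne, S, hS, hSne, hCeq⟩ := hC
  obtain ⟨c, hcS, hcC⟩ := G.fam_chart (F := F) hρR hne hSne hCeq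
  obtain ⟨x0, hx0⟩ := hne
  have hφ : ∀ x : C, c.φ x.1 ∈ c.V := fun x => c.φmaps _ (hcC x.2)
  have hV : ∀ (t : unitInterval) (x : C), (1 - t.1) • c.φ x.1 + t.1 • c.φ x0 ∈ c.V := fun t x =>
    c.convexV (hφ x) (hφ ⟨x0, hx0⟩) (by linarith [t.2.2]) t.2.1 (by ring)
  have hmemC : ∀ y, y ∈ C ↔ ∀ p ∈ S, dist p y < ρ := by
    intro y
    rw [hCeq]
    exact Iff.rfl
  have hmem : ∀ (t : unitInterval) (x : C),
      c.ψ ((1 - t.1) • c.φ x.1 + t.1 • c.φ x0) ∈ C := by
    intro t x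
    have hx : ∀ p ∈ S, dist p x.1 < ρ := (hmemC _).mp x.2
    have hx0' : ∀ p ∈ S, dist p x0 < ρ := (hmemC _).mp hx0
    refine (hmemC _).mpr ?_
    intro p hp
    apply c.ball_convex (hcS p hp) (hφ x) (hφ ⟨x0, hx0⟩) _ _ t.1 t.2
    · rw [c.ψφ _ (hcC x.2)]; exact hx p hp
    · rw [c.ψφ _ (hcC hx0)]; exact hx0' p hp
  have hcont : Continuous (fun p : unitInterval × C =>
      (⟨c.ψ ((1 - p.1.1) • c.φ p.2.1 + p.1.1 • c.φ x0), hmem p.1 p.2⟩ : C)) := by
    apply Continuous.subtype_mk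
    have h1 : Continuous (fun x : C => c.φ x.1) :=
      c.contφ.comp_continuous continuous_subtype_val (fun x => hcC x.2)
    have h2 : Continuous (fun p : unitInterval × C =>
        (1 - p.1.1) • c.φ p.2.1 + p.1.1 • c.φ x0) := by
      apply Continuous.add
      · apply Continuous.smul
        · exact continuous_const.sub (continuous_subtype_val.comp continuous_fst)
        · exact h1.comp continuous_snd
      · exact (continuous_subtype_val.comp continuous_fst).smul continuous_const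
    exact c.contψ.comp_continuous h2 (fun p => hV p.1 p.2)
  let F' : ContinuousMap.Homotopy (ContinuousMap.id C) (ContinuousMap.const C ⟨x0, hx0⟩) :=
    { toFun := fun p => ⟨c.ψ ((1 - p.1.1) • c.φ p.2.1 + p.1.1 • c.φ x0), hmem p.1 p.2⟩
      continuous_toFun := hcont
      map_zero_left := by
        intro x
        apply Subtype.ext
        change c.ψ ((1 - (0 : ℝ)) • c.φ x.1 + (0 : ℝ) • c.φ x0) = x.1
        rw [sub_zero, one_smul, zero_smul, add_zero]
        exact c.ψφ _ (hcC x.2)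
      map_one_left := by
        intro x
        apply Subtype.ext
        change c.ψ ((1 - (1 : ℝ)) • c.φ x.1 + (1 : ℝ) • c.φ x0) = x0
        rw [sub_self, one_smul, zero_smul, zero_add]
        exact c.ψφ _ (hcC hx0) }
  exact coneData_of_nullhomotopic C ⟨x0, hx0⟩ F'

/-- members invariant under isometries contain common fixed points -/
theorem Geo.fam_fixed [CompactSpace M] {F : Finset M} {ρ : ℝ} (hρR : 4 * ρ ≤ R) {C : Set M}
    (hC : C ∈ Fam F ρ) :
    ∃ y ∈ C, ∀ g : M ≃ᵢ M, (∀ p, p ∈ F ↔ g p ∈ F) → g '' C = C → g y = y := by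
  classical
  have hJ := Jm_self F ρ hC
  obtain ⟨hne, S0, hS0, hS0ne, hCeq0⟩ := hC
  set S := F.filter (fun p => ∀ x ∈ C, dist p x < ρ) with hSdef
  have hSne : S.Nonempty := by
    obtain ⟨p, hp⟩ := hS0ne
    refine ⟨p, Finset.mem_filter.mpr ⟨hS0 hp, fun x hx => ?_⟩⟩
    rw [hCeq0] at hx
    exact hx p hp
  have hCeq : C = {y | ∀ p ∈ S, dist p y < ρ} := hJ.symm
  obtain ⟨c, hcS, hcC⟩ := G.fam_chart (F := F) hρR hne hSne hCeq
  let f : M → ℝ := fun y => S.sup' hSne (fun p => dist p y)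
  have hf : Continuous f := by
    apply Continuous.finset_sup'_apply
    intro p _
    exact continuous_const.dist continuous_id
  obtain ⟨x0, hx0⟩ := hne
  have : Nonempty M := ⟨x0⟩
  obtain ⟨y, _, hy⟩ := isCompact_univ.exists_isMinOn (univ_nonempty) hf.continuousOn
  have hy' : ∀ z, f y ≤ f z := fun z => hy (mem_univ z)
  have hflt : ∀ z, f z < ρ ↔ z ∈ C := by
    intro z
    rw [hCeq]
    simp only [f, Finset.sup'_lt_iff, Set.mem_ofPred_eq]
  have hyC : y ∈ C := by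
    rw [← hflt]
    exact lt_of_le_of_lt (hy' x0) ((hflt x0).mpr hx0)
  -- uniqueness
  have huniq : ∀ z, f z = f y → z = y := by
    intro z hz
    by_contra hne'
    have hzC : z ∈ C := by rw [← hflt, hz, hflt]; exact hyC
    have hyW := hcC hyC
    have hzW := hcC hzC
    have h1 : f (c.mid z y) < f y := by
      simp only [f, Finset.sup'_lt_iff]
      intro p hp
      have hpz : dist p z ≤ f y := by
        rw [← hz]
        exact Finset.le_sup' (fun p => dist p z) hp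
      have hpy : dist p y ≤ f y := Finset.le_sup' (fun p => dist p y) hp
      exact c.dist_mid_lt (hcS p hp) hzW hyW hne' (le_trans dist_nonneg hpy) hpz hpy
    exact absurd (hy' (c.mid z y)) (not_le.mpr h1)
  refine ⟨y, hyC, ?_⟩
  intro g hgF hgC
  apply huniq
  -- f (g y) = f y
  have hgS : ∀ p, p ∈ S ↔ g p ∈ S := by
    intro p
    rw [hSdef, Finset.mem_filter, Finset.mem_filter, hgF p]
    apply and_congr_right
    intro _
    constructor
    · intro h x hx
      rw [← hgC] at hx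
      obtain ⟨x', hx', rfl⟩ := hx
      rw [g.isometry.dist_eq]
      exact h x' hx'
    · intro h x hx
      have : g x ∈ C := by rw [← hgC]; exact ⟨x, hx, rfl⟩
      have := h _ this
      rwa [g.isometry.dist_eq] at this
  apply le_antisymm
  · simp only [f, Finset.sup'_le_iff]
    intro p hp
    have h1 : g.symm p ∈ S := by rw [hgS]; simpa using hp
    have h2 := Finset.le_sup' (fun p => dist p y) h1
    calc dist p (g y) = dist (g (g.symm p)) (g y) := by simp
      _ = dist (g.symm p) y := g.isometry.dist_eq _ _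
      _ ≤ _ := h2
  · exact hy' _

theorem Geo.nerve [Nonempty M] {F : Finset M} {ρ : ℝ} (hρR : 4 * ρ ≤ R)
    (hF : ∀ x : M, ∃ p ∈ F, dist p x < ρ) (k : Type w) [CommRing k] (n : ℕ) :
    Nonempty (SingCoh k M n ≃ₗ[k] OrdCoh k (Fam F ρ) n) := by
  obtain ⟨e1⟩ := small_simplices (k := k) (Fam F ρ) (Fam_open F ρ) (Fam_cover F ρ hF) n
  obtain ⟨e2⟩ := nerve_small (k := k) (Fam F ρ) (fun σ h => Fam_hcap F ρ σ h)
    (fun C hC => G.fam_cone hρR hC) n
  exact ⟨e1.trans e2⟩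

end Convex

section Fixed

variable {M : Type u} [MetricSpace M]

/-- image maps of isometries on subsets -/
def imS (g : M ≃ᵢ M) : Set M → Set M := fun C => g '' C

theorem goodList (F : Finset M) (ρ : ℝ) (gs : List (M ≃ᵢ M)) (hinv : ∀ g ∈ gs, ∀ x, g (g x) = x)
    (hcomm : ∀ g ∈ gs, ∀ h ∈ gs, ∀ x, g (h x) = h (g x)) (hF : ∀ g ∈ gs, ∀ p ∈ F, g p ∈ F) :
    GoodList (Fam F ρ) (gs.map imS) := by
  refine ⟨?_, ?_, ?_, ?_⟩
  · intro f hf
    obtain ⟨g, hg, rfl⟩ := List.mem_map.mp hf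
    intro C C' hCC
    have h1 : g '' C ⊆ g '' C' := Set.image_mono hCC.1
    refine ⟨h1, fun h2 => hCC.2 ?_⟩
    exact (Set.image_subset_image_iff g.injective).mp h2
  · intro f hf
    obtain ⟨g, hg, rfl⟩ := List.mem_map.mp hf
    intro C
    simp only [imS]
    rw [← Set.image_comp]
    have : (⇑g ∘ ⇑g) = id := funext (hinv g hg)
    rw [this, Set.image_id]
  · intro f hf
    obtain ⟨g, hg, rfl⟩ := List.mem_map.mp hf
    intro C hC
    exact image_Fam F ρ g (net_iff F g (hinv g hg) (hF g hg)) hC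
  · intro f hf f' hf'
    obtain ⟨g, hg, rfl⟩ := List.mem_map.mp hf
    obtain ⟨g', hg', rfl⟩ := List.mem_map.mp hf'
    intro C
    simp only [imS]
    rw [← Set.image_comp, ← Set.image_comp]
    have : (⇑g ∘ ⇑g') = (⇑g' ∘ ⇑g) := funext (hcomm g hg g' hg')
    rw [this]

theorem mem_fixS (F : Finset M) (ρ : ℝ) (gs : List (M ≃ᵢ M)) (C : Set M) :
    C ∈ fixS (Fam F ρ) (gs.map imS) ↔ C ∈ Fam F ρ ∧ ∀ g ∈ gs, g '' C = C := by
  simp only [fixS, List.mem_map, forall_exists_index, and_imp, forall_apply_eq_imp_iff₂, imS,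
    Set.mem_ofPred_eq]

theorem Jm_fixS (F : Finset M) (ρ : ℝ) (hF : ∀ x : M, ∃ p ∈ F, dist p x < ρ)
    (gs : List (M ≃ᵢ M)) (hinv : ∀ g ∈ gs, ∀ x, g (g x) = x)
    (hgF : ∀ g ∈ gs, ∀ p ∈ F, g p ∈ F) (a : M) (ha : ∀ g ∈ gs, g a = a) :
    Jm F ρ {a} ∈ fixS (Fam F ρ) (gs.map imS) := by
  rw [mem_fixS]
  constructor
  · apply Jm_mem F ρ (singleton_nonempty a)
    obtain ⟨C, hC, haC⟩ := Fam_cover F ρ hF a
    exact ⟨C, hC, by simpa using haC⟩
  · intro g hg
    rw [image_Jm F ρ g (net_iff F g (hinv g hg) (hgF g hg)), Set.image_singleton, ha g hg]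

theorem Fam_dist {F : Finset M} {ρ : ℝ} {C : Set M} (hC : C ∈ Fam F ρ) {x y : M} (hx : x ∈ C)
    (hy : y ∈ C) : dist x y < 2 * ρ := by
  obtain ⟨_, S, _, ⟨p, hp⟩, rfl⟩ := hC
  have h1 := hx p hp
  have h2 := hy p hp
  have := dist_triangle x p y
  rw [dist_comm x p] at this
  linarith

end Fixed

end Pool.Agent.Helper381
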