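import Mathlib

/-! Homogeneous embedded submanifolds of an inner product space as manifolds. -/

namespace Pool.Agent.Helper381

universe u v w

open Set Manifold Bundle
open scoped ContDiff Topology

/-- A subset `M` of `V` on which linear isometries act transitively, with one chart. -/
structure Emb (V : Type u) (E : Type v) [NormedAddCommGroup V] [InnerProductSpace ℝ V]
    [NormedAddCommGroup E] [NormedSpace ℝ E] where
  M : Set V
  v₀ : V
  O : Set V
  U : Set E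
  Φ : V → E
  ψ : E → V
  v₀M : v₀ ∈ M
  v₀O : v₀ ∈ O
  openO : IsOpen O
  openU : IsOpen U
  smΦ : ContDiffOn ℝ ∞ Φ O
  smψ : ContDiffOn ℝ ∞ ψ U
  Φmem : ∀ v ∈ M, v ∈ O → Φ v ∈ U
  ψM : ∀ u ∈ U, ψ u ∈ M
  ψO : ∀ u ∈ U, ψ u ∈ O
  Φψ : ∀ u ∈ U, Φ (ψ u) = u
  ψΦ : ∀ v ∈ M, v ∈ O → ψ (Φ v) = v
  trans : ∀ v ∈ M, ∃ k : V ≃ₗᵢ[ℝ] V, (∀ w, w ∈ M ↔ k w ∈ M) ∧ k v₀ = v

namespace Emb

variable {V : Type u} {E : Type v} [NormedAddCommGroup V] [InnerProductSpace ℝ V]
  [NormedAddCommGroup E] [NormedSpace ℝ E] (d : Emb V E)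

/-- linear isometries preserving `M` -/
def Pres (k : V ≃ₗᵢ[ℝ] V) : Prop := ∀ w, w ∈ d.M ↔ k w ∈ d.M

/-- the underlying type of the manifold -/
def X : Type u := d.M

instance : TopologicalSpace d.X := inferInstanceAs (TopologicalSpace d.M)

instance : T3Space d.X := inferInstanceAs (T3Space d.M)

/-- inclusion -/
def incl (x : d.X) : V := x.1

/-- a point of `M` as a point of the manifold -/
def pt (v : V) (h : v ∈ d.M) : d.X := ⟨v, h⟩

theorem incl_pt (v : V) (h : v ∈ d.M) : d.incl (d.pt v h) = v := rfl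

theorem continuous_incl : Continuous d.incl := continuous_subtype_val

theorem incl_inj : Function.Injective d.incl := Subtype.val_injective

theorem isInducing_incl : Topology.IsInducing d.incl := Topology.IsInducing.subtypeVal

theorem incl_mem (x : d.X) : d.incl x ∈ d.M := x.2

open Classical in
/-- parametrization -/
noncomputable def par (k : V ≃ₗᵢ[ℝ] V) (hk : d.Pres k) (u : E) : d.X :=
  if h : u ∈ d.U then d.pt (k (d.ψ u)) ((hk _).mp (d.ψM u h)) else d.pt d.v₀ d.v₀M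

theorem incl_par (k : V ≃ₗᵢ[ℝ] V) (hk : d.Pres k) {u : E} (hu : u ∈ d.U) :
    d.incl (d.par k hk u) = k (d.ψ u) := by
  rw [par, dif_pos hu, incl_pt]

/-- the chart moved by `k` -/
noncomputable def chart (k : V ≃ₗᵢ[ℝ] V) (hk : d.Pres k) : OpenPartialHomeomorph d.X E where
  toFun x := d.Φ (k.symm (d.incl x))
  invFun := d.par k hk
  source := {x | k.symm (d.incl x) ∈ d.O}
  target := d.U
  map_source' := by
    intro x hx
    apply d.Φmem _ _ hx
    rw [hk]
    simpa using d.incl_mem x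
  map_target' := by
    intro u hu
    change k.symm (d.incl (d.par k hk u)) ∈ d.O
    rw [d.incl_par k hk hu]
    simpa using d.ψO u hu
  left_inv' := by
    intro x hx
    apply d.incl_inj
    have hM : k.symm (d.incl x) ∈ d.M := by
      rw [hk]; simpa using d.incl_mem x
    rw [d.incl_par k hk (d.Φmem _ hM hx), d.ψΦ _ hM hx]
    simp
  right_inv' := by
    intro u hu
    rw [d.incl_par k hk hu]
    simpa using d.Φψ u hu
  open_source := by
    apply d.openO.preimage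
    exact k.symm.continuous.comp d.continuous_incl
  open_target := d.openU
  continuousOn_toFun := by
    apply d.smΦ.continuousOn.comp
    · exact (k.symm.continuous.comp d.continuous_incl).continuousOn
    · intro x hx; exact hx
  continuousOn_invFun := by
    rw [d.isInducing_incl.continuousOn_iff]
    have h : ContinuousOn (fun u => k (d.ψ u)) d.U :=
      k.continuous.comp_continuousOn d.smψ.continuousOn
    refine h.congr ?_
    intro u hu
    exact d.incl_par k hk hu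

theorem exists_k (x : d.X) : ∃ k : V ≃ₗᵢ[ℝ] V, d.Pres k ∧ k d.v₀ = d.incl x :=
  d.trans _ (d.incl_mem x)

/-- chosen isometry moving the base point to `x` -/
noncomputable def kk (x : d.X) : V ≃ₗᵢ[ℝ] V := (d.exists_k x).choose

theorem kk_pres (x : d.X) : d.Pres (d.kk x) := (d.exists_k x).choose_spec.1

theorem kk_apply (x : d.X) : d.kk x d.v₀ = d.incl x := (d.exists_k x).choose_spec.2

noncomputable instance : ChartedSpace E d.X where
  atlas := {e | ∃ (k : V ≃ₗᵢ[ℝ] V) (hk : d.Pres k), e = d.chart k hk}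
  chartAt x := d.chart (d.kk x) (d.kk_pres x)
  mem_chart_source x := by
    change (d.kk x).symm (d.incl x) ∈ d.O
    rw [← d.kk_apply x]
    simpa using d.v₀O
  chart_mem_atlas x := ⟨d.kk x, d.kk_pres x, rfl⟩

theorem chartAt_eq (x : d.X) : chartAt E x = d.chart (d.kk x) (d.kk_pres x) := rfl

instance : IsManifold 𝓘(ℝ, E) ∞ d.X := by
  apply isManifold_of_contDiffOn
  rintro _ _ ⟨k, hk, rfl⟩ ⟨k', hk', rfl⟩
  simp only [modelWithCornersSelf_coe, Function.comp_id, modelWithCornersSelf_coe_symm,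
    Function.id_comp, Set.preimage_id, Set.range_id, Set.inter_univ]
  have h1 : ContDiffOn ℝ ∞ (fun u => d.Φ (k'.symm (k (d.ψ u))))
      {u | u ∈ d.U ∧ k'.symm (k (d.ψ u)) ∈ d.O} := by
    apply d.smΦ.comp
    · apply ContDiff.comp_contDiffOn (k'.symm.contDiff)
      apply ContDiff.comp_contDiffOn (k.contDiff)
      exact d.smψ.mono (fun u hu => hu.1)
    · intro u hu; exact hu.2
  have h2 : ∀ u, u ∈ ((d.chart k hk).symm.trans (d.chart k' hk')).source →
      u ∈ {u | u ∈ d.U ∧ k'.symm (k (d.ψ u)) ∈ d.O} := by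
    intro u hu
    rw [OpenPartialHomeomorph.trans_source] at hu
    have hu1 : u ∈ d.U := hu.1
    have hu2 : k'.symm (d.incl (d.par k hk u)) ∈ d.O := hu.2
    rw [d.incl_par k hk hu1] at hu2
    exact ⟨hu1, hu2⟩
  refine (h1.mono h2).congr ?_
  intro u hu
  have hu1 := (h2 u hu).1
  change d.Φ (k'.symm (d.incl (d.par k hk u))) = _
  rw [d.incl_par k hk hu1]

theorem extChartAt_apply (x₀ x : d.X) :
    extChartAt 𝓘(ℝ, E) x₀ x = d.Φ ((d.kk x₀).symm (d.incl x)) := by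
  simp only [extChartAt, OpenPartialHomeomorph.extend_coe, modelWithCornersSelf_coe,
    Function.comp_apply, id_eq]
  rfl

theorem extChartAt_symm_apply (x₀ : d.X) (u : E) :
    (extChartAt 𝓘(ℝ, E) x₀).symm u = d.par (d.kk x₀) (d.kk_pres x₀) u := by
  simp only [extChartAt, OpenPartialHomeomorph.extend_coe_symm, modelWithCornersSelf_coe_symm,
    Function.comp_apply, id_eq]
  rfl

theorem extChartAt_target (x₀ : d.X) : (extChartAt 𝓘(ℝ, E) x₀).target = d.U := by
  simp only [extChartAt, OpenPartialHomeomorph.extend_target, modelWithCornersSelf_coe_symm,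
    Set.preimage_id, ModelWithCorners.range_eq_univ, Set.inter_univ]
  rfl

theorem mem_extChartAt_source_iff (x₀ x : d.X) :
    x ∈ (extChartAt 𝓘(ℝ, E) x₀).source ↔ (d.kk x₀).symm (d.incl x) ∈ d.O := by
  rw [extChartAt_source]
  rfl

/-- coordinate expression of the inclusion -/
noncomputable def q (x₀ : d.X) (u : E) : V := d.kk x₀ (d.ψ u)

theorem contDiffOn_q (x₀ : d.X) : ContDiffOn ℝ ∞ (d.q x₀) d.U :=
  (d.kk x₀).contDiff.comp_contDiffOn d.smψ

theorem incl_symm (x₀ : d.X) {u : E} (hu : u ∈ d.U) :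
    d.incl ((extChartAt 𝓘(ℝ, E) x₀).symm u) = d.q x₀ u := by
  rw [extChartAt_symm_apply, d.incl_par _ _ hu]
  rfl

theorem q_extChartAt (x₀ x : d.X) (hx : x ∈ (extChartAt 𝓘(ℝ, E) x₀).source) :
    d.q x₀ (extChartAt 𝓘(ℝ, E) x₀ x) = d.incl x := by
  have h1 := (extChartAt 𝓘(ℝ, E) x₀).map_source hx
  rw [extChartAt_target] at h1
  rw [← d.incl_symm x₀ h1, (extChartAt 𝓘(ℝ, E) x₀).left_inv hx]

theorem contMDiff_incl : ContMDiff 𝓘(ℝ, E) 𝓘(ℝ, V) ∞ d.incl := by
  intro x₀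
  have h1 : ContMDiffAt 𝓘(ℝ, E) 𝓘(ℝ, E) ∞ (extChartAt 𝓘(ℝ, E) x₀) x₀ := contMDiffAt_extChartAt
  have hmem : extChartAt 𝓘(ℝ, E) x₀ x₀ ∈ d.U := by
    rw [← extChartAt_target]; exact mem_extChartAt_target x₀
  have h2 : ContMDiffAt 𝓘(ℝ, E) 𝓘(ℝ, V) ∞ (d.q x₀) (extChartAt 𝓘(ℝ, E) x₀ x₀) := by
    rw [contMDiffAt_iff_contDiffAt]
    exact (d.contDiffOn_q x₀).contDiffAt (d.openU.mem_nhds hmem)
  have h3 := h2.comp x₀ h1
  refine h3.congr_of_eventuallyEq ?_
  filter_upwards [extChartAt_source_mem_nhds (I := 𝓘(ℝ, E)) x₀] with x hx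
  exact (d.q_extChartAt x₀ x hx).symm

/-- differential of the inclusion -/
noncomputable def A (x : d.X) : TangentSpace 𝓘(ℝ, E) x →L[ℝ] V :=
  mfderiv 𝓘(ℝ, E) 𝓘(ℝ, V) d.incl x

theorem A_comp (x₀ x : d.X) (hx : x ∈ (chartAt E x₀).source) (v : E) :
    d.A x ((trivializationAt E (TangentSpace 𝓘(ℝ, E)) x₀).symmL ℝ x v) =
      fderiv ℝ (d.q x₀) (extChartAt 𝓘(ℝ, E) x₀ x) v := by
  have hx' : x ∈ (extChartAt 𝓘(ℝ, E) x₀).source := by rw [extChartAt_source]; exact hx
  have hu : extChartAt 𝓘(ℝ, E) x₀ x ∈ d.U := by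
    rw [← extChartAt_target d x₀]; exact (extChartAt 𝓘(ℝ, E) x₀).map_source hx'
  have hinv : (extChartAt 𝓘(ℝ, E) x₀).symm (extChartAt 𝓘(ℝ, E) x₀ x) = x :=
    (extChartAt 𝓘(ℝ, E) x₀).left_inv hx'
  have hsm : MDifferentiableAt 𝓘(ℝ, E) 𝓘(ℝ, E) (extChartAt 𝓘(ℝ, E) x₀).symm
      (extChartAt 𝓘(ℝ, E) x₀ x) := by
    have h1 : ContMDiffOn 𝓘(ℝ, E) 𝓘(ℝ, E) ∞ (extChartAt 𝓘(ℝ, E) x₀).symm
      (extChartAt 𝓘(ℝ, E) x₀).target := contMDiffOn_extChartAt_symm x₀
    rw [extChartAt_target] at h1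
    exact (h1.contMDiffAt (d.openU.mem_nhds hu)).mdifferentiableAt (by simp)
  have hcomp := mfderiv_comp_of_eq (x := extChartAt 𝓘(ℝ, E) x₀ x) (y := x)
    (d.contMDiff_incl.mdifferentiable (by simp) x) hsm hinv
  have hL := TangentBundle.symmL_trivializationAt (𝕜 := ℝ) (I := 𝓘(ℝ, E)) hx
  rw [ModelWithCorners.range_eq_univ, mfderivWithin_univ] at hL
  have hq : mfderiv 𝓘(ℝ, E) 𝓘(ℝ, V) (d.incl ∘ (extChartAt 𝓘(ℝ, E) x₀).symm)
      (extChartAt 𝓘(ℝ, E) x₀ x) = fderiv ℝ (d.q x₀) (extChartAt 𝓘(ℝ, E) x₀ x) := by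
    rw [mfderiv_eq_fderiv]
    apply Filter.EventuallyEq.fderiv_eq
    filter_upwards [d.openU.mem_nhds hu] with w hw
    exact d.incl_symm x₀ hw
  rw [hL]
  rw [hq] at hcomp
  have hA : ∀ y : d.X, y = x → ∀ w : E,
      (mfderiv 𝓘(ℝ, E) 𝓘(ℝ, V) d.incl y : E → V) w = (d.A x : E → V) w := by
    rintro _ rfl w
    rfl
  have h2 := congrArg (fun f => f v) hcomp
  exact (hA _ hinv _).symm.trans h2.symm

end Emb

end Pool.Agent.Helper381
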