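import Pool.Agent.Helper381.EmbIso

/-! The Riemannian distance as a metric space structure. -/

namespace Pool.Agent.Helper381

universe u v w

open Set Manifold Bundle Bornology MeasureTheory
open scoped ContDiff Topology ENNReal

section Plumbing

variable {E : Type*} [NormedAddCommGroup E] [NormedSpace ℝ E]
  {X : Type*} [TopologicalSpace X] [ChartedSpace E X] [IsManifold 𝓘(ℝ, E) ∞ X]
  [RiemannianBundle (fun x : X => TangentSpace 𝓘(ℝ, E) x)]

theorem cont_of_contMDiff
    [h : IsContMDiffRiemannianBundle 𝓘(ℝ, E) ∞ E (fun x : X => TangentSpace 𝓘(ℝ, E) x)] :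
    IsContinuousRiemannianBundle E (fun x : X => TangentSpace 𝓘(ℝ, E) x) := by
  obtain ⟨g, hg, hg2⟩ := h.exists_contMDiff
  exact ⟨g, hg.continuous, hg2⟩

variable [IsContinuousRiemannianBundle E (fun x : X => TangentSpace 𝓘(ℝ, E) x)]

theorem edist_fin [ConnectedSpace X] (x y : X) : riemannianEDist 𝓘(ℝ, E) x y ≠ ⊤ := by
  have hopen : IsClopen {y : X | riemannianEDist 𝓘(ℝ, E) x y ≠ ⊤} := by
    constructor
    · rw [← isOpen_compl_iff, isOpen_iff_mem_nhds]
      intro z hz
      have hz' : riemannianEDist 𝓘(ℝ, E) x z = ⊤ := by simpa using hz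
      filter_upwards [eventually_riemannianEDist_lt 𝓘(ℝ, E) z (c := 1) one_pos] with w hw hw2
      apply hw2
      by_contra hcon
      have h2 := riemannianEDist_triangle (I := 𝓘(ℝ, E)) (x := x) (y := w) (z := z)
      rw [hz', riemannianEDist_comm (x := w)] at h2
      have : riemannianEDist 𝓘(ℝ, E) x w + riemannianEDist 𝓘(ℝ, E) z w < ⊤ :=
        ENNReal.add_lt_top.mpr ⟨lt_top_iff_ne_top.mpr hcon, hw.trans ENNReal.one_lt_top⟩
      exact absurd (top_le_iff.mp h2) this.ne
    · rw [isOpen_iff_mem_nhds]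
      intro z hz
      filter_upwards [eventually_riemannianEDist_lt 𝓘(ℝ, E) z (c := 1) one_pos] with w hw
      have h2 := riemannianEDist_triangle (I := 𝓘(ℝ, E)) (x := x) (y := z) (z := w)
      exact (lt_of_le_of_lt h2 (ENNReal.add_lt_top.mpr
        ⟨lt_top_iff_ne_top.mpr hz, hw.trans ENNReal.one_lt_top⟩)).ne
  have hu := hopen.eq_univ ⟨x, by simp [riemannianEDist_self]⟩
  have : y ∈ {y : X | riemannianEDist 𝓘(ℝ, E) x y ≠ ⊤} := by rw [hu]; trivial
  exact this

/-- the Riemannian distance -/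
@[reducible] noncomputable def rmetric (E : Type*) [NormedAddCommGroup E] [NormedSpace ℝ E]
    (X : Type*) [TopologicalSpace X] [ChartedSpace E X] [IsManifold 𝓘(ℝ, E) ∞ X]
    [RiemannianBundle (fun x : X => TangentSpace 𝓘(ℝ, E) x)]
    [IsContinuousRiemannianBundle E (fun x : X => TangentSpace 𝓘(ℝ, E) x)]
    [T3Space X] [ConnectedSpace X] : MetricSpace X :=
  letI : EMetricSpace X := EMetricSpace.ofRiemannianMetric 𝓘(ℝ, E) X
  EMetricSpace.toMetricSpace (fun x y => edist_fin (E := E) x y)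

theorem rmetric_out [T3Space X] [ConnectedSpace X] (x y : X) :
    (rmetric E X).toPseudoMetricSpace.toPseudoEMetricSpace.edist x y =
      riemannianEDist 𝓘(ℝ, E) x y := rfl

theorem rmetric_isRiem [T3Space X] [ConnectedSpace X] :
    letI : MetricSpace X := rmetric E X
    IsRiemannianManifold 𝓘(ℝ, E) X := by
  letI : MetricSpace X := rmetric E X
  exact ⟨fun x y => rfl⟩

end Plumbing

namespace Emb

variable {V : Type u} {E : Type v} [NormedAddCommGroup V] [InnerProductSpace ℝ V]
  [NormedAddCommGroup E] [NormedSpace ℝ E] (d : Emb V E) [FiniteDimensional ℝ E]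

instance : IsContinuousRiemannianBundle E (fun x : d.X => TangentSpace 𝓘(ℝ, E) x) :=
  cont_of_contMDiff

variable [ConnectedSpace d.X]

noncomputable instance instMetric : MetricSpace d.X := rmetric E d.X

instance : IsRiemannianManifold 𝓘(ℝ, E) d.X := rmetric_isRiem

theorem edist_eq (x y : d.X) : edist x y = riemannianEDist 𝓘(ℝ, E) x y := rfl

theorem edist_act_le' (k : V ≃ₗᵢ[ℝ] V) (hk : d.Pres k) (x y : d.X) :
    edist (d.act k hk x) (d.act k hk y) ≤ edist x y := d.edist_act_le k hk x y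

omit [FiniteDimensional ℝ E] [ConnectedSpace d.X] in
theorem pres_symm (k : V ≃ₗᵢ[ℝ] V) (hk : d.Pres k) : d.Pres k.symm := by
  intro w
  rw [hk (k.symm w), k.apply_symm_apply]

omit [FiniteDimensional ℝ E] [ConnectedSpace d.X] in
theorem act_act_symm (k : V ≃ₗᵢ[ℝ] V) (hk : d.Pres k) (x : d.X) :
    d.act k hk (d.act k.symm (d.pres_symm k hk) x) = x := by
  apply d.incl_inj
  rw [incl_act, incl_act, k.apply_symm_apply]

omit [FiniteDimensional ℝ E] [ConnectedSpace d.X] in
theorem act_symm_act (k : V ≃ₗᵢ[ℝ] V) (hk : d.Pres k) (x : d.X) :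
    d.act k.symm (d.pres_symm k hk) (d.act k hk x) = x := by
  apply d.incl_inj
  rw [incl_act, incl_act, k.symm_apply_apply]

/-- a linear isometry preserving `M` as an isometry of the Riemannian distance -/
noncomputable def iso (k : V ≃ₗᵢ[ℝ] V) (hk : d.Pres k) : d.X ≃ᵢ d.X where
  toFun := d.act k hk
  invFun := d.act k.symm (d.pres_symm k hk)
  left_inv := d.act_symm_act k hk
  right_inv := d.act_act_symm k hk
  isometry_toFun := by
    intro x y
    apply le_antisymm (d.edist_act_le' k hk x y)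
    have h := d.edist_act_le' k.symm (d.pres_symm k hk) (d.act k hk x) (d.act k hk y)
    rwa [act_symm_act, act_symm_act] at h

theorem iso_apply (k : V ≃ₗᵢ[ℝ] V) (hk : d.Pres k) (x : d.X) : d.iso k hk x = d.act k hk x := rfl

theorem incl_iso (k : V ≃ₗᵢ[ℝ] V) (hk : d.Pres k) (x : d.X) :
    d.incl (d.iso k hk x) = k (d.incl x) := rfl

/-- neighbourhoods given by a condition on the ambient space -/
theorem exists_ball {U : Set V} (hU : IsOpen U) (x : d.X) (hx : d.incl x ∈ U) :
    ∃ ε > 0, ∀ y : d.X, dist y x < ε → d.incl y ∈ U := by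
  have h1 : IsOpen (d.incl ⁻¹' U) := hU.preimage d.continuous_incl
  obtain ⟨ε, hε, h2⟩ := Metric.isOpen_iff.mp h1 x hx
  exact ⟨ε, hε, fun y hy => h2 hy⟩

end Emb

end Pool.Agent.Helper381
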