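import Pool.Agent.Helper381.EmbRiem

/-! Linear isometries act by isometries of the Riemannian distance. -/

namespace Pool.Agent.Helper381

universe u v w

open Set Manifold Bundle Bornology MeasureTheory
open scoped ContDiff Topology ENNReal

namespace Emb

variable {V : Type u} {E : Type v} [NormedAddCommGroup V] [InnerProductSpace ℝ V]
  [NormedAddCommGroup E] [NormedSpace ℝ E] (d : Emb V E)

/-- the action of a linear isometry -/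
def act (k : V ≃ₗᵢ[ℝ] V) (hk : d.Pres k) (x : d.X) : d.X :=
  d.pt (k (d.incl x)) ((hk _).mp (d.incl_mem x))

theorem incl_act (k : V ≃ₗᵢ[ℝ] V) (hk : d.Pres k) (x : d.X) :
    d.incl (d.act k hk x) = k (d.incl x) := rfl

theorem continuous_act (k : V ≃ₗᵢ[ℝ] V) (hk : d.Pres k) : Continuous (d.act k hk) := by
  rw [d.isInducing_incl.continuous_iff]
  exact k.continuous.comp d.continuous_incl

theorem contMDiff_act (k : V ≃ₗᵢ[ℝ] V) (hk : d.Pres k) :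
    ContMDiff 𝓘(ℝ, E) 𝓘(ℝ, E) ∞ (d.act k hk) := by
  intro x₀
  set y₀ := d.act k hk x₀ with hy₀
  have h0 : (d.kk y₀).symm (d.incl y₀) ∈ d.O :=
    (d.mem_extChartAt_source_iff y₀ y₀).mp (mem_extChartAt_source y₀)
  have hlin : ContMDiffAt 𝓘(ℝ, E) 𝓘(ℝ, V) ∞ (fun x => (d.kk y₀).symm (k (d.incl x))) x₀ := by
    have h1 : ContDiff ℝ ∞ (fun v : V => (d.kk y₀).symm (k v)) :=
      (d.kk y₀).symm.contDiff.comp k.contDiff
    exact h1.contMDiff.contMDiffAt.comp x₀ (d.contMDiff_incl x₀)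
  have h0' : (d.kk y₀).symm (k (d.incl x₀)) ∈ d.O := h0
  have hΦ : ContMDiffAt 𝓘(ℝ, V) 𝓘(ℝ, E) ∞ d.Φ ((d.kk y₀).symm (k (d.incl x₀))) := by
    rw [contMDiffAt_iff_contDiffAt]
    exact d.smΦ.contDiffAt (d.openO.mem_nhds h0')
  have h2 : ContMDiffAt 𝓘(ℝ, E) 𝓘(ℝ, E) ∞ (fun x => d.Φ ((d.kk y₀).symm (k (d.incl x)))) x₀ :=
    hΦ.comp x₀ hlin
  have hU : d.Φ ((d.kk y₀).symm (k (d.incl x₀))) ∈ d.U := by
    apply d.Φmem _ _ h0'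
    rw [d.kk_pres y₀]
    simpa using (hk _).mp (d.incl_mem x₀)
  have h3 : ContMDiffAt 𝓘(ℝ, E) 𝓘(ℝ, E) ∞ (extChartAt 𝓘(ℝ, E) y₀).symm
      (d.Φ ((d.kk y₀).symm (k (d.incl x₀)))) := by
    have h1 : ContMDiffOn 𝓘(ℝ, E) 𝓘(ℝ, E) ∞ (extChartAt 𝓘(ℝ, E) y₀).symm
      (extChartAt 𝓘(ℝ, E) y₀).target := contMDiffOn_extChartAt_symm y₀
    rw [extChartAt_target] at h1
    exact h1.contMDiffAt (d.openU.mem_nhds hU)
  have h4 : ContMDiffAt 𝓘(ℝ, E) 𝓘(ℝ, E) ∞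
      ((extChartAt 𝓘(ℝ, E) y₀).symm ∘ (fun x => d.Φ ((d.kk y₀).symm (k (d.incl x))))) x₀ :=
    ContMDiffAt.comp (g := (extChartAt 𝓘(ℝ, E) y₀).symm)
      (f := fun x => d.Φ ((d.kk y₀).symm (k (d.incl x)))) x₀ h3 h2
  refine h4.congr_of_eventuallyEq ?_
  have hnh : ∀ᶠ x in 𝓝 x₀, d.act k hk x ∈ (extChartAt 𝓘(ℝ, E) y₀).source :=
    (d.continuous_act k hk).continuousAt (extChartAt_source_mem_nhds y₀)
  filter_upwards [hnh] with x hx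
  have h5 := (extChartAt 𝓘(ℝ, E) y₀).left_inv hx
  rw [extChartAt_apply] at h5
  exact h5.symm

theorem A_act (k : V ≃ₗᵢ[ℝ] V) (hk : d.Pres k) (x : d.X) (v : TangentSpace 𝓘(ℝ, E) x) :
    d.A (d.act k hk x) (mfderiv 𝓘(ℝ, E) 𝓘(ℝ, E) (d.act k hk) x v) = k (d.A x v) := by
  have h1 := mfderiv_comp x (d.contMDiff_incl.mdifferentiable (by simp) (d.act k hk x))
    ((d.contMDiff_act k hk).mdifferentiable (by simp) x)
  have h2 : d.incl ∘ d.act k hk = k ∘ d.incl := rfl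
  have hkd : MDifferentiableAt 𝓘(ℝ, V) 𝓘(ℝ, V) k (d.incl x) := by
    rw [mdifferentiableAt_iff_differentiableAt]
    exact k.differentiableAt
  have h3 := mfderiv_comp x hkd (d.contMDiff_incl.mdifferentiable (by simp) x)
  rw [h2, h3] at h1
  have h4 := congrArg (fun f => f v) h1
  have h5 : mfderiv 𝓘(ℝ, V) 𝓘(ℝ, V) k (d.incl x) = (k : V →L[ℝ] V) := by
    rw [mfderiv_eq_fderiv]
    exact k.toContinuousLinearEquiv.fderiv
  have h6 : k (d.A x v) = (mfderiv 𝓘(ℝ, V) 𝓘(ℝ, V) k (d.incl x)) (d.A x v) := by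
    rw [h5]; rfl
  rw [h6]
  exact h4.symm

variable [FiniteDimensional ℝ E]

theorem norm_mfderiv_act (k : V ≃ₗᵢ[ℝ] V) (hk : d.Pres k) (x : d.X)
    (v : TangentSpace 𝓘(ℝ, E) x) :
    ‖mfderiv 𝓘(ℝ, E) 𝓘(ℝ, E) (d.act k hk) x v‖ = ‖v‖ := by
  rw [norm_eq, A_act, norm_eq, k.norm_map]

theorem pathELength_act (k : V ≃ₗᵢ[ℝ] V) (hk : d.Pres k) (γ : ℝ → d.X)
    (hγ : ContMDiff 𝓘(ℝ, ℝ) 𝓘(ℝ, E) 1 γ) (a b : ℝ) :
    pathELength 𝓘(ℝ, E) (d.act k hk ∘ γ) a b = pathELength 𝓘(ℝ, E) γ a b := by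
  rw [pathELength_eq_lintegral_mfderiv_Icc, pathELength_eq_lintegral_mfderiv_Icc]
  apply setLIntegral_congr_fun measurableSet_Icc
  intro t _
  have h1 := mfderiv_comp t ((d.contMDiff_act k hk).mdifferentiable (by simp) (γ t))
    (hγ.mdifferentiable (by simp) t)
  have h2 : ‖mfderiv 𝓘(ℝ, ℝ) 𝓘(ℝ, E) (d.act k hk ∘ γ) t 1‖ =
      ‖mfderiv 𝓘(ℝ, ℝ) 𝓘(ℝ, E) γ t 1‖ := by
    rw [h1]
    exact d.norm_mfderiv_act k hk (γ t) (mfderiv 𝓘(ℝ, ℝ) 𝓘(ℝ, E) γ t 1)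
  change ‖mfderiv 𝓘(ℝ, ℝ) 𝓘(ℝ, E) (d.act k hk ∘ γ) t 1‖ₑ = ‖mfderiv 𝓘(ℝ, ℝ) 𝓘(ℝ, E) γ t 1‖ₑ
  rw [← ofReal_norm, ← ofReal_norm]
  exact congrArg ENNReal.ofReal h2

theorem edist_act_le (k : V ≃ₗᵢ[ℝ] V) (hk : d.Pres k) (x y : d.X) :
    riemannianEDist 𝓘(ℝ, E) (d.act k hk x) (d.act k hk y) ≤ riemannianEDist 𝓘(ℝ, E) x y := by
  apply le_of_forall_gt
  intro r hr
  obtain ⟨γ, h0, h1, hsm, hlt, -, -⟩ := exists_lt_locally_constant_of_riemannianEDist_lt hr zero_lt_one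
  have h2 : ContMDiff 𝓘(ℝ, ℝ) 𝓘(ℝ, E) 1 (d.act k hk ∘ γ) :=
    ((d.contMDiff_act k hk).of_le (by simp)).comp hsm
  have h3 := riemannianEDist_le_pathELength (a := 0) (b := 1) (x := d.act k hk x)
    (y := d.act k hk y) h2.contMDiffOn (by simp [h0]) (by simp [h1]) zero_le_one
  rw [d.pathELength_act k hk γ hsm] at h3
  exact lt_of_le_of_lt h3 hlt

end Emb

end Pool.Agent.Helper381
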