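import Pool.Agent.Helper381.Emb

/-! The induced Riemannian metric. -/

namespace Pool.Agent.Helper381

universe u v w

open Set Manifold Bundle
open scoped ContDiff Topology

namespace Emb

variable {V : Type u} {E : Type v} [NormedAddCommGroup V] [InnerProductSpace ℝ V]
  [NormedAddCommGroup E] [NormedSpace ℝ E] (d : Emb V E)

theorem fderiv_q_inj (x₀ : d.X) {u : E} (hu : u ∈ d.U) (v : E)
    (hv : fderiv ℝ (d.q x₀) u v = 0) : v = 0 := by
  have h1 : DifferentiableAt ℝ (d.q x₀) u :=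
    ((d.contDiffOn_q x₀).contDiffAt (d.openU.mem_nhds hu)).differentiableAt (by simp)
  have hO : (d.kk x₀).symm (d.q x₀ u) ∈ d.O := by
    simpa [q] using d.ψO u hu
  have h2 : DifferentiableAt ℝ (d.Φ ∘ (d.kk x₀).symm) (d.q x₀ u) := by
    have h3 : DifferentiableAt ℝ d.Φ ((d.kk x₀).symm (d.q x₀ u)) :=
      (d.smΦ.contDiffAt (d.openO.mem_nhds hO)).differentiableAt (by simp)
    exact h3.comp _ (d.kk x₀).symm.differentiableAt
  have h4 := fderiv_comp u h2 h1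
  have h5 : fderiv ℝ ((d.Φ ∘ (d.kk x₀).symm) ∘ d.q x₀) u = ContinuousLinearMap.id ℝ E := by
    rw [← fderiv_id (x := u)]
    apply Filter.EventuallyEq.fderiv_eq
    filter_upwards [d.openU.mem_nhds hu] with w hw
    simp [q, d.Φψ w hw]
  rw [h5] at h4
  have h6 := congrArg (fun f => f v) h4
  simp only [ContinuousLinearMap.comp_apply, hv, map_zero] at h6
  exact h6

theorem A_inj (x : d.X) (v : TangentSpace 𝓘(ℝ, E) x) (hv : d.A x v = 0) : v = 0 := by
  have hx : x ∈ (chartAt E x).source := mem_chart_source E x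
  have hx' : x ∈ (extChartAt 𝓘(ℝ, E) x).source := mem_extChartAt_source x
  have hu : extChartAt 𝓘(ℝ, E) x x ∈ d.U := by
    rw [← extChartAt_target d x]; exact (extChartAt 𝓘(ℝ, E) x).map_source hx'
  have hb : x ∈ (trivializationAt E (TangentSpace 𝓘(ℝ, E)) x).baseSet :=
    FiberBundle.mem_baseSet_trivializationAt' x
  have h1 : (trivializationAt E (TangentSpace 𝓘(ℝ, E)) x).symmL ℝ x
      ((trivializationAt E (TangentSpace 𝓘(ℝ, E)) x).continuousLinearMapAt ℝ x v) = v :=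
    Trivialization.symmL_continuousLinearMapAt _ hb v
  have h2 := d.A_comp x x hx
    ((trivializationAt E (TangentSpace 𝓘(ℝ, E)) x).continuousLinearMapAt ℝ x v)
  rw [h1, hv] at h2
  have h3 := d.fderiv_q_inj x hu _ h2.symm
  rw [← h1, h3, map_zero]

/-- differential of the inclusion, on the model space -/
noncomputable def A' (x : d.X) : E →L[ℝ] V := d.A x

/-- the metric at a point -/
noncomputable def gg (x : d.X) : TangentSpace 𝓘(ℝ, E) x →L[ℝ] TangentSpace 𝓘(ℝ, E) x →L[ℝ] ℝ :=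
  ((innerSL ℝ (E := V)).bilinearComp (d.A' x) (d.A' x) : E →L[ℝ] E →L[ℝ] ℝ)

theorem gg_apply (x : d.X) (v w : TangentSpace 𝓘(ℝ, E) x) :
    d.gg x v w = inner ℝ (d.A x v) (d.A x w) := rfl

/-- coordinate expression of the metric -/
noncomputable def B (x₀ : d.X) (u : E) : E →L[ℝ] E →L[ℝ] ℝ :=
  (innerSL ℝ (E := V)).bilinearComp (fderiv ℝ (d.q x₀) u) (fderiv ℝ (d.q x₀) u)

theorem contDiffOn_B [FiniteDimensional ℝ E] (x₀ : d.X) : ContDiffOn ℝ ∞ (d.B x₀) d.U := by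
  have h : ContDiffOn ℝ ∞ (fderiv ℝ (d.q x₀)) d.U :=
    (d.contDiffOn_q x₀).fderiv_of_isOpen d.openU (by simp)
  rw [contDiffOn_clm_apply]
  intro v
  rw [contDiffOn_clm_apply]
  intro w
  have h1 : ContDiffOn ℝ ∞ (fun u => fderiv ℝ (d.q x₀) u v) d.U := h.clm_apply contDiffOn_const
  have h2 : ContDiffOn ℝ ∞ (fun u => fderiv ℝ (d.q x₀) u w) d.U := h.clm_apply contDiffOn_const
  exact h1.inner ℝ h2

theorem contMDiff_gg [FiniteDimensional ℝ E] :
    ContMDiff 𝓘(ℝ, E) (𝓘(ℝ, E).prod 𝓘(ℝ, E →L[ℝ] E →L[ℝ] ℝ)) ∞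
      (fun x : d.X => TotalSpace.mk' (E →L[ℝ] E →L[ℝ] ℝ)
        (E := fun x : d.X => TangentSpace 𝓘(ℝ, E) x →L[ℝ] TangentSpace 𝓘(ℝ, E) x →L[ℝ] ℝ)
        x (d.gg x)) := by
  intro x₀
  rw [contMDiffAt_section]
  have h1 : ContMDiffAt 𝓘(ℝ, E) 𝓘(ℝ, E) ∞ (extChartAt 𝓘(ℝ, E) x₀) x₀ := contMDiffAt_extChartAt
  have hmem : extChartAt 𝓘(ℝ, E) x₀ x₀ ∈ d.U := by
    rw [← extChartAt_target]; exact mem_extChartAt_target x₀
  have h2 : ContMDiffAt 𝓘(ℝ, E) 𝓘(ℝ, E →L[ℝ] E →L[ℝ] ℝ) ∞ (d.B x₀) (extChartAt 𝓘(ℝ, E) x₀ x₀) := by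
    rw [contMDiffAt_iff_contDiffAt]
    exact (d.contDiffOn_B x₀).contDiffAt (d.openU.mem_nhds hmem)
  refine (h2.comp x₀ h1).congr_of_eventuallyEq ?_
  filter_upwards [(chartAt E x₀).open_source.mem_nhds (mem_chart_source E x₀)] with x hx
  ext v w
  rw [hom_trivializationAt_apply]
  simp only [ContinuousLinearMap.inCoordinates, ContinuousLinearMap.comp_apply]
  have hb : x ∈ (trivializationAt E (TangentSpace 𝓘(ℝ, E)) x₀).baseSet := by
    simpa using hx
  have hb2 : x ∈ (trivializationAt (E →L[ℝ] ℝ)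
      (fun x : d.X => TangentSpace 𝓘(ℝ, E) x →L[ℝ] ℝ) x₀).baseSet := by
    simpa using hx
  simp only [Trivialization.continuousLinearMapAt_apply, Trivialization.coe_linearMapAt_of_mem _ hb2]
  rw [hom_trivializationAt_apply]
  simp only [ContinuousLinearMap.inCoordinates, ContinuousLinearMap.comp_apply]
  have key : d.gg x ((trivializationAt E (TangentSpace 𝓘(ℝ, E)) x₀).symmL ℝ x v)
      ((trivializationAt E (TangentSpace 𝓘(ℝ, E)) x₀).symmL ℝ x w) =
      d.B x₀ (extChartAt 𝓘(ℝ, E) x₀ x) v w := by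
    rw [gg_apply, d.A_comp x₀ x hx, d.A_comp x₀ x hx]
    rfl
  rw [key]
  have h3 := Trivial.continuousLinearMapAt_trivialization ℝ d.X ℝ x
  exact congrArg (fun f => f (d.B x₀ (extChartAt 𝓘(ℝ, E) x₀ x) v w)) h3

end Emb

end Pool.Agent.Helper381
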