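import Pool.Agent.Helper381.EmbMetric

/-! The induced Riemannian structure and isometries. -/

namespace Pool.Agent.Helper381

universe u v w

open Set Manifold Bundle Bornology
open scoped ContDiff Topology

namespace Emb

variable {V : Type u} {E : Type v} [NormedAddCommGroup V] [InnerProductSpace ℝ V]
  [NormedAddCommGroup E] [NormedSpace ℝ E] (d : Emb V E)

theorem gg_bdd [FiniteDimensional ℝ E] (x : d.X) :
    IsVonNBounded ℝ {v : TangentSpace 𝓘(ℝ, E) x | d.gg x v v < 1} := by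
  have hinj : Function.Injective (d.A' x) := by
    intro a b hab
    have h1 : d.A x (a - b : E) = 0 := by
      have : d.A' x (a - b) = 0 := by rw [map_sub, hab, sub_self]
      exact this
    exact sub_eq_zero.mp (d.A_inj x _ h1)
  have hker : LinearMap.ker (d.A' x : E →ₗ[ℝ] V) = ⊥ := LinearMap.ker_eq_bot.mpr hinj
  obtain ⟨K, hK, hA⟩ := (d.A' x : E →ₗ[ℝ] V).exists_antilipschitzWith hker
  have hb : IsVonNBounded ℝ (Metric.ball (0 : E) (K + 1)) := NormedSpace.isVonNBounded_ball ℝ E _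
  have h2 : {v : E | d.gg x v v < 1} ⊆ Metric.ball (0 : E) (K + 1) := by
    intro v hv
    have hv1 : d.gg x v v < 1 := hv
    have hv' : ‖d.A' x v‖ ^ 2 < 1 := by
      rw [← real_inner_self_eq_norm_sq]
      exact hv1
    have h3 : ‖d.A' x v‖ < 1 := by
      nlinarith [norm_nonneg (d.A' x v)]
    have h4 := hA.le_mul_dist v 0
    rw [dist_zero_right, map_zero, dist_zero_right] at h4
    rw [Metric.mem_ball, dist_zero_right]
    have h5 : ‖(d.A' x : E →ₗ[ℝ] V) v‖ = ‖d.A' x v‖ := rfl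
    rw [h5] at h4
    have h6 : (K : ℝ) * ‖d.A' x v‖ ≤ K * 1 := mul_le_mul_of_nonneg_left h3.le K.2
    linarith
  exact hb.subset h2

/-- the induced metric -/
noncomputable def rm [FiniteDimensional ℝ E] :
    ContMDiffRiemannianMetric 𝓘(ℝ, E) ∞ E (fun x : d.X => TangentSpace 𝓘(ℝ, E) x) where
  inner x := d.gg x
  symm x v w := by
    rw [gg_apply, gg_apply, real_inner_comm]
  pos x v hv := by
    rw [gg_apply, real_inner_self_eq_norm_sq]
    have : d.A x v ≠ 0 := fun h => hv (d.A_inj x v h)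
    positivity
  isVonNBounded x := d.gg_bdd x
  contMDiff := d.contMDiff_gg

noncomputable instance [FiniteDimensional ℝ E] :
    RiemannianBundle (fun x : d.X => TangentSpace 𝓘(ℝ, E) x) := ⟨d.rm.toRiemannianMetric⟩

instance [FiniteDimensional ℝ E] :
    IsContMDiffRiemannianBundle 𝓘(ℝ, E) ∞ E (fun x : d.X => TangentSpace 𝓘(ℝ, E) x) :=
  ⟨d.gg, d.contMDiff_gg, fun _ _ _ => rfl⟩

theorem inner_eq [FiniteDimensional ℝ E] (x : d.X) (v w : TangentSpace 𝓘(ℝ, E) x) :
    inner ℝ v w = inner ℝ (d.A x v) (d.A x w) := rfl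

theorem norm_eq [FiniteDimensional ℝ E] (x : d.X) (v : TangentSpace 𝓘(ℝ, E) x) :
    ‖v‖ = ‖d.A x v‖ := by
  have h : ‖v‖ ^ 2 = ‖d.A x v‖ ^ 2 := by
    rw [← real_inner_self_eq_norm_sq (d.A x v), ← d.inner_eq, real_inner_self_eq_norm_sq]
  exact (sq_eq_sq₀ (norm_nonneg _) (norm_nonneg _)).mp h

end Emb

end Pool.Agent.Helper381
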