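import Mathlib

/-! Discrete energy estimates for Riemannian metrics in a chart. -/

namespace Pool.Agent.Helper381

universe u v w

open Metric Set

/-- Metric coefficients on a ball with uniform `C^{1,1}` control. -/
structure MetCoef (E : Type v) [NormedAddCommGroup E] [NormedSpace ℝ E] where
  x₀ : E
  r : ℝ
  rpos : 0 < r
  G : E → E →ₗ[ℝ] E →ₗ[ℝ] ℝ
  lam : ℝ
  C : ℝ
  lampos : 0 < lam
  Cpos : 0 < C
  symm : ∀ x ∈ ball x₀ r, ∀ v w, G x v w = G x w v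
  lower : ∀ x ∈ ball x₀ r, ∀ v, lam * ‖v‖ ^ 2 ≤ G x v v
  upper : ∀ x ∈ ball x₀ r, ∀ v, G x v v ≤ C * ‖v‖ ^ 2
  lip : ∀ x ∈ ball x₀ r, ∀ y ∈ ball x₀ r, ∀ v w, |G x v w - G y v w| ≤ C * ‖x - y‖ * ‖v‖ * ‖w‖
  mid : ∀ x ∈ ball x₀ r, ∀ y ∈ ball x₀ r, ∀ v,
    |(G x v v + G y v v) / 2 - G ((1 / 2 : ℝ) • (x + y)) v v| ≤ C * ‖x - y‖ ^ 2 * ‖v‖ ^ 2

section Sums

/-- Cauchy-Schwarz for sums of squares -/
theorem sq_sum_le (n : ℕ) (f : ℕ → ℝ) :
    (∑ i ∈ Finset.range n, f i) ^ 2 ≤ n * ∑ i ∈ Finset.range n, f i ^ 2 := by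
  have := sq_sum_le_card_mul_sum_sq (s := Finset.range n) (f := f)
  simpa using this

variable {E : Type v} [AddCommGroup E] [Module ℝ E]

/-- Cauchy-Schwarz for a positive semidefinite form -/
theorem form_sum_le (B : E →ₗ[ℝ] E →ₗ[ℝ] ℝ) (hsymm : ∀ v w, B v w = B w v)
    (hpos : ∀ v, 0 ≤ B v v) (n : ℕ) (f : ℕ → E) :
    B (∑ i ∈ Finset.range n, f i) (∑ i ∈ Finset.range n, f i) ≤
      n * ∑ i ∈ Finset.range n, B (f i) (f i) := by
  have h1 : ∀ i j, B (f i) (f j) ≤ (B (f i) (f i) + B (f j) (f j)) / 2 := by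
    intro i j
    have := hpos (f i - f j)
    simp only [map_sub, LinearMap.sub_apply] at this
    rw [hsymm (f j) (f i)] at this
    linarith
  have h2 : B (∑ i ∈ Finset.range n, f i) (∑ i ∈ Finset.range n, f i) =
      ∑ i ∈ Finset.range n, ∑ j ∈ Finset.range n, B (f j) (f i) := by
    simp only [map_sum, LinearMap.sum_apply]
  rw [h2]
  calc ∑ i ∈ Finset.range n, ∑ j ∈ Finset.range n, B (f j) (f i)
      ≤ ∑ i ∈ Finset.range n, ∑ j ∈ Finset.range n, (B (f j) (f j) + B (f i) (f i)) / 2 :=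
        Finset.sum_le_sum fun i _ => Finset.sum_le_sum fun j _ => h1 j i
    _ = n * ∑ i ∈ Finset.range n, B (f i) (f i) := by
        simp only [← Finset.sum_div, Finset.sum_add_distrib, Finset.sum_const, Finset.card_range,
          nsmul_eq_mul, ← Finset.mul_sum]
        ring

end Sums

namespace MetCoef

variable {E : Type v} [NormedAddCommGroup E] [NormedSpace ℝ E] (g : MetCoef E)

theorem nonneg {x : E} (hx : x ∈ ball g.x₀ g.r) (v : E) : 0 ≤ g.G x v v :=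
  le_trans (mul_nonneg g.lampos.le (sq_nonneg _)) (g.lower x hx v)

/-- per-step estimate -/
theorem step {ρ : ℝ} (hρ : ρ ≤ g.r) {x y : E} (hx : x ∈ ball g.x₀ ρ) (hy : y ∈ ball g.x₀ ρ)
    (b η : E) :
    |(g.G x (b - (1 / 2 : ℝ) • η) (b - (1 / 2 : ℝ) • η) +
      g.G y (b + (1 / 2 : ℝ) • η) (b + (1 / 2 : ℝ) • η)) / 2 -
      g.G ((1 / 2 : ℝ) • (x + y)) b b - 1 / 4 * g.G g.x₀ η η| ≤
      g.C * ‖x - y‖ ^ 2 * ‖b‖ ^ 2 + g.C / 2 * ‖x - y‖ * ‖b‖ * ‖η‖ + g.C * ρ / 4 * ‖η‖ ^ 2 := by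
  have hx' : x ∈ ball g.x₀ g.r := ball_subset_ball hρ hx
  have hy' : y ∈ ball g.x₀ g.r := ball_subset_ball hρ hy
  have h0 : g.x₀ ∈ ball g.x₀ g.r := mem_ball_self g.rpos
  have e1 := g.mid x hx' y hy' b
  have e2 := g.lip x hx' y hy' b η
  have e3 := g.lip x hx' g.x₀ h0 η η
  have e4 := g.lip y hy' g.x₀ h0 η η
  have n3 : ‖x - g.x₀‖ ≤ ρ := by rw [← dist_eq_norm]; exact (mem_ball.mp hx).le
  have n4 : ‖y - g.x₀‖ ≤ ρ := by rw [← dist_eq_norm]; exact (mem_ball.mp hy).le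
  have e3' : |g.G x η η - g.G g.x₀ η η| ≤ g.C * ρ * ‖η‖ ^ 2 := by
    refine e3.trans ?_
    have : g.C * ‖x - g.x₀‖ * ‖η‖ * ‖η‖ = g.C * ‖x - g.x₀‖ * ‖η‖ ^ 2 := by ring
    rw [this]
    have := g.Cpos
    gcongr
  have e4' : |g.G y η η - g.G g.x₀ η η| ≤ g.C * ρ * ‖η‖ ^ 2 := by
    refine e4.trans ?_
    have : g.C * ‖y - g.x₀‖ * ‖η‖ * ‖η‖ = g.C * ‖y - g.x₀‖ * ‖η‖ ^ 2 := by ring
    rw [this]
    have := g.Cpos
    gcongr
  have sx := g.symm x hx' b η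
  have sy := g.symm y hy' b η
  have key : (g.G x (b - (1 / 2 : ℝ) • η) (b - (1 / 2 : ℝ) • η) +
      g.G y (b + (1 / 2 : ℝ) • η) (b + (1 / 2 : ℝ) • η)) / 2 -
      g.G ((1 / 2 : ℝ) • (x + y)) b b - 1 / 4 * g.G g.x₀ η η =
      ((g.G x b b + g.G y b b) / 2 - g.G ((1 / 2 : ℝ) • (x + y)) b b) -
      1 / 2 * (g.G x b η - g.G y b η) + 1 / 8 * (g.G x η η - g.G g.x₀ η η) +
      1 / 8 * (g.G y η η - g.G g.x₀ η η) := by
    simp only [map_sub, map_add, LinearMap.sub_apply, LinearMap.add_apply, map_smul,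
      LinearMap.smul_apply, smul_eq_mul, ← sx, ← sy]
    ring
  rw [key]
  rw [abs_le] at *
  constructor <;> nlinarith [e1.1, e1.2, e2.1, e2.2, e3'.1, e3'.2, e4'.1, e4'.2]

/-- energy of a chain -/
noncomputable def energy (n : ℕ) (a : ℕ → E) : ℝ :=
  n * ∑ i ∈ Finset.range n, g.G (a i) (a (i + 1) - a i) (a (i + 1) - a i)

/-- total error bound -/
theorem err_bound {ρ A : ℝ} (hA : 0 ≤ A) {n : ℕ} (hn : 0 < n) (D : ℝ) (δ b η : ℕ → ℝ)
    (hδ0 : ∀ i < n, 0 ≤ δ i) (hb0 : ∀ i < n, 0 ≤ b i) (hη0 : ∀ i < n, 0 ≤ η i)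
    (hδ : ∀ i < n, δ i ≤ D) (hD : 0 ≤ D) (hD2 : D ^ 2 ≤ n * ∑ i ∈ Finset.range n, η i ^ 2)
    (hS : ∑ i ∈ Finset.range n, η i ≤ D)
    (hb : ∀ i < n, b i ≤ A / n) :
    n * ∑ i ∈ Finset.range n, (g.C * δ i ^ 2 * b i ^ 2 + g.C / 2 * δ i * b i * η i +
      g.C * ρ / 4 * η i ^ 2) ≤
      (g.C * A ^ 2 + g.C * A / 2 + g.C * ρ / 4) * (n * ∑ i ∈ Finset.range n, η i ^ 2) := by
  have hC := g.Cpos
  have hn' : (0 : ℝ) < n := by exact_mod_cast hn
  have h1 : ∀ i ∈ Finset.range n, g.C * δ i ^ 2 * b i ^ 2 + g.C / 2 * δ i * b i * η i +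
      g.C * ρ / 4 * η i ^ 2 ≤ g.C * D ^ 2 * (A / n) ^ 2 + g.C / 2 * D * (A / n) * η i +
      g.C * ρ / 4 * η i ^ 2 := by
    intro i hi
    rw [Finset.mem_range] at hi
    have a1 := hδ0 i hi
    have a2 := hb0 i hi
    have a3 := hη0 i hi
    have a4 := hδ i hi
    have a5 := hb i hi
    gcongr
  have h2 := Finset.sum_le_sum h1
  have h3 : ∑ i ∈ Finset.range n, (g.C * D ^ 2 * (A / n) ^ 2 + g.C / 2 * D * (A / n) * η i +
      g.C * ρ / 4 * η i ^ 2) = n * (g.C * D ^ 2 * (A / n) ^ 2) +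
      g.C / 2 * D * (A / n) * (∑ i ∈ Finset.range n, η i) +
      g.C * ρ / 4 * ∑ i ∈ Finset.range n, η i ^ 2 := by
    simp only [Finset.sum_add_distrib, ← Finset.mul_sum, Finset.sum_const, Finset.card_range,
      nsmul_eq_mul]
    ring
  rw [h3] at h2
  have h4 : g.C / 2 * D * (A / n) * (∑ i ∈ Finset.range n, η i) ≤
      g.C / 2 * D * (A / n) * D := by
    apply mul_le_mul_of_nonneg_left hS
    positivity
  have h5 : n * (n * (g.C * D ^ 2 * (A / n) ^ 2) + g.C / 2 * D * (A / n) * D) =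
      (g.C * A ^ 2 + g.C * A / 2) * D ^ 2 := by
    field_simp
  have h6 : (g.C * A ^ 2 + g.C * A / 2) * D ^ 2 ≤
      (g.C * A ^ 2 + g.C * A / 2) * (n * ∑ i ∈ Finset.range n, η i ^ 2) := by
    apply mul_le_mul_of_nonneg_left hD2
    positivity
  calc n * ∑ i ∈ Finset.range n, (g.C * δ i ^ 2 * b i ^ 2 + g.C / 2 * δ i * b i * η i +
      g.C * ρ / 4 * η i ^ 2)
      ≤ n * (n * (g.C * D ^ 2 * (A / n) ^ 2) + g.C / 2 * D * (A / n) * D +
        g.C * ρ / 4 * ∑ i ∈ Finset.range n, η i ^ 2) := by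
        apply mul_le_mul_of_nonneg_left _ hn'.le
        linarith
    _ = n * (n * (g.C * D ^ 2 * (A / n) ^ 2) + g.C / 2 * D * (A / n) * D) +
        g.C * ρ / 4 * (n * ∑ i ∈ Finset.range n, η i ^ 2) := by ring
    _ ≤ _ := by
        rw [h5]
        linarith

/-- strong convexity of the discrete energy -/
theorem energy_sc {ρ A : ℝ} (hρ : ρ ≤ g.r) (hA : 0 ≤ A)
    (hsmall : g.C * A ^ 2 + g.C * A / 2 + g.C * ρ / 4 ≤ g.lam / 16) {n : ℕ} (hn : 0 < n)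
    (a b : ℕ → E) (h0 : a 0 = b 0) (ha : ∀ i ≤ n, a i ∈ ball g.x₀ ρ)
    (hb : ∀ i ≤ n, b i ∈ ball g.x₀ ρ) (ha' : ∀ i < n, ‖a (i + 1) - a i‖ ≤ A / n)
    (hb' : ∀ i < n, ‖b (i + 1) - b i‖ ≤ A / n) :
    g.energy n (fun i => (1 / 2 : ℝ) • (a i + b i)) ≤ (g.energy n a + g.energy n b) / 2 -
      3 / 16 * g.G g.x₀ (a n - b n) (a n - b n) := by
  have hn' : (0 : ℝ) < n := by exact_mod_cast hn
  have h00 : g.x₀ ∈ ball g.x₀ g.r := mem_ball_self g.rpos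
  let δ : ℕ → E := fun i => b i - a i
  let η : ℕ → E := fun i => δ (i + 1) - δ i
  let β : ℕ → E := fun i => (1 / 2 : ℝ) • (a (i + 1) + b (i + 1)) - (1 / 2 : ℝ) • (a i + b i)
  have e1 : ∀ i, β i - (1 / 2 : ℝ) • η i = a (i + 1) - a i := by
    intro i; simp only [β, η, δ]; module
  have e2 : ∀ i, β i + (1 / 2 : ℝ) • η i = b (i + 1) - b i := by
    intro i; simp only [β, η, δ]; module
  have hβ : ∀ i < n, ‖β i‖ ≤ A / n := by
    intro i hi
    have : β i = (1 / 2 : ℝ) • ((a (i + 1) - a i) + (b (i + 1) - b i)) := by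
      simp only [β]; module
    rw [this, norm_smul]
    have h1 := norm_add_le (a (i + 1) - a i) (b (i + 1) - b i)
    have h2 := ha' i hi
    have h3 := hb' i hi
    have : ‖(1 / 2 : ℝ)‖ = 1 / 2 := by norm_num
    rw [this]
    linarith
  set err : ℕ → ℝ := fun i => g.C * ‖a i - b i‖ ^ 2 * ‖β i‖ ^ 2 +
    g.C / 2 * ‖a i - b i‖ * ‖β i‖ * ‖η i‖ + g.C * ρ / 4 * ‖η i‖ ^ 2 with herr
  have hstep : ∀ i ∈ Finset.range n, g.G ((1 / 2 : ℝ) • (a i + b i)) (β i) (β i) ≤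
      (g.G (a i) (a (i + 1) - a i) (a (i + 1) - a i) +
        g.G (b i) (b (i + 1) - b i) (b (i + 1) - b i)) / 2 -
        1 / 4 * g.G g.x₀ (η i) (η i) + err i := by
    intro i hi
    rw [Finset.mem_range] at hi
    have := g.step hρ (ha i hi.le) (hb i hi.le) (β i) (η i)
    rw [e1, e2, abs_le] at this
    simp only [herr]
    linarith [this.1]
  have hsum := Finset.sum_le_sum hstep
  have hδ : ∀ i, δ i = ∑ j ∈ Finset.range i, η j := by
    intro i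
    rw [Finset.sum_range_sub]
    simp [δ, h0]
  set D := ∑ j ∈ Finset.range n, ‖η j‖ with hD
  have hδn : ∀ i < n, ‖a i - b i‖ ≤ D := by
    intro i hi
    have : ‖a i - b i‖ = ‖δ i‖ := by simp only [δ]; rw [norm_sub_rev]
    rw [this, hδ]
    refine (norm_sum_le _ _).trans ?_
    exact Finset.sum_le_sum_of_subset_of_nonneg (Finset.range_mono hi.le)
      (fun _ _ _ => norm_nonneg _)
  have hD0 : 0 ≤ D := Finset.sum_nonneg fun _ _ => norm_nonneg _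
  have herrb := g.err_bound (ρ := ρ) hA hn D (fun i => ‖a i - b i‖) (fun i => ‖β i‖)
    (fun i => ‖η i‖) (fun _ _ => norm_nonneg _) (fun _ _ => norm_nonneg _)
    (fun _ _ => norm_nonneg _) hδn hD0 (sq_sum_le n _) le_rfl hβ
  have hH0 : 0 ≤ (n : ℝ) * ∑ i ∈ Finset.range n, ‖η i‖ ^ 2 := by positivity
  have hX : g.lam * (n * ∑ i ∈ Finset.range n, ‖η i‖ ^ 2) ≤
      n * ∑ i ∈ Finset.range n, g.G g.x₀ (η i) (η i) := by
    have : g.lam * (n * ∑ i ∈ Finset.range n, ‖η i‖ ^ 2) =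
        n * ∑ i ∈ Finset.range n, g.lam * ‖η i‖ ^ 2 := by
      rw [← Finset.mul_sum]; ring
    rw [this]
    apply mul_le_mul_of_nonneg_left _ hn'.le
    exact Finset.sum_le_sum fun i _ => g.lower _ h00 _
  have hQ := form_sum_le (g.G g.x₀) (g.symm _ h00) (g.nonneg h00) n η
  rw [← hδ n] at hQ
  have hQ' : g.G g.x₀ (a n - b n) (a n - b n) = g.G g.x₀ (δ n) (δ n) := by
    have : a n - b n = -(δ n) := by simp only [δ]; abel
    rw [this]; simp
  rw [hQ']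
  have hE : g.energy n (fun i => (1 / 2 : ℝ) • (a i + b i)) =
      n * ∑ i ∈ Finset.range n, g.G ((1 / 2 : ℝ) • (a i + b i)) (β i) (β i) := rfl
  have hEa : g.energy n a = n * ∑ i ∈ Finset.range n,
      g.G (a i) (a (i + 1) - a i) (a (i + 1) - a i) := rfl
  have hEb : g.energy n b = n * ∑ i ∈ Finset.range n,
      g.G (b i) (b (i + 1) - b i) (b (i + 1) - b i) := rfl
  have hsum' : ∑ i ∈ Finset.range n, ((g.G (a i) (a (i + 1) - a i) (a (i + 1) - a i) +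
        g.G (b i) (b (i + 1) - b i) (b (i + 1) - b i)) / 2 -
        1 / 4 * g.G g.x₀ (η i) (η i) + err i) =
      (∑ i ∈ Finset.range n, g.G (a i) (a (i + 1) - a i) (a (i + 1) - a i) +
        ∑ i ∈ Finset.range n, g.G (b i) (b (i + 1) - b i) (b (i + 1) - b i)) / 2 -
        1 / 4 * ∑ i ∈ Finset.range n, g.G g.x₀ (η i) (η i) + ∑ i ∈ Finset.range n, err i := by
    rw [Finset.sum_add_distrib, Finset.sum_sub_distrib, ← Finset.sum_div,
      Finset.sum_add_distrib, ← Finset.mul_sum]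
  rw [hsum'] at hsum
  have hm := mul_le_mul_of_nonneg_left hsum hn'.le
  have h9 := mul_le_mul_of_nonneg_right hsmall hH0
  have herrb' : n * ∑ i ∈ Finset.range n, err i ≤
    (g.C * A ^ 2 + g.C * A / 2 + g.C * ρ / 4) * (n * ∑ i ∈ Finset.range n, ‖η i‖ ^ 2) := herrb
  rw [hE, hEa, hEb]
  nlinarith [hm, h9, herrb', hX, hQ]

/-- semiconcavity of the discrete energy -/
theorem energy_scc {ρ A : ℝ} (hρ : ρ ≤ g.r) (hA : 0 ≤ A)
    (hsmall : g.C * A ^ 2 + g.C * A / 2 + g.C * ρ / 4 ≤ g.lam / 16) {n : ℕ} (hn : 0 < n)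
    (m : ℕ → E) (e : E) (ha : ∀ i ≤ n, m i + ((i : ℝ) / n) • e ∈ ball g.x₀ ρ)
    (hb : ∀ i ≤ n, m i - ((i : ℝ) / n) • e ∈ ball g.x₀ ρ)
    (hm : ∀ i < n, ‖m (i + 1) - m i‖ ≤ A / n) :
    (g.energy n (fun i => m i + ((i : ℝ) / n) • e) +
      g.energy n (fun i => m i - ((i : ℝ) / n) • e)) / 2 ≤
      g.energy n m + 5 / 4 * g.G g.x₀ e e := by
  have hn' : (0 : ℝ) < n := by exact_mod_cast hn
  have h00 : g.x₀ ∈ ball g.x₀ g.r := mem_ball_self g.rpos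
  let a : ℕ → E := fun i => m i + ((i : ℝ) / n) • e
  let b : ℕ → E := fun i => m i - ((i : ℝ) / n) • e
  let η : E := -((2 : ℝ) / n) • e
  let β : ℕ → E := fun i => m (i + 1) - m i
  have e0 : ∀ i, (1 / 2 : ℝ) • (a i + b i) = m i := by
    intro i; simp only [a, b]; module
  have e1 : ∀ i, β i - (1 / 2 : ℝ) • η = a (i + 1) - a i := by
    intro i
    simp only [β, η, a]
    push_cast
    have : (((i : ℝ) + 1) / n) = (i : ℝ) / n + 1 / n := by ring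
    rw [this]
    module
  have e2 : ∀ i, β i + (1 / 2 : ℝ) • η = b (i + 1) - b i := by
    intro i
    simp only [β, η, b]
    push_cast
    have : (((i : ℝ) + 1) / n) = (i : ℝ) / n + 1 / n := by ring
    rw [this]
    module
  set err : ℕ → ℝ := fun i => g.C * ‖a i - b i‖ ^ 2 * ‖β i‖ ^ 2 +
    g.C / 2 * ‖a i - b i‖ * ‖β i‖ * ‖η‖ + g.C * ρ / 4 * ‖η‖ ^ 2 with herr
  have hstep : ∀ i ∈ Finset.range n,
      (g.G (a i) (a (i + 1) - a i) (a (i + 1) - a i) +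
        g.G (b i) (b (i + 1) - b i) (b (i + 1) - b i)) / 2 ≤
        g.G (m i) (β i) (β i) + 1 / 4 * g.G g.x₀ η η + err i := by
    intro i hi
    rw [Finset.mem_range] at hi
    have := g.step hρ (ha i hi.le) (hb i hi.le) (β i) η
    change |(g.G (a i) (β i - (1 / 2 : ℝ) • η) (β i - (1 / 2 : ℝ) • η) +
      g.G (b i) (β i + (1 / 2 : ℝ) • η) (β i + (1 / 2 : ℝ) • η)) / 2 -
      g.G ((1 / 2 : ℝ) • (a i + b i)) (β i) (β i) - 1 / 4 * g.G g.x₀ η η| ≤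
      g.C * ‖a i - b i‖ ^ 2 * ‖β i‖ ^ 2 +
    g.C / 2 * ‖a i - b i‖ * ‖β i‖ * ‖η‖ + g.C * ρ / 4 * ‖η‖ ^ 2 at this
    rw [e1, e2, e0, abs_le] at this
    simp only [herr]
    linarith [this.2]
  have hsum := Finset.sum_le_sum hstep
  have hηn : ‖η‖ = 2 / n * ‖e‖ := by
    simp only [η]
    rw [norm_smul, norm_neg, Real.norm_of_nonneg (by positivity)]
  have hδn : ∀ i < n, ‖a i - b i‖ ≤ 2 * ‖e‖ := by
    intro i hi
    have : a i - b i = (2 * ((i : ℝ) / n)) • e := by simp only [a, b]; module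
    rw [this, norm_smul, Real.norm_of_nonneg (by positivity)]
    have h1 : (i : ℝ) / n ≤ 1 := by
      rw [div_le_one hn']; exact_mod_cast hi.le
    have := norm_nonneg e
    nlinarith
  have hsumη : ∑ _i ∈ Finset.range n, ‖η‖ = 2 * ‖e‖ := by
    rw [Finset.sum_const, Finset.card_range, nsmul_eq_mul, hηn]
    field_simp
  have hsumη2 : (n : ℝ) * ∑ _i ∈ Finset.range n, ‖η‖ ^ 2 = 4 * ‖e‖ ^ 2 := by
    rw [Finset.sum_const, Finset.card_range, nsmul_eq_mul, hηn]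
    field_simp
    ring
  have herrb := g.err_bound (ρ := ρ) hA hn (2 * ‖e‖) (fun i => ‖a i - b i‖) (fun i => ‖β i‖)
    (fun _ => ‖η‖) (fun _ _ => norm_nonneg _) (fun _ _ => norm_nonneg _)
    (fun _ _ => norm_nonneg _) hδn (by positivity) (by rw [hsumη2]; ring_nf; rfl) hsumη.le hm
  rw [hsumη2] at herrb
  have hX : g.lam * ‖e‖ ^ 2 ≤ g.G g.x₀ e e := g.lower _ h00 _
  have hGη : (n : ℝ) * ∑ _i ∈ Finset.range n, g.G g.x₀ η η = 4 * g.G g.x₀ e e := by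
    rw [Finset.sum_const, Finset.card_range, nsmul_eq_mul]
    simp only [η, map_smul, LinearMap.smul_apply, smul_eq_mul]
    field_simp
    ring
  have hE : g.energy n m = n * ∑ i ∈ Finset.range n, g.G (m i) (β i) (β i) := rfl
  have hEa : g.energy n (fun i => m i + ((i : ℝ) / n) • e) = n * ∑ i ∈ Finset.range n,
      g.G (a i) (a (i + 1) - a i) (a (i + 1) - a i) := rfl
  have hEb : g.energy n (fun i => m i - ((i : ℝ) / n) • e) = n * ∑ i ∈ Finset.range n,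
      g.G (b i) (b (i + 1) - b i) (b (i + 1) - b i) := rfl
  have hs1 : ∑ i ∈ Finset.range n, (g.G (a i) (a (i + 1) - a i) (a (i + 1) - a i) +
        g.G (b i) (b (i + 1) - b i) (b (i + 1) - b i)) / 2 =
      (∑ i ∈ Finset.range n, g.G (a i) (a (i + 1) - a i) (a (i + 1) - a i) +
        ∑ i ∈ Finset.range n, g.G (b i) (b (i + 1) - b i) (b (i + 1) - b i)) / 2 := by
    rw [← Finset.sum_div, Finset.sum_add_distrib]
  have hs2 : ∑ i ∈ Finset.range n, (g.G (m i) (β i) (β i) + 1 / 4 * g.G g.x₀ η η + err i) =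
      ∑ i ∈ Finset.range n, g.G (m i) (β i) (β i) +
        1 / 4 * ∑ _i ∈ Finset.range n, g.G g.x₀ η η + ∑ i ∈ Finset.range n, err i := by
    rw [Finset.sum_add_distrib, Finset.sum_add_distrib, ← Finset.mul_sum]
  rw [hs1, hs2] at hsum
  have hm' := mul_le_mul_of_nonneg_left hsum hn'.le
  have h9 := mul_le_mul_of_nonneg_right hsmall (by positivity : (0 : ℝ) ≤ 4 * ‖e‖ ^ 2)
  have herrb' : n * ∑ i ∈ Finset.range n, err i ≤
    (g.C * A ^ 2 + g.C * A / 2 + g.C * ρ / 4) * (4 * ‖e‖ ^ 2) := herrb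
  rw [hE, hEa, hEb]
  nlinarith [hm', h9, herrb', hX, hGη]

end MetCoef

end Pool.Agent.Helper381
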