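import Pool.Agent.Helper381.Defs

/-! Metric geometry of compact length spaces with strongly convex charts. -/

namespace Pool.Agent.Helper381

universe u v w

open Metric Set

/-- A chart in which squared distance functions are strongly convex and semiconcave. -/
structure CChart (M : Type u) (E : Type v) [MetricSpace M] [NormedAddCommGroup E]
    [NormedSpace ℝ E] where
  φ : M → E
  ψ : E → M
  V : Set E
  W : Set M
  convexV : Convex ℝ V
  openW : IsOpen W
  φmaps : ∀ x ∈ W, φ x ∈ V
  ψmaps : ∀ v ∈ V, ψ v ∈ W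
  ψφ : ∀ x ∈ W, ψ (φ x) = x
  φψ : ∀ v ∈ V, φ (ψ v) = v
  contφ : ContinuousOn φ W
  contψ : ContinuousOn ψ V
  Q : E → ℝ
  Qpos : ∀ v, v ≠ 0 → 0 < Q v
  sc : ∀ z ∈ W, ∀ u ∈ V, ∀ v ∈ V, dist z (ψ ((1 / 2 : ℝ) • (u + v))) ^ 2 ≤
    (dist z (ψ u) ^ 2 + dist z (ψ v) ^ 2) / 2 - 3 / 16 * Q (u - v)
  scc : ∀ z ∈ W, ∀ u ∈ V, ∀ v ∈ V,
    (dist z (ψ u) ^ 2 + dist z (ψ v) ^ 2) / 2 - 5 / 16 * Q (u - v) ≤
      dist z (ψ ((1 / 2 : ℝ) • (u + v))) ^ 2

/-- Length space with charts of uniform size. -/
structure Geo (M : Type u) (E : Type v) [MetricSpace M] [NormedAddCommGroup E]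
    [NormedSpace ℝ E] (R : ℝ) : Prop where
  Rpos : 0 < R
  chart : ∀ p : M, ∃ c : CChart M E, ball p R ⊆ c.W
  midpt : ∀ x y : M, ∃ m : M, dist x m = dist x y / 2 ∧ dist m y = dist x y / 2

section ChartLemmas

variable {M : Type u} {E : Type v} [MetricSpace M] [NormedAddCommGroup E] [NormedSpace ℝ E]

namespace CChart

variable (c : CChart M E)

theorem half_mem {u v : E} (hu : u ∈ c.V) (hv : v ∈ c.V) : (1 / 2 : ℝ) • (u + v) ∈ c.V := by
  rw [smul_add]
  exact c.convexV hu hv (by norm_num) (by norm_num) (by norm_num)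

/-- chart midpoint -/
noncomputable def mid (x y : M) : M := c.ψ ((1 / 2 : ℝ) • (c.φ x + c.φ y))

theorem mid_mem {x y : M} (hx : x ∈ c.W) (hy : y ∈ c.W) : c.mid x y ∈ c.W :=
  c.ψmaps _ (c.half_mem (c.φmaps _ hx) (c.φmaps _ hy))

theorem sc' {z x y : M} (hz : z ∈ c.W) (hx : x ∈ c.W) (hy : y ∈ c.W) :
    dist z (c.mid x y) ^ 2 ≤ (dist z x ^ 2 + dist z y ^ 2) / 2 - 3 / 16 * c.Q (c.φ x - c.φ y) := by
  have := c.sc z hz (c.φ x) (c.φmaps _ hx) (c.φ y) (c.φmaps _ hy)
  rwa [c.ψφ x hx, c.ψφ y hy] at this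

theorem scc' {z x y : M} (hz : z ∈ c.W) (hx : x ∈ c.W) (hy : y ∈ c.W) :
    (dist z x ^ 2 + dist z y ^ 2) / 2 - 5 / 16 * c.Q (c.φ x - c.φ y) ≤ dist z (c.mid x y) ^ 2 := by
  have := c.scc z hz (c.φ x) (c.φmaps _ hx) (c.φ y) (c.φmaps _ hy)
  rwa [c.ψφ x hx, c.ψφ y hy] at this

theorem Q_pos_of_ne {x y : M} (hx : x ∈ c.W) (hy : y ∈ c.W) (h : x ≠ y) :
    0 < c.Q (c.φ x - c.φ y) := by
  apply c.Qpos
  intro he
  rw [sub_eq_zero] at he
  apply h
  rw [← c.ψφ x hx, ← c.ψφ y hy, he]

/-- strict inequality at chart midpoints -/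
theorem dist_mid_lt {z x y : M} (hz : z ∈ c.W) (hx : x ∈ c.W) (hy : y ∈ c.W) (h : x ≠ y) {r : ℝ}
    (hr : 0 ≤ r) (hzx : dist z x ≤ r) (hzy : dist z y ≤ r) : dist z (c.mid x y) < r := by
  have h1 := c.sc' hz hx hy
  have h2 := c.Q_pos_of_ne hx hy h
  have h3 : dist z x ^ 2 ≤ r ^ 2 := pow_le_pow_left₀ dist_nonneg hzx 2
  have h4 : dist z y ^ 2 ≤ r ^ 2 := pow_le_pow_left₀ dist_nonneg hzy 2
  have h5 : dist z (c.mid x y) ^ 2 < r ^ 2 := by nlinarith
  exact lt_of_pow_lt_pow_left₀ 2 hr h5

end CChart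

/-- A continuous midpoint-convex function on `[0,1]` is bounded by the max of its end values. -/
theorem le_max_of_midconvex (f : ℝ → ℝ) (hf : ContinuousOn f (Icc 0 1))
    (hmid : ∀ s ∈ Icc (0 : ℝ) 1, ∀ t ∈ Icc (0 : ℝ) 1, f ((s + t) / 2) ≤ (f s + f t) / 2)
    (t : ℝ) (ht : t ∈ Icc (0 : ℝ) 1) : f t ≤ max (f 0) (f 1) := by
  obtain ⟨t0, ht0, hmax⟩ := isCompact_Icc.exists_isMaxOn ⟨(0 : ℝ), by simp⟩ hf
  have hmax' : ∀ s ∈ Icc (0 : ℝ) 1, f s ≤ f t0 := fun s hs => hmax hs
  by_contra hcon
  push Not at hcon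
  have hbig : max (f 0) (f 1) < f t0 := lt_of_lt_of_le hcon (hmax' t ht)
  -- the set of maximizers is compact; take its infimum
  let K : Set ℝ := Icc 0 1 ∩ f ⁻¹' (Ici (f t0))
  have hKcl : IsClosed K := hf.preimage_isClosed_of_isClosed isClosed_Icc isClosed_Ici
  have hKne : K.Nonempty := ⟨t0, ht0, Set.mem_preimage.mpr (Set.mem_Ici.mpr le_rfl)⟩
  have hKbd : BddBelow K := ⟨0, fun x hx => hx.1.1⟩
  have hinf := hKcl.csInf_mem hKne hKbd
  set m := sInf K with hm
  have hm01 : m ∈ Icc (0 : ℝ) 1 := hinf.1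
  have hfm : f t0 ≤ f m := hinf.2
  have hm0 : 0 < m := by
    rcases eq_or_lt_of_le hm01.1 with h | h
    · rw [← h] at hfm
      exact absurd hfm (not_le.mpr (lt_of_le_of_lt (le_max_left _ _) hbig))
    · exact h
  have hm1 : m < 1 := by
    rcases eq_or_lt_of_le hm01.2 with h | h
    · rw [h] at hfm
      exact absurd hfm (not_le.mpr (lt_of_le_of_lt (le_max_right _ _) hbig))
    · exact h
  set δ := min m (1 - m) with hδ
  have hδpos : 0 < δ := lt_min hm0 (by linarith)
  have hs : m - δ ∈ Icc (0 : ℝ) 1 := ⟨by linarith [min_le_left m (1 - m)], by linarith⟩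
  have ht' : m + δ ∈ Icc (0 : ℝ) 1 := ⟨by linarith, by linarith [min_le_right m (1 - m)]⟩
  have h1 := hmid _ hs _ ht'
  have h2 : (m - δ + (m + δ)) / 2 = m := by ring
  rw [h2] at h1
  have h3 : f (m - δ) < f t0 := by
    by_contra hc
    push Not at hc
    have : m - δ ∈ K := ⟨hs, hc⟩
    have := csInf_le hKbd this
    linarith
  have h4 := hmax' _ ht'
  linarith

namespace CChart

variable (c : CChart M E)

/-- balls are convex in the chart -/
theorem ball_convex {z : M} (hz : z ∈ c.W) {r : ℝ} {u v : E} (hu : u ∈ c.V) (hv : v ∈ c.V)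
    (hzu : dist z (c.ψ u) < r) (hzv : dist z (c.ψ v) < r) (t : ℝ) (ht : t ∈ Icc (0 : ℝ) 1) :
    dist z (c.ψ ((1 - t) • u + t • v)) < r := by
  have hr : 0 < r := lt_of_le_of_lt dist_nonneg hzu
  have hmem : ∀ t ∈ Icc (0 : ℝ) 1, (1 - t) • u + t • v ∈ c.V := fun t ht =>
    c.convexV hu hv (by linarith [ht.2]) ht.1 (by ring)
  let f : ℝ → ℝ := fun t => dist z (c.ψ ((1 - t) • u + t • v)) ^ 2
  have hf : ContinuousOn f (Icc 0 1) := by
    apply ContinuousOn.pow
    have h1 : ContinuousOn (fun t : ℝ => c.ψ ((1 - t) • u + t • v)) (Icc 0 1) :=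
      c.contψ.comp (by fun_prop) hmem
    exact (continuous_const.dist continuous_id).comp_continuousOn h1
  have hmid : ∀ s ∈ Icc (0 : ℝ) 1, ∀ t ∈ Icc (0 : ℝ) 1, f ((s + t) / 2) ≤ (f s + f t) / 2 := by
    intro s hs t ht
    have h1 := c.sc z hz _ (hmem s hs) _ (hmem t ht)
    have h2 : (1 / 2 : ℝ) • ((1 - s) • u + s • v + ((1 - t) • u + t • v)) =
        (1 - (s + t) / 2) • u + ((s + t) / 2) • v := by
      module
    rw [h2] at h1
    have h3 : 0 ≤ c.Q ((1 - s) • u + s • v - ((1 - t) • u + t • v)) ∨ s = t ∨ u = v := by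
      by_cases hst : s = t
      · exact Or.inr (Or.inl hst)
      · by_cases huv : u = v
        · exact Or.inr (Or.inr huv)
        · left
          apply le_of_lt
          apply c.Qpos
          have : (1 - s) • u + s • v - ((1 - t) • u + t • v) = (t - s) • (u - v) := by module
          rw [this]
          exact smul_ne_zero (sub_ne_zero.mpr (Ne.symm hst)) (sub_ne_zero.mpr huv)
    change f ((s + t) / 2) ≤ _ at h1
    rcases h3 with h3 | h3 | h3
    · change f ((s + t) / 2) ≤ (f s + f t) / 2 - _ at h1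
      linarith
    · rw [h3]
      have : (t + t) / 2 = t := by ring
      rw [this]
      linarith
    · have hc : ∀ s : ℝ, (1 - s) • u + s • v = u := by
        intro s; rw [← h3]; module
      simp only [f, hc]
      linarith
  have h1 := le_max_of_midconvex f hf hmid t ht
  have h0 : f 0 < r ^ 2 := by
    simp only [f, sub_zero, one_smul, zero_smul, add_zero]
    exact pow_lt_pow_left₀ hzu dist_nonneg (by norm_num)
  have h2 : f 1 < r ^ 2 := by
    simp only [f, sub_self, one_smul, zero_smul, zero_add]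
    exact pow_lt_pow_left₀ hzv dist_nonneg (by norm_num)
  have h3 : f t < r ^ 2 := lt_of_le_of_lt h1 (max_lt h0 h2)
  exact lt_of_pow_lt_pow_left₀ 2 hr.le h3

end CChart

end ChartLemmas

section GeoLemmas

variable {M : Type u} {E : Type v} [MetricSpace M] [NormedAddCommGroup E] [NormedSpace ℝ E]
  {R : ℝ} (G : Geo M E R)

include G

/-- unique metric midpoints -/
theorem Geo.midpt_unique {x y m m' : M} (hxy : dist x y < R)
    (h1 : dist x m = dist x y / 2) (h2 : dist m y = dist x y / 2)
    (h1' : dist x m' = dist x y / 2) (h2' : dist m' y = dist x y / 2) : m = m' := by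
  by_contra hne
  obtain ⟨c, hc⟩ := G.chart x
  have hR := G.Rpos
  have hx : x ∈ c.W := hc (mem_ball_self hR)
  have hd : 0 ≤ dist x y := dist_nonneg
  have hm : m ∈ c.W := hc (by rw [mem_ball, dist_comm, h1]; linarith)
  have hm' : m' ∈ c.W := hc (by rw [mem_ball, dist_comm, h1']; linarith)
  have hy : y ∈ c.W := hc (by rw [mem_ball, dist_comm]; exact hxy)
  have h3 := c.dist_mid_lt hx hm hm' hne (r := dist x y / 2) (by linarith) h1.le h1'.le
  have h4 := c.dist_mid_lt hy hm hm' hne (r := dist x y / 2) (by linarith)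
    (by rw [dist_comm]; exact h2.le) (by rw [dist_comm]; exact h2'.le)
  have h5 := dist_triangle x (c.mid m m') y
  rw [dist_comm (c.mid m m') y] at h5
  linarith

/-- geodesics do not branch -/
theorem Geo.nonbranching {x q y y' : M} {r : ℝ} (hr : 2 * r < R)
    (h1 : dist x q = r) (h2 : dist q y = r) (h3 : dist x y = 2 * r)
    (h2' : dist q y' = r) (h3' : dist x y' = 2 * r) : y = y' := by
  by_contra hne
  obtain ⟨c, hc⟩ := G.chart x
  have hR := G.Rpos
  have hr0 : 0 ≤ r := by rw [← h1]; exact dist_nonneg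
  have hx : x ∈ c.W := hc (mem_ball_self hR)
  have hq : q ∈ c.W := hc (by rw [mem_ball, dist_comm, h1]; linarith)
  have hy : y ∈ c.W := hc (by rw [mem_ball, dist_comm, h3]; exact hr)
  have hy' : y' ∈ c.W := hc (by rw [mem_ball, dist_comm, h3']; exact hr)
  have hQ := c.Q_pos_of_ne hy hy' hne
  have a1 := c.sc' hq hy hy'
  have a2 := c.scc' hx hy hy'
  rw [h2, h2'] at a1
  rw [h3, h3'] at a2
  have a3 := dist_triangle x q (c.mid y y')
  rw [h1] at a3
  set s := dist q (c.mid y y') with hs
  have hs0 : 0 ≤ s := dist_nonneg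
  have a4 : dist x (c.mid y y') ^ 2 ≤ (r + s) ^ 2 := pow_le_pow_left₀ dist_nonneg a3 2
  nlinarith [sq_nonneg (r - s)]

/-- fixed points of an isometry near an isolated fixed point -/
theorem Geo.isolated_uniform (s : M ≃ᵢ M) {q : M} (hsq : s q = q)
    (hiso : ∃ ε > 0, ∀ y, dist y q < ε → s y = y → y = q)
    {x : M} (hx : dist x q < R) (hsx : s x = x) : x = q := by
  obtain ⟨ε, hε, hiso⟩ := hiso
  -- halving
  have key : ∀ n : ℕ, ∃ y, s y = y ∧ dist y q = dist x q / 2 ^ n := by
    intro n
    induction n with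
    | zero => exact ⟨x, hsx, by simp⟩
    | succ n ih =>
      obtain ⟨y, hy, hyq⟩ := ih
      obtain ⟨m, hm1, hm2⟩ := G.midpt y q
      have hlt : dist y q < R := by
        rw [hyq]
        refine lt_of_le_of_lt ?_ hx
        apply div_le_self dist_nonneg
        exact one_le_pow₀ (by norm_num)
      refine ⟨m, ?_, ?_⟩
      · apply G.midpt_unique hlt _ _ hm1 hm2
        · calc dist y (s m) = dist (s y) (s m) := by rw [hy]
            _ = dist y m := s.isometry.dist_eq _ _
            _ = _ := hm1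
        · calc dist (s m) q = dist (s m) (s q) := by rw [hsq]
            _ = dist m q := s.isometry.dist_eq _ _
            _ = _ := hm2
      · rw [hm2, hyq, pow_succ]
        field_simp
  by_contra hne
  have hpos : 0 < dist x q := dist_pos.mpr hne
  obtain ⟨n, hn⟩ := exists_pow_lt_of_lt_one (show 0 < ε / dist x q by positivity)
    (show (1 / 2 : ℝ) < 1 by norm_num)
  obtain ⟨y, hy, hyq⟩ := key n
  have h1 : dist y q < ε := by
    rw [hyq]
    have : dist x q / 2 ^ n = (1 / 2) ^ n * dist x q := by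
      rw [one_div, inv_pow]; field_simp
    rw [this]
    calc (1 / 2) ^ n * dist x q < ε / dist x q * dist x q := by
          apply mul_lt_mul_of_pos_right hn hpos
      _ = ε := by field_simp
  have h2 := hiso y h1 hy
  rw [h2, dist_self] at hyq
  have : 0 < dist x q / 2 ^ n := by positivity
  linarith

end GeoLemmas

section Symm

variable {M : Type u} {E : Type v} [MetricSpace M] [NormedAddCommGroup E] [NormedSpace ℝ E]
  {R : ℝ} (G : Geo M E R)

theorem IsSymmetryAt.conj {x : M} {s : M ≃ᵢ M} (h : IsSymmetryAt x s) (g : M ≃ᵢ M) :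
    IsSymmetryAt (g x) ((g.symm.trans s).trans g) := by
  obtain ⟨h1, h2, ε, hε, h3⟩ := h
  refine ⟨?_, ?_, ε, hε, ?_⟩
  · intro y
    simp [h1]
  · simp [h2]
  · intro y hy hfix
    have e1 : dist (g.symm y) x < ε := by
      calc dist (g.symm y) x = dist (g (g.symm y)) (g x) := (g.isometry.dist_eq _ _).symm
        _ = dist y (g x) := by simp
        _ < ε := hy
    have e2 : s (g.symm y) = g.symm y := by
      have : g (s (g.symm y)) = y := hfix
      apply g.injective
      rw [this]; simp
    have := h3 _ e1 e2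
    rw [← this]; simp

include G

/-- near its centre a symmetry is the geodesic reflection -/
theorem Geo.symm_midpt {q : M} {s : M ≃ᵢ M} (hs : IsSymmetryAt q s) {x : M}
    (hx : 2 * dist x q < R) : dist x (s x) = 2 * dist x q := by
  obtain ⟨h1, h2, h3⟩ := hs
  obtain ⟨m, hm1, hm2⟩ := G.midpt x (s x)
  have hsx : dist q (s x) = dist x q := by
    calc dist q (s x) = dist (s q) (s x) := by rw [h2]
      _ = dist q x := s.isometry.dist_eq _ _
      _ = dist x q := dist_comm _ _
  have hle : dist x (s x) ≤ 2 * dist x q := by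
    have := dist_triangle x q (s x)
    rw [hsx] at this
    linarith
  have hfix : s m = m := by
    apply G.midpt_unique (lt_of_le_of_lt hle hx) _ _ hm1 hm2
    · calc dist x (s m) = dist (s (s x)) (s m) := by rw [h1]
        _ = dist (s x) m := s.isometry.dist_eq _ _
        _ = dist m (s x) := dist_comm _ _
        _ = _ := hm2
    · calc dist (s m) (s x) = dist m x := s.isometry.dist_eq _ _
        _ = dist x m := dist_comm _ _
        _ = _ := hm1
  have hmq : dist m q < R := by
    have := dist_triangle m x q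
    rw [dist_comm m x, hm1] at this
    linarith
  have := G.isolated_uniform s h2 h3 hmq hfix
  rw [this, dist_comm] at hm1
  linarith [dist_comm x q]

/-- uniqueness: the reflected point is determined metrically -/
theorem Geo.symm_eq_of_midpt {q : M} {s : M ≃ᵢ M} (hs : IsSymmetryAt q s) {x y : M}
    (hx : 2 * dist x q < R) (h1 : dist q y = dist x q) (h2 : dist x y = 2 * dist x q) :
    s x = y := by
  apply G.nonbranching (x := x) (q := q) (r := dist x q) hx rfl _ (G.symm_midpt hs hx) h1 h2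
  calc dist q (s x) = dist (s q) (s x) := by rw [hs.2.1]
    _ = dist q x := s.isometry.dist_eq _ _
    _ = dist x q := dist_comm _ _

/-- if an isometry fixes a small ball around `x` pointwise it fixes the ball of radius `R/4` -/
theorem Geo.fix_ball (θ : M ≃ᵢ M) {x : M} (h : ∃ δ > 0, ∀ y, dist x y < δ → θ y = y) :
    ∀ y, dist x y < R → θ y = y := by
  obtain ⟨δ, hδ, h⟩ := h
  have hx : θ x = x := h x (by rw [dist_self]; exact hδ)
  have key : ∀ n : ℕ, ∀ y, dist x y < R → dist x y / 2 ^ n < δ → θ y = y := by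
    intro n
    induction n with
    | zero =>
      intro y _ hy
      apply h
      simpa using hy
    | succ n ih =>
      intro y hyR hy
      obtain ⟨m, hm1, hm2⟩ := G.midpt x y
      have hfm : θ m = m := by
        apply ih
        · rw [hm1]; linarith [dist_nonneg (x := x) (y := y)]
        · rw [hm1]
          rw [pow_succ] at hy
          calc dist x y / 2 / 2 ^ n = dist x y / (2 ^ n * 2) := by field_simp
            _ < δ := hy
      apply G.nonbranching (x := x) (q := m) (r := dist x y / 2) (by linarith) hm1 _ _ hm2 (by ring)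
      · calc dist m (θ y) = dist (θ m) (θ y) := by rw [hfm]
          _ = dist m y := θ.isometry.dist_eq _ _
          _ = _ := hm2
      · calc dist x (θ y) = dist (θ x) (θ y) := by rw [hx]
          _ = dist x y := θ.isometry.dist_eq _ _
          _ = _ := by ring
  intro y hy
  rcases eq_or_ne x y with rfl | hne
  · exact hx
  · have hpos : 0 < dist x y := dist_pos.mpr hne
    obtain ⟨n, hn⟩ := exists_pow_lt_of_lt_one (show 0 < δ / dist x y by positivity)
      (show (1 / 2 : ℝ) < 1 by norm_num)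
    apply key n y hy
    have : dist x y / 2 ^ n = (1 / 2) ^ n * dist x y := by
      rw [one_div, inv_pow]; field_simp
    rw [this]
    calc (1 / 2) ^ n * dist x y < δ / dist x y * dist x y := by
          apply mul_lt_mul_of_pos_right hn hpos
      _ = δ := by field_simp

/-- an isometry fixing a ball pointwise is the identity -/
theorem Geo.eq_id [PreconnectedSpace M] (θ : M ≃ᵢ M) {x : M}
    (h : ∃ δ > 0, ∀ y, dist x y < δ → θ y = y) : ∀ y, θ y = y := by
  let U : Set M := {x | ∃ δ > 0, ∀ y, dist x y < δ → θ y = y}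
  have hU : IsClopen U := by
    constructor
    · rw [← isOpen_compl_iff, Metric.isOpen_iff]
      intro z hz
      refine ⟨R / 2, by linarith [G.Rpos], ?_⟩
      intro z' hz' hz'U
      apply hz
      have h1 := G.fix_ball θ hz'U
      refine ⟨R / 2, by linarith [G.Rpos], ?_⟩
      intro y hy
      apply h1
      have := dist_triangle z' z y
      rw [mem_ball] at hz'
      linarith
    · rw [Metric.isOpen_iff]
      intro z hz
      have h1 := G.fix_ball θ hz
      refine ⟨R / 2, by linarith [G.Rpos], ?_⟩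
      intro z' hz'
      rw [mem_ball] at hz'
      refine ⟨R / 2, by linarith [G.Rpos], ?_⟩
      intro y hy
      apply h1
      have := dist_triangle z z' y
      rw [dist_comm z z'] at this
      linarith
  have hUu : U = univ := hU.eq_univ ⟨x, h⟩
  intro y
  have hy : y ∈ U := by rw [hUu]; trivial
  obtain ⟨δ, hδ, h⟩ := hy
  exact h y (by rw [dist_self]; exact hδ)

/-- symmetries are unique -/
theorem Geo.symm_unique [PreconnectedSpace M] {q : M} {s s' : M ≃ᵢ M} (hs : IsSymmetryAt q s)
    (hs' : IsSymmetryAt q s') : ∀ x, s x = s' x := by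
  have h : ∀ y, (s.trans s') y = y := by
    apply G.eq_id (x := q)
    refine ⟨R / 2, by linarith [G.Rpos], ?_⟩
    intro y hy
    have hy' : 2 * dist y q < R := by rw [dist_comm]; linarith
    have e : s y = s' y := by
      apply G.symm_eq_of_midpt hs hy' _ (G.symm_midpt hs' hy')
      calc dist q (s' y) = dist (s' q) (s' y) := by rw [hs'.2.1]
        _ = dist q y := s'.isometry.dist_eq _ _
        _ = dist y q := dist_comm _ _
    change s' (s y) = y
    rw [e, hs'.1]
  intro x
  have := h x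
  change s' (s x) = x at this
  rw [← hs'.1 (s x), this]

/-- symmetries at mutually fixed points commute -/
theorem Geo.symm_comm [PreconnectedSpace M] {x y : M} {s t : M ≃ᵢ M} (hs : IsSymmetryAt x s)
    (ht : IsSymmetryAt y t) (h : s y = y) : ∀ z, s (t z) = t (s z) := by
  have h1 := ht.conj s
  rw [h] at h1
  have h2 := G.symm_unique h1 ht
  intro z
  have h3 := h2 (s z)
  have h4 : ((s.symm.trans t).trans s) (s z) = s (t z) := by simp
  rw [← h4, h3]

end Symm

end Pool.Agent.Helper381
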