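import Pool.Agent.Helper381.Alt

/-! Dimension counts for cohomology over a field. -/

namespace Pool.Agent.Helper381

universe u v w

open Module

section Dim

variable {k : Type u} [Field k]
variable {C : ℕ → Type v} [∀ n, AddCommGroup (C n)] [∀ n, Module k (C n)]
  [∀ n, FiniteDimensional k (C n)] (d : ∀ n, C n →ₗ[k] C (n + 1))

theorem cobound_le (hd : ∀ n x, d (n + 1) (d n x) = 0) (n : ℕ) :
    cobound k C d n ≤ LinearMap.ker (d n) := by
  cases n with
  | zero => exact bot_le
  | succ n =>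
    rintro _ ⟨x, rfl⟩
    exact hd n x

/-- rank of the incoming coboundary -/
noncomputable def rkb (n : ℕ) : ℕ := finrank k (cobound k C d n)

theorem finrank_coh (hd : ∀ n x, d (n + 1) (d n x) = 0) (n : ℕ) :
    finrank k (Coh k C d n) + finrank k (LinearMap.range (d n)) + rkb d n = finrank k (C n) := by
  have h1 := Submodule.finrank_quotient_add_finrank
    ((cobound k C d n).comap (LinearMap.ker (d n)).subtype)
  have h2 := (d n).finrank_range_add_finrank_ker
  have h3 : finrank k ((cobound k C d n).comap (LinearMap.ker (d n)).subtype) = rkb d n :=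
    (Submodule.comapSubtypeEquivOfLe (cobound_le d hd n)).finrank_eq
  rw [h3] at h1
  change finrank k (Coh k C d n) + rkb d n = _ at h1
  omega

theorem rkb_succ (n : ℕ) : rkb d (n + 1) = finrank k (LinearMap.range (d n)) := rfl

theorem rkb_zero : rkb d 0 = 0 := by
  change finrank k (⊥ : Submodule k (C 0)) = 0
  exact finrank_bot k _

theorem sum_finrank_coh (hd : ∀ n x, d (n + 1) (d n x) = 0) (N : ℕ) :
    ∑ n ∈ Finset.range N, finrank k (Coh k C d n) + 2 * (∑ n ∈ Finset.range N, rkb d n) + rkb d N =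
      ∑ n ∈ Finset.range N, finrank k (C n) := by
  induction N with
  | zero => simp [rkb_zero]
  | succ N ih =>
    rw [Finset.sum_range_succ, Finset.sum_range_succ, Finset.sum_range_succ, ← ih,
      ← finrank_coh d hd N, rkb_succ]
    ring

theorem rkb_top {N : ℕ} (h : finrank k (C N) = 0) : rkb d N = 0 := by
  have := Submodule.finrank_le (cobound k C d N)
  rw [rkb]; omega

theorem euler_coh (hd : ∀ n x, d (n + 1) (d n x) = 0) (N : ℕ) (h : finrank k (C N) = 0) :
    ∑ n ∈ Finset.range N, (-1 : ℤ) ^ n * (finrank k (Coh k C d n) : ℤ) =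
      ∑ n ∈ Finset.range N, (-1 : ℤ) ^ n * (finrank k (C n) : ℤ) := by
  have key : ∀ N, ∑ n ∈ Finset.range N, (-1 : ℤ) ^ n * (finrank k (Coh k C d n) : ℤ) =
      ∑ n ∈ Finset.range N, (-1 : ℤ) ^ n * (finrank k (C n) : ℤ) +
        (-1 : ℤ) ^ N * (rkb d N : ℤ) := by
    intro N
    induction N with
    | zero => simp [rkb_zero]
    | succ N ih =>
      rw [Finset.sum_range_succ, Finset.sum_range_succ, ih, ← finrank_coh d hd N, rkb_succ]
      push_cast
      ring
  rw [key, rkb_top d h]
  simp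

theorem finrank_coh_top (n : ℕ) (h : finrank k (C n) = 0) : finrank k (Coh k C d n) = 0 := by
  have h1 := Submodule.finrank_quotient_le ((cobound k C d n).comap (LinearMap.ker (d n)).subtype)
  have h2 := Submodule.finrank_le (LinearMap.ker (d n))
  change finrank k (Coh k C d n) ≤ _ at h1
  omega

end Dim

section LES

variable {k : Type u} [Field k]
variable {A : ℕ → Type v} [∀ n, AddCommGroup (A n)] [∀ n, Module k (A n)]
  [∀ n, FiniteDimensional k (A n)] (dA : ∀ n, A n →ₗ[k] A (n + 1))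
variable {B : ℕ → Type v} [∀ n, AddCommGroup (B n)] [∀ n, Module k (B n)]
  [∀ n, FiniteDimensional k (B n)] (dB : ∀ n, B n →ₗ[k] B (n + 1))
variable {C : ℕ → Type v} [∀ n, AddCommGroup (C n)] [∀ n, Module k (C n)]
  [∀ n, FiniteDimensional k (C n)] (dC : ∀ n, C n →ₗ[k] C (n + 1))

theorem les_ineq (α : ∀ n, A n →ₗ[k] B n) (β : ∀ n, B n →ₗ[k] C n)
    (hα : ∀ n, Function.Injective (α n)) (hβ : ∀ n, Function.Surjective (β n))
    (hex : ∀ n b, β n b = 0 → ∃ a, α n a = b)
    (hβα : ∀ n a, β n (α n a) = 0)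
    (hαd : ∀ n a, dB n (α n a) = α (n + 1) (dA n a))
    (hβd : ∀ n b, dC n (β n b) = β (n + 1) (dB n b))
    (hdB : ∀ n x, dB (n + 1) (dB n x) = 0) (n : ℕ) :
    finrank k (Coh k C dC n) ≤ finrank k (Coh k B dB n) + finrank k (Coh k A dA (n + 1)) := by
  classical
  obtain ⟨s, hs⟩ := (β n).exists_rightInverse_of_surjective (LinearMap.range_eq_top.mpr (hβ n))
  have hs' : ∀ z, β n (s z) = z := fun z => LinearMap.congr_fun hs z
  have hmem : ∀ z : LinearMap.ker (dC n), dB n (s z.1) ∈ LinearMap.range (α (n + 1)) := by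
    intro z
    apply hex
    rw [← hβd, hs']
    exact z.2
  let δ0 : LinearMap.ker (dC n) →ₗ[k] A (n + 1) :=
    ((LinearEquiv.ofInjective (α (n + 1)) (hα (n + 1))).symm : _ →ₗ[k] _).comp
      (((dB n).comp (s.comp (LinearMap.ker (dC n)).subtype)).codRestrict _ hmem)
  have hδ0 : ∀ z, α (n + 1) (δ0 z) = dB n (s z.1) := by
    intro z
    have := congrArg Subtype.val ((LinearEquiv.ofInjective (α (n + 1)) (hα (n + 1))).apply_symm_apply
      ((((dB n).comp (s.comp (LinearMap.ker (dC n)).subtype)).codRestrict _ hmem) z))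
    exact this
  have hδ0k : ∀ z, δ0 z ∈ LinearMap.ker (dA (n + 1)) := by
    intro z
    rw [LinearMap.mem_ker]
    apply hα
    rw [← hαd, hδ0, hdB, map_zero]
  let δ1 : LinearMap.ker (dC n) →ₗ[k] LinearMap.ker (dA (n + 1)) := δ0.codRestrict _ hδ0k
  let δ : LinearMap.ker (dC n) →ₗ[k] Coh k A dA (n + 1) := (Submodule.mkQ _).comp δ1
  have hJ : ∀ z : LinearMap.ker (dB n), β n z.1 ∈ LinearMap.ker (dC n) := by
    intro z
    rw [LinearMap.mem_ker, hβd]
    have : dB n z.1 = 0 := z.2
    rw [this, map_zero]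
  let J : LinearMap.ker (dB n) →ₗ[k] LinearMap.ker (dC n) :=
    ((β n).comp (LinearMap.ker (dB n)).subtype).codRestrict _ hJ
  have hker : LinearMap.ker δ ≤ LinearMap.range J := by
    intro z hz
    rw [LinearMap.mem_ker] at hz
    have h1 : δ0 z ∈ cobound k A dA (n + 1) := by
      have := (Submodule.Quotient.mk_eq_zero _).mp hz
      exact this
    obtain ⟨a, ha⟩ := h1
    have hb : s z.1 - α n a ∈ LinearMap.ker (dB n) := by
      rw [LinearMap.mem_ker, map_sub, hαd, ha, hδ0, sub_self]
    refine ⟨⟨_, hb⟩, ?_⟩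
    apply Subtype.ext
    change β n (s z.1 - α n a) = z.1
    rw [map_sub, hs', hβα, sub_zero]
  -- the map Coh B → Coh C
  let q : LinearMap.ker (dC n) →ₗ[k] Coh k C dC n := Submodule.mkQ _
  have hψ : (cobound k B dB n).comap (LinearMap.ker (dB n)).subtype ≤ LinearMap.ker (q.comp J) := by
    intro z hz
    rw [LinearMap.mem_ker, LinearMap.comp_apply]
    apply (Submodule.Quotient.mk_eq_zero _).mpr
    change β n z.1 ∈ cobound k C dC n
    have hz' : z.1 ∈ cobound k B dB n := hz
    clear hz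
    cases n with
    | zero =>
      have : z.1 = 0 := hz'
      rw [this, map_zero]
      exact Submodule.zero_mem _
    | succ n =>
      obtain ⟨b, hb⟩ := hz'
      exact ⟨β n b, by rw [hβd, hb]⟩
  let ψ : Coh k B dB n →ₗ[k] Coh k C dC n := Submodule.liftQ _ (q.comp J) hψ
  have hR1 : finrank k (LinearMap.range ψ) ≤ finrank k (Coh k B dB n) := ψ.finrank_range_le
  have h1 := Submodule.finrank_quotient_add_finrank (LinearMap.range ψ)
  let π : LinearMap.ker (dC n) →ₗ[k] (Coh k C dC n ⧸ LinearMap.range ψ) :=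
    (Submodule.mkQ _).comp q
  have hπ : LinearMap.ker δ ≤ LinearMap.ker π := by
    intro z hz
    obtain ⟨y, hy⟩ := hker hz
    rw [LinearMap.mem_ker]
    apply (Submodule.Quotient.mk_eq_zero _).mpr
    refine ⟨Submodule.Quotient.mk y, ?_⟩
    rw [← hy]
    rfl
  let π' : (LinearMap.ker (dC n) ⧸ LinearMap.ker δ) →ₗ[k] (Coh k C dC n ⧸ LinearMap.range ψ) :=
    Submodule.liftQ _ π hπ
  have hπs : Function.Surjective π' := by
    intro y
    obtain ⟨y, rfl⟩ := Submodule.mkQ_surjective _ y
    obtain ⟨y, rfl⟩ := Submodule.mkQ_surjective _ y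
    exact ⟨Submodule.Quotient.mk y, rfl⟩
  have h2 := LinearMap.finrank_le_finrank_of_surjective hπs
  have h3 := δ.quotKerEquivRange.finrank_eq
  have h4 : finrank k (LinearMap.range δ) ≤ finrank k (Coh k A dA (n + 1)) := Submodule.finrank_le _
  omega

end LES

end Pool.Agent.Helper381
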