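import Pool.Agent.Helper381.Parity

/-! Discrete geodesic lines in symmetric spaces. -/

namespace Pool.Agent.Helper381

universe u v w

open Metric Set Module Filter Topology

section Step

variable {M : Type u} [MetricSpace M]

/-- one step of a discrete geodesic -/
def stepE (σ : M → (M ≃ᵢ M)) (h : ∀ m z, σ m (σ m z) = z) : Equiv.Perm (M × M) where
  toFun p := (p.2, σ p.2 p.1)
  invFun p := (σ p.1 p.2, p.1)
  left_inv p := by simp [h]
  right_inv p := by simp [h]

/-- discrete line -/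
def dl (σ : M → (M ≃ᵢ M)) (h : ∀ m z, σ m (σ m z) = z) (p : M × M) (i : ℤ) : M :=
  ((stepE σ h ^ i) p).1

variable {σ : M → (M ≃ᵢ M)} {h : ∀ m z, σ m (σ m z) = z} {p : M × M}

theorem dl_snd (i : ℤ) : ((stepE σ h ^ i) p).2 = dl σ h p (i + 1) := by
  rw [dl, add_comm, zpow_add, zpow_one]
  rfl

theorem dl_rec (i : ℤ) : dl σ h p (i + 1 + 1) = σ (dl σ h p (i + 1)) (dl σ h p i) := by
  rw [← dl_snd (i + 1), add_comm i 1, zpow_add, zpow_one]
  change σ ((stepE σ h ^ i) p).2 ((stepE σ h ^ i) p).1 = _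
  rw [dl_snd, add_comm i 1]
  rfl

theorem dl_zero : dl σ h p 0 = p.1 := rfl

theorem dl_one : dl σ h p 1 = p.2 := by
  have := dl_snd (σ := σ) (h := h) (p := p) 0
  rw [zero_add] at this
  rw [← this]; rfl

variable (hσ : ∀ m, IsSymmetryAt m (σ m)) (hc : ∀ a b z, σ a (σ b z) = σ (σ a b) (σ a z))

include hσ hc in
theorem dl_refl (j : ℤ) (i : ℕ) :
    σ (dl σ h p j) (dl σ h p (j + i)) = dl σ h p (j - i) ∧
    σ (dl σ h p j) (dl σ h p (j + (i + 1))) = dl σ h p (j - (i + 1)) := by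
  induction i with
  | zero =>
    constructor
    · simpa using (hσ (dl σ h p j)).2.1
    · have h1 := dl_rec (σ := σ) (h := h) (p := p) (j - 1)
      rw [sub_add_cancel] at h1
      have h2 : (j : ℤ) + (((0 : ℕ) : ℤ) + 1) = j + 1 := by push_cast; ring
      have h3 : (j : ℤ) - (((0 : ℕ) : ℤ) + 1) = j - 1 := by push_cast; ring
      rw [h2, h3, h1, (hσ _).1]
  | succ i ih =>
    obtain ⟨h1, h2⟩ := ih
    refine ⟨by push_cast; exact h2, ?_⟩
    have h3 := dl_rec (σ := σ) (h := h) (p := p) (j + i)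
    have e1 : j + (i : ℤ) + 1 + 1 = j + (((i + 1 : ℕ) : ℤ) + 1) := by push_cast; ring
    rw [e1] at h3
    rw [h3, hc]
    have e2 : j + (i : ℤ) + 1 = j + ((i : ℤ) + 1) := by ring
    rw [e2, h2, h1]
    have h4 := dl_rec (σ := σ) (h := h) (p := p) (j - (((i + 1 : ℕ) : ℤ) + 1))
    have e3 : j - (((i + 1 : ℕ) : ℤ) + 1) + 1 + 1 = j - i := by push_cast; ring
    have e4 : j - (((i + 1 : ℕ) : ℤ) + 1) + 1 = j - (i + 1) := by push_cast; ring
    rw [e3, e4] at h4
    rw [h4, (hσ _).1]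

include hσ hc in
theorem dl_refl' (j i : ℤ) : σ (dl σ h p j) (dl σ h p i) = dl σ h p (2 * j - i) := by
  rcases le_total j i with hij | hij
  · obtain ⟨n, hn⟩ := Int.eq_ofNat_of_zero_le (sub_nonneg.mpr hij)
    have h1 := (dl_refl (h := h) (p := p) hσ hc j n).1
    have e1 : j + (n : ℤ) = i := by linarith
    have e2 : j - (n : ℤ) = 2 * j - i := by linarith
    rwa [e1, e2] at h1
  · obtain ⟨n, hn⟩ := Int.eq_ofNat_of_zero_le (sub_nonneg.mpr hij)
    have h1 := (dl_refl (h := h) (p := p) hσ hc j n).1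
    have e1 : j + (n : ℤ) = 2 * j - i := by linarith
    have e2 : j - (n : ℤ) = i := by linarith
    rw [e1, e2] at h1
    rw [← h1, (hσ _).1]

include hσ in
theorem dl_step (i : ℤ) : dist (dl σ h p i) (dl σ h p (i + 1)) = dist p.1 p.2 := by
  have key : ∀ i : ℤ, dist (dl σ h p (i + 1)) (dl σ h p (i + 1 + 1)) =
      dist (dl σ h p i) (dl σ h p (i + 1)) := by
    intro i
    rw [dl_rec]
    calc dist (dl σ h p (i + 1)) (σ (dl σ h p (i + 1)) (dl σ h p i))
        = dist (σ (dl σ h p (i + 1)) (dl σ h p (i + 1))) (σ (dl σ h p (i + 1)) (dl σ h p i)) := by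
          rw [(hσ _).2.1]
      _ = dist (dl σ h p (i + 1)) (dl σ h p i) := (σ _).isometry.dist_eq _ _
      _ = _ := dist_comm _ _
  induction i using Int.induction_on with
  | zero => rw [zero_add, dl_zero, dl_one]
  | succ i ih => rw [key, ih]
  | pred i ih =>
    have h1 := key (-(i : ℤ) - 1)
    rw [sub_add_cancel] at h1
    rw [sub_add_cancel, ← h1, ih]

end Step

section Dist

variable {M : Type u} {E : Type v} [MetricSpace M] [NormedAddCommGroup E] [NormedSpace ℝ E]
  {R : ℝ} (G : Geo M E R) {σ : M → (M ≃ᵢ M)} {h : ∀ m z, σ m (σ m z) = z} {p : M × M}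
  (hσ : ∀ m, IsSymmetryAt m (σ m)) (hc : ∀ a b z, σ a (σ b z) = σ (σ a b) (σ a z))

include G hσ in
theorem Geo.sigma_conj [PreconnectedSpace M] (a b z : M) : σ a (σ b z) = σ (σ a b) (σ a z) := by
  have h1 := (hσ b).conj (σ a)
  have h2 := G.symm_unique h1 (hσ (σ a b)) (σ a z)
  rw [← h2]
  simp

include G hσ hc

theorem Geo.dl_pow (j : ℕ) (hj : 2 ^ j * dist p.1 p.2 < R) (i : ℤ) :
    dist (dl σ h p i) (dl σ h p (i + 2 ^ j)) = 2 ^ j * dist p.1 p.2 := by
  induction j generalizing i with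
  | zero => simpa using dl_step hσ i
  | succ j ih =>
    have h1 : 2 ^ j * dist p.1 p.2 < R := by
      refine lt_of_le_of_lt ?_ hj
      apply mul_le_mul_of_nonneg_right _ dist_nonneg
      exact pow_le_pow_right₀ (by norm_num) (by omega)
    have h2 := ih h1 i
    have h3 : σ (dl σ h p (i + 2 ^ j)) (dl σ h p i) = dl σ h p (i + 2 ^ (j + 1)) := by
      rw [dl_refl' hσ hc]
      congr 1
      rw [pow_succ]; ring
    rw [← h3, G.symm_midpt (hσ (dl σ h p (i + 2 ^ j))), h2]
    · rw [pow_succ]; ring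
    · rw [h2]
      rw [pow_succ] at hj
      linarith

theorem Geo.dl_dist (i : ℤ) (n : ℕ) (hn : 2 * (n * dist p.1 p.2) < R) :
    dist (dl σ h p i) (dl σ h p (i + n)) = n * dist p.1 p.2 := by
  rcases Nat.eq_zero_or_pos n with rfl | hpos
  · simp
  obtain ⟨j, hj1, hj2⟩ : ∃ j : ℕ, n ≤ 2 ^ j ∧ 2 ^ j ≤ 2 * n := by
    refine ⟨Nat.clog 2 n, Nat.le_pow_clog one_lt_two n, ?_⟩
    rcases Nat.lt_or_ge 1 n with h1 | h1
    · have h2 := Nat.pow_pred_clog_lt_self one_lt_two h1
      have h3 : 0 < Nat.clog 2 n := Nat.clog_pos one_lt_two h1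
      obtain ⟨m, hm⟩ : ∃ m, Nat.clog 2 n = m + 1 := ⟨Nat.clog 2 n - 1, by omega⟩
      rw [hm] at h2 ⊢
      rw [Nat.pred_succ] at h2
      rw [pow_succ]
      omega
    · have : n = 1 := by omega
      subst this
      simp
  have hd : 2 ^ j * dist p.1 p.2 < R := by
    refine lt_of_le_of_lt ?_ hn
    rw [← mul_assoc]
    apply mul_le_mul_of_nonneg_right _ dist_nonneg
    exact_mod_cast hj2
  have h1 := chain_dist_eq (c := fun k : ℕ => dl σ h p (i + k)) (N := 2 ^ j)
    (h := dist p.1 p.2) (by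
      intro k _
      have := dl_step (h := h) (p := p) hσ (i + k)
      push_cast
      rw [← add_assoc, this]) (by
      have := G.dl_pow (h := h) hσ hc j hd i
      push_cast
      rw [add_zero, this]) 0 n (by omega)
  simpa using h1

theorem Geo.dl_dist' (i j : ℤ) (hn : 2 * (|(i : ℝ) - j| * dist p.1 p.2) < R) :
    dist (dl σ h p i) (dl σ h p j) = |(i : ℝ) - j| * dist p.1 p.2 := by
  rcases le_total i j with hij | hij
  · obtain ⟨n, hn'⟩ := Int.eq_ofNat_of_zero_le (sub_nonneg.mpr hij)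
    have e1 : j = i + n := by linarith
    have e2 : |(i : ℝ) - j| = n := by
      rw [e1]; push_cast
      rw [abs_sub_comm]; simp
    rw [e2] at hn ⊢
    rw [e1]
    exact G.dl_dist hσ hc i n hn
  · obtain ⟨n, hn'⟩ := Int.eq_ofNat_of_zero_le (sub_nonneg.mpr hij)
    have e1 : i = j + n := by linarith
    have e2 : |(i : ℝ) - j| = n := by
      rw [e1]; push_cast
      simp
    rw [e2] at hn ⊢
    rw [e1, dist_comm]
    exact G.dl_dist hσ hc j n hn

/-- the discrete line follows minimal chains -/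
theorem Geo.dl_chain {c : ℕ → M} {n : ℕ} {l : ℝ} (hl : 2 * l < R)
    (hc' : ∀ i d, i + d ≤ n → dist (c i) (c (i + d)) = d * l) (hp : p = (c 0, c 1)) :
    ∀ i, i + 1 ≤ n → dl σ h p i = c i ∧ dl σ h p (i + 1 : ℕ) = c (i + 1) := by
  intro i
  induction i with
  | zero =>
    intro hi
    constructor
    · rw [hp]; exact dl_zero
    · have : ((0 + 1 : ℕ) : ℤ) = 1 := by norm_num
      rw [this, dl_one, hp]
  | succ i ih =>
    intro hi
    obtain ⟨h1, h2⟩ := ih (by omega)
    refine ⟨h2, ?_⟩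
    have h3 := dl_rec (σ := σ) (h := h) (p := p) i
    have e1 : ((i + 1 + 1 : ℕ) : ℤ) = (i : ℤ) + 1 + 1 := by push_cast; ring
    have e2 : ((i + 1 : ℕ) : ℤ) = (i : ℤ) + 1 := by push_cast; ring
    rw [e2] at h2
    rw [e1, h3, h1, h2]
    have d1 : dist (c i) (c (i + 1)) = l := by
      have := hc' i 1 (by omega); simpa using this
    have d2 : dist (c (i + 1)) (c (i + 1 + 1)) = l := by
      have := hc' (i + 1) 1 (by omega); simpa using this
    have d3 : dist (c i) (c (i + 1 + 1)) = 2 * l := by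
      have := hc' i 2 (by omega); exact_mod_cast this
    apply G.symm_eq_of_midpt (hσ (c (i + 1)))
    · rw [d1]; exact hl
    · rw [d1, d2]
    · rw [d1, d3]

end Dist

end Pool.Agent.Helper381
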