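import Pool.Agent.Helper381.Energy
import Pool.Agent.Helper381.Chain
import Pool.Agent.Helper381.Geo

/-! From infinitesimal metric data in a chart to strongly convex charts. -/

namespace Pool.Agent.Helper381

universe u v w

open Metric Set

/-- A chart of a metric space in which the distance is governed by metric coefficients. -/
structure Loc (M : Type u) (E : Type v) [MetricSpace M] [NormedAddCommGroup E]
    [NormedSpace ℝ E] extends MetCoef E where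
  φ : M → E
  ψ : E → M
  φψ : ∀ v ∈ ball x₀ r, φ (ψ v) = v
  isOpen_image : ∀ V ⊆ ball x₀ r, IsOpen V → IsOpen (ψ '' V)
  contφ : ContinuousOn φ (ψ '' ball x₀ r)
  contψ : ContinuousOn ψ (ball x₀ r)
  up : ∀ x ∈ ball x₀ r, ∀ y ∈ ball x₀ r, ∀ K : ℝ, 0 ≤ K →
    (∀ t ∈ Icc (0 : ℝ) 1, G (x + t • (y - x)) (y - x) (y - x) ≤ K ^ 2) → dist (ψ x) (ψ y) ≤ K
  lo : ∀ x ∈ ball x₀ r, ∀ s K : ℝ, 0 < s → 0 < K →
    (∀ w, G x (w - x) (w - x) ≤ s ^ 2 → w ∈ ball x₀ r ∧ ∀ v, G x v v ≤ K ^ 2 * G w v v) →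
    ∀ y : M, K * dist (ψ x) y < s →
      ∃ w ∈ ball x₀ r, ψ w = y ∧ G x (w - x) (w - x) ≤ (K * dist (ψ x) y) ^ 2

namespace Loc

variable {M : Type u} {E : Type v} [MetricSpace M] [NormedAddCommGroup E] [NormedSpace ℝ E]
  (c : Loc M E)

/-- auxiliary constants -/
noncomputable def κ : ℝ := c.C / c.lam + 1

noncomputable def r₁ : ℝ := c.r / (4 * c.κ)

theorem one_le_κ : 1 ≤ c.κ := by
  have : 0 ≤ c.C / c.lam := div_nonneg c.Cpos.le c.lampos.le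
  unfold κ; linarith

theorem C_le : c.C ≤ c.κ * c.lam := by
  have : c.C = c.C / c.lam * c.lam := by field_simp [c.lampos.ne']
  unfold κ
  nlinarith [c.lampos]

theorem r₁pos : 0 < c.r₁ := by
  have := c.one_le_κ
  exact div_pos c.rpos (by linarith)

theorem r₁_mul : c.r₁ * (4 * c.κ) = c.r := by
  have := c.one_le_κ
  unfold r₁
  field_simp

theorem r₁_lt : 4 * c.r₁ ≤ c.r := by
  have h1 := c.one_le_κ
  have h2 := c.r₁_mul
  have h3 := c.r₁pos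
  nlinarith

theorem ball_sub : ball c.x₀ c.r₁ ⊆ ball c.x₀ c.r :=
  ball_subset_ball (by linarith [c.r₁_lt, c.r₁pos])

/-- comparison of norms at nearby points -/
theorem compare {x w : E} (hx : x ∈ ball c.x₀ c.r) (hw : w ∈ ball c.x₀ c.r) {d : ℝ}
    (h : ‖x - w‖ ≤ d) (v : E) : c.G x v v ≤ (1 + c.κ * d) * c.G w v v := by
  have h1 := c.lip x hx w hw v v
  rw [abs_le] at h1
  have h2 := c.lower w hw v
  have h3 := c.C_le
  have h4 : c.C * ‖x - w‖ * ‖v‖ * ‖v‖ ≤ c.κ * d * (c.lam * ‖v‖ ^ 2) := by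
    have e1 : c.C * ‖x - w‖ ≤ (c.κ * c.lam) * d := by
      apply mul_le_mul h3 h (norm_nonneg _)
      have := c.one_le_κ
      have := c.lampos
      positivity
    have e2 : 0 ≤ ‖v‖ * ‖v‖ := by positivity
    nlinarith
  have hd : 0 ≤ d := le_trans (norm_nonneg _) h
  have h5 : c.κ * d * (c.lam * ‖v‖ ^ 2) ≤ c.κ * d * c.G w v v := by
    apply mul_le_mul_of_nonneg_left h2
    have := c.one_le_κ
    positivity
  linarith [h1.2]

theorem dist_sq_le {x y : E} (hx : x ∈ ball c.x₀ c.r) (hy : y ∈ ball c.x₀ c.r) :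
    dist (c.ψ x) (c.ψ y) ^ 2 ≤ c.G x (y - x) (y - x) + c.C * ‖y - x‖ ^ 3 := by
  set T := c.G x (y - x) (y - x) + c.C * ‖y - x‖ ^ 3 with hT
  have hT0 : 0 ≤ T := by
    have := c.nonneg hx (y - x)
    have := c.Cpos
    positivity
  have h1 : dist (c.ψ x) (c.ψ y) ≤ Real.sqrt T := by
    apply c.up x hx y hy _ (Real.sqrt_nonneg _)
    intro t ht
    rw [Real.sq_sqrt hT0]
    have hw : x + t • (y - x) ∈ ball c.x₀ c.r := by
      have := (convex_ball c.x₀ c.r) hx hy (by linarith [ht.2] : (0 : ℝ) ≤ 1 - t) ht.1 (by ring)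
      have e : (1 - t) • x + t • y = x + t • (y - x) := by module
      rwa [e] at this
    have h2 := c.lip _ hw x hx (y - x) (y - x)
    rw [abs_le] at h2
    have h3 : ‖x + t • (y - x) - x‖ ≤ ‖y - x‖ := by
      rw [add_sub_cancel_left, norm_smul, Real.norm_of_nonneg ht.1]
      have := norm_nonneg (y - x)
      nlinarith [ht.2]
    have h4 : c.C * ‖x + t • (y - x) - x‖ * ‖y - x‖ * ‖y - x‖ ≤ c.C * ‖y - x‖ ^ 3 := by
      have : c.C * ‖y - x‖ ^ 3 = c.C * ‖y - x‖ * ‖y - x‖ * ‖y - x‖ := by ring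
      rw [this]
      have := c.Cpos
      gcongr
    linarith [h2.2]
  calc dist (c.ψ x) (c.ψ y) ^ 2 ≤ Real.sqrt T ^ 2 := pow_le_pow_left₀ dist_nonneg h1 2
    _ = T := Real.sq_sqrt hT0

theorem le_dist_sq {x y : E} (hx : x ∈ ball c.x₀ c.r₁) (hy : y ∈ ball c.x₀ c.r₁) :
    c.G x (y - x) (y - x) ≤ (1 + c.κ * (c.κ * ‖y - x‖)) * dist (c.ψ x) (c.ψ y) ^ 2 := by
  have hκ := c.one_le_κ
  have hr1 := c.r₁pos
  have hx' := c.ball_sub hx
  have hy' := c.ball_sub hy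
  rcases eq_or_ne y x with rfl | hne
  · simp
  have hv : 0 < ‖y - x‖ := norm_pos_iff.mpr (sub_ne_zero.mpr hne)
  have hv2 : ‖y - x‖ < 2 * c.r₁ := by
    have h1 := dist_triangle_right y x c.x₀
    rw [mem_ball] at hx hy
    rw [← dist_eq_norm]
    linarith
  set T := c.G x (y - x) (y - x) with hT
  have hT0 : 0 < T := lt_of_lt_of_le (by have := c.lampos; positivity) (c.lower x hx' (y - x))
  set K2 := 1 + c.κ * (c.κ * ‖y - x‖) with hK2
  have hK20 : 0 < K2 := by positivity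
  by_contra hcon
  push Not at hcon
  have hlt : Real.sqrt K2 * dist (c.ψ x) (c.ψ y) < Real.sqrt T := by
    apply Real.lt_sqrt_of_sq_lt
    rw [mul_pow, Real.sq_sqrt hK20.le]
    exact hcon
  obtain ⟨w, hw, hwy, hle⟩ := c.lo x hx' (Real.sqrt T) (Real.sqrt K2) (Real.sqrt_pos.mpr hT0)
    (Real.sqrt_pos.mpr hK20) (by
      intro w hw
      rw [Real.sq_sqrt hT0.le] at hw
      have h1 : ‖w - x‖ ≤ c.κ * ‖y - x‖ := by
        have e1 : c.G x (y - x) (y - x) ≤ c.κ * c.lam * ‖y - x‖ ^ 2 :=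
          (c.upper x hx' (y - x)).trans (by gcongr; exact c.C_le)
        -- lower bound without knowing w in the ball: it only involves x
        have e2 := c.lower x hx' (w - x)
        have e3 : c.lam * ‖w - x‖ ^ 2 ≤ c.κ * c.lam * ‖y - x‖ ^ 2 := by linarith
        have e4 : ‖w - x‖ ^ 2 ≤ c.κ * ‖y - x‖ ^ 2 := by
          have := c.lampos
          by_contra hc
          push Not at hc
          nlinarith
        have e5 : ‖w - x‖ ^ 2 ≤ (c.κ * ‖y - x‖) ^ 2 := by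
          refine e4.trans ?_
          rw [mul_pow]
          have : 0 ≤ ‖y - x‖ ^ 2 := sq_nonneg _
          nlinarith
        exact (pow_le_pow_iff_left₀ (norm_nonneg _) (by positivity) two_ne_zero).mp e5
      have h2 : w ∈ ball c.x₀ c.r := by
        rw [mem_ball] at hx ⊢
        have e1 := dist_triangle w x c.x₀
        rw [dist_eq_norm w x] at e1
        have e2 : c.κ * ‖y - x‖ ≤ c.κ * (2 * c.r₁) := by gcongr
        have e3 := c.r₁_mul
        nlinarith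
      refine ⟨h2, fun v => ?_⟩
      rw [Real.sq_sqrt hK20.le]
      exact c.compare hx' h2 (by rw [norm_sub_rev]; exact h1) v) (c.ψ y) hlt
  have hwy' : w = y := by rw [← c.φψ w hw, hwy, c.φψ y hy']
  rw [hwy', mul_pow, Real.sq_sqrt hK20.le] at hle
  linarith

/-- cubic error constant -/
noncomputable def C₃ : ℝ := c.κ ^ 2 * c.C * (1 + c.r)

/-- Lipschitz constant -/
noncomputable def L : ℝ := (1 + c.κ * c.r) / c.lam + c.C * (1 + c.r) + 1

theorem C_le_C₃ : c.C ≤ c.C₃ := by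
  have h1 := c.one_le_κ
  have h2 := c.Cpos
  have h3 := c.rpos
  unfold C₃
  have h4 : 1 ≤ c.κ ^ 2 := by nlinarith
  calc c.C = 1 * c.C * 1 := by ring
    _ ≤ c.κ ^ 2 * c.C * (1 + c.r) := by gcongr; linarith

theorem C₃pos : 0 < c.C₃ := lt_of_lt_of_le c.Cpos c.C_le_C₃

theorem one_le_L : 1 ≤ c.L := by
  have h1 := c.one_le_κ
  have h2 := c.Cpos
  have h3 := c.rpos
  have h4 := c.lampos
  have : 0 ≤ (1 + c.κ * c.r) / c.lam := by positivity
  have : 0 ≤ c.C * (1 + c.r) := by positivity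
  unfold L
  linarith

theorem norm_lt {x y : E} (hx : x ∈ ball c.x₀ c.r₁) (hy : y ∈ ball c.x₀ c.r₁) :
    ‖y - x‖ < 2 * c.r₁ := by
  have h1 := dist_triangle_right y x c.x₀
  rw [mem_ball] at hx hy
  rw [← dist_eq_norm]
  linarith

theorem dist_sq_le' {x y : E} (hx : x ∈ ball c.x₀ c.r₁) (hy : y ∈ ball c.x₀ c.r₁) :
    dist (c.ψ x) (c.ψ y) ^ 2 ≤ c.G x (y - x) (y - x) + c.C₃ * ‖y - x‖ ^ 3 := by
  refine (c.dist_sq_le (c.ball_sub hx) (c.ball_sub hy)).trans ?_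
  have := c.C_le_C₃
  gcongr

theorem dist_sq_le_norm {x y : E} (hx : x ∈ ball c.x₀ c.r₁) (hy : y ∈ ball c.x₀ c.r₁) :
    dist (c.ψ x) (c.ψ y) ^ 2 ≤ c.C * (1 + c.r) * ‖y - x‖ ^ 2 := by
  refine (c.dist_sq_le (c.ball_sub hx) (c.ball_sub hy)).trans ?_
  have h1 := c.upper x (c.ball_sub hx) (y - x)
  have h2 := c.norm_lt hx hy
  have h3 := c.r₁_lt
  have h4 := c.Cpos
  have h5 : c.C * ‖y - x‖ ^ 3 ≤ c.C * c.r * ‖y - x‖ ^ 2 := by
    have : c.C * ‖y - x‖ ^ 3 = c.C * ‖y - x‖ * ‖y - x‖ ^ 2 := by ring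
    rw [this]
    have : ‖y - x‖ ≤ c.r := by linarith [c.r₁pos]
    gcongr
  linarith

theorem le_dist_sq' {x y : E} (hx : x ∈ ball c.x₀ c.r₁) (hy : y ∈ ball c.x₀ c.r₁) :
    c.G x (y - x) (y - x) ≤ dist (c.ψ x) (c.ψ y) ^ 2 + c.C₃ * ‖y - x‖ ^ 3 := by
  have h1 := c.le_dist_sq hx hy
  have h2 := c.dist_sq_le_norm hx hy
  have hκ := c.one_le_κ
  have h3 : c.κ * (c.κ * ‖y - x‖) * dist (c.ψ x) (c.ψ y) ^ 2 ≤
      c.κ * (c.κ * ‖y - x‖) * (c.C * (1 + c.r) * ‖y - x‖ ^ 2) := by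
    gcongr
  have h4 : c.κ * (c.κ * ‖y - x‖) * (c.C * (1 + c.r) * ‖y - x‖ ^ 2) = c.C₃ * ‖y - x‖ ^ 3 := by
    unfold C₃; ring
  linarith

theorem dist_le {x y : E} (hx : x ∈ ball c.x₀ c.r₁) (hy : y ∈ ball c.x₀ c.r₁) :
    dist (c.ψ x) (c.ψ y) ≤ c.L * ‖y - x‖ := by
  have h1 := c.dist_sq_le_norm hx hy
  have h2 : c.C * (1 + c.r) ≤ c.L ^ 2 := by
    have h3 : c.C * (1 + c.r) ≤ c.L := by
      unfold L
      have : 0 ≤ (1 + c.κ * c.r) / c.lam := by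
        have := c.one_le_κ; have := c.rpos; have := c.lampos
        positivity
      linarith
    have h4 := c.one_le_L
    nlinarith
  have h3 : dist (c.ψ x) (c.ψ y) ^ 2 ≤ (c.L * ‖y - x‖) ^ 2 := by
    rw [mul_pow]
    refine h1.trans ?_
    gcongr
  have := c.one_le_L
  exact (pow_le_pow_iff_left₀ dist_nonneg (by positivity) two_ne_zero).mp h3

theorem norm_le {x y : E} (hx : x ∈ ball c.x₀ c.r₁) (hy : y ∈ ball c.x₀ c.r₁) :
    ‖y - x‖ ≤ c.L * dist (c.ψ x) (c.ψ y) := by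
  have h1 := c.le_dist_sq hx hy
  have h2 := c.lower x (c.ball_sub hx) (y - x)
  have h3 := c.norm_lt hx hy
  have h4 := c.r₁_mul
  have hκ := c.one_le_κ
  have hl := c.lampos
  have hr := c.rpos
  have h5 : c.κ * (c.κ * ‖y - x‖) ≤ c.κ * c.r := by
    have : c.κ * ‖y - x‖ ≤ c.r := by nlinarith
    gcongr
  have h6 : c.lam * ‖y - x‖ ^ 2 ≤ (1 + c.κ * c.r) * dist (c.ψ x) (c.ψ y) ^ 2 := by
    refine h2.trans (h1.trans ?_)
    gcongr
  have h7 : (1 + c.κ * c.r) / c.lam ≤ c.L ^ 2 := by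
    have h3 : (1 + c.κ * c.r) / c.lam ≤ c.L := by
      unfold L
      have : 0 ≤ c.C * (1 + c.r) := by
        have := c.Cpos
        positivity
      linarith
    have h4 := c.one_le_L
    nlinarith
  have h8 : ‖y - x‖ ^ 2 ≤ (c.L * dist (c.ψ x) (c.ψ y)) ^ 2 := by
    rw [mul_pow]
    calc ‖y - x‖ ^ 2 ≤ (1 + c.κ * c.r) / c.lam * dist (c.ψ x) (c.ψ y) ^ 2 := by
          rw [div_mul_eq_mul_div, le_div_iff₀ hl]; linarith
      _ ≤ _ := by gcongr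
  have := c.one_le_L
  exact (pow_le_pow_iff_left₀ (norm_nonneg _) (by positivity) two_ne_zero).mp h8

/-- radius within which points are seen in the chart -/
noncomputable def τ : ℝ := Real.sqrt c.lam * c.r₁ / Real.sqrt (1 + c.κ * c.r)

theorem τpos : 0 < c.τ := by
  have h1 := c.one_le_κ
  have h2 := c.rpos
  have h3 := c.lampos
  have h4 := c.r₁pos
  unfold τ
  positivity

theorem in_chart {x : E} (hx : x ∈ ball c.x₀ c.r₁) {y : M} (hy : dist (c.ψ x) y < c.τ) :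
    ∃ w ∈ ball c.x₀ c.r, c.ψ w = y ∧ ‖w - x‖ ≤ c.L * dist (c.ψ x) y := by
  have hκ := c.one_le_κ
  have hr := c.rpos
  have hl := c.lampos
  have hr1 := c.r₁pos
  have hx' := c.ball_sub hx
  have hK0 : 0 < 1 + c.κ * c.r := by positivity
  obtain ⟨w, hw, hwy, hle⟩ := c.lo x hx' (Real.sqrt c.lam * c.r₁) (Real.sqrt (1 + c.κ * c.r))
    (by positivity) (by positivity) (by
      intro w hw
      rw [mul_pow, Real.sq_sqrt hl.le] at hw
      have e2 := c.lower x hx' (w - x)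
      have e3 : ‖w - x‖ ^ 2 ≤ c.r₁ ^ 2 := by
        by_contra hc
        push Not at hc
        nlinarith
      have e4 : ‖w - x‖ ≤ c.r₁ :=
        (pow_le_pow_iff_left₀ (norm_nonneg _) hr1.le two_ne_zero).mp e3
      have h2 : w ∈ ball c.x₀ c.r := by
        rw [mem_ball] at hx ⊢
        have e1 := dist_triangle w x c.x₀
        rw [dist_eq_norm w x] at e1
        have := c.r₁_lt
        linarith
      refine ⟨h2, fun v => ?_⟩
      rw [Real.sq_sqrt hK0.le]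
      refine (c.compare hx' h2 (d := c.r₁) (by rw [norm_sub_rev]; exact e4) v).trans ?_
      have h7 := c.nonneg h2 v
      have h8 := c.r₁_lt
      apply mul_le_mul_of_nonneg_right _ h7
      nlinarith) y (by
      unfold τ at hy
      rw [lt_div_iff₀ (by positivity)] at hy
      linarith)
  refine ⟨w, hw, hwy, ?_⟩
  rw [mul_pow, Real.sq_sqrt hK0.le] at hle
  have h2 := c.lower x hx' (w - x)
  have h6 : c.lam * ‖w - x‖ ^ 2 ≤ (1 + c.κ * c.r) * dist (c.ψ x) y ^ 2 := h2.trans hle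
  have h7 : (1 + c.κ * c.r) / c.lam ≤ c.L ^ 2 := by
    have h3 : (1 + c.κ * c.r) / c.lam ≤ c.L := by
      unfold L
      have : 0 ≤ c.C * (1 + c.r) := by
        have := c.Cpos
        positivity
      linarith
    have h4 := c.one_le_L
    nlinarith
  have h8 : ‖w - x‖ ^ 2 ≤ (c.L * dist (c.ψ x) y) ^ 2 := by
    rw [mul_pow]
    calc ‖w - x‖ ^ 2 ≤ (1 + c.κ * c.r) / c.lam * dist (c.ψ x) y ^ 2 := by
          rw [div_mul_eq_mul_div, le_div_iff₀ hl]; linarith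
      _ ≤ _ := by gcongr
  have := c.one_le_L
  exact (pow_le_pow_iff_left₀ (norm_nonneg _) (by positivity) two_ne_zero).mp h8

/-- distance between the ends of a chain is controlled by the energy -/
theorem dist_sq_le_energy {B : ℝ} {n : ℕ} (hn : 0 < n) (a : ℕ → E)
    (ha : ∀ i ≤ n, a i ∈ ball c.x₀ c.r₁) (ha' : ∀ i < n, ‖a (i + 1) - a i‖ ≤ B / n) :
    dist (c.ψ (a 0)) (c.ψ (a n)) ^ 2 ≤ c.energy n a + c.C₃ * B ^ 3 / n := by
  have hn' : (0 : ℝ) < n := by exact_mod_cast hn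
  have h1 : dist (c.ψ (a 0)) (c.ψ (a n)) ≤
      ∑ i ∈ Finset.range n, dist (c.ψ (a i)) (c.ψ (a (i + 1))) :=
    dist_le_range_sum_dist (fun i => c.ψ (a i)) n
  have h2 := sq_sum_le n (fun i => dist (c.ψ (a i)) (c.ψ (a (i + 1))))
  have h3 : ∀ i ∈ Finset.range n, dist (c.ψ (a i)) (c.ψ (a (i + 1))) ^ 2 ≤
      c.G (a i) (a (i + 1) - a i) (a (i + 1) - a i) + c.C₃ * (B / n) ^ 3 := by
    intro i hi
    rw [Finset.mem_range] at hi
    refine (c.dist_sq_le' (ha i hi.le) (ha (i + 1) hi)).trans ?_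
    have := c.C₃pos
    have := ha' i hi
    gcongr
  have h4 := Finset.sum_le_sum h3
  rw [Finset.sum_add_distrib, Finset.sum_const, Finset.card_range, nsmul_eq_mul] at h4
  have h5 := mul_le_mul_of_nonneg_left h4 hn'.le
  have h6 : (n : ℝ) * (n * (c.C₃ * (B / n) ^ 3)) = c.C₃ * B ^ 3 / n := by field_simp
  have h7 : dist (c.ψ (a 0)) (c.ψ (a n)) ^ 2 ≤
      (∑ i ∈ Finset.range n, dist (c.ψ (a i)) (c.ψ (a (i + 1)))) ^ 2 :=
    pow_le_pow_left₀ dist_nonneg h1 2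
  unfold MetCoef.energy
  rw [mul_add, h6] at h5
  linarith

/-- energy of a minimal chain -/
theorem energy_le {B T : ℝ} {n : ℕ} (hn : 0 < n) (a : ℕ → E)
    (ha : ∀ i ≤ n, a i ∈ ball c.x₀ c.r₁) (ha' : ∀ i < n, ‖a (i + 1) - a i‖ ≤ B / n)
    (hd : ∀ i < n, dist (c.ψ (a i)) (c.ψ (a (i + 1))) ≤ T / n) :
    c.energy n a ≤ T ^ 2 + c.C₃ * B ^ 3 / n := by
  have hn' : (0 : ℝ) < n := by exact_mod_cast hn
  have h3 : ∀ i ∈ Finset.range n, c.G (a i) (a (i + 1) - a i) (a (i + 1) - a i) ≤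
      (T / n) ^ 2 + c.C₃ * (B / n) ^ 3 := by
    intro i hi
    rw [Finset.mem_range] at hi
    refine (c.le_dist_sq' (ha i hi.le) (ha (i + 1) hi)).trans ?_
    have := c.C₃pos
    have := ha' i hi
    have := hd i hi
    gcongr
  have h4 := Finset.sum_le_sum h3
  rw [Finset.sum_const, Finset.card_range, nsmul_eq_mul] at h4
  have h5 := mul_le_mul_of_nonneg_left h4 hn'.le
  have h6 : (n : ℝ) * (n * ((T / n) ^ 2 + c.C₃ * (B / n) ^ 3)) = T ^ 2 + c.C₃ * B ^ 3 / n := by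
    field_simp
  unfold MetCoef.energy
  linarith

/-- the size of the strongly convex chart -/
theorem exists_rho : ∃ ρ : ℝ, 0 < ρ ∧ ρ ≤ c.r₁ ∧ ρ < c.τ ∧
    c.C * ρ ^ 2 + c.C * ρ / 2 + c.C * ρ / 4 ≤ c.lam / 16 := by
  have h1 := c.r₁pos
  have h2 := c.τpos
  have h3 := c.lampos
  have h4 := c.Cpos
  refine ⟨min c.r₁ (min (c.τ / 2) (min 1 (c.lam / (32 * c.C)))), ?_, min_le_left _ _, ?_, ?_⟩
  · apply lt_min h1 (lt_min (by linarith) (lt_min one_pos (by positivity)))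
  · refine lt_of_le_of_lt ((min_le_right _ _).trans (min_le_left _ _)) (by linarith)
  · set ρ := min c.r₁ (min (c.τ / 2) (min 1 (c.lam / (32 * c.C)))) with hρ
    have hρ0 : 0 < ρ := lt_min h1 (lt_min (by linarith) (lt_min one_pos (by positivity)))
    have hρ1 : ρ ≤ 1 := (min_le_right _ _).trans ((min_le_right _ _).trans (min_le_left _ _))
    have hρ2 : ρ ≤ c.lam / (32 * c.C) :=
      (min_le_right _ _).trans ((min_le_right _ _).trans (min_le_right _ _))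
    rw [le_div_iff₀ (by positivity)] at hρ2
    have : c.C * ρ ^ 2 ≤ c.C * ρ := by
      have : ρ ^ 2 ≤ ρ := by nlinarith
      gcongr
    nlinarith

/-- minimal chains in the chart -/
theorem chain_in_chart
    (hmid : ∀ x y : M, ∃ m : M, dist x m = dist x y / 2 ∧ dist m y = dist x y / 2)
    {ρ : ℝ} (hρ1 : ρ ≤ c.r₁) (hρτ : ρ < c.τ) {z u : E}
    (hz : z ∈ ball c.x₀ (ρ / (2 + 2 * c.L ^ 2))) (hu : u ∈ ball c.x₀ (ρ / (2 + 2 * c.L ^ 2)))
    (k : ℕ) :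
    ∃ a : ℕ → E, a 0 = z ∧ a (2 ^ k) = u ∧
      (∀ i ≤ 2 ^ k, a i ∈ ball c.x₀ ((1 + 2 * c.L ^ 2) * (ρ / (2 + 2 * c.L ^ 2)))) ∧
      (∀ i < 2 ^ k, ‖a (i + 1) - a i‖ ≤ (2 * c.L ^ 2 * (ρ / (2 + 2 * c.L ^ 2))) / (2 ^ k : ℕ)) ∧
      (∀ i < 2 ^ k, dist (c.ψ (a i)) (c.ψ (a (i + 1))) ≤ dist (c.ψ z) (c.ψ u) / (2 ^ k : ℕ)) := by
  have hL := c.one_le_L
  set ρ₀ := ρ / (2 + 2 * c.L ^ 2) with hρ₀
  have hρρ : ρ = ρ₀ * (2 + 2 * c.L ^ 2) := by rw [hρ₀]; field_simp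
  have hρ₀pos : 0 < ρ₀ := lt_of_le_of_lt dist_nonneg (mem_ball.mp hz)
  have hρ₀le : ρ₀ ≤ ρ := by rw [hρρ]; nlinarith
  have hz1 : z ∈ ball c.x₀ c.r₁ := ball_subset_ball (hρ₀le.trans hρ1) hz
  have hu1 : u ∈ ball c.x₀ c.r₁ := ball_subset_ball (hρ₀le.trans hρ1) hu
  have hzu : ‖u - z‖ < 2 * ρ₀ := by
    have h1 := dist_triangle_right u z c.x₀
    rw [mem_ball] at hz hu
    rw [← dist_eq_norm]
    linarith
  set T := dist (c.ψ z) (c.ψ u) with hT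
  have hT0 : 0 ≤ T := dist_nonneg
  have hT1 : T ≤ 2 * c.L * ρ₀ := by
    have := c.dist_le hz1 hu1
    nlinarith
  have hTτ : T < c.τ := by
    have : 2 * c.L * ρ₀ ≤ ρ := by
      rw [hρρ]
      nlinarith [sq_nonneg (c.L - 1)]
    linarith
  obtain ⟨p, p0, p1, hp⟩ := exists_chain hmid k (c.ψ z) (c.ψ u)
  have hpd : ∀ i < 2 ^ k, dist (p i) (p (i + 1)) ≤ T / 2 ^ k := fun i hi => (hp i hi).le
  have h2k : (0 : ℝ) < 2 ^ k := by positivity
  have hpz : ∀ i ≤ 2 ^ k, dist (c.ψ z) (p i) ≤ T := by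
    intro i hi
    have := chain_dist_le hpd 0 i (by omega)
    rw [zero_add, p0] at this
    refine this.trans ?_
    have : (i : ℝ) ≤ 2 ^ k := by exact_mod_cast hi
    rw [mul_div_assoc', div_le_iff₀ h2k]
    nlinarith
  have hex : ∀ i, ∃ w, i ≤ 2 ^ k → w ∈ ball c.x₀ c.r ∧ c.ψ w = p i ∧
      ‖w - z‖ ≤ c.L * dist (c.ψ z) (p i) := by
    intro i
    by_cases hi : i ≤ 2 ^ k
    · obtain ⟨w, h1, h2, h3⟩ := c.in_chart hz1 (lt_of_le_of_lt (hpz i hi) hTτ)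
      exact ⟨w, fun _ => ⟨h1, h2, h3⟩⟩
    · exact ⟨z, fun h => absurd h hi⟩
  choose a ha using hex
  have hcast : (((2 ^ k : ℕ) : ℝ)) = 2 ^ k := by push_cast; rfl
  have hab : ∀ i ≤ 2 ^ k, a i ∈ ball c.x₀ ((1 + 2 * c.L ^ 2) * ρ₀) := by
    intro i hi
    obtain ⟨h1, h2, h3⟩ := ha i hi
    rw [mem_ball] at hz ⊢
    have e1 := dist_triangle (a i) z c.x₀
    rw [dist_eq_norm (a i) z] at e1
    have e2 : c.L * dist (c.ψ z) (p i) ≤ c.L * (2 * c.L * ρ₀) := by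
      have := hpz i hi
      gcongr
      linarith
    nlinarith
  have hab1 : ∀ i ≤ 2 ^ k, a i ∈ ball c.x₀ c.r₁ := by
    intro i hi
    refine ball_subset_ball ?_ (hab i hi)
    refine le_trans ?_ hρ1
    rw [hρρ]; nlinarith
  refine ⟨a, ?_, ?_, hab, ?_, ?_⟩
  · obtain ⟨h1, h2, h3⟩ := ha 0 (by positivity)
    rw [← c.φψ _ h1, h2, p0, c.φψ _ (c.ball_sub hz1)]
  · obtain ⟨h1, h2, h3⟩ := ha (2 ^ k) le_rfl
    rw [← c.φψ _ h1, h2, p1, c.φψ _ (c.ball_sub hu1)]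
  · intro i hi
    refine (c.norm_le (hab1 i hi.le) (hab1 (i + 1) hi)).trans ?_
    rw [(ha i hi.le).2.1, (ha (i + 1) hi).2.1, hp i hi, hcast]
    rw [mul_div_assoc']
    apply div_le_div_of_nonneg_right _ h2k.le
    have : c.L * T ≤ c.L * (2 * c.L * ρ₀) := by gcongr
    nlinarith
  · intro i hi
    rw [(ha i hi.le).2.1, (ha (i + 1) hi).2.1, hp i hi, hcast]

theorem le_of_forall_pow {a b K : ℝ} (h : ∀ k : ℕ, a ≤ b + K / (2 ^ k : ℕ)) : a ≤ b := by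
  have h1 : Filter.Tendsto (fun k : ℕ => b + K / ((2 ^ k : ℕ) : ℝ)) Filter.atTop
      (nhds (b + 0)) := by
    apply Filter.Tendsto.const_add
    apply Filter.Tendsto.const_div_atTop
    have : (fun k : ℕ => (((2 ^ k : ℕ) : ℝ))) = fun k : ℕ => (2 : ℝ) ^ k := by
      funext k; push_cast; rfl
    rw [this]
    exact tendsto_pow_atTop_atTop_of_one_lt one_lt_two
  rw [add_zero] at h1
  exact ge_of_tendsto' h1 h

theorem half_mem_ball {ρ : ℝ} {x y : E} {x₀ : E} (hx : x ∈ ball x₀ ρ) (hy : y ∈ ball x₀ ρ) :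
    (1 / 2 : ℝ) • (x + y) ∈ ball x₀ ρ := by
  rw [smul_add]
  exact (convex_ball x₀ ρ) hx hy (by norm_num) (by norm_num) (by norm_num)

theorem sc_local
    (hmid : ∀ x y : M, ∃ m : M, dist x m = dist x y / 2 ∧ dist m y = dist x y / 2)
    {ρ : ℝ} (hρ0 : 0 < ρ) (hρ1 : ρ ≤ c.r₁) (hρτ : ρ < c.τ)
    (hsmall : c.C * ρ ^ 2 + c.C * ρ / 2 + c.C * ρ / 4 ≤ c.lam / 16) {z u v : E}
    (hz : z ∈ ball c.x₀ (ρ / (2 + 2 * c.L ^ 2))) (hu : u ∈ ball c.x₀ (ρ / (2 + 2 * c.L ^ 2)))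
    (hv : v ∈ ball c.x₀ (ρ / (2 + 2 * c.L ^ 2))) :
    dist (c.ψ z) (c.ψ ((1 / 2 : ℝ) • (u + v))) ^ 2 ≤
      (dist (c.ψ z) (c.ψ u) ^ 2 + dist (c.ψ z) (c.ψ v) ^ 2) / 2 -
        3 / 16 * c.G c.x₀ (u - v) (u - v) := by
  have hL := c.one_le_L
  set ρ₀ := ρ / (2 + 2 * c.L ^ 2) with hρ₀
  have hρρ : ρ = ρ₀ * (2 + 2 * c.L ^ 2) := by rw [hρ₀]; field_simp
  have hρ₀pos : 0 < ρ₀ := by positivity
  have hA : 2 * c.L ^ 2 * ρ₀ ≤ ρ := by rw [hρρ]; nlinarith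
  have hB : (1 + 2 * c.L ^ 2) * ρ₀ ≤ ρ := by rw [hρρ]; nlinarith
  have hr1r : ρ ≤ c.r := hρ1.trans (by linarith [c.r₁_lt, c.r₁pos])
  apply le_of_forall_pow (K := 2 * (c.C₃ * ρ ^ 3))
  intro k
  obtain ⟨a, a0, a1, hab, had, hadist⟩ := c.chain_in_chart hmid hρ1 hρτ hz hu k
  obtain ⟨b, b0, b1, hbb, hbd, hbdist⟩ := c.chain_in_chart hmid hρ1 hρτ hz hv k
  set n := 2 ^ k with hn
  have hnpos : 0 < n := by positivity
  have hn' : (0 : ℝ) < n := by exact_mod_cast hnpos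
  have hab' : ∀ i ≤ n, a i ∈ ball c.x₀ ρ := fun i hi => ball_subset_ball hB (hab i hi)
  have hbb' : ∀ i ≤ n, b i ∈ ball c.x₀ ρ := fun i hi => ball_subset_ball hB (hbb i hi)
  have hab1 : ∀ i ≤ n, a i ∈ ball c.x₀ c.r₁ := fun i hi => ball_subset_ball hρ1 (hab' i hi)
  have hbb1 : ∀ i ≤ n, b i ∈ ball c.x₀ c.r₁ := fun i hi => ball_subset_ball hρ1 (hbb' i hi)
  have had' : ∀ i < n, ‖a (i + 1) - a i‖ ≤ ρ / n := fun i hi => (had i hi).trans (by gcongr)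
  have hbd' : ∀ i < n, ‖b (i + 1) - b i‖ ≤ ρ / n := fun i hi => (hbd i hi).trans (by gcongr)
  have e1 := c.energy_sc hr1r hρ0.le hsmall hnpos a b (by rw [a0, b0]) hab' hbb' had' hbd'
  have e2 := c.energy_le hnpos a hab1 had' hadist
  have e3 := c.energy_le hnpos b hbb1 hbd' hbdist
  have e4 := c.dist_sq_le_energy (B := ρ) hnpos (fun i => (1 / 2 : ℝ) • (a i + b i))
    (fun i hi => half_mem_ball (hab1 i hi) (hbb1 i hi)) (by
      intro i hi
      have : (1 / 2 : ℝ) • (a (i + 1) + b (i + 1)) - (1 / 2 : ℝ) • (a i + b i) =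
        (1 / 2 : ℝ) • ((a (i + 1) - a i) + (b (i + 1) - b i)) := by module
      rw [this, norm_smul]
      have h1 := norm_add_le (a (i + 1) - a i) (b (i + 1) - b i)
      have h2 := had' i hi
      have h3 := hbd' i hi
      have : ‖(1 / 2 : ℝ)‖ = 1 / 2 := by norm_num
      rw [this]
      linarith)
  simp only [a0, b0, a1, b1] at e4 e1
  have e5 : (1 / 2 : ℝ) • (z + z) = z := by module
  rw [e5] at e4
  have e6 : 2 * (c.C₃ * ρ ^ 3) / (n : ℝ) = 2 * (c.C₃ * ρ ^ 3 / n) := by ring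
  rw [e6]
  linarith

theorem scc_local
    (hmid : ∀ x y : M, ∃ m : M, dist x m = dist x y / 2 ∧ dist m y = dist x y / 2)
    {ρ : ℝ} (hρ0 : 0 < ρ) (hρ1 : ρ ≤ c.r₁) (hρτ : ρ < c.τ)
    (hsmall : c.C * ρ ^ 2 + c.C * ρ / 2 + c.C * ρ / 4 ≤ c.lam / 16) {z u v : E}
    (hz : z ∈ ball c.x₀ (ρ / (2 + 2 * c.L ^ 2))) (hu : u ∈ ball c.x₀ (ρ / (2 + 2 * c.L ^ 2)))
    (hv : v ∈ ball c.x₀ (ρ / (2 + 2 * c.L ^ 2))) :
    (dist (c.ψ z) (c.ψ u) ^ 2 + dist (c.ψ z) (c.ψ v) ^ 2) / 2 -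
        5 / 16 * c.G c.x₀ (u - v) (u - v) ≤
      dist (c.ψ z) (c.ψ ((1 / 2 : ℝ) • (u + v))) ^ 2 := by
  have hL := c.one_le_L
  set ρ₀ := ρ / (2 + 2 * c.L ^ 2) with hρ₀
  have hρρ : ρ = ρ₀ * (2 + 2 * c.L ^ 2) := by rw [hρ₀]; field_simp
  have hρ₀pos : 0 < ρ₀ := by positivity
  have hA : 2 * c.L ^ 2 * ρ₀ ≤ ρ := by rw [hρρ]; nlinarith
  have hB : (1 + 2 * c.L ^ 2) * ρ₀ ≤ ρ := by rw [hρρ]; nlinarith
  have hr1r : ρ ≤ c.r := hρ1.trans (by linarith [c.r₁_lt, c.r₁pos])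
  set e : E := (1 / 2 : ℝ) • (u - v) with he
  have hen : ‖e‖ ≤ ρ₀ := by
    have h1 := dist_triangle_right u v c.x₀
    rw [mem_ball] at hu hv
    rw [he, norm_smul, ← dist_eq_norm]
    have : ‖(1 / 2 : ℝ)‖ = 1 / 2 := by norm_num
    rw [this]
    linarith
  have hm := half_mem_ball hu hv
  rw [tsub_le_iff_right]
  have hQe : c.G c.x₀ (u - v) (u - v) = 4 * c.G c.x₀ e e := by
    rw [he]
    simp only [map_smul, LinearMap.smul_apply, smul_eq_mul]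
    ring
  rw [hQe]
  apply le_of_forall_pow (K := 2 * (c.C₃ * ρ ^ 3))
  intro k
  obtain ⟨m, m0, m1, hmb, hmd, hmdist⟩ := c.chain_in_chart hmid hρ1 hρτ hz hm k
  set n := 2 ^ k with hn
  have hnpos : 0 < n := by positivity
  have hn' : (0 : ℝ) < n := by exact_mod_cast hnpos
  have hfrac : ∀ i ≤ n, ‖((i : ℝ) / n) • e‖ ≤ ρ₀ := by
    intro i hi
    rw [norm_smul, Real.norm_of_nonneg (by positivity)]
    have h1 : (i : ℝ) / n ≤ 1 := by
      rw [div_le_one hn']; exact_mod_cast hi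
    have := norm_nonneg e
    nlinarith
  have hmr : ∀ i ≤ n, m i ∈ ball c.x₀ ρ := fun i hi => ball_subset_ball hB (hmb i hi)
  have hap : ∀ i ≤ n, m i + ((i : ℝ) / n) • e ∈ ball c.x₀ ρ := by
    intro i hi
    have h1 := hmb i hi
    rw [mem_ball, dist_eq_norm] at h1 ⊢
    have h2 : m i + ((i : ℝ) / n) • e - c.x₀ = (m i - c.x₀) + ((i : ℝ) / n) • e := by abel
    rw [h2]
    have h3 := norm_add_le (m i - c.x₀) (((i : ℝ) / n) • e)
    have h4 := hfrac i hi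
    rw [hρρ]; nlinarith
  have ham : ∀ i ≤ n, m i - ((i : ℝ) / n) • e ∈ ball c.x₀ ρ := by
    intro i hi
    have h1 := hmb i hi
    rw [mem_ball, dist_eq_norm] at h1 ⊢
    have h2 : m i - ((i : ℝ) / n) • e - c.x₀ = (m i - c.x₀) - ((i : ℝ) / n) • e := by abel
    rw [h2]
    have h3 := norm_sub_le (m i - c.x₀) (((i : ℝ) / n) • e)
    have h4 := hfrac i hi
    rw [hρρ]; nlinarith
  have hstep : ∀ i, (((i + 1 : ℕ) : ℝ) / n) • e - ((i : ℝ) / n) • e = ((1 : ℝ) / n) • e := by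
    intro i
    push_cast
    have : (((i : ℝ) + 1) / n) = (i : ℝ) / n + 1 / n := by ring
    rw [this]
    module
  have hstepn : ‖((1 : ℝ) / n) • e‖ ≤ ρ₀ / n := by
    rw [norm_smul, Real.norm_of_nonneg (by positivity)]
    have : ρ₀ / n = 1 / n * ρ₀ := by ring
    rw [this]
    gcongr
  have hmd' : ∀ i < n, ‖m (i + 1) - m i‖ ≤ ρ / n := fun i hi => (hmd i hi).trans (by gcongr)
  have hpd : ∀ i < n, ‖(m (i + 1) + (((i + 1 : ℕ) : ℝ) / n) • e) - (m i + ((i : ℝ) / n) • e)‖ ≤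
      ρ / n := by
    intro i hi
    have : (m (i + 1) + (((i + 1 : ℕ) : ℝ) / n) • e) - (m i + ((i : ℝ) / n) • e) =
      (m (i + 1) - m i) + ((((i + 1 : ℕ) : ℝ) / n) • e - ((i : ℝ) / n) • e) := by abel
    rw [this, hstep]
    refine (norm_add_le _ _).trans ?_
    have h1 := hmd i hi
    have h2 : 2 * c.L ^ 2 * ρ₀ / n + ρ₀ / n ≤ ρ / n := by
      rw [← add_div]
      gcongr
      rw [hρρ]; nlinarith
    linarith
  have hqd : ∀ i < n, ‖(m (i + 1) - (((i + 1 : ℕ) : ℝ) / n) • e) - (m i - ((i : ℝ) / n) • e)‖ ≤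
      ρ / n := by
    intro i hi
    have : (m (i + 1) - (((i + 1 : ℕ) : ℝ) / n) • e) - (m i - ((i : ℝ) / n) • e) =
      (m (i + 1) - m i) - ((((i + 1 : ℕ) : ℝ) / n) • e - ((i : ℝ) / n) • e) := by abel
    rw [this, hstep]
    refine (norm_sub_le _ _).trans ?_
    have h1 := hmd i hi
    have h2 : 2 * c.L ^ 2 * ρ₀ / n + ρ₀ / n ≤ ρ / n := by
      rw [← add_div]
      gcongr
      rw [hρρ]; nlinarith
    linarith
  have e1 := c.energy_scc hr1r hρ0.le hsmall hnpos m e hap ham hmd'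
  have e2 := c.energy_le hnpos m (fun i hi => ball_subset_ball hρ1 (hmr i hi)) hmd' hmdist
  have e3 := c.dist_sq_le_energy (B := ρ) hnpos (fun i => m i + ((i : ℝ) / n) • e)
    (fun i hi => ball_subset_ball hρ1 (hap i hi)) hpd
  have e4 := c.dist_sq_le_energy (B := ρ) hnpos (fun i => m i - ((i : ℝ) / n) • e)
    (fun i hi => ball_subset_ball hρ1 (ham i hi)) hqd
  have hnn : (n : ℝ) / n = 1 := div_self hn'.ne'
  simp only [m0, m1, hnn, Nat.cast_zero, zero_div, zero_smul, add_zero, sub_zero, one_smul] at e3 e4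
  have f1 : (1 / 2 : ℝ) • (u + v) + e = u := by rw [he]; module
  have f2 : (1 / 2 : ℝ) • (u + v) - e = v := by rw [he]; module
  rw [f1] at e3
  rw [f2] at e4
  have e6 : 2 * (c.C₃ * ρ ^ 3) / (n : ℝ) = 2 * (c.C₃ * ρ ^ 3 / n) := by ring
  rw [e6]
  linarith

/-- the strongly convex chart -/
theorem exists_cchart
    (hmid : ∀ x y : M, ∃ m : M, dist x m = dist x y / 2 ∧ dist m y = dist x y / 2) :
    ∃ d : CChart M E, c.ψ c.x₀ ∈ d.W := by
  obtain ⟨ρ, hρ0, hρ1, hρτ, hsmall⟩ := c.exists_rho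
  have hL := c.one_le_L
  set ρ₀ := ρ / (2 + 2 * c.L ^ 2) with hρ₀
  have hρ₀pos : 0 < ρ₀ := by positivity
  have hρρ : ρ = ρ₀ * (2 + 2 * c.L ^ 2) := by rw [hρ₀]; field_simp
  have hρ₀le : ρ₀ ≤ ρ := by rw [hρρ]; nlinarith
  have hsub : ball c.x₀ ρ₀ ⊆ ball c.x₀ c.r := (ball_subset_ball (hρ₀le.trans hρ1)).trans c.ball_sub
  refine ⟨{ φ := c.φ, ψ := c.ψ, V := ball c.x₀ ρ₀, W := c.ψ '' ball c.x₀ ρ₀,
            convexV := convex_ball _ _, openW := c.isOpen_image _ hsub isOpen_ball,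
            φmaps := ?_, ψmaps := fun v hv => ⟨v, hv, rfl⟩, ψφ := ?_,
            φψ := fun v hv => c.φψ v (hsub hv),
            contφ := c.contφ.mono (image_mono hsub), contψ := c.contψ.mono hsub,
            Q := fun v => c.G c.x₀ v v, Qpos := ?_, sc := ?_, scc := ?_ }, ?_⟩
  · rintro _ ⟨v, hv, rfl⟩
    rw [c.φψ v (hsub hv)]; exact hv
  · rintro _ ⟨v, hv, rfl⟩
    rw [c.φψ v (hsub hv)]
  · intro v hv
    have h1 := c.lower c.x₀ (mem_ball_self c.rpos) v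
    have h2 : 0 < ‖v‖ := norm_pos_iff.mpr hv
    have h3 := c.lampos
    have : 0 < c.lam * ‖v‖ ^ 2 := by positivity
    linarith
  · rintro _ ⟨z, hz, rfl⟩ u hu v hv
    exact c.sc_local hmid hρ0 hρ1 hρτ hsmall hz hu hv
  · rintro _ ⟨z, hz, rfl⟩ u hu v hv
    exact c.scc_local hmid hρ0 hρ1 hρτ hsmall hz hu hv
  · exact ⟨c.x₀, mem_ball_self hρ₀pos, rfl⟩

end Loc

/-- assembling the geometry of a compact space -/
theorem Geo.of_loc {M : Type u} {E : Type v} [MetricSpace M] [CompactSpace M]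
    [NormedAddCommGroup E] [NormedSpace ℝ E]
    (hmid : ∀ x y : M, ∃ m : M, dist x m = dist x y / 2 ∧ dist m y = dist x y / 2)
    (hloc : ∀ p : M, ∃ c : Loc M E, c.ψ c.x₀ = p) : ∃ R, Geo M E R := by
  have h1 : ∀ p : M, ∃ d : CChart M E, p ∈ d.W := by
    intro p
    obtain ⟨c, hc⟩ := hloc p
    obtain ⟨d, hd⟩ := c.exists_cchart hmid
    exact ⟨d, by rw [← hc]; exact hd⟩
  choose d hd using h1
  obtain ⟨R, hR, h⟩ := lebesgue_number_lemma_of_metric (isCompact_univ (X := M))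
    (c := fun p => (d p).W) (fun p => (d p).openW) (fun p _ => mem_iUnion.mpr ⟨p, hd p⟩)
  refine ⟨R, hR, fun p => ?_, hmid⟩
  obtain ⟨q, hq⟩ := h p (mem_univ p)
  exact ⟨d q, hq⟩

end Pool.Agent.Helper381
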