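import Pool.Agent.Helper381.Cover

/-! Two-numbers and Betti numbers: main inequalities for length spaces with good charts. -/

namespace Pool.Agent.Helper381

universe u v w

open Metric Set Module

section Tot

theorem totalBetti_eq {k : Type w} [Field k] {X : Type u} [TopologicalSpace X] (N : ℕ)
    (hfin : ∀ n, Module.Finite k (SingCoh k X n))
    (h : ∀ n, N ≤ n → finrank k (SingCoh k X n) = 0) :
    totalBetti k X = ((∑ n ∈ Finset.range N, finrank k (SingCoh k X n) : ℕ) : ℕ∞) := by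
  have h1 : ∀ n, Cardinal.toENat (Module.rank k (SingCoh k X n)) =
      (finrank k (SingCoh k X n) : ℕ∞) := by
    intro n
    rw [← Module.finrank_eq_rank, Cardinal.toENat_nat]
  have h2 : totalBetti k X = ⨆ N' : ℕ, ((∑ n ∈ Finset.range N', finrank k (SingCoh k X n) : ℕ) : ℕ∞) := by
    rw [totalBetti]
    congr 1
    funext N'
    simp only [rank_singularCohomology, h1]
    push_cast
    rfl
  rw [h2]
  apply le_antisymm
  · apply iSup_le
    intro N'
    rw [Nat.cast_le]
    have h3 : ∑ n ∈ Finset.range N', finrank k (SingCoh k X n) ≤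
        ∑ n ∈ Finset.range (max N N'), finrank k (SingCoh k X n) :=
      Finset.sum_le_sum_of_subset (Finset.range_mono (le_max_right _ _))
    have h4 : ∑ n ∈ Finset.range (max N N'), finrank k (SingCoh k X n) =
        ∑ n ∈ Finset.range N, finrank k (SingCoh k X n) := by
      symm
      apply Finset.sum_subset (Finset.range_mono (le_max_left _ _))
      intro n _ hn
      rw [Finset.mem_range, not_lt] at hn
      exact h n hn
    omega
  · exact le_iSup (fun N' : ℕ => ((∑ n ∈ Finset.range N', finrank k (SingCoh k X n) : ℕ) : ℕ∞)) N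

theorem ordcoh_top {P : Type u} [PartialOrder P] {Q : Set P} (hQ : Q.Finite) (k : Type w) [Field k]
    (n : ℕ) (hn : Q.ncard ≤ n) : finrank k (OrdCoh k Q n) = 0 := by
  have := isEmpty_Ch hQ n hn
  have h1 : ∀ n, Finite (Ch Q n) := finite_Ch hQ
  exact finrank_coh_top (k := k) (C := fun n => Ch Q n → k)
    (fun n => altd k (cface (Q := Q)) n) n (Module.finrank_zero_of_subsingleton)

theorem ordcoh_finite {P : Type u} [PartialOrder P] {Q : Set P} (hQ : Q.Finite) (k : Type w)
    [Field k] (n : ℕ) : Module.Finite k (OrdCoh k Q n) := by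
  have h1 : ∀ n, Finite (Ch Q n) := finite_Ch hQ
  infer_instance

end Tot

section Main

variable {M : Type u} {E : Type v} [MetricSpace M] [NormedAddCommGroup E] [NormedSpace ℝ E]
  {R : ℝ} (G : Geo M E R)

include G

theorem Geo.betti_finite [CompactSpace M] [Nonempty M] (k : Type w) [Field k] :
    (∀ n, Module.Finite k (SingCoh k M n)) ∧
      ∃ N, ∀ n, N ≤ n → finrank k (SingCoh k M n) = 0 := by
  obtain ⟨F, hF, _⟩ := exists_net (M := M) [] (by simp) (by simp) (R / 4)
    (by linarith [G.Rpos])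
  have hρR : 4 * (R / 4) ≤ R := by linarith
  have hQ := Fam_finite F (R / 4)
  constructor
  · intro n
    obtain ⟨e⟩ := G.nerve hρR hF k n
    have := ordcoh_finite hQ k n
    exact Module.Finite.equiv e.symm
  · refine ⟨(Fam F (R / 4)).ncard, fun n hn => ?_⟩
    obtain ⟨e⟩ := G.nerve hρR hF k n
    rw [LinearEquiv.finrank_eq e]
    exact ordcoh_top hQ k n hn

theorem Geo.betti_finite' [CompactSpace M] [Nonempty M] (k : Type w) [Field k] :
    (∀ n, Module.Finite k (SingularCohomology k M n)) ∧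
      ∃ N, ∀ n, N ≤ n → finrank k (SingularCohomology k M n) = 0 := by
  obtain ⟨h1, N, h2⟩ := G.betti_finite k
  refine ⟨fun n => ?_, N, fun n hn => ?_⟩
  · obtain ⟨e⟩ := singEquiv k M n
    have := h1 n
    exact Module.Finite.equiv e.symm
  · rw [finrank_singularCohomology]
    exact h2 n hn

/-- no 2-torsion: mod 2 Betti numbers are bounded by those of any field -/
theorem Geo.total_le_of_torsionfree [CompactSpace M] [Nonempty M] (k : Type w) [Field k]
    (h : ∀ n, ∀ c : SingCoh ℤ M n, (2 : ℤ) • c = 0 → c = 0) :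
    totalBetti (ZMod 2) M ≤ totalBetti k M := by
  have : Fact (Nat.Prime 2) := ⟨Nat.prime_two⟩
  obtain ⟨F, hF, _⟩ := exists_net (M := M) [] (by simp) (by simp) (R / 4)
    (by linarith [G.Rpos])
  have hρR : 4 * (R / 4) ≤ R := by linarith
  have hQ := Fam_finite F (R / 4)
  obtain ⟨a1, N1, b1⟩ := G.betti_finite (ZMod 2)
  obtain ⟨a2, N2, b2⟩ := G.betti_finite k
  rw [totalBetti_eq (max N1 N2) a1 (fun n hn => b1 n (le_trans (le_max_left _ _) hn)),
    totalBetti_eq (max N1 N2) a2 (fun n hn => b2 n (le_trans (le_max_right _ _) hn))]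
  rw [Nat.cast_le]
  have e1 : ∀ n, finrank (ZMod 2) (SingCoh (ZMod 2) M n) =
      finrank (ZMod 2) (OrdCoh (ZMod 2) (Fam F (R / 4)) n) := by
    intro n
    obtain ⟨e⟩ := G.nerve hρR hF (ZMod 2) n
    exact LinearEquiv.finrank_eq e
  have e2 : ∀ n, finrank k (SingCoh k M n) =
      finrank k (OrdCoh k (Fam F (R / 4)) n) := by
    intro n
    obtain ⟨e⟩ := G.nerve hρR hF k n
    exact LinearEquiv.finrank_eq e
  simp only [e1, e2]
  have h1 : ∀ n, Finite (Ch (Fam F (R / 4)) n) := finite_Ch hQ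
  apply sum_coh2_le (S := fun n => Ch (Fam F (R / 4)) n) (cface (Q := Fam F (R / 4)))
  · intro n i j σ hij; exact cface_cface n i j σ hij
  · intro n c hc
    obtain ⟨e⟩ := G.nerve hρR hF ℤ n
    have h2 : (2 : ℤ) • e.symm c = 0 := by
      rw [← map_smul, hc, map_zero]
    have h3 := h n _ h2
    exact e.symm.map_eq_zero_iff.mp h3

/-- choice of symmetries for an antipodal set -/
theorem Geo.exists_symm [PreconnectedSpace M] {A : Set M} (hA : IsAntipodal A) :
    ∃ s : M → (M ≃ᵢ M), ∀ x ∈ A, IsSymmetryAt x (s x) ∧ ∀ y ∈ A, s x y = y := by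
  have : ∀ x, ∃ s : M ≃ᵢ M, x ∈ A → (IsSymmetryAt x s ∧ ∀ y ∈ A, s y = y) := by
    intro x
    by_cases hx : x ∈ A
    · obtain ⟨s, hs, _⟩ := hA x hx x hx
      refine ⟨s, fun _ => ⟨hs, fun y hy => ?_⟩⟩
      obtain ⟨s', hs', hy'⟩ := hA x hx y hy
      rw [G.symm_unique hs hs', hy']
    · exact ⟨IsometryEquiv.refl M, fun h => absurd h hx⟩
  choose s hs using this
  exact ⟨s, fun x hx => hs x hx⟩

theorem Geo.list_props [PreconnectedSpace M] {A : Set M} (s : M → (M ≃ᵢ M))
    (hs : ∀ x ∈ A, IsSymmetryAt x (s x) ∧ ∀ y ∈ A, s x y = y) (l : List M) (hl : ∀ x ∈ l, x ∈ A) :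
    (∀ g ∈ l.map s, ∀ x, g (g x) = x) ∧
    (∀ g ∈ l.map s, ∀ h ∈ l.map s, ∀ x, g (h x) = h (g x)) ∧
    (∀ g ∈ l.map s, ∀ a ∈ A, g a = a) := by
  refine ⟨?_, ?_, ?_⟩
  · intro g hg x
    obtain ⟨a, ha, rfl⟩ := List.mem_map.mp hg
    exact (hs a (hl a ha)).1.1 x
  · intro g hg h hh x
    obtain ⟨a, ha, rfl⟩ := List.mem_map.mp hg
    obtain ⟨b, hb, rfl⟩ := List.mem_map.mp hh
    exact G.symm_comm (hs a (hl a ha)).1 (hs b (hl b hb)).1 ((hs a (hl a ha)).2 b (hl b hb)) x
  · intro g hg a ha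
    obtain ⟨b, hb, rfl⟩ := List.mem_map.mp hg
    exact (hs b (hl b hb)).2 a ha

/-- a finite antipodal set has at most `dim H^*(M; F_2)` elements -/
theorem Geo.card_le [CompactSpace M] [PreconnectedSpace M] [Nonempty M] (A : Finset M)
    (hA : IsAntipodal (A : Set M)) : (A.card : ℕ∞) ≤ totalBetti (ZMod 2) M := by
  classical
  have : Fact (Nat.Prime 2) := ⟨Nat.prime_two⟩
  obtain ⟨s, hs⟩ := G.exists_symm hA
  obtain ⟨hinv, hcomm, hfix⟩ := G.list_props s hs A.toList (fun x hx => by simpa using hx)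
  set gs := A.toList.map s with hgs
  have hR := G.Rpos
  obtain ⟨F, hF, hFg⟩ := exists_net (M := M) gs hinv hcomm (R / 4) (by linarith)
  have hρR : 4 * (R / 4) ≤ R := by linarith
  set ρ := R / 4 with hρ
  have hQ := Fam_finite F ρ
  obtain ⟨a1, N1, b1⟩ := G.betti_finite (ZMod 2)
  set N := max (N1) (max (Fam F ρ).ncard 1) with hN
  have hN1 : N1 ≤ N := le_max_left _ _
  have hN2 : (Fam F ρ).ncard ≤ N := le_trans (le_max_left _ _) (le_max_right _ _)
  have hN3 : 1 ≤ N := le_trans (le_max_right _ _) (le_max_right _ _)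
  rw [totalBetti_eq N a1 (fun n hn => b1 n (hN1.trans hn)), Nat.cast_le]
  have e1 : ∀ n, finrank (ZMod 2) (SingCoh (ZMod 2) M n) =
      finrank (ZMod 2) (OrdCoh (ZMod 2) (Fam F ρ) n) := by
    intro n
    obtain ⟨e⟩ := G.nerve hρR hF (ZMod 2) n
    exact LinearEquiv.finrank_eq e
  simp only [e1]
  have hgood := goodList F ρ gs hinv hcomm hFg
  have h1 := smith_list hQ (gs.map imS) hgood N hN2
  refine le_trans ?_ h1
  have h2 : finrank (ZMod 2) (OrdCoh (ZMod 2) (fixS (Fam F ρ) (gs.map imS)) 0) ≤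
      ∑ n ∈ Finset.range N,
        finrank (ZMod 2) (OrdCoh (ZMod 2) (fixS (Fam F ρ) (gs.map imS)) n) :=
    Finset.single_le_sum (f := fun n =>
      finrank (ZMod 2) (OrdCoh (ZMod 2) (fixS (Fam F ρ) (gs.map imS)) n))
      (fun _ _ => Nat.zero_le _) (Finset.mem_range.mpr hN3)
  refine le_trans ?_ h2
  -- points of A are far from other fixed points
  have hmem : ∀ x ∈ A, s x ∈ gs := fun x hx => by
    rw [hgs]; exact List.mem_map.mpr ⟨x, by simpa using hx, rfl⟩
  have hiso : ∀ a ∈ A, ∀ y, dist y a < R → (∀ g ∈ gs, g y = y) → y = a := by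
    intro a ha y hy hg
    obtain ⟨q1, q2, q3⟩ := (hs a ha).1
    exact G.isolated_uniform (s a) q2 q3 hy (hg _ (hmem a ha))
  have h3 := components_le (Q := fixS (Fam F ρ) (gs.map imS))
    (hQ.subset (fixS_subset _ _)) (ι := A) (fun a => Jm F ρ {a.1})
    (fun a => Jm_fixS F ρ hF gs hinv hFg a.1 (fun g hg => hfix g hg a.1 a.2))
    (fun a C => if a.1 ∈ C then 1 else 0) ?_ ?_
  · rwa [Fintype.card_coe] at h3
  · intro a C hC C' hC' hle
    have key : a.1 ∈ C' → a.1 ∈ C := by
      intro haC'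
      obtain ⟨hCF, hCg⟩ := (mem_fixS F ρ gs C).mp hC
      obtain ⟨y, hyC, hy⟩ := G.fam_fixed hρR hCF
      have hyg : ∀ g ∈ gs, g y = y := fun g hg =>
        hy g (net_iff F g (hinv g hg) (hFg g hg)) (hCg g hg)
      have hd := Fam_dist ((mem_fixS F ρ gs C').mp hC').1 (hle hyC) haC'
      have := hiso a.1 a.2 y (by linarith) hyg
      rw [← this]; exact hyC
    by_cases h : a.1 ∈ C
    · have h' : a.1 ∈ C' := hle h
      simp [h, h']
    · have h' : a.1 ∉ C' := fun h' => h (key h')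
      simp [h, h']
  · intro a b
    by_cases hab : a = b
    · subst hab
      have : a.1 ∈ Jm F ρ {a.1} := subset_Jm F ρ _ rfl
      simp [this]
    · have : a.1 ∉ Jm F ρ {b.1} := by
        intro h
        apply hab
        apply Subtype.ext
        have hJ := Jm_fixS F ρ hF gs hinv hFg b.1 (fun g hg => hfix g hg b.1 b.2)
        have hd := Fam_dist ((mem_fixS F ρ gs _).mp hJ).1 h
          (subset_Jm F ρ _ (rfl : b.1 ∈ ({b.1} : Set M)))
        exact hiso b.1 b.2 a.1 (by linarith) (fun g hg => hfix g hg a.1 a.2)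
      simp [this, hab]

theorem Geo.twoNumber_le [CompactSpace M] [PreconnectedSpace M] [Nonempty M] :
    twoNumber M ≤ totalBetti (ZMod 2) M := by
  classical
  apply iSup_le
  rintro ⟨A, hA⟩
  -- it is enough to bound finite subsets
  by_cases hfin : A.Finite
  · have := G.card_le hfin.toFinset (by simpa using hA)
    rw [hfin.encard_eq_coe_toFinset_card]
    exact this
  · exfalso
    obtain ⟨a1, N1, b1⟩ := G.betti_finite (M := M) (ZMod 2)
    have hT := totalBetti_eq N1 a1 b1
    have hinf : A.Infinite := hfin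
    obtain ⟨B, hBA, hBc⟩ := hinf.exists_subset_card_eq
      (∑ n ∈ Finset.range N1, finrank (ZMod 2) (SingCoh (ZMod 2) M n) + 1)
    have := G.card_le B (fun x hx y hy => hA x (hBA hx) y (hBA hy))
    rw [hT, hBc, Nat.cast_le] at this
    omega

end Main

end Pool.Agent.Helper381
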