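import Pool.Agent.Helper381.Main
import Pool.Agent.Helper381.Chain

/-! Parity of the two-number. -/

namespace Pool.Agent.Helper381

universe u v w

open Metric Set Module

section Refl

variable {M : Type u} {E : Type v} [MetricSpace M] [NormedAddCommGroup E] [NormedSpace ℝ E]
  {R : ℝ} (G : Geo M E R)

include G

/-- symmetries reverse minimal chains through their centre -/
theorem Geo.symm_chain {n : ℕ} (hn : 1 ≤ n) {c : ℕ → M} {h : ℝ} (hh : 2 * h < R)
    (hc : ∀ i d, i + d ≤ 2 * n → dist (c i) (c (i + d)) = d * h)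
    {s : M ≃ᵢ M} (hs : IsSymmetryAt (c n) s) :
    ∀ i ≤ n, s (c (n + i)) = c (n - i) := by
  have h0 : 0 ≤ h := by
    have := hc 0 1 (by omega)
    have h2 := dist_nonneg (x := c 0) (y := c (0 + 1))
    rw [this] at h2
    simpa using h2
  have key : ∀ i, i + 1 ≤ n → s (c (n + i)) = c (n - i) ∧ s (c (n + (i + 1))) = c (n - (i + 1)) := by
    intro i
    induction i with
    | zero =>
      intro hi
      refine ⟨hs.2.1, ?_⟩
      have e1 : dist (c n) (c (n + 1)) = h := by
        have := hc n 1 (by omega); simpa using this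
      have e2 : dist (c (n - 1)) (c n) = h := by
        have := hc (n - 1) 1 (by omega)
        rw [Nat.sub_add_cancel hn] at this; simpa using this
      have e3 : dist (c (n - 1)) (c (n + 1)) = 2 * h := by
        have := hc (n - 1) 2 (by omega)
        have h4 : n - 1 + 2 = n + 1 := by omega
        rw [h4] at this; exact_mod_cast this
      apply G.symm_eq_of_midpt hs
      · rw [zero_add, dist_comm, e1]; exact hh
      · rw [zero_add, dist_comm, e2, dist_comm, e1]
      · rw [zero_add, dist_comm, e3, dist_comm, e1]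
    | succ i ih =>
      intro hi
      obtain ⟨h1, h2⟩ := ih (by omega)
      refine ⟨h2, ?_⟩
      have e1 : dist (c (n + i)) (c (n + (i + 1))) = h := by
        have := hc (n + i) 1 (by omega)
        rw [add_assoc] at this; simpa using this
      have e2 : dist (c (n + (i + 1))) (c (n + (i + 1 + 1))) = h := by
        have := hc (n + (i + 1)) 1 (by omega)
        rw [add_assoc] at this; simpa using this
      have e3 : dist (c (n + i)) (c (n + (i + 1 + 1))) = 2 * h := by
        have := hc (n + i) 2 (by omega)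
        rw [add_assoc] at this; exact_mod_cast this
      have e4 : dist (c (n - (i + 1))) (c (n - (i + 1 + 1))) = h := by
        have := hc (n - (i + 1 + 1)) 1 (by omega)
        have h4 : n - (i + 1 + 1) + 1 = n - (i + 1) := by omega
        rw [h4] at this
        rw [dist_comm]; simpa using this
      have e5 : dist (c (n - i)) (c (n - (i + 1 + 1))) = 2 * h := by
        have := hc (n - (i + 1 + 1)) 2 (by omega)
        have h4 : n - (i + 1 + 1) + 2 = n - i := by omega
        rw [h4] at this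
        rw [dist_comm]; exact_mod_cast this
      have e6 : dist (c (n - i)) (c (n - (i + 1))) = h := by
        have := hc (n - (i + 1)) 1 (by omega)
        have h4 : n - (i + 1) + 1 = n - i := by omega
        rw [h4] at this
        rw [dist_comm]; simpa using this
      apply G.nonbranching (x := c (n - i)) (q := c (n - (i + 1))) (r := h) hh e6 _ _ e4 e5
      · rw [← h2, s.isometry.dist_eq, e2]
      · rw [← h1, s.isometry.dist_eq, e3]
  intro i hi
  rcases Nat.eq_zero_or_pos i with rfl | hpos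
  · exact hs.2.1
  · obtain ⟨j, rfl⟩ : ∃ j, i = j + 1 := ⟨i - 1, by omega⟩
    exact (key j hi).2

/-- any two points are exchanged by some symmetry -/
theorem Geo.exists_swap (hsym : ∀ m : M, ∃ s : M ≃ᵢ M, IsSymmetryAt m s) (a x : M) :
    ∃ (m : M) (s : M ≃ᵢ M), IsSymmetryAt m s ∧ s a = x ∧ s x = a := by
  have hR := G.Rpos
  obtain ⟨k, hk⟩ : ∃ k : ℕ, dist a x / 2 ^ k < R := by
    obtain ⟨k, hk⟩ := pow_unbounded_of_one_lt (dist a x / R) (one_lt_two)
    refine ⟨k, ?_⟩
    rw [div_lt_iff₀ hR] at hk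
    rw [div_lt_iff₀ (by positivity)]
    linarith
  obtain ⟨c, c0, c1, hc⟩ := exists_chain G.midpt (k + 1) a x
  have hN : 2 ^ (k + 1) = 2 * 2 ^ k := by rw [pow_succ]; ring
  have hc' := chain_dist_eq (c := c) (N := 2 ^ (k + 1)) (h := dist a x / 2 ^ (k + 1))
    (fun i hi => (hc i hi).le) (by rw [c0, c1]; push_cast; field_simp)
  obtain ⟨s, hs⟩ := hsym (c (2 ^ k))
  have h1 := G.symm_chain (n := 2 ^ k) Nat.one_le_two_pow (c := c) (h := dist a x / 2 ^ (k + 1))
    (by
      have : 2 * (dist a x / 2 ^ (k + 1)) = dist a x / 2 ^ k := by rw [pow_succ]; field_simp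
      rw [this]; exact hk)
    (fun i d hid => hc' i d (by rw [hN]; exact hid)) hs (2 ^ k) le_rfl
  have h2 : 2 ^ k + 2 ^ k = 2 ^ (k + 1) := by rw [hN]; ring
  rw [h2, Nat.sub_self, c0, c1] at h1
  exact ⟨_, s, hs, by rw [← h1, hs.1], h1⟩

theorem Geo.symm_symm [PreconnectedSpace M] (hsym : ∀ m : M, ∃ s : M ≃ᵢ M, IsSymmetryAt m s)
    {a x : M} {s t : M ≃ᵢ M} (hs : IsSymmetryAt a s) (ht : IsSymmetryAt x t) (h : s x = x) :
    t a = a := by
  obtain ⟨m, r, hr, h1, h2⟩ := G.exists_swap hsym a x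
  have h3 := hs.conj r
  rw [h1] at h3
  have h4 := G.symm_unique h3 ht a
  rw [← h4]
  have h5 : r.symm a = x := by
    rw [IsometryEquiv.symm_apply_eq, h2]
  change r (s (r.symm a)) = a
  rw [h5, h, h2]

theorem Geo.exists_max [CompactSpace M] [PreconnectedSpace M] [Nonempty M]
    (hsym : ∀ m : M, ∃ s : M ≃ᵢ M, IsSymmetryAt m s) :
    ∃ A : Finset M, A.Nonempty ∧ IsAntipodal (A : Set M) ∧ twoNumber M = A.card ∧
      ∀ B : Finset M, IsAntipodal (B : Set M) → B.card ≤ A.card := by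
  classical
  obtain ⟨a1, N1, b1⟩ := G.betti_finite (ZMod 2)
  have hT := totalBetti_eq N1 a1 b1
  set T := ∑ n ∈ Finset.range N1, finrank (ZMod 2) (SingCoh (ZMod 2) M n) with hTdef
  let S : Set ℕ := {n | ∃ A : Finset M, IsAntipodal (A : Set M) ∧ A.card = n}
  have hS1 : ∀ n ∈ S, n ≤ T := by
    rintro n ⟨A, hA, rfl⟩
    have := G.card_le A hA
    rwa [hT, Nat.cast_le] at this
  obtain ⟨p⟩ := (inferInstance : Nonempty M)
  have hSp : 1 ∈ S := by
    refine ⟨{p}, ?_, by simp⟩
    intro x hx y hy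
    have hx' : x = p := by simpa using hx
    have hy' : y = p := by simpa using hy
    subst hx'
    obtain ⟨s, hs⟩ := hsym x
    exact ⟨s, hs, by rw [hy']; exact hs.2.1⟩
  have hmem := Nat.sSup_mem ⟨1, hSp⟩ ⟨T, hS1⟩
  obtain ⟨A, hA, hAc⟩ := hmem
  have hmax : ∀ B : Finset M, IsAntipodal (B : Set M) → B.card ≤ A.card := by
    intro B hB
    rw [hAc]
    exact le_csSup ⟨T, hS1⟩ ⟨B, hB, rfl⟩
  refine ⟨A, ?_, hA, ?_, hmax⟩
  · rw [← Finset.card_pos, hAc]
    exact le_csSup ⟨T, hS1⟩ hSp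
  · apply le_antisymm
    · apply iSup_le
      rintro ⟨B, hB⟩
      by_cases hfin : B.Finite
      · rw [hfin.encard_eq_coe_toFinset_card, Nat.cast_le]
        exact hmax _ (by simpa using hB)
      · exfalso
        have hinf : B.Infinite := hfin
        obtain ⟨C, hCB, hCc⟩ := hinf.exists_subset_card_eq (A.card + 1)
        have := hmax C (fun x hx y hy => hB x (hCB hx) y (hCB hy))
        omega
    · refine le_trans ?_ (le_iSup (fun A : {A : Set M // IsAntipodal A} => A.1.encard)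
        ⟨(A : Set M), hA⟩)
      simp

theorem Geo.fixed_mem [PreconnectedSpace M] (hsym : ∀ m : M, ∃ s : M ≃ᵢ M, IsSymmetryAt m s)
    (A : Finset M) (hA : IsAntipodal (A : Set M))
    (hmax : ∀ B : Finset M, IsAntipodal (B : Set M) → B.card ≤ A.card)
    (s : M → (M ≃ᵢ M)) (hs : ∀ x ∈ A, IsSymmetryAt x (s x) ∧ ∀ y ∈ A, s x y = y)
    (x : M) (hx : ∀ a ∈ A, s a x = x) : x ∈ A := by
  classical
  by_contra hxA
  have hB : IsAntipodal ((insert x A : Finset M) : Set M) := by
    intro y hy z hz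
    rw [Finset.mem_coe, Finset.mem_insert] at hy hz
    rcases hy with rfl | hy
    · obtain ⟨t, ht⟩ := hsym y
      refine ⟨t, ht, ?_⟩
      rcases hz with rfl | hz
      · exact ht.2.1
      · exact G.symm_symm hsym (hs z hz).1 ht (hx z hz)
    · refine ⟨s y, (hs y hy).1, ?_⟩
      rcases hz with rfl | hz
      · exact hx y hy
      · exact (hs y hy).2 z hz
  have := hmax _ hB
  rw [Finset.card_insert_of_notMem hxA] at this
  omega

theorem Geo.parity [CompactSpace M] [PreconnectedSpace M] [Nonempty M]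
    (hsym : ∀ m : M, ∃ s : M ≃ᵢ M, IsSymmetryAt m s) :
    ∃ n : ℕ, twoNumber M = n ∧ eulerChar M ≡ n [ZMOD 2] := by
  classical
  obtain ⟨A, hAne, hA, hAc, hmax⟩ := G.exists_max hsym
  refine ⟨A.card, hAc, ?_⟩
  obtain ⟨s, hs⟩ := G.exists_symm hA
  have hs' : ∀ x ∈ A, IsSymmetryAt x (s x) ∧ ∀ y ∈ A, s x y = y := hs
  obtain ⟨hinv, hcomm, hfix⟩ := G.list_props s hs A.toList (fun x hx => by simpa using hx)
  have hfixA := G.fixed_mem hsym A hA hmax s hs'
  set gs := A.toList.map s with hgs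
  have hR := G.Rpos
  obtain ⟨F, hF, hFg⟩ := exists_net (M := M) gs hinv hcomm (R / 4) (by linarith)
  have hρR : 4 * (R / 4) ≤ R := by linarith
  set ρ := R / 4 with hρ
  have hQ := Fam_finite F ρ
  obtain ⟨a1, N1, b1⟩ := G.betti_finite ℚ
  set N := max N1 ((Fam F ρ).ncard + 1) with hN
  have hN1 : N1 ≤ N := le_max_left _ _
  have hN2 : (Fam F ρ).ncard + 1 ≤ N := le_max_right _ _
  have hmem : ∀ x ∈ A, s x ∈ gs := fun x hx => by
    rw [hgs]; exact List.mem_map.mpr ⟨x, by simpa using hx, rfl⟩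
  have hiso : ∀ a ∈ A, ∀ y, dist y a < R → (∀ g ∈ gs, g y = y) → y = a := by
    intro a ha y hy hg
    obtain ⟨q1, q2, q3⟩ := (hs a ha).1
    exact G.isolated_uniform (s a) q2 q3 hy (hg _ (hmem a ha))
  set Q := Fam F ρ with hQdef
  set Q' := fixS Q (gs.map imS) with hQ'
  have hQ'f : Q'.Finite := hQ.subset (fixS_subset _ _)
  have hfin1 : ∀ n, Finite (Ch Q n) := finite_Ch hQ
  have hfin2 : ∀ n, Finite (Ch Q' n) := finite_Ch hQ'f
  have hempty1 : ∀ n, N ≤ n → IsEmpty (Ch Q n) := fun n hn => isEmpty_Ch hQ n (by omega)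
  have hempty2 : ∀ n, N ≤ n → IsEmpty (Ch Q' n) := fun n hn => isEmpty_Ch hQ'f n (by
    have : Q'.ncard ≤ Q.ncard := Set.ncard_le_ncard (fixS_subset Q (gs.map imS)) hQ
    have h3 : Q.ncard + 1 ≤ N := hN2
    omega)
  -- euler characteristic as an alternating count of chains
  have hchi : eulerChar M = ∑ n ∈ Finset.range N, (-1 : ℤ) ^ n * (Nat.card (Ch Q n) : ℤ) := by
    have e0 : eulerChar M = ∑ n ∈ Finset.range N,
        (-1 : ℤ) ^ n * (finrank ℚ (SingCoh ℚ M n) : ℤ) := by
      rw [eulerChar]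
      simp only [finrank_singularCohomology]
      apply finsum_eq_sum_of_support_subset
      intro n hn
      rw [Function.mem_support] at hn
      rw [Finset.mem_coe, Finset.mem_range]
      by_contra hc
      push Not at hc
      apply hn
      rw [b1 n (hN1.trans hc)]
      simp
    have e1 : ∀ n, finrank ℚ (SingCoh ℚ M n) = finrank ℚ (OrdCoh ℚ Q n) := by
      intro n
      obtain ⟨e⟩ := G.nerve hρR hF ℚ n
      exact LinearEquiv.finrank_eq e
    rw [e0]
    simp only [e1]
    have hem := hempty1 N le_rfl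
    have e2 := euler_coh (k := ℚ) (C := fun n => Ch Q n → ℚ)
      (fun n => altd ℚ (cface (Q := Q)) n)
      (fun n x => altd_altd (cface (Q := Q)) (fun n i j σ h => cface_cface n i j σ h) n x) N
      (Module.finrank_zero_of_subsingleton)
    refine e2.trans ?_
    refine Finset.sum_congr rfl fun n _ => ?_
    have := Fintype.ofFinite (Ch Q n)
    rw [Module.finrank_fintype_fun_eq_card, Nat.card_eq_fintype_card]
  -- the fixed complex
  have hgood := goodList F ρ gs hinv hcomm hFg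
  have hpar : ∀ n, Nat.card (Ch Q n) ≡ Nat.card (Ch Q' n) [MOD 2] :=
    fun n => parity_list hQ (gs.map imS) hgood n
  -- unique point of A in a fixed member
  have hpt : ∀ C, ∃ a : M, C ∈ Q' → (a ∈ A ∧ a ∈ C) := by
    intro C
    by_cases hC : C ∈ Q'
    · obtain ⟨hCF, hCg⟩ := (mem_fixS F ρ gs C).mp hC
      obtain ⟨y, hyC, hy⟩ := G.fam_fixed hρR hCF
      have hyg : ∀ g ∈ gs, g y = y := fun g hg =>
        hy g (net_iff F g (hinv g hg) (hFg g hg)) (hCg g hg)
      exact ⟨y, fun _ => ⟨hfixA y (fun a ha => hyg _ (hmem a ha)), hyC⟩⟩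
    · exact ⟨Classical.choice inferInstance, fun h => absurd h hC⟩
  choose pt hpt using hpt
  have huniq : ∀ C ∈ Q', ∀ a ∈ A, ∀ b ∈ A, a ∈ C → b ∈ C → a = b := by
    intro C hC a ha b hb haC hbC
    have hd := Fam_dist ((mem_fixS F ρ gs C).mp hC).1 haC hbC
    exact hiso b hb a (by linarith) (fun g hg => hfix g hg a ha)
  have hJA : ∀ a ∈ A, Jm F ρ {a} ∈ Q' := fun a ha =>
    Jm_fixS F ρ hF gs hinv hFg a (fun g hg => hfix g hg a ha)
  have hself : ∀ a : M, a ∈ Jm F ρ {a} := fun a => subset_Jm F ρ _ rfl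
  let J : Set M → Set M := fun C => Jm F ρ {pt C}
  have hJQ : ∀ C ∈ Q', J C ∈ Q' := fun C hC => hJA _ (hpt C hC).1
  have hJle : ∀ C ∈ Q', J C ≤ C := by
    intro C hC
    exact Jm_le F ρ ((mem_fixS F ρ gs C).mp hC).1 (by simpa using (hpt C hC).2)
  have hJc : ∀ C ∈ Q', ∀ D ∈ Q', C ≤ D → J C = J D := by
    intro C hC D hD hle
    have : pt C = pt D :=
      huniq D hD _ (hpt C hC).1 _ (hpt D hD).1 (hle (hpt C hC).2) (hpt D hD).2
    simp only [J, this]
  have hJimg : (J '' Q').ncard = A.card := by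
    have : J '' Q' = (fun a => Jm F ρ {a}) '' (A : Set M) := by
      ext C
      constructor
      · rintro ⟨D, hD, rfl⟩
        exact ⟨pt D, (hpt D hD).1, rfl⟩
      · rintro ⟨a, ha, rfl⟩
        refine ⟨Jm F ρ {a}, hJA a ha, ?_⟩
        have : pt (Jm F ρ {a}) = a :=
          huniq _ (hJA a ha) _ (hpt _ (hJA a ha)).1 _ ha (hpt _ (hJA a ha)).2 (hself a)
        simp only [J, this]
    rw [this, Set.InjOn.ncard_image]
    · simp
    · intro a ha b hb hab
      have hab' : Jm F ρ {a} = Jm F ρ {b} := hab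
      exact huniq _ (hJA a ha) a ha b hb (hself a) (by rw [hab']; exact hself b)
  have hfx : ∑ n ∈ Finset.range N, (-1 : ℤ) ^ n * (Nat.card (Ch Q' n) : ℤ) = A.card := by
    have hem := hempty2 N le_rfl
    have e2 := euler_coh (k := ℚ) (C := fun n => Ch Q' n → ℚ)
      (fun n => altd ℚ (cface (Q := Q')) n)
      (fun n x => altd_altd (cface (Q := Q')) (fun n i j σ h => cface_cface n i j σ h) n x) N
      (Module.finrank_zero_of_subsingleton)
    have e3 : ∑ n ∈ Finset.range N, (-1 : ℤ) ^ n * (Nat.card (Ch Q' n) : ℤ) =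
        ∑ n ∈ Finset.range N, (-1 : ℤ) ^ n * (finrank ℚ (OrdCoh ℚ Q' n) : ℤ) := by
      refine Eq.trans ?_ e2.symm
      refine Finset.sum_congr rfl fun n _ => ?_
      have := Fintype.ofFinite (Ch Q' n)
      rw [Module.finrank_fintype_fun_eq_card, Nat.card_eq_fintype_card]
    rw [e3]
    have e4 : ∀ n, finrank ℚ (OrdCoh ℚ Q' (n + 1)) = 0 := by
      intro n
      have : Subsingleton (OrdCoh ℚ Q' (n + 1)) := by
        rw [Submodule.Quotient.subsingleton_iff, eq_top_iff]
        rintro ⟨f, hf⟩ _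
        rw [LinearMap.mem_ker] at hf
        obtain ⟨g, hg⟩ := ordcoh_cone J hJQ hJle hJc n f hf
        exact ⟨g, hg⟩
      exact Module.finrank_zero_of_subsingleton
    have e5 := ordcoh_cone_zero (k := ℚ) hQ'f J hJQ hJle hJc
    obtain ⟨N', hN'⟩ : ∃ N', N = N' + 1 := ⟨N - 1, by omega⟩
    rw [hN', Finset.sum_range_succ']
    have e6 : ∑ n ∈ Finset.range N',
        (-1 : ℤ) ^ (n + 1) * (finrank ℚ (OrdCoh ℚ Q' (n + 1)) : ℤ) = 0 := by
      apply Finset.sum_eq_zero
      intro n _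
      rw [e4]; simp
    rw [e6, e5, hJimg]
    simp
  rw [hchi, ← hfx]
  refine Int.ModEq.symm ?_
  apply Int.modEq_iff_dvd.mpr
  rw [← Finset.sum_sub_distrib]
  apply Finset.dvd_sum
  intro n _
  have h1 : (2 : ℤ) ∣ (Nat.card (Ch Q n) : ℤ) - (Nat.card (Ch Q' n) : ℤ) := by
    have := (Nat.modEq_iff_dvd.mp (hpar n).symm)
    exact_mod_cast this
  have h2 : (-1 : ℤ) ^ n * (Nat.card (Ch Q n) : ℤ) - (-1 : ℤ) ^ n * (Nat.card (Ch Q' n) : ℤ) =
      (-1 : ℤ) ^ n * ((Nat.card (Ch Q n) : ℤ) - (Nat.card (Ch Q' n) : ℤ)) := by ring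
  rw [h2]
  exact Dvd.dvd.mul_left h1 _

end Refl

end Pool.Agent.Helper381
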