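import Pool.Agent.Helper381.Loc
import Pool.Agent.Helper381.C2

/-! From Mathlib Riemannian manifolds to metric charts. -/

namespace Pool.Agent.Helper381

universe u v w

open Bundle Bornology Set MeasureTheory Manifold Filter Metric
open scoped ENNReal ContDiff Topology

section Smooth

variable {E : Type v} [NormedAddCommGroup E] [NormedSpace ℝ E]
  {M : Type u} [MetricSpace M] [ChartedSpace E M]

variable (p : M)

/-- inverse chart -/
noncomputable abbrev psi : E → M := (extChartAt 𝓘(ℝ, E) p).symm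

noncomputable abbrev tgt : Set E := (extChartAt 𝓘(ℝ, E) p).target

theorem isOpen_tgt : IsOpen (tgt (E := E) p) := isOpen_extChartAt_target p

section NoMetric

variable [IsManifold 𝓘(ℝ, E) ∞ M]

theorem contMDiffOn_psi : ContMDiffOn 𝓘(ℝ, E) 𝓘(ℝ, E) ∞ (psi (E := E) p) (tgt (E := E) p) :=
  contMDiffOn_extChartAt_symm p

theorem mdiff_psi {w : E} (hw : w ∈ tgt (E := E) p) :
    MDifferentiableAt 𝓘(ℝ, E) 𝓘(ℝ, E) (psi (E := E) p) w :=
  ((contMDiffOn_psi p).contMDiffAt ((isOpen_tgt p).mem_nhds hw)).mdifferentiableAt (by simp)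

theorem contMDiffOn_vec (v : E) : ContMDiffOn 𝓘(ℝ, E) (𝓘(ℝ, E).prod 𝓘(ℝ, E)) ∞
    (fun w : E => (⟨psi p w, mfderiv 𝓘(ℝ, E) 𝓘(ℝ, E) (psi (E := E) p) w v⟩ :
      TotalSpace E (fun x : M => TangentSpace 𝓘(ℝ, E) x))) (tgt (E := E) p) := by
  have h1 : ContMDiffOn 𝓘(ℝ, E) 𝓘(ℝ, E) ∞ (psi (E := E) p) (tgt (E := E) p) :=
    contMDiffOn_extChartAt_symm p
  have hs : UniqueMDiffOn 𝓘(ℝ, E) (tgt (E := E) p) := (isOpen_tgt p).uniqueMDiffOn
  have h2 := h1.contMDiffOn_tangentMapWithin (m := ∞) le_rfl hs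
  have h3 : ContMDiffOn 𝓘(ℝ, E) 𝓘(ℝ, E).tangent ∞
      (fun w : E => (⟨w, v⟩ : TangentBundle 𝓘(ℝ, E) E)) (tgt (E := E) p) := by
    apply contMDiffOn_vectorSpace_iff_contDiffOn.mpr
    exact contDiffOn_const
  have h4 := h2.comp h3 (fun w hw => hw)
  refine h4.congr ?_
  intro w hw
  simp only [Function.comp_apply, tangentMapWithin]
  rw [mfderivWithin_of_isOpen (isOpen_tgt p) hw]

theorem mfderiv_psi_comp {w : E} (hw : w ∈ tgt (E := E) p) (v : TangentSpace 𝓘(ℝ, E) (psi p w)) :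
    mfderiv 𝓘(ℝ, E) 𝓘(ℝ, E) (psi (E := E) p) w
      (mfderiv 𝓘(ℝ, E) 𝓘(ℝ, E) (extChartAt 𝓘(ℝ, E) p) (psi p w) v) = v := by
  have h := mfderivWithin_extChartAt_symm_comp_mfderiv_extChartAt (I := 𝓘(ℝ, E)) hw
  have h2 : mfderivWithin 𝓘(ℝ, E) 𝓘(ℝ, E) (extChartAt 𝓘(ℝ, E) p).symm (range 𝓘(ℝ, E)) w =
      mfderiv 𝓘(ℝ, E) 𝓘(ℝ, E) (psi (E := E) p) w := by
    rw [ModelWithCorners.range_eq_univ, mfderivWithin_univ]
  rw [h2] at h
  exact congrArg (fun f => f v) h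

theorem mfderiv_psi_inj {w : E} (hw : w ∈ tgt (E := E) p) (v : E)
    (hv : mfderiv 𝓘(ℝ, E) 𝓘(ℝ, E) (psi (E := E) p) w v = 0) : v = 0 := by
  have h := mfderiv_extChartAt_comp_mfderivWithin_extChartAt_symm (I := 𝓘(ℝ, E)) hw
  have h2 : mfderivWithin 𝓘(ℝ, E) 𝓘(ℝ, E) (extChartAt 𝓘(ℝ, E) p).symm (range 𝓘(ℝ, E)) w =
      mfderiv 𝓘(ℝ, E) 𝓘(ℝ, E) (psi (E := E) p) w := by
    rw [ModelWithCorners.range_eq_univ, mfderivWithin_univ]
  rw [h2] at h
  have h3 := congrArg (fun f => f v) h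
  have h4 : mfderiv 𝓘(ℝ, E) 𝓘(ℝ, E) (extChartAt 𝓘(ℝ, E) p) (psi p w)
    (mfderiv 𝓘(ℝ, E) 𝓘(ℝ, E) (psi (E := E) p) w v) = v := h3
  rw [hv, map_zero] at h4
  exact h4.symm

end NoMetric

variable [RiemannianBundle (fun (x : M) ↦ TangentSpace 𝓘(ℝ, E) x)]

/-- metric coefficients -/
noncomputable def Gc (w : E) : E →L[ℝ] E →L[ℝ] ℝ :=
  (innerSL ℝ (E := TangentSpace 𝓘(ℝ, E) (psi p w))).bilinearComp
    (mfderiv 𝓘(ℝ, E) 𝓘(ℝ, E) (psi (E := E) p) w) (mfderiv 𝓘(ℝ, E) 𝓘(ℝ, E) (psi (E := E) p) w)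

/-- norm of a coordinate vector -/
noncomputable def nrm (w v : E) : ℝ := ‖mfderiv 𝓘(ℝ, E) 𝓘(ℝ, E) (psi (E := E) p) w v‖

theorem Gc_apply (w v v' : E) : Gc p w v v' =
    inner ℝ (mfderiv 𝓘(ℝ, E) 𝓘(ℝ, E) (psi (E := E) p) w v)
      (mfderiv 𝓘(ℝ, E) 𝓘(ℝ, E) (psi (E := E) p) w v') := rfl

theorem Gc_self (w v : E) : Gc p w v v = nrm p w v ^ 2 := by
  rw [Gc_apply]
  exact real_inner_self_eq_norm_sq _

theorem nrm_nonneg (w v : E) : 0 ≤ nrm p w v := norm_nonneg _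

theorem Gc_symm (w v v' : E) : Gc p w v v' = Gc p w v' v := by
  rw [Gc_apply, Gc_apply]
  exact real_inner_comm _ _

theorem abs_Gc_le (w v v' : E) : |Gc p w v v'| ≤ nrm p w v * nrm p w v' := by
  rw [Gc_apply]
  exact abs_real_inner_le_norm _ _

section Reg

variable [IsManifold 𝓘(ℝ, E) ∞ M]
  [IsContMDiffRiemannianBundle 𝓘(ℝ, E) ∞ E (fun (x : M) ↦ TangentSpace 𝓘(ℝ, E) x)]

theorem contDiffOn_Gc_apply (v v' : E) :
    ContDiffOn ℝ ∞ (fun w => Gc p w v v') (tgt (E := E) p) := by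
  rw [← contMDiffOn_iff_contDiffOn]
  exact ContMDiffOn.inner_bundle (IB := 𝓘(ℝ, E)) (F := E)
    (E := fun x : M => TangentSpace 𝓘(ℝ, E) x) (b := psi (E := E) p)
    (v := fun w => mfderiv 𝓘(ℝ, E) 𝓘(ℝ, E) (psi (E := E) p) w v)
    (w := fun w => mfderiv 𝓘(ℝ, E) 𝓘(ℝ, E) (psi (E := E) p) w v')
    (contMDiffOn_vec p v) (contMDiffOn_vec p v')

theorem contDiffOn_Gc [FiniteDimensional ℝ E] : ContDiffOn ℝ 2 (Gc (E := E) p) (tgt (E := E) p) := by
  rw [contDiffOn_clm_apply]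
  intro v
  rw [contDiffOn_clm_apply]
  intro v'
  exact (contDiffOn_Gc_apply p v v').of_le (by norm_cast)

/-- positivity constant at a point -/
theorem exists_lower [FiniteDimensional ℝ E] {w : E} (hw : w ∈ tgt (E := E) p) :
    ∃ c > 0, ∀ v, c * ‖v‖ ^ 2 ≤ Gc p w v v := by
  have hsph : IsCompact (sphere (0 : E) 1) := isCompact_sphere 0 1
  have hcont : Continuous (fun v : E => Gc p w v v) := by fun_prop
  rcases (sphere (0 : E) 1).eq_empty_or_nonempty with hemp | hne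
  · refine ⟨1, one_pos, fun v => ?_⟩
    have hv : v = 0 := by
      by_contra hv
      have : ‖v‖⁻¹ • v ∈ sphere (0 : E) 1 := by
        simp [norm_smul, norm_ne_zero_iff.mpr hv]
      rw [hemp] at this
      exact this
    simp [hv]
  · obtain ⟨v₀, hv₀, hmin⟩ := hsph.exists_isMinOn hne hcont.continuousOn
    have hpos : 0 < Gc p w v₀ v₀ := by
      rw [Gc_self]
      have : nrm p w v₀ ≠ 0 := by
        intro h0
        have h1 : mfderiv 𝓘(ℝ, E) 𝓘(ℝ, E) (psi (E := E) p) w v₀ = 0 := norm_eq_zero.mp h0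
        have h2 := mfderiv_psi_inj p hw v₀ h1
        rw [h2] at hv₀
        simp at hv₀
      have := lt_of_le_of_ne (nrm_nonneg p w v₀) (Ne.symm this)
      positivity
    refine ⟨Gc p w v₀ v₀, hpos, fun v => ?_⟩
    rcases eq_or_ne v 0 with rfl | hv
    · simp
    have hvn : 0 < ‖v‖ := norm_pos_iff.mpr hv
    have hmem : ‖v‖⁻¹ • v ∈ sphere (0 : E) 1 := by
      simp [norm_smul, hvn.ne']
    have h1 : Gc p w v₀ v₀ ≤ Gc p w (‖v‖⁻¹ • v) (‖v‖⁻¹ • v) := hmin hmem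
    simp only [map_smul, _root_.smul_apply, smul_eq_mul] at h1
    calc Gc p w v₀ v₀ * ‖v‖ ^ 2 ≤ (‖v‖⁻¹ * (‖v‖⁻¹ * Gc p w v v)) * ‖v‖ ^ 2 := by gcongr
      _ = Gc p w v v := by field_simp

theorem exists_metCoef [FiniteDimensional ℝ E] :
    ∃ g : MetCoef E, g.x₀ = extChartAt 𝓘(ℝ, E) p p ∧ ball g.x₀ g.r ⊆ tgt (E := E) p ∧
      ∀ w v v', g.G w v v' = Gc p w v v' := by
  set x₀ : E := extChartAt 𝓘(ℝ, E) p p with hx₀
  have hmem : x₀ ∈ tgt (E := E) p := mem_extChartAt_target p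
  have hG : ContDiffAt ℝ 2 (Gc (E := E) p) x₀ :=
    (contDiffOn_Gc p).contDiffAt ((isOpen_tgt p).mem_nhds hmem)
  obtain ⟨r₁, hr₁, C, hC, hest⟩ := c2_est hG
  obtain ⟨r₂, hr₂, hball⟩ := Metric.isOpen_iff.mp (isOpen_tgt (E := E) p) x₀ hmem
  obtain ⟨c, hc, hlow⟩ := exists_lower p hmem
  set r := min r₁ (min r₂ (min 1 (c / (2 * C)))) with hr
  have hr0 : 0 < r := lt_min hr₁ (lt_min hr₂ (lt_min one_pos (by positivity)))
  have hrr1 : r ≤ r₁ := min_le_left _ _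
  have hrr2 : r ≤ r₂ := (min_le_right _ _).trans (min_le_left _ _)
  have hr1 : r ≤ 1 := (min_le_right _ _).trans ((min_le_right _ _).trans (min_le_left _ _))
  have hrc : r ≤ c / (2 * C) :=
    (min_le_right _ _).trans ((min_le_right _ _).trans (min_le_right _ _))
  have hb1 : ball x₀ r ⊆ ball x₀ r₁ := ball_subset_ball hrr1
  have happ : ∀ (B : E →L[ℝ] E →L[ℝ] ℝ) (v w : E), |B v w| ≤ ‖B‖ * ‖v‖ * ‖w‖ := by
    intro B v w
    exact (B v).le_opNorm w |>.trans (by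
      have := B.le_opNorm v
      gcongr)
  have hlip : ∀ x ∈ ball x₀ r, ∀ y ∈ ball x₀ r, ∀ v w,
      |Gc p x v w - Gc p y v w| ≤ C * ‖x - y‖ * ‖v‖ * ‖w‖ := by
    intro x hx y hy v w
    have h1 := (hest x (hb1 hx) y (hb1 hy)).1
    have h2 := happ (Gc p x - Gc p y) v w
    refine h2.trans ?_
    gcongr
  have hx₀b : x₀ ∈ ball x₀ r := mem_ball_self hr0
  have hnear : ∀ x ∈ ball x₀ r, ∀ v, |Gc p x v v - Gc p x₀ v v| ≤ c / 2 * ‖v‖ ^ 2 := by
    intro x hx v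
    refine (hlip x hx x₀ hx₀b v v).trans ?_
    have h1 : ‖x - x₀‖ ≤ c / (2 * C) := by
      rw [← dist_eq_norm]
      exact (mem_ball.mp hx).le.trans hrc
    have h2 : C * ‖x - x₀‖ ≤ c / 2 := by
      calc C * ‖x - x₀‖ ≤ C * (c / (2 * C)) := by gcongr
        _ = c / 2 := by field_simp
    calc C * ‖x - x₀‖ * ‖v‖ * ‖v‖ ≤ c / 2 * ‖v‖ * ‖v‖ := by gcongr
      _ = c / 2 * ‖v‖ ^ 2 := by ring
  set C' := C + ‖Gc (E := E) p x₀‖ + c with hC'
  have hCC' : C ≤ C' := by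
    rw [hC']
    have := norm_nonneg (Gc (E := E) p x₀)
    linarith
  refine ⟨{ x₀ := x₀, r := r, rpos := hr0,
            G := fun w => ContinuousLinearMap.toLinearMap₁₂ (Gc p w),
            lam := c / 2, C := C', lampos := by positivity,
            Cpos := lt_of_lt_of_le hC hCC',
            symm := fun x _ v w => Gc_symm p x v w,
            lower := ?_, upper := ?_, lip := ?_, mid := ?_ }, rfl,
            (ball_subset_ball hrr2).trans hball, fun w v v' => rfl⟩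
  · intro x hx v
    have h1 := hnear x hx v
    have h2 := hlow v
    rw [abs_le] at h1
    change c / 2 * ‖v‖ ^ 2 ≤ Gc p x v v
    linarith [h1.1]
  · intro x hx v
    have h1 := hnear x hx v
    have h2 := happ (Gc p x₀) v v
    rw [abs_le] at h1 h2
    change Gc p x v v ≤ C' * ‖v‖ ^ 2
    rw [hC']
    have h3 : 0 ≤ C * ‖v‖ ^ 2 := by positivity
    have h4 : 0 ≤ c * ‖v‖ ^ 2 := by positivity
    nlinarith [h1.2, h2.2]
  · intro x hx y hy v w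
    refine (hlip x hx y hy v w).trans ?_
    gcongr
  · intro x hx y hy v
    have h1 := (hest x (hb1 hx) y (hb1 hy)).2
    have h2 := happ ((1 / 2 : ℝ) • (Gc p x + Gc p y) - Gc p ((1 / 2 : ℝ) • (x + y))) v v
    have h3 : ((1 / 2 : ℝ) • (Gc p x + Gc p y) - Gc p ((1 / 2 : ℝ) • (x + y))) v v =
        (Gc p x v v + Gc p y v v) / 2 - Gc p ((1 / 2 : ℝ) • (x + y)) v v := by
      simp only [_root_.sub_apply, _root_.smul_apply, _root_.add_apply, smul_eq_mul]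
      ring
    rw [h3] at h2
    change |(Gc p x v v + Gc p y v v) / 2 - Gc p ((1 / 2 : ℝ) • (x + y)) v v| ≤ _
    refine h2.trans ?_
    calc ‖(1 / 2 : ℝ) • (Gc p x + Gc p y) - Gc p ((1 / 2 : ℝ) • (x + y))‖ * ‖v‖ * ‖v‖
        ≤ (C' * ‖x - y‖ ^ 2) * ‖v‖ * ‖v‖ := by
          have : C * ‖x - y‖ ^ 2 ≤ C' * ‖x - y‖ ^ 2 := by gcongr
          have := h1.trans this
          gcongr
      _ = C' * ‖x - y‖ ^ 2 * ‖v‖ ^ 2 := by ring

end Reg

end Smooth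

end Pool.Agent.Helper381
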