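import Pool.Agent.Helper381.Riem

/-! Lengths of paths in charts. -/

namespace Pool.Agent.Helper381

universe u v w

open Bundle Bornology Set MeasureTheory Manifold Filter Metric
open scoped ENNReal ContDiff Topology

section Up

variable {E : Type v} [NormedAddCommGroup E] [NormedSpace ℝ E]
  {M : Type u} [MetricSpace M] [ChartedSpace E M] [IsManifold 𝓘(ℝ, E) ∞ M]
  [RiemannianBundle (fun (x : M) ↦ TangentSpace 𝓘(ℝ, E) x)]
  [IsRiemannianManifold 𝓘(ℝ, E) M] (p : M)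

theorem dist_le_of_edist {x y : M} {K : ℝ} (hK : 0 ≤ K) (h : edist x y ≤ ENNReal.ofReal K) :
    dist x y ≤ K := by
  rw [edist_dist] at h
  exact (ENNReal.ofReal_le_ofReal_iff hK).mp h

theorem up_chart {x y : E} (hseg : ∀ t ∈ Icc (0 : ℝ) 1, x + t • (y - x) ∈ tgt (E := E) p)
    (K : ℝ) (hK : 0 ≤ K)
    (h : ∀ t ∈ Icc (0 : ℝ) 1, Gc p (x + t • (y - x)) (y - x) (y - x) ≤ K ^ 2) :
    dist (psi p x) (psi p y) ≤ K := by
  apply dist_le_of_edist hK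
  rw [IsRiemannianManifold.out (I := 𝓘(ℝ, E))]
  let η : ℝ → E := fun t => x + t • (y - x)
  have hη : ∀ t, HasDerivAt η (y - x) t := by
    intro t
    have h1 := ((hasDerivAt_id t).smul_const (y - x)).const_add x
    have h2 : (1 : ℝ) • (y - x) = y - x := one_smul _ _
    rw [h2] at h1
    exact h1
  have hηs : ContMDiff 𝓘(ℝ, ℝ) 𝓘(ℝ, E) 1 η := by
    rw [contMDiff_iff_contDiff]
    fun_prop
  have hle : riemannianEDist 𝓘(ℝ, E) (psi p x) (psi p y) ≤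
      pathELength 𝓘(ℝ, E) (psi (E := E) p ∘ η) 0 1 := by
    apply riemannianEDist_le_pathELength _ _ _ zero_le_one
    · exact ((contMDiffOn_psi p).of_le (by norm_cast)).comp hηs.contMDiffOn hseg
    · simp [η]
    · simp [η]
  refine hle.trans ?_
  rw [pathELength_eq_lintegral_mfderiv_Icc]
  have hpt : ∀ t ∈ Icc (0 : ℝ) 1,
      ‖mfderiv 𝓘(ℝ, ℝ) 𝓘(ℝ, E) (psi (E := E) p ∘ η) t 1‖ₑ ≤ ENNReal.ofReal K := by
    intro t ht
    have hc : mfderiv 𝓘(ℝ, ℝ) 𝓘(ℝ, E) (psi (E := E) p ∘ η) t =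
        (mfderiv 𝓘(ℝ, E) 𝓘(ℝ, E) (psi (E := E) p) (η t)).comp
          (mfderiv 𝓘(ℝ, ℝ) 𝓘(ℝ, E) η t) := by
      apply mfderiv_comp
      · exact mdiff_psi p (hseg t ht)
      · exact (hηs.mdifferentiable one_ne_zero) t
    have hd : mfderiv 𝓘(ℝ, ℝ) 𝓘(ℝ, E) η t (1 : ℝ) = y - x := by
      rw [mfderiv_eq_fderiv]
      exact (hη t).deriv
    have he : mfderiv 𝓘(ℝ, ℝ) 𝓘(ℝ, E) (psi (E := E) p ∘ η) t (1 : ℝ) =
        mfderiv 𝓘(ℝ, E) 𝓘(ℝ, E) (psi (E := E) p) (η t) (y - x) := by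
      rw [hc]
      change mfderiv 𝓘(ℝ, E) 𝓘(ℝ, E) (psi (E := E) p) (η t)
        (mfderiv 𝓘(ℝ, ℝ) 𝓘(ℝ, E) η t (1 : ℝ)) = _
      rw [hd]
    have h1 := h t ht
    rw [Gc_self] at h1
    have h2 : nrm p (η t) (y - x) ≤ K :=
      (pow_le_pow_iff_left₀ (nrm_nonneg _ _ _) hK two_ne_zero).mp h1
    rw [← ofReal_norm]
    apply ENNReal.ofReal_le_ofReal
    refine le_of_eq_of_le ?_ h2
    rw [nrm]
    exact congrArg norm he
  calc ∫⁻ t in Icc (0 : ℝ) 1, ‖mfderiv 𝓘(ℝ, ℝ) 𝓘(ℝ, E) (psi (E := E) p ∘ η) t 1‖ₑ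
      ≤ ∫⁻ _t in Icc (0 : ℝ) 1, ENNReal.ofReal K := setLIntegral_mono' measurableSet_Icc hpt
    _ = ENNReal.ofReal K := by simp

theorem path_bound {x : E} (hx : x ∈ tgt (E := E) p) {γ : ℝ → M}
    (hγ : ContMDiff 𝓘(ℝ, ℝ) 𝓘(ℝ, E) 1 γ) (hγ0 : γ 0 = psi p x) {K : ℝ} (hK : 0 < K) {S : Set E}
    (hS : S ⊆ tgt (E := E) p) (hKS : ∀ w ∈ S, ∀ v, Gc p x v v ≤ K ^ 2 * Gc p w v v)
    (hfin : pathELength 𝓘(ℝ, E) γ 0 1 ≠ ⊤) {t : ℝ} (ht : t ∈ Icc (0 : ℝ) 1)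
    (hγS : ∀ τ ∈ Icc (0 : ℝ) t, γ τ ∈ psi (E := E) p '' S) :
    nrm p x (extChartAt 𝓘(ℝ, E) p (γ t) - x) ≤ K * (pathELength 𝓘(ℝ, E) γ 0 1).toReal := by
  have hL0 : 0 ≤ K * (pathELength 𝓘(ℝ, E) γ 0 1).toReal := by positivity
  have hφ0 : extChartAt 𝓘(ℝ, E) p (γ 0) = x := by
    rw [hγ0]; exact (extChartAt 𝓘(ℝ, E) p).right_inv hx
  rcases ht.1.eq_or_lt with rfl | ht0
  · rw [hφ0, sub_self]
    have : nrm p x (0 : E) = 0 :=
      norm_eq_zero.mpr ((mfderiv 𝓘(ℝ, E) 𝓘(ℝ, E) (psi (E := E) p) x).map_zero)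
    rw [this]; exact hL0
  have hsrc : ∀ τ ∈ Icc (0 : ℝ) t, γ τ ∈ (extChartAt 𝓘(ℝ, E) p).source := by
    intro τ hτ
    obtain ⟨w, hw, he⟩ := hγS τ hτ
    rw [← he]
    exact (extChartAt 𝓘(ℝ, E) p).map_target (hS hw)
  have hβS : ∀ τ ∈ Icc (0 : ℝ) t, extChartAt 𝓘(ℝ, E) p (γ τ) ∈ S := by
    intro τ hτ
    obtain ⟨w, hw, he⟩ := hγS τ hτ
    rw [← he]
    have : extChartAt 𝓘(ℝ, E) p (psi p w) = w := (extChartAt 𝓘(ℝ, E) p).right_inv (hS hw)
    rw [this]; exact hw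
  let β : ℝ → E := fun τ => extChartAt 𝓘(ℝ, E) p (γ τ)
  have hβ : ContDiffOn ℝ 1 β (Icc 0 t) := by
    rw [← contMDiffOn_iff_contDiffOn]
    refine (contMDiffOn_extChartAt (I := 𝓘(ℝ, E)) (n := 1) (x := p)).comp (t := (chartAt E p).source)
      hγ.contMDiffOn ?_
    intro τ hτ
    have := hsrc τ hτ
    rwa [extChartAt_source] at this
  set e : E := β t - x with he
  let f : ℝ → ℝ := fun τ => Gc p x (β τ - x) e
  have hf : ContDiffOn ℝ 1 f (Icc 0 t) := by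
    have h1 : ContDiffOn ℝ 1 (fun τ => (Gc p x).flip e (β τ - x)) (Icc 0 t) :=
      ((Gc p x).flip e).contDiff.comp_contDiffOn (hβ.sub contDiffOn_const)
    exact h1
  have hder : ∀ τ ∈ Icc (0 : ℝ) t, derivWithin f (Icc 0 t) τ =
      Gc p x (derivWithin β (Icc 0 t) τ) e := by
    intro τ hτ
    have h1 : HasDerivWithinAt β (derivWithin β (Icc 0 t) τ) (Icc 0 t) τ :=
      ((hβ.differentiableOn one_ne_zero) τ hτ).hasDerivWithinAt
    have h2 := ((Gc p x).flip e).hasFDerivAt.comp_hasDerivWithinAt τ (h1.sub_const x)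
    exact h2.derivWithin ((uniqueDiffOn_Icc ht0) τ hτ)
  have hmf : ∀ τ ∈ Icc (0 : ℝ) t,
      mfderivWithin 𝓘(ℝ, ℝ) 𝓘(ℝ, E) (psi (E := E) p ∘ β) (Icc 0 t) τ (1 : ℝ) =
      mfderiv 𝓘(ℝ, E) 𝓘(ℝ, E) (psi (E := E) p) (β τ) (derivWithin β (Icc 0 t) τ) := by
    intro τ hτ
    have h1 : mfderivWithin 𝓘(ℝ, ℝ) 𝓘(ℝ, E) (psi (E := E) p ∘ β) (Icc 0 t) τ =
        (mfderiv 𝓘(ℝ, E) 𝓘(ℝ, E) (psi (E := E) p) (β τ)).comp
          (mfderivWithin 𝓘(ℝ, ℝ) 𝓘(ℝ, E) β (Icc 0 t) τ) := by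
      apply mfderiv_comp_mfderivWithin
      · exact mdiff_psi p (hS (hβS τ hτ))
      · rw [mdifferentiableWithinAt_iff_differentiableWithinAt]
        exact (hβ.differentiableOn one_ne_zero) τ hτ
      · rw [uniqueMDiffWithinAt_iff_uniqueDiffWithinAt]
        exact (uniqueDiffOn_Icc ht0) τ hτ
    rw [h1]
    have h2 : mfderivWithin 𝓘(ℝ, ℝ) 𝓘(ℝ, E) β (Icc 0 t) τ = fderivWithin ℝ β (Icc 0 t) τ :=
      mfderivWithin_eq_fderivWithin
    rw [h2]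
    rfl
  have hbound : ∀ τ ∈ Icc (0 : ℝ) t, ‖derivWithin f (Icc 0 t) τ‖ₑ ≤
      ENNReal.ofReal (K * nrm p x e) *
        ‖mfderivWithin 𝓘(ℝ, ℝ) 𝓘(ℝ, E) (psi (E := E) p ∘ β) (Icc 0 t) τ (1 : ℝ)‖ₑ := by
    intro τ hτ
    have hn : ‖mfderivWithin 𝓘(ℝ, ℝ) 𝓘(ℝ, E) (psi (E := E) p ∘ β) (Icc 0 t) τ (1 : ℝ)‖ =
        nrm p (β τ) (derivWithin β (Icc 0 t) τ) := congrArg norm (hmf τ hτ)
    rw [hder τ hτ, ← ofReal_norm, ← ofReal_norm, hn,
      ← ENNReal.ofReal_mul (mul_nonneg hK.le (nrm_nonneg _ _ _))]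
    apply ENNReal.ofReal_le_ofReal
    rw [Real.norm_eq_abs]
    refine (abs_Gc_le p x _ _).trans ?_
    have h3 := hKS _ (hβS τ hτ) (derivWithin β (Icc 0 t) τ)
    rw [Gc_self, Gc_self, ← mul_pow] at h3
    have h4 : nrm p x (derivWithin β (Icc 0 t) τ) ≤ K * nrm p (β τ) (derivWithin β (Icc 0 t) τ) :=
      (pow_le_pow_iff_left₀ (nrm_nonneg _ _ _)
        (mul_nonneg hK.le (nrm_nonneg _ _ _)) two_ne_zero).mp h3
    calc nrm p x (derivWithin β (Icc 0 t) τ) * nrm p x e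
        ≤ (K * nrm p (β τ) (derivWithin β (Icc 0 t) τ)) * nrm p x e :=
          mul_le_mul_of_nonneg_right h4 (nrm_nonneg _ _ _)
      _ = _ := by ring
  have heq : EqOn γ (psi (E := E) p ∘ β) (Icc 0 t) := by
    intro τ hτ
    exact ((extChartAt 𝓘(ℝ, E) p).left_inv (hsrc τ hτ)).symm
  have hmain : ‖f t - f 0‖ₑ ≤ ENNReal.ofReal (K * nrm p x e) * pathELength 𝓘(ℝ, E) γ 0 1 := by
    refine (enorm_sub_le_lintegral_derivWithin_Icc_of_contDiffOn_Icc hf ht0.le).trans ?_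
    refine (setLIntegral_mono' measurableSet_Icc hbound).trans ?_
    rw [lintegral_const_mul' _ _ ENNReal.ofReal_ne_top]
    have h5 : pathELength 𝓘(ℝ, E) (psi (E := E) p ∘ β) 0 t ≤ pathELength 𝓘(ℝ, E) γ 0 1 := by
      rw [← pathELength_congr heq]
      exact pathELength_mono le_rfl ht.2
    have h6 := pathELength_eq_lintegral_mfderivWithin_Icc (I := 𝓘(ℝ, E))
      (γ := psi (E := E) p ∘ β) (a := 0) (b := t)
    rw [h6] at h5
    exact mul_le_mul_right h5 _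
  have hft : f t - f 0 = nrm p x e ^ 2 := by
    simp only [f]
    have h1 : β 0 = x := hφ0
    rw [h1, sub_self, ← he, map_zero]
    simp only [_root_.zero_apply, sub_zero]
    exact Gc_self p x e
  rw [hft, ← ofReal_norm, Real.norm_of_nonneg (sq_nonneg _)] at hmain
  set L := pathELength 𝓘(ℝ, E) γ 0 1 with hL
  rw [← ENNReal.ofReal_toReal hfin, ← ENNReal.ofReal_mul (mul_nonneg hK.le (nrm_nonneg _ _ _)),
    ENNReal.ofReal_le_ofReal_iff (by
      have := nrm_nonneg p x e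
      positivity)] at hmain
  rcases (nrm_nonneg p x e).eq_or_lt with h0 | hpos
  · change nrm p x e ≤ _
    rw [← h0]; exact hL0
  · change nrm p x e ≤ _
    have : nrm p x e * nrm p x e ≤ nrm p x e * (K * L.toReal) := by nlinarith
    exact le_of_mul_le_mul_left this hpos

theorem isOpen_psi_image {V : Set E} (hV : V ⊆ tgt (E := E) p) (hVo : IsOpen V) :
    IsOpen (psi (E := E) p '' V) := by
  have h1 : psi (E := E) p '' V = (extChartAt 𝓘(ℝ, E) p).source ∩ extChartAt 𝓘(ℝ, E) p ⁻¹' V :=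
    PartialEquiv.symm_image_eq_source_inter_preimage _ hV
  rw [h1]
  exact (continuousOn_extChartAt p).isOpen_inter_preimage (isOpen_extChartAt_source p) hVo

theorem lo_chart [FiniteDimensional ℝ E] {x₀ : E} {r : ℝ} (hr : ball x₀ r ⊆ tgt (E := E) p)
    {x : E} (hx : x ∈ ball x₀ r) {s K : ℝ} (hs : 0 < s) (hK : 0 < K)
    (h : ∀ w, Gc p x (w - x) (w - x) ≤ s ^ 2 → w ∈ ball x₀ r ∧
      ∀ v, Gc p x v v ≤ K ^ 2 * Gc p w v v) (y : M) (hy : K * dist (psi p x) y < s) :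
    ∃ w ∈ ball x₀ r, psi p w = y ∧ Gc p x (w - x) (w - x) ≤ (K * dist (psi p x) y) ^ 2 := by
  have hxt : x ∈ tgt (E := E) p := hr hx
  -- key: for every larger length
  have key : ∀ L, dist (psi p x) y < L → K * L < s →
      y ∈ psi (E := E) p '' {w | Gc p x (w - x) (w - x) ≤ s ^ 2} ∧
        nrm p x (extChartAt 𝓘(ℝ, E) p y - x) ≤ K * L := by
    intro L hL hKL
    have hL0 : 0 < L := lt_of_le_of_lt dist_nonneg hL
    obtain ⟨s₁, hs₁, hs₁'⟩ := exists_between hKL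
    have hs₁0 : 0 < s₁ := lt_trans (by positivity) hs₁
    have hlt : riemannianEDist 𝓘(ℝ, E) (psi p x) y < ENNReal.ofReal L := by
      rw [← IsRiemannianManifold.out (I := 𝓘(ℝ, E)), edist_dist]
      exact (ENNReal.ofReal_lt_ofReal_iff hL0).mpr hL
    obtain ⟨γ, hγ0, hγ1, hγs, hγL, -⟩ :=
      exists_lt_locally_constant_of_riemannianEDist_lt hlt zero_lt_one
    have hfin : pathELength 𝓘(ℝ, E) γ 0 1 ≠ ⊤ := (hγL.trans ENNReal.ofReal_lt_top).ne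
    have hLt : (pathELength 𝓘(ℝ, E) γ 0 1).toReal < L := by
      have := (ENNReal.toReal_lt_toReal hfin ENNReal.ofReal_ne_top).mpr hγL
      rwa [ENNReal.toReal_ofReal hL0.le] at this
    set S₁ : Set E := {w | Gc p x (w - x) (w - x) ≤ s₁ ^ 2} with hS₁
    set S₂ : Set E := {w | Gc p x (w - x) (w - x) < s₁ ^ 2} with hS₂
    have hcont : Continuous (fun w : E => Gc p x (w - x) (w - x)) := by fun_prop
    have hS₁cl : IsClosed S₁ := isClosed_le hcont continuous_const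
    have hS₂op : IsOpen S₂ := isOpen_lt hcont continuous_const
    have hS₁s : ∀ w ∈ S₁, Gc p x (w - x) (w - x) ≤ s ^ 2 := by
      intro w hw
      have : s₁ ^ 2 ≤ s ^ 2 := by gcongr
      exact le_trans hw this
    have hS₁b : S₁ ⊆ ball x₀ r := fun w hw => (h w (hS₁s w hw)).1
    have hS₁t : S₁ ⊆ tgt (E := E) p := hS₁b.trans hr
    have hS₂₁ : S₂ ⊆ S₁ := by
      intro w hw
      change Gc p x (w - x) (w - x) < s₁ ^ 2 at hw
      change Gc p x (w - x) (w - x) ≤ s₁ ^ 2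
      exact hw.le
    have hS₁c : IsCompact S₁ :=
      Metric.isCompact_of_isClosed_isBounded hS₁cl (isBounded_ball.subset hS₁b)
    have hψc : ContinuousOn (psi (E := E) p) S₁ :=
      (continuousOn_extChartAt_symm p).mono hS₁t
    have hucl : IsClosed (psi (E := E) p '' S₁) := (hS₁c.image_of_continuousOn hψc).isClosed
    have hvop : IsOpen (psi (E := E) p '' S₂) := isOpen_psi_image p (hS₂₁.trans hS₁t) hS₂op
    have hvu : psi (E := E) p '' S₂ ⊆ psi (E := E) p '' S₁ := image_mono hS₂₁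
    let A := γ ⁻¹' (psi (E := E) p '' S₁)
    have hx1 : x ∈ S₁ := by
      change Gc p x (x - x) (x - x) ≤ s₁ ^ 2
      rw [sub_self, map_zero]
      positivity
    have zero_mem : (0 : ℝ) ∈ A := ⟨x, hx1, hγ0.symm⟩
    have A_closed : IsClosed (A ∩ Icc 0 1) :=
      (hucl.preimage hγs.continuous).inter isClosed_Icc
    have hsub : Icc (0 : ℝ) 1 ⊆ A := by
      apply A_closed.Icc_subset_of_forall_mem_nhdsGT_of_Icc_subset zero_mem
      rintro t₁ ⟨ht₁0, ht₁1⟩ t₁_mem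
      have hb := path_bound p hxt hγs hγ0 hK hS₁t (fun w hw => (h w (hS₁s w hw)).2) hfin
        ⟨ht₁0, ht₁1.le⟩ (fun τ hτ => t₁_mem hτ)
      have hmem : γ t₁ ∈ psi (E := E) p '' S₂ := by
        obtain ⟨w, hw, hwe⟩ := t₁_mem (right_mem_Icc.mpr ht₁0)
        have hwφ : extChartAt 𝓘(ℝ, E) p (γ t₁) = w := by
          rw [← hwe]; exact (extChartAt 𝓘(ℝ, E) p).right_inv (hS₁t hw)
        refine ⟨w, ?_, hwe⟩
        rw [hwφ] at hb
        change Gc p x (w - x) (w - x) < s₁ ^ 2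
        rw [Gc_self]
        have h3 : nrm p x (w - x) < s₁ := by
          refine lt_of_le_of_lt hb (lt_trans ?_ hs₁)
          gcongr
        have := nrm_nonneg p x (w - x)
        gcongr
      exact hγs.continuous.continuousWithinAt <| mem_of_superset (hvop.mem_nhds hmem) hvu
    have h1 : (1 : ℝ) ∈ A := hsub ⟨zero_le_one, le_rfl⟩
    have hb := path_bound p hxt hγs hγ0 hK hS₁t (fun w hw => (h w (hS₁s w hw)).2) hfin
        (t := 1) ⟨zero_le_one, le_rfl⟩ (fun τ hτ => hsub hτ)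
    rw [hγ1] at hb
    refine ⟨?_, hb.trans ?_⟩
    · obtain ⟨w, hw, hwe⟩ := h1
      exact ⟨w, hS₁s w hw, by rw [hwe, hγ1]⟩
    · gcongr
  -- choose a length
  obtain ⟨L₀, hL₀, hL₀'⟩ : ∃ L₀, dist (psi p x) y < L₀ ∧ K * L₀ < s := by
    have : dist (psi p x) y < s / K := by rw [lt_div_iff₀ hK]; linarith
    obtain ⟨L₀, h1, h2⟩ := exists_between this
    refine ⟨L₀, h1, ?_⟩
    rw [lt_div_iff₀ hK] at h2
    linarith
  obtain ⟨⟨w, hw, hwy⟩, -⟩ := key L₀ hL₀ hL₀'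
  have hwb := (h w hw).1
  have hwφ : extChartAt 𝓘(ℝ, E) p y = w := by
    rw [← hwy]; exact (extChartAt 𝓘(ℝ, E) p).right_inv (hr hwb)
  refine ⟨w, hwb, hwy, ?_⟩
  have hle : nrm p x (w - x) ≤ K * dist (psi p x) y := by
    have h1 : ∀ L, dist (psi p x) y < L → nrm p x (w - x) ≤ K * L := by
      intro L hL
      rcases lt_or_ge (K * L) s with h2 | h2
      · have := (key L hL h2).2
        rwa [hwφ] at this
      · have := (key L₀ hL₀ hL₀').2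
        rw [hwφ] at this
        linarith
    have h2 : nrm p x (w - x) / K ≤ dist (psi p x) y := by
      apply le_of_forall_gt_imp_ge_of_dense
      intro L hL
      rw [div_le_iff₀ hK]
      have := h1 L hL
      linarith
    rw [div_le_iff₀ hK] at h2
    linarith
  rw [Gc_self]
  have := nrm_nonneg p x (w - x)
  gcongr

end Up

end Pool.Agent.Helper381
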