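import Pool.Agent.Helper381.Riem2

/-! Compact Riemannian manifolds have good charts and midpoints. -/

namespace Pool.Agent.Helper381

universe u v w

open Bundle Bornology Set MeasureTheory Manifold Filter Metric
open scoped ENNReal ContDiff Topology

section Mid

variable {E : Type v} [NormedAddCommGroup E] [NormedSpace ℝ E]
  {M : Type u} [MetricSpace M] [ChartedSpace E M]
  [RiemannianBundle (fun (x : M) ↦ TangentSpace 𝓘(ℝ, E) x)]

theorem exists_midpt [IsRiemannianManifold 𝓘(ℝ, E) M] [CompactSpace M] (x y : M) :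
    ∃ m : M, dist x m = dist x y / 2 ∧ dist m y = dist x y / 2 := by
  set D := dist x y with hD
  have hD0 : 0 ≤ D := dist_nonneg
  have claim : ∀ ε > 0, ∃ m : M, dist x m = D / 2 ∧ dist m y ≤ D / 2 + ε := by
    intro ε hε
    have hlt : riemannianEDist 𝓘(ℝ, E) x y < ENNReal.ofReal (D + ε) := by
      rw [← IsRiemannianManifold.out (I := 𝓘(ℝ, E)), edist_dist]
      exact (ENNReal.ofReal_lt_ofReal_iff (by linarith)).mpr (by linarith)
    obtain ⟨γ, hγ0, hγ1, hγs, hγL, -⟩ :=
      exists_lt_locally_constant_of_riemannianEDist_lt hlt zero_lt_one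
    have hcont : ContinuousOn (fun t => dist x (γ t)) (Icc 0 1) :=
      (continuous_const.dist hγs.continuous).continuousOn
    have hivt := intermediate_value_Icc (zero_le_one (α := ℝ)) hcont
    have hmem : D / 2 ∈ Icc ((fun t => dist x (γ t)) 0) ((fun t => dist x (γ t)) 1) := by
      simp only [hγ0, hγ1, dist_self]
      exact ⟨by linarith, by linarith⟩
    obtain ⟨t, ht, htD⟩ := hivt hmem
    have htD' : dist x (γ t) = D / 2 := htD
    refine ⟨γ t, htD', ?_⟩
    have h1 : edist x (γ t) ≤ pathELength 𝓘(ℝ, E) γ 0 t := by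
      rw [IsRiemannianManifold.out (I := 𝓘(ℝ, E))]
      exact riemannianEDist_le_pathELength hγs.contMDiffOn hγ0 rfl ht.1
    have h2 : edist (γ t) y ≤ pathELength 𝓘(ℝ, E) γ t 1 := by
      rw [IsRiemannianManifold.out (I := 𝓘(ℝ, E))]
      exact riemannianEDist_le_pathELength hγs.contMDiffOn rfl hγ1 ht.2
    have h3 : edist x (γ t) + edist (γ t) y < ENNReal.ofReal (D + ε) := by
      refine lt_of_le_of_lt (add_le_add h1 h2) ?_
      rw [pathELength_add ht.1 ht.2]
      exact hγL
    rw [edist_dist, edist_dist, ← ENNReal.ofReal_add dist_nonneg dist_nonneg,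
      ENNReal.ofReal_lt_ofReal_iff (by linarith), htD'] at h3
    linarith
  have hKc : IsCompact {m : M | dist x m = D / 2} :=
    (isClosed_eq (continuous_const.dist continuous_id) continuous_const).isCompact
  have hKne : {m : M | dist x m = D / 2}.Nonempty := by
    obtain ⟨m, hm, _⟩ := claim 1 one_pos
    exact ⟨m, hm⟩
  have hcont2 : Continuous (fun m : M => dist m y) := continuous_id.dist continuous_const
  obtain ⟨m, hm, hmin⟩ := hKc.exists_isMinOn hKne hcont2.continuousOn
  have hm' : dist x m = D / 2 := hm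
  refine ⟨m, hm', ?_⟩
  apply le_antisymm
  · apply le_of_forall_pos_le_add
    intro ε hε
    obtain ⟨m', h1, h2⟩ := claim ε hε
    exact (hmin (show m' ∈ {m : M | dist x m = D / 2} from h1)).trans h2
  · have := dist_triangle x m y
    rw [hm'] at this
    linarith

end Mid

section Assemble

variable {E : Type v} [NormedAddCommGroup E] [NormedSpace ℝ E] [FiniteDimensional ℝ E]
  {M : Type u} [MetricSpace M] [ChartedSpace E M] [IsManifold 𝓘(ℝ, E) ∞ M]
  [RiemannianBundle (fun (x : M) ↦ TangentSpace 𝓘(ℝ, E) x)]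
  [IsContMDiffRiemannianBundle 𝓘(ℝ, E) ∞ E (fun (x : M) ↦ TangentSpace 𝓘(ℝ, E) x)]
  [IsRiemannianManifold 𝓘(ℝ, E) M]

theorem exists_loc (p : M) : ∃ c : Loc M E, c.ψ c.x₀ = p := by
  obtain ⟨g, hgx, hgt, hG⟩ := exists_metCoef (E := E) p
  refine ⟨{ toMetCoef := g, φ := extChartAt 𝓘(ℝ, E) p, ψ := psi p,
            φψ := fun v hv => (extChartAt 𝓘(ℝ, E) p).right_inv (hgt hv),
            isOpen_image := fun V hV hVo => isOpen_psi_image p (hV.trans hgt) hVo,
            contφ := ?_, contψ := (continuousOn_extChartAt_symm p).mono hgt,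
            up := ?_, lo := ?_ }, ?_⟩
  · apply (continuousOn_extChartAt p).mono
    rintro _ ⟨v, hv, rfl⟩
    exact (extChartAt 𝓘(ℝ, E) p).map_target (hgt hv)
  · intro x hx y hy K hK h
    apply up_chart p _ K hK
    · intro t ht
      have := h t ht
      rwa [hG] at this
    · intro t ht
      apply hgt
      have := (convex_ball g.x₀ g.r) hx hy (by linarith [ht.2] : (0 : ℝ) ≤ 1 - t) ht.1 (by ring)
      have e : (1 - t) • x + t • y = x + t • (y - x) := by module
      rwa [e] at this
  · intro x hx s K hs hK h y hy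
    obtain ⟨w, hw, hwy, hle⟩ := lo_chart p hgt hx hs hK (by
      intro w hw
      have := h w (by rw [hG]; exact hw)
      refine ⟨this.1, fun v => ?_⟩
      have h2 := this.2 v
      rwa [hG, hG] at h2) y hy
    exact ⟨w, hw, hwy, by rw [hG]; exact hle⟩
  · change psi p g.x₀ = p
    rw [hgx]
    exact extChartAt_to_inv p

/-- A compact Riemannian manifold has the metric geometry needed for the main theorems. -/
theorem riemannian_geo [CompactSpace M] : ∃ R, Geo M E R :=
  Geo.of_loc (fun x y => exists_midpt (E := E) x y) (fun p => exists_loc p)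

end Assemble

end Pool.Agent.Helper381
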