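import Pool.Agent.Helper381.Subdiv

/-! Small simplices theorem for singular cohomology. -/

namespace Pool.Agent.Helper381

universe u v w

open Finsupp

section Mesh

theorem bary_dist {n k : ℕ} (a : LS n k) (r : ℝ) (hr : 0 ≤ r)
    (h : ∀ i j, dist (a i) (a j) ≤ r) (j : Fin (k + 1)) :
    dist (bary a) (a j) ≤ ((k : ℝ) / (k + 1)) * r := by
  have hk : (0 : ℝ) < (k : ℝ) + 1 := by positivity
  rw [Subtype.dist_eq, dist_pi_le_iff (by positivity)]
  intro l
  have h1 : (bary a).1 l = ∑ i : Fin (k + 1), ((k : ℝ) + 1)⁻¹ * (a i).1 l := by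
    rw [bary, aff_coe]
    simp only [Finset.sum_apply, Pi.smul_apply, smul_eq_mul]
    refine Finset.sum_congr rfl fun i _ => ?_
    rw [stdSimplex.barycenter_apply]
    simp
  have h2 : (bary a).1 l - (a j).1 l = ∑ i : Fin (k + 1), ((k : ℝ) + 1)⁻¹ * ((a i).1 l - (a j).1 l) := by
    rw [h1]
    simp only [mul_sub, Finset.sum_sub_distrib, Finset.sum_const, Finset.card_univ,
      Fintype.card_fin, nsmul_eq_mul]
    push_cast
    field_simp
  rw [Real.dist_eq, h2]
  refine (Finset.abs_sum_le_sum_abs _ _).trans ?_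
  have h3 : ∀ i : Fin (k + 1), |((k : ℝ) + 1)⁻¹ * ((a i).1 l - (a j).1 l)| ≤
      ((k : ℝ) + 1)⁻¹ * (if i = j then 0 else r) := by
    intro i
    rw [abs_mul, abs_of_pos (inv_pos.mpr hk)]
    apply mul_le_mul_of_nonneg_left _ (by positivity)
    split_ifs with hij
    · rw [hij]; simp
    · have := dist_le_pi_dist (a i).1 (a j).1 l
      rw [Real.dist_eq] at this
      exact this.trans (h i j)
  refine (Finset.sum_le_sum fun i _ => h3 i).trans ?_
  rw [← Finset.mul_sum, Finset.sum_ite, Finset.sum_const_zero, zero_add, Finset.sum_const,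
    nsmul_eq_mul]
  have h4 : (Finset.univ.filter (fun i : Fin (k + 1) => ¬ i = j)).card = k := by
    rw [Finset.filter_not, Finset.filter_eq', if_pos (Finset.mem_univ _),
      Finset.card_sdiff_of_subset (by simp)]
    simp
  rw [h4]
  apply le_of_eq
  field_simp

theorem dist_aff_le {n k : ℕ} (a : LS n k) (x : Dl n) (r : ℝ) (h : ∀ i, dist x (a i) ≤ r)
    (t : Dl k) : dist x (aff a t) ≤ r := by
  have hconv : Convex ℝ (Metric.closedBall x.1 r) := convex_closedBall _ _
  have h1 : (aff a t).1 ∈ Metric.closedBall x.1 r := by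
    rw [aff_coe]
    apply hconv.sum_mem (fun i _ => t.2.1 i) t.2.2
    intro i _
    rw [Metric.mem_closedBall, dist_comm]
    exact h i
  rw [Metric.mem_closedBall, dist_comm] at h1
  exact h1

/-- tuples with pairwise distances at most `r` -/
def Wset (n k : ℕ) (r : ℝ) : Set (LS n k) := {a | ∀ i j, dist (a i) (a j) ≤ r}

theorem sd_mesh (n k : ℕ) (a : LS n k) (r : ℝ) (hr : 0 ≤ r) (h : a ∈ Wset n k r) :
    sd n k (single a 1) ∈ Finsupp.supported ℤ ℤ
      {a' : LS n k | a' ∈ Wset n k (((k : ℝ) / (k + 1)) * r) ∧ ∀ i, ∃ t, a' i = aff a t} := by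
  induction k with
  | zero =>
    rw [sd_zero]
    apply single_mem_supported'
    refine ⟨?_, ?_⟩
    · intro i j
      have : i = j := Subsingleton.elim (α := Fin 1) i j
      rw [this, dist_self]
      simp
    · intro i
      exact ⟨vert 0 i, (aff_vert a i).symm⟩
  | succ k ih =>
    have hk : (0 : ℝ) < (k : ℝ) + 1 := by positivity
    rw [sd_succ, lbd, bd_single, map_sum, map_sum]
    apply Submodule.sum_mem
    intro i _
    rw [map_smul, map_smul]
    apply Submodule.smul_mem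
    have h1 := ih (lface n k i a) (fun i' j' => h _ _)
    refine supported_map _ (cone n k (bary a)) _ ?_ _ h1
    rintro a' ⟨ha1, ha2⟩
    rw [cone_single]
    apply single_mem_supported'
    have hb : ∀ t : Dl (k + 1), dist (bary a) (aff a t) ≤ (((k + 1 : ℕ) : ℝ) / ((k + 1 : ℕ) + 1)) * r := by
      intro t
      apply dist_aff_le
      intro j
      exact bary_dist a r hr h j
    have hface : ∀ t : Dl k, aff (lface n k i a) t =
        aff a (aff (fun j => vert (k + 1) (i.succAbove j)) t) := by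
      intro t
      have := congrArg (fun f => f t) (aff_comp a (fun j => vert (k + 1) (i.succAbove j)))
      simp only [ContinuousMap.comp_apply] at this
      rw [this]
      congr 2
      funext j
      rw [aff_vert]
      rfl
    have ha2' : ∀ j, ∃ t, a' j = aff a t := by
      intro j
      obtain ⟨t, ht⟩ := ha2 j
      exact ⟨_, ht.trans (hface t)⟩
    have hle : ((k : ℝ) / (k + 1)) ≤ (((k + 1 : ℕ) : ℝ) / ((k + 1 : ℕ) + 1)) := by
      push_cast
      rw [div_le_div_iff₀ hk (by positivity)]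
      nlinarith
    refine ⟨?_, ?_⟩
    · intro x y
      refine Fin.cases ?_ (fun x => ?_) x
      · refine Fin.cases ?_ (fun y => ?_) y
        · rw [dist_self]; positivity
        · simp only [Fin.cons_zero, Fin.cons_succ]
          obtain ⟨t, ht⟩ := ha2' y
          rw [ht]
          exact hb t
      · refine Fin.cases ?_ (fun y => ?_) y
        · simp only [Fin.cons_zero, Fin.cons_succ]
          obtain ⟨t, ht⟩ := ha2' x
          rw [ht, dist_comm]
          exact hb t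
        · simp only [Fin.cons_succ]
          refine (ha1 x y).trans ?_
          exact mul_le_mul_of_nonneg_right hle hr
    · intro x
      refine Fin.cases ?_ (fun x => ?_) x
      · exact ⟨stdSimplex.barycenter, by simp [bary]⟩
      · simpa using ha2' x

theorem sd_iter_mesh (n k : ℕ) (r : ℝ) (hr : 0 ≤ r) (m : ℕ) (z : LS n k →₀ ℤ)
    (hz : z ∈ Finsupp.supported ℤ ℤ (Wset n k r)) :
    (⇑(sd n k))^[m] z ∈ Finsupp.supported ℤ ℤ (Wset n k (((k : ℝ) / (k + 1)) ^ m * r)) := by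
  induction m with
  | zero => simpa using hz
  | succ m ih =>
    rw [Function.iterate_succ_apply']
    refine supported_map _ (sd n k) _ ?_ _ ih
    intro a ha
    have h1 := sd_mesh n k a _ (by positivity) ha
    refine Finsupp.supported_mono ?_ h1
    intro a' ha'
    have := ha'.1
    rw [← mul_assoc, ← pow_succ'] at this
    exact this

end Mesh

section Singular

variable {X : Type u} [TopologicalSpace X]

noncomputable def push {n : ℕ} (σ : Sing X n) (k : ℕ) : (LS n k →₀ ℤ) →ₗ[ℤ] (Sing X k →₀ ℤ) :=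
  Finsupp.lmapDomain ℤ ℤ (fun a => σ.comp (aff a))

theorem push_single {n : ℕ} (σ : Sing X n) (k : ℕ) (a : LS n k) (x : ℤ) :
    push σ k (single a x) = single (σ.comp (aff a)) x := by
  simp [push]

noncomputable abbrev sbd (X : Type u) [TopologicalSpace X] (k : ℕ) :
    (Sing X (k + 1) →₀ ℤ) →ₗ[ℤ] (Sing X k →₀ ℤ) := bd (sface (X := X)) k

theorem sface_eq {n : ℕ} (i : Fin (n + 2)) (σ : Sing X (n + 1)) :
    sface n i σ = σ.comp (aff (fun j => vert (n + 1) (i.succAbove j))) := by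
  rw [sface]
  congr 1
  exact map_eq_aff _

theorem sface_comp_aff {n k : ℕ} (σ : Sing X n) (a : LS n (k + 1)) (i : Fin (k + 2)) :
    sface k i (σ.comp (aff a)) = σ.comp (aff (lface n k i a)) := by
  rw [sface_eq, ContinuousMap.comp_assoc, aff_comp]
  congr 2
  funext j
  rw [aff_vert]
  rfl

theorem push_lbd {n : ℕ} (σ : Sing X n) (k : ℕ) (z : LS n (k + 1) →₀ ℤ) :
    push σ k (lbd n k z) = sbd X k (push σ (k + 1) z) := by
  have : (push σ k).comp (lbd n k) = (sbd X k).comp (push σ (k + 1)) := by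
    apply Finsupp.lhom_ext'
    intro a
    apply LinearMap.ext_ring
    simp only [LinearMap.comp_apply, lsingle_apply]
    rw [push_single, lbd, sbd, bd_single, bd_single, map_sum]
    refine Finset.sum_congr rfl fun i _ => ?_
    rw [map_smul, push_single, sface_comp_aff]
  exact LinearMap.congr_fun this z

theorem push_comp {n m : ℕ} (σ : Sing X n) (c : LS n m) (k : ℕ) (z : LS m k →₀ ℤ) :
    push (σ.comp (aff c) : Sing X m) k z = push σ k (lpush c k z) := by
  have : push (σ.comp (aff c) : Sing X m) k = (push σ k).comp (lpush c k) := by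
    apply Finsupp.lhom_ext'
    intro a
    apply LinearMap.ext_ring
    simp only [LinearMap.comp_apply, lsingle_apply]
    rw [push_single, lpush_single, push_single, ContinuousMap.comp_assoc, aff_comp]
  exact LinearMap.congr_fun this z

noncomputable def Sd (X : Type u) [TopologicalSpace X] (k : ℕ) :
    (Sing X k →₀ ℤ) →ₗ[ℤ] (Sing X k →₀ ℤ) :=
  Finsupp.linearCombination ℤ (fun σ => push σ k (sd k k (single (vert k) 1)))

noncomputable def TS (X : Type u) [TopologicalSpace X] (k : ℕ) :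
    (Sing X k →₀ ℤ) →ₗ[ℤ] (Sing X (k + 1) →₀ ℤ) :=
  Finsupp.linearCombination ℤ (fun σ => push σ (k + 1) (TL k k (single (vert k) 1)))

theorem lpush_vert {n k : ℕ} (a : LS n k) : lpush a k (single (vert k) 1) = single a 1 := by
  rw [lpush_single]
  congr 1
  funext i
  exact aff_vert a i

theorem Sd_push {n : ℕ} (σ : Sing X n) (k : ℕ) (z : LS n k →₀ ℤ) :
    Sd X k (push σ k z) = push σ k (sd n k z) := by
  have : (Sd X k).comp (push σ k) = (push σ k).comp (sd n k) := by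
    apply Finsupp.lhom_ext'
    intro a
    apply LinearMap.ext_ring
    simp only [LinearMap.comp_apply, lsingle_apply]
    rw [push_single, Sd, linearCombination_single, one_smul, push_comp, lpush_sd, lpush_vert]
  exact LinearMap.congr_fun this z

theorem TS_push {n : ℕ} (σ : Sing X n) (k : ℕ) (z : LS n k →₀ ℤ) :
    TS X k (push σ k z) = push σ (k + 1) (TL n k z) := by
  have : (TS X k).comp (push σ k) = (push σ (k + 1)).comp (TL n k) := by
    apply Finsupp.lhom_ext'
    intro a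
    apply LinearMap.ext_ring
    simp only [LinearMap.comp_apply, lsingle_apply]
    rw [push_single, TS, linearCombination_single, one_smul, push_comp, lpush_TL, lpush_vert]
  exact LinearMap.congr_fun this z

theorem push_vert (k : ℕ) (σ : Sing X k) : push σ k (single (vert k) 1) = single σ 1 := by
  rw [push_single, aff_vert_eq]
  rfl

theorem sbd_Sd (k : ℕ) (z : Sing X (k + 1) →₀ ℤ) :
    sbd X k (Sd X (k + 1) z) = Sd X k (sbd X k z) := by
  have : (sbd X k).comp (Sd X (k + 1)) = (Sd X k).comp (sbd X k) := by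
    apply Finsupp.lhom_ext'
    intro σ
    apply LinearMap.ext_ring
    simp only [LinearMap.comp_apply, lsingle_apply]
    rw [← push_vert, Sd_push, ← push_lbd, ← push_lbd, lbd_sd, Sd_push]
  exact LinearMap.congr_fun this z

theorem sbd_TS (k : ℕ) (z : Sing X (k + 1) →₀ ℤ) :
    sbd X (k + 1) (TS X (k + 1) z) + TS X k (sbd X k z) = z - Sd X (k + 1) z := by
  have : (sbd X (k + 1)).comp (TS X (k + 1)) + (TS X k).comp (sbd X k) =
      LinearMap.id - Sd X (k + 1) := by
    apply Finsupp.lhom_ext'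
    intro σ
    apply LinearMap.ext_ring
    simp only [LinearMap.comp_apply, lsingle_apply, LinearMap.add_apply, LinearMap.sub_apply,
      LinearMap.id_apply]
    rw [← push_vert, TS_push, ← push_lbd, ← push_lbd, TS_push, Sd_push, ← map_add, lbd_TL, map_sub]
  exact LinearMap.congr_fun this z

theorem TS_zero (z : Sing X 0 →₀ ℤ) : TS X 0 z = 0 := by
  have : TS X 0 = 0 := by
    apply Finsupp.lhom_ext'
    intro σ
    apply LinearMap.ext_ring
    simp only [LinearMap.comp_apply, lsingle_apply]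
    rw [← push_vert, TS_push, TL_zero, map_zero]
    rfl
  rw [this]; rfl

variable (𝒞 : Set (Set X))

/-- set of small simplices -/
def smallSet (k : ℕ) : Set (Sing X k) := {σ | ∃ C ∈ 𝒞, Set.range σ ⊆ C}

theorem push_small {n : ℕ} (σ : Sing X n) (hσ : σ ∈ smallSet 𝒞 n) (k : ℕ) (z : LS n k →₀ ℤ) :
    push σ k z ∈ Finsupp.supported ℤ ℤ (smallSet 𝒞 k) := by
  have hz : z ∈ Finsupp.supported ℤ ℤ (Set.univ : Set (LS n k)) := by simp
  refine supported_map _ (push σ k) _ ?_ z hz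
  intro a _
  rw [push_single]
  apply single_mem_supported'
  obtain ⟨C, hC, h⟩ := hσ
  refine ⟨C, hC, ?_⟩
  rintro _ ⟨x, rfl⟩
  exact h ⟨_, rfl⟩

theorem Sd_small (k : ℕ) (z : Sing X k →₀ ℤ) (hz : z ∈ Finsupp.supported ℤ ℤ (smallSet 𝒞 k)) :
    Sd X k z ∈ Finsupp.supported ℤ ℤ (smallSet 𝒞 k) := by
  refine supported_map _ (Sd X k) _ ?_ z hz
  intro σ hσ
  rw [← push_vert, Sd_push]
  exact push_small 𝒞 σ hσ k _

theorem TS_small (k : ℕ) (z : Sing X k →₀ ℤ) (hz : z ∈ Finsupp.supported ℤ ℤ (smallSet 𝒞 k)) :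
    TS X k z ∈ Finsupp.supported ℤ ℤ (smallSet 𝒞 (k + 1)) := by
  refine supported_map _ (TS X k) _ ?_ z hz
  intro σ hσ
  rw [← push_vert, TS_push]
  exact push_small 𝒞 σ hσ _ _

theorem sbd_small (k : ℕ) (z : Sing X (k + 1) →₀ ℤ)
    (hz : z ∈ Finsupp.supported ℤ ℤ (smallSet 𝒞 (k + 1))) :
    sbd X k z ∈ Finsupp.supported ℤ ℤ (smallSet 𝒞 k) := by
  refine supported_map _ (sbd X k) _ ?_ z hz
  intro σ hσ
  rw [← push_vert, ← push_lbd]
  exact push_small 𝒞 σ hσ _ _

theorem Sd_iter_small (k m : ℕ) (z : Sing X k →₀ ℤ)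
    (hz : z ∈ Finsupp.supported ℤ ℤ (smallSet 𝒞 k)) :
    (⇑(Sd X k))^[m] z ∈ Finsupp.supported ℤ ℤ (smallSet 𝒞 k) := by
  induction m with
  | zero => exact hz
  | succ m ih =>
    rw [Function.iterate_succ_apply']
    exact Sd_small 𝒞 k _ ih

/-- subsets of diameter at most `r` are mapped into members of the cover -/
def Good {k : ℕ} (σ : Sing X k) (r : ℝ) : Prop :=
  ∀ s : Set (Dl k), (∀ x ∈ s, ∀ y ∈ s, dist x y ≤ r) → ∃ C ∈ 𝒞, σ '' s ⊆ C

theorem Good.mono {k : ℕ} {σ : Sing X k} {r r' : ℝ} (h : Good 𝒞 σ r) (hr : r' ≤ r) :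
    Good 𝒞 σ r' := fun s hs => h s (fun x hx y hy => (hs x hx y hy).trans hr)

theorem Good.face {k : ℕ} {σ : Sing X (k + 1)} {r : ℝ} (h : Good 𝒞 σ r) (i : Fin (k + 2)) :
    Good 𝒞 (sface k i σ) r := by
  intro s hs
  obtain ⟨C, hC, hsub⟩ := h (aff (fun j => vert (k + 1) (i.succAbove j)) '' s) (by
    rintro _ ⟨x, hx, rfl⟩ _ ⟨y, hy, rfl⟩
    exact (dist_face_le i x y).trans (hs x hx y hy))
  refine ⟨C, hC, ?_⟩
  rintro _ ⟨x, hx, rfl⟩
  rw [sface_eq]
  exact hsub ⟨_, ⟨x, hx, rfl⟩, rfl⟩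

theorem exists_good (hopen : ∀ C ∈ 𝒞, IsOpen C) (hcov : ∀ x : X, ∃ C ∈ 𝒞, x ∈ C) {k : ℕ}
    (σ : Sing X k) : ∃ r > 0, Good 𝒞 σ r := by
  have h := lebesgue_number_lemma_of_metric (s := (Set.univ : Set (Dl k))) (ι := 𝒞)
    (c := fun C => σ ⁻¹' C.1) isCompact_univ
    (fun C => (hopen C.1 C.2).preimage σ.continuous) (by
      intro x _
      obtain ⟨C, hC, hx⟩ := hcov (σ x)
      exact Set.mem_iUnion.mpr ⟨⟨C, hC⟩, hx⟩)
  obtain ⟨δ, hδ, h⟩ := h
  refine ⟨δ / 2, by positivity, ?_⟩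
  intro s hs
  rcases s.eq_empty_or_nonempty with rfl | ⟨x, hx⟩
  · obtain ⟨C, hC, _⟩ := hcov (σ (vert k 0))
    exact ⟨C, hC, by simp⟩
  · obtain ⟨C, hC⟩ := h x (Set.mem_univ _)
    refine ⟨C.1, C.2, ?_⟩
    rintro _ ⟨y, hy, rfl⟩
    apply hC
    rw [Metric.mem_ball]
    have := hs y hy x hx
    linarith

theorem Sd_iter_push {n : ℕ} (σ : Sing X n) (k m : ℕ) (z : LS n k →₀ ℤ) :
    (⇑(Sd X k))^[m] (push σ k z) = push σ k ((⇑(sd n k))^[m] z) := by
  induction m with
  | zero => rfl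
  | succ m ih => rw [Function.iterate_succ_apply', Function.iterate_succ_apply', ih, Sd_push]

theorem vert_mem_Wset (k : ℕ) : vert k ∈ Wset k k 1 := by
  intro i j
  rw [Subtype.dist_eq]
  exact (Metric.dist_le_diam_of_mem (bounded_stdSimplex _) (vert k i).2 (vert k j).2).trans
    diam_stdSimplex_le

theorem good_small {k : ℕ} (σ : Sing X k) (m : ℕ) (h : Good 𝒞 σ (((k : ℝ) / (k + 1)) ^ m)) :
    (⇑(Sd X k))^[m] (single σ 1) ∈ Finsupp.supported ℤ ℤ (smallSet 𝒞 k) := by
  rw [← push_vert, Sd_iter_push]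
  have h1 := sd_iter_mesh k k 1 zero_le_one m (single (vert k) 1)
    (single_mem_supported' (vert_mem_Wset k))
  refine supported_map _ (push σ k) _ ?_ _ h1
  intro a ha
  rw [push_single]
  apply single_mem_supported'
  obtain ⟨C, hC, hsub⟩ := h (Set.range (aff a)) (by
    rintro _ ⟨x, rfl⟩ _ ⟨y, rfl⟩
    rw [mul_one] at ha
    exact map_dist_le a _ ha x y)
  refine ⟨C, hC, ?_⟩
  rintro _ ⟨x, rfl⟩
  exact hsub ⟨_, ⟨x, rfl⟩, rfl⟩

theorem exists_pow (hopen : ∀ C ∈ 𝒞, IsOpen C) (hcov : ∀ x : X, ∃ C ∈ 𝒞, x ∈ C) {k : ℕ}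
    (σ : Sing X k) : ∃ m : ℕ, Good 𝒞 σ (((k : ℝ) / (k + 1)) ^ m) := by
  obtain ⟨r, hr, h⟩ := exists_good 𝒞 hopen hcov σ
  have hk : (0 : ℝ) < (k : ℝ) + 1 := by positivity
  obtain ⟨m, hm⟩ := exists_pow_lt_of_lt_one hr (show ((k : ℝ) / (k + 1)) < 1 by
    rw [div_lt_one hk]; linarith)
  exact ⟨m, h.mono 𝒞 hm.le⟩

open Classical in
/-- number of subdivisions -/
noncomputable def mm {k : ℕ} (σ : Sing X k) : ℕ :=
  if h : ∃ m : ℕ, Good 𝒞 σ (((k : ℝ) / (k + 1)) ^ m) then Nat.find h else 0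

theorem mm_spec (hopen : ∀ C ∈ 𝒞, IsOpen C) (hcov : ∀ x : X, ∃ C ∈ 𝒞, x ∈ C) {k : ℕ}
    (σ : Sing X k) : Good 𝒞 σ (((k : ℝ) / (k + 1)) ^ (mm 𝒞 σ)) := by
  classical
  have h := exists_pow 𝒞 hopen hcov σ
  rw [mm, dif_pos h]
  exact Nat.find_spec h

theorem mm_le {k : ℕ} (σ : Sing X k) (m : ℕ) (h : Good 𝒞 σ (((k : ℝ) / (k + 1)) ^ m)) :
    mm 𝒞 σ ≤ m := by
  classical
  rw [mm, dif_pos ⟨m, h⟩]
  exact Nat.find_min' _ h

theorem pow_mono_k (k m : ℕ) : ((k : ℝ) / (k + 1)) ^ m ≤ (((k + 1 : ℕ) : ℝ) / ((k + 1 : ℕ) + 1)) ^ m := by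
  have hk : (0 : ℝ) < (k : ℝ) + 1 := by positivity
  apply pow_le_pow_left₀ (by positivity)
  push_cast
  rw [div_le_div_iff₀ hk (by positivity)]
  nlinarith

theorem mm_face (hopen : ∀ C ∈ 𝒞, IsOpen C) (hcov : ∀ x : X, ∃ C ∈ 𝒞, x ∈ C) {k : ℕ}
    (σ : Sing X (k + 1)) (i : Fin (k + 2)) : mm 𝒞 (sface k i σ) ≤ mm 𝒞 σ := by
  apply mm_le
  have h := (mm_spec 𝒞 hopen hcov σ).face 𝒞 i
  exact h.mono 𝒞 (pow_mono_k k _)

theorem mm_small {k : ℕ} (σ : Sing X k) (h : σ ∈ smallSet 𝒞 k) : mm 𝒞 σ = 0 := by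
  apply Nat.le_zero.mp
  apply mm_le
  intro s _
  obtain ⟨C, hC, h⟩ := h
  refine ⟨C, hC, ?_⟩
  rintro _ ⟨x, _, rfl⟩
  exact h ⟨x, rfl⟩

theorem good_small_le {k : ℕ} (hopen : ∀ C ∈ 𝒞, IsOpen C) (hcov : ∀ x : X, ∃ C ∈ 𝒞, x ∈ C)
    (σ : Sing X k) (m : ℕ) (h : mm 𝒞 σ ≤ m) :
    (⇑(Sd X k))^[m] (single σ 1) ∈ Finsupp.supported ℤ ℤ (smallSet 𝒞 k) := by
  have h1 := good_small 𝒞 σ _ (mm_spec 𝒞 hopen hcov σ)
  obtain ⟨l, rfl⟩ := Nat.exists_eq_add_of_le h
  rw [add_comm, Function.iterate_add_apply]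
  exact Sd_iter_small 𝒞 k l _ h1

noncomputable def DD (k : ℕ) : (Sing X k →₀ ℤ) →ₗ[ℤ] (Sing X (k + 1) →₀ ℤ) :=
  Finsupp.linearCombination ℤ
    (fun σ => ∑ i ∈ Finset.range (mm 𝒞 σ), TS X k ((⇑(Sd X k))^[i] (single σ 1)))

theorem DD_single (k : ℕ) (σ : Sing X k) : DD 𝒞 k (single σ 1) =
    ∑ i ∈ Finset.range (mm 𝒞 σ), TS X k ((⇑(Sd X k))^[i] (single σ 1)) := by
  rw [DD, linearCombination_single, one_smul]

noncomputable def rho : ∀ k, (Sing X k →₀ ℤ) →ₗ[ℤ] (Sing X k →₀ ℤ)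
  | 0 => LinearMap.id
  | (k + 1) => LinearMap.id - (sbd X (k + 1)).comp (DD 𝒞 (k + 1)) - (DD 𝒞 k).comp (sbd X k)

theorem rho_succ (k : ℕ) (z : Sing X (k + 1) →₀ ℤ) :
    rho 𝒞 (k + 1) z = z - sbd X (k + 1) (DD 𝒞 (k + 1) z) - DD 𝒞 k (sbd X k z) := rfl

theorem sbd_sbd (k : ℕ) (z : Sing X (k + 2) →₀ ℤ) : sbd X k (sbd X (k + 1) z) = 0 :=
  bd_bd (sface (X := X)) (fun n i j σ h => sface_sface n i j σ h) k z

theorem DD_zero (z : Sing X 0 →₀ ℤ) : DD 𝒞 0 z = 0 := by
  have : DD 𝒞 0 = 0 := by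
    apply Finsupp.lhom_ext'
    intro σ
    apply LinearMap.ext_ring
    simp only [LinearMap.comp_apply, lsingle_apply]
    rw [DD_single]
    simp only [TS_zero, Finset.sum_const_zero]
    rfl
  rw [this]; rfl

theorem sbd_rho (k : ℕ) (z : Sing X (k + 1) →₀ ℤ) :
    sbd X k (rho 𝒞 (k + 1) z) = rho 𝒞 k (sbd X k z) := by
  rw [rho_succ, map_sub, map_sub, sbd_sbd, sub_zero]
  cases k with
  | zero => rw [DD_zero, map_zero, sub_zero]; rfl
  | succ k => rw [rho_succ, sbd_sbd, map_zero, sub_zero]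

theorem Sd_iter_sbd (k m : ℕ) (z : Sing X (k + 1) →₀ ℤ) :
    sbd X k ((⇑(Sd X (k + 1)))^[m] z) = (⇑(Sd X k))^[m] (sbd X k z) := by
  induction m with
  | zero => rfl
  | succ m ih => rw [Function.iterate_succ_apply', Function.iterate_succ_apply', sbd_Sd, ih]

theorem Sd_iter_sum (k m : ℕ) {ι : Type*} (s : Finset ι) (c : ι → ℤ) (f : ι → (Sing X k →₀ ℤ)) :
    (⇑(Sd X k))^[m] (∑ i ∈ s, c i • f i) = ∑ i ∈ s, c i • (⇑(Sd X k))^[m] (f i) := by
  induction m with
  | zero => rfl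
  | succ m ih =>
    simp only [Function.iterate_succ_apply', ih, map_sum, map_smul]

theorem rho_small (hopen : ∀ C ∈ 𝒞, IsOpen C) (hcov : ∀ x : X, ∃ C ∈ 𝒞, x ∈ C) (k : ℕ)
    (z : Sing X k →₀ ℤ) : rho 𝒞 k z ∈ Finsupp.supported ℤ ℤ (smallSet 𝒞 k) := by
  have hz : z ∈ Finsupp.supported ℤ ℤ (Set.univ : Set (Sing X k)) := by simp
  refine supported_map _ (rho 𝒞 k) _ ?_ z hz
  intro σ _
  cases k with
  | zero =>
    change single σ 1 ∈ _
    apply single_mem_supported'
    obtain ⟨C, hC, hx⟩ := hcov (σ (vert 0 0))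
    refine ⟨C, hC, ?_⟩
    rintro _ ⟨x, rfl⟩
    have : x = vert 0 0 := Subsingleton.elim (α := stdSimplex ℝ (Fin 1)) _ _
    rw [this]
    exact hx
  | succ k =>
    rw [rho_succ, DD_single, map_sum]
    have h1 : ∀ i, sbd X (k + 1) (TS X (k + 1) ((⇑(Sd X (k + 1)))^[i] (single σ 1))) =
        (⇑(Sd X (k + 1)))^[i] (single σ 1) - (⇑(Sd X (k + 1)))^[i + 1] (single σ 1) -
          TS X k ((⇑(Sd X k))^[i] (sbd X k (single σ 1))) := by
      intro i
      have := sbd_TS k ((⇑(Sd X (k + 1)))^[i] (single σ 1))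
      rw [Sd_iter_sbd] at this
      rw [eq_sub_iff_add_eq, this, Function.iterate_succ_apply']
    simp only [h1]
    rw [Finset.sum_sub_distrib, Finset.sum_range_sub']
    have h2 : (single σ 1 : Sing X (k + 1) →₀ ℤ) -
        ((⇑(Sd X (k + 1)))^[0] (single σ 1) - (⇑(Sd X (k + 1)))^[mm 𝒞 σ] (single σ 1) -
          ∑ i ∈ Finset.range (mm 𝒞 σ), TS X k ((⇑(Sd X k))^[i] (sbd X k (single σ 1)))) -
        DD 𝒞 k (sbd X k (single σ 1)) =
        (⇑(Sd X (k + 1)))^[mm 𝒞 σ] (single σ 1) +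
          (∑ i ∈ Finset.range (mm 𝒞 σ), TS X k ((⇑(Sd X k))^[i] (sbd X k (single σ 1))) -
            DD 𝒞 k (sbd X k (single σ 1))) := by
      simp only [Function.iterate_zero, id_eq]
      abel
    rw [h2]
    apply Submodule.add_mem
    · exact good_small_le 𝒞 hopen hcov σ _ le_rfl
    · rw [sbd, bd_single, map_sum]
      simp only [Sd_iter_sum, map_sum, map_smul]
      rw [Finset.sum_comm, ← Finset.sum_sub_distrib]
      apply Submodule.sum_mem
      intro j _
      rw [← Finset.smul_sum, ← smul_sub]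
      apply Submodule.smul_mem
      rw [DD_single]
      have hle := mm_face 𝒞 hopen hcov σ j
      rw [← Finset.sum_Ico_eq_sub _ hle]
      apply Submodule.sum_mem
      intro i hi
      apply TS_small
      apply good_small_le 𝒞 hopen hcov
      exact (Finset.mem_Ico.mp hi).1

theorem rho_id (k : ℕ) (z : Sing X k →₀ ℤ) (hz : z ∈ Finsupp.supported ℤ ℤ (smallSet 𝒞 k)) :
    rho 𝒞 k z = z := by
  have key : ∀ k, ∀ z : Sing X k →₀ ℤ, z ∈ Finsupp.supported ℤ ℤ (smallSet 𝒞 k) → DD 𝒞 k z = 0 := by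
    intro k z hz
    have := supported_map (smallSet 𝒞 k) (DD 𝒞 k) ⊥ (by
      intro σ hσ
      rw [DD_single, mm_small 𝒞 σ hσ]
      simp) z hz
    simpa using this
  cases k with
  | zero => rfl
  | succ k =>
    rw [rho_succ, key _ z hz, map_zero, sub_zero, key _ _ (sbd_small 𝒞 k z hz), sub_zero]

end Singular

section Main

variable {k : Type v} [CommRing k] {X : Type u} [TopologicalSpace X] (𝒞 : Set (Set X))

open Classical in
/-- extension by zero of a small cochain -/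
noncomputable def extz {n : ℕ} (g : Small 𝒞 n → k) : Sing X n → k :=
  fun σ => if h : σ ∈ smallSet 𝒞 n then g ⟨σ, h⟩ else 0

theorem extz_small {n : ℕ} (g : Small 𝒞 n → k) (σ : Sing X n) (h : σ ∈ smallSet 𝒞 n) :
    extz 𝒞 g σ = g ⟨σ, h⟩ := by
  rw [extz, dif_pos h]

/-- evaluation of cochains on chains -/
noncomputable abbrev evc {S : Type u} (f : S → k) : (S →₀ ℤ) →ₗ[ℤ] k := Finsupp.linearCombination ℤ f

theorem evc_congr {S : Type u} (s : Set S) (f g : S → k) (h : ∀ σ ∈ s, f σ = g σ) (z : S →₀ ℤ)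
    (hz : z ∈ Finsupp.supported ℤ ℤ s) : evc f z = evc g z := by
  have := supported_map s (evc f - evc g) ⊥ (by
    intro a ha
    simp only [LinearMap.sub_apply, linearCombination_single, one_smul, h a ha, sub_self]
    exact Submodule.zero_mem _) z hz
  rw [Submodule.mem_bot, LinearMap.sub_apply, sub_eq_zero] at this
  exact this

theorem evc_single {S : Type u} (f : S → k) (σ : S) : evc f (single σ 1) = f σ := by
  simp [evc]

theorem extz_altd {n : ℕ} (g : Small 𝒞 n → k) (σ : Sing X (n + 1)) (h : σ ∈ smallSet 𝒞 (n + 1)) :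
    altd k (sface (X := X)) n (extz 𝒞 g) σ = altd k (smface (𝒞 := 𝒞)) n g ⟨σ, h⟩ := by
  rw [altd_apply, altd_apply]
  refine Finset.sum_congr rfl fun i _ => ?_
  congr 1
  exact extz_small 𝒞 g _ (smface n i ⟨σ, h⟩).2

theorem small_simplices (hopen : ∀ C ∈ 𝒞, IsOpen C) (hcov : ∀ x : X, ∃ C ∈ 𝒞, x ∈ C) (n : ℕ) :
    Nonempty (SingCoh k X n ≃ₗ[k] SmallCoh k 𝒞 n) := by
  classical
  let P : Submodule k ((Sing X n → k) × (Small 𝒞 n → k)) :=
    { carrier := {p | ∀ σ : Small 𝒞 n, p.1 σ.1 = p.2 σ}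
      add_mem' := by
        intro a b ha hb σ
        simp only [Prod.fst_add, Prod.snd_add, Pi.add_apply, ha σ, hb σ]
      zero_mem' := by intro σ; rfl
      smul_mem' := by
        intro c a ha σ
        simp only [Prod.smul_fst, Prod.smul_snd, Pi.smul_apply, ha σ] }
  apply corr _ _ _ _ P
  · intro f hf
    refine ⟨fun σ => f σ.1, ?_, fun σ => rfl⟩
    rw [LinearMap.mem_ker] at hf ⊢
    funext σ
    exact congrFun hf σ.1
  · intro g hg
    rw [LinearMap.mem_ker] at hg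
    refine ⟨fun σ => evc (extz 𝒞 g) (rho 𝒞 n (single σ 1)), ?_, ?_⟩
    · rw [LinearMap.mem_ker]
      funext σ
      rw [altd_eq_ev]
      have h1 : Finsupp.linearCombination ℤ (fun σ => evc (extz 𝒞 g) (rho 𝒞 n (single σ 1))) =
          (evc (extz 𝒞 g)).comp (rho 𝒞 n) := by
        apply Finsupp.lhom_ext'
        intro σ
        apply LinearMap.ext_ring
        simp only [LinearMap.comp_apply, lsingle_apply, linearCombination_single, one_smul]
      rw [h1, LinearMap.comp_apply, ← sbd_rho, ← ev_altd]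
      have h2 := evc_congr (smallSet 𝒞 (n + 1)) (altd k (sface (X := X)) n (extz 𝒞 g)) 0 (by
        intro σ hσ
        rw [extz_altd 𝒞 g σ hσ, hg]
        rfl) _ (rho_small 𝒞 hopen hcov (n + 1) (single σ 1))
      refine h2.trans ?_
      simp [evc]
    · intro σ
      change evc (extz 𝒞 g) (rho 𝒞 n (single σ.1 1)) = g σ
      rw [rho_id 𝒞 n _ (single_mem_supported' σ.2), evc_single]
      exact extz_small 𝒞 g _ σ.2
  · intro f hf g hg hfg
    have hfg' : ∀ σ : Small 𝒞 n, f σ.1 = g σ := hfg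
    rw [LinearMap.mem_ker] at hf hg
    cases n with
    | zero =>
      simp only [cobound, Submodule.mem_bot]
      constructor
      · rintro rfl
        funext σ
        exact (hfg' σ).symm
      · rintro rfl
        funext σ
        obtain ⟨C, hC, hx⟩ := hcov (σ (vert 0 0))
        have hs : σ ∈ smallSet 𝒞 0 := by
          refine ⟨C, hC, ?_⟩
          rintro _ ⟨x, rfl⟩
          have : x = vert 0 0 := Subsingleton.elim (α := stdSimplex ℝ (Fin 1)) _ _
          rw [this]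
          exact hx
        exact hfg' ⟨σ, hs⟩
    | succ n =>
      simp only [cobound, LinearMap.mem_range]
      constructor
      · rintro ⟨h, rfl⟩
        refine ⟨fun σ => h σ.1, ?_⟩
        funext σ
        rw [← hfg' σ]
        rfl
      · rintro ⟨h, rfl⟩
        refine ⟨fun σ => evc (extz 𝒞 h) (rho 𝒞 n (single σ 1)) + evc f (DD 𝒞 n (single σ 1)), ?_⟩
        funext σ
        rw [altd_eq_ev]
        have h1 : Finsupp.linearCombination ℤ
            (fun σ => evc (extz 𝒞 h) (rho 𝒞 n (single σ 1)) + evc f (DD 𝒞 n (single σ 1))) =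
            (evc (extz 𝒞 h)).comp (rho 𝒞 n) + (evc f).comp (DD 𝒞 n) := by
          apply Finsupp.lhom_ext'
          intro σ
          apply LinearMap.ext_ring
          simp only [LinearMap.comp_apply, lsingle_apply, linearCombination_single, one_smul,
            LinearMap.add_apply]
        rw [h1, LinearMap.add_apply, LinearMap.comp_apply, LinearMap.comp_apply]
        -- compute f σ
        have h2 : f σ = evc f (rho 𝒞 (n + 1) (single σ 1)) +
            evc f (sbd X (n + 1) (DD 𝒞 (n + 1) (single σ 1))) +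
            evc f (DD 𝒞 n (sbd X n (single σ 1))) := by
          rw [rho_succ, map_sub, map_sub, evc_single]
          ring
        rw [h2]
        have h3 : evc f (sbd X (n + 1) (DD 𝒞 (n + 1) (single σ 1))) = 0 := by
          rw [← ev_altd, hf]
          simp
        have h4 : evc f (rho 𝒞 (n + 1) (single σ 1)) =
            evc (extz 𝒞 h) (rho 𝒞 n (sbd X n (single σ 1))) := by
          rw [← sbd_rho, ← ev_altd]
          apply evc_congr (smallSet 𝒞 (n + 1)) _ _ _ _ (rho_small 𝒞 hopen hcov (n + 1) _)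
          intro τ hτ
          rw [extz_altd 𝒞 h τ hτ]
          exact hfg' ⟨τ, hτ⟩
        rw [h3, h4, add_zero]

end Main

end Pool.Agent.Helper381
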