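import Pool.Agent.Helper381.LES

/-! Smith inequality for an involution on a finite semisimplicial set. -/

namespace Pool.Agent.Helper381

universe u v w

open Module

theorem finrank_submodule_prod {k : Type u} [Field k] {V W : Type v} [AddCommGroup V] [Module k V]
    [AddCommGroup W] [Module k W] [FiniteDimensional k V] [FiniteDimensional k W]
    (p : Submodule k V) (q : Submodule k W) :
    finrank k (p.prod q) = finrank k p + finrank k q := by
  have h1 : LinearMap.range (p.subtype.prodMap q.subtype) = p.prod q := by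
    rw [LinearMap.range_prodMap, Submodule.range_subtype, Submodule.range_subtype]
  have hinj : Function.Injective (p.subtype.prodMap q.subtype) := by
    intro x y hxy
    apply Prod.ext
    · exact Subtype.ext (congrArg Prod.fst hxy)
    · exact Subtype.ext (congrArg Prod.snd hxy)
  rw [← h1, ← (LinearEquiv.ofInjective _ hinj).finrank_eq, Module.finrank_prod]

section ProdCoh

variable {k : Type u} [Field k]
variable {A : ℕ → Type v} [∀ n, AddCommGroup (A n)] [∀ n, Module k (A n)]
  [∀ n, FiniteDimensional k (A n)] (dA : ∀ n, A n →ₗ[k] A (n + 1))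
variable {B : ℕ → Type v} [∀ n, AddCommGroup (B n)] [∀ n, Module k (B n)]
  [∀ n, FiniteDimensional k (B n)] (dB : ∀ n, B n →ₗ[k] B (n + 1))

theorem finrank_coh_prod (hA : ∀ n x, dA (n + 1) (dA n x) = 0)
    (hB : ∀ n x, dB (n + 1) (dB n x) = 0) (n : ℕ) :
    finrank k (Coh k (fun n => A n × B n) (fun n => (dA n).prodMap (dB n)) n) =
      finrank k (Coh k A dA n) + finrank k (Coh k B dB n) := by
  have hAB : ∀ n (x : A n × B n), (dA (n + 1)).prodMap (dB (n + 1)) ((dA n).prodMap (dB n) x) = 0 := by
    intro n x
    simp [hA, hB]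
  have h1 := finrank_coh dA hA n
  have h2 := finrank_coh dB hB n
  have h3 := finrank_coh (C := fun n => A n × B n) (fun n => (dA n).prodMap (dB n)) hAB n
  have h4 : finrank k (LinearMap.range ((dA n).prodMap (dB n))) =
      finrank k (LinearMap.range (dA n)) + finrank k (LinearMap.range (dB n)) := by
    rw [LinearMap.range_prodMap, finrank_submodule_prod]
  have h5 : rkb (C := fun n => A n × B n) (fun n => (dA n).prodMap (dB n)) n =
      rkb dA n + rkb dB n := by
    cases n with
    | zero => rw [rkb_zero, rkb_zero, rkb_zero]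
    | succ n =>
      rw [rkb_succ, rkb_succ, rkb_succ, LinearMap.range_prodMap, finrank_submodule_prod]
  have h6 : finrank k (A n × B n) = finrank k (A n) + finrank k (B n) := Module.finrank_prod
  have h7 : finrank k (Coh k (fun n => A n × B n) (fun n => (dA n).prodMap (dB n)) n) +
      (finrank k (LinearMap.range (dA n)) + finrank k (LinearMap.range (dB n))) +
      (rkb dA n + rkb dB n) = finrank k (A n) + finrank k (B n) := by
    rw [← h4, ← h5, ← h6]
    exact h3
  omega

end ProdCoh

section Smith

variable {S : ℕ → Type v} (face : ∀ n, Fin (n + 2) → S (n + 1) → S n) [∀ n, Finite (S n)]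
  (γ : ∀ n, S n → S n)
  {F : ℕ → Type v} (faceF : ∀ n, Fin (n + 2) → F (n + 1) → F n) [∀ n, Finite (F n)]
  (ι : ∀ n, F n → S n)

/-- invariant cochains vanishing on fixed simplices -/
def Isub (n : ℕ) : Submodule (ZMod 2) (S n → ZMod 2) where
  carrier := {f | (∀ σ, f (γ n σ) = f σ) ∧ ∀ σ, γ n σ = σ → f σ = 0}
  add_mem' := by
    rintro f g ⟨h1, h2⟩ ⟨h3, h4⟩
    refine ⟨fun σ => ?_, fun σ hσ => ?_⟩
    · simp [h1, h3]
    · simp [h2 σ hσ, h4 σ hσ]
  zero_mem' := ⟨fun _ => rfl, fun _ _ => rfl⟩
  smul_mem' := by
    rintro c f ⟨h1, h2⟩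
    refine ⟨fun σ => ?_, fun σ hσ => ?_⟩
    · simp [h1]
    · simp [h2 σ hσ]

theorem zmod2_neg_one_pow (n : ℕ) : (-1 : ZMod 2) ^ n = 1 := by
  have : (-1 : ZMod 2) = 1 := by decide
  rw [this, one_pow]

theorem zmod2_add_self (x : ZMod 2) : x + x = 0 := by
  revert x; decide

theorem smith_ineq
    (hface : ∀ n (i j : Fin (n + 2)) (σ : S (n + 2)), i ≤ j →
      face n i (face (n + 1) j.succ σ) = face n j (face (n + 1) i.castSucc σ))
    (hfaceF : ∀ n (i j : Fin (n + 2)) (σ : F (n + 2)), i ≤ j →
      faceF n i (faceF (n + 1) j.succ σ) = faceF n j (faceF (n + 1) i.castSucc σ))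
    (hγγ : ∀ n σ, γ n (γ n σ) = σ)
    (hγf : ∀ n i σ, γ n (face n i σ) = face n i (γ (n + 1) σ))
    (hι : ∀ n, Function.Injective (ι n))
    (hιf : ∀ n i x, ι n (faceF n i x) = face n i (ι (n + 1) x))
    (hfix : ∀ n σ, γ n σ = σ ↔ ∃ x, ι n x = σ)
    (N : ℕ) (hN : ∀ n, N ≤ n → IsEmpty (S n)) :
    ∑ n ∈ Finset.range N,
      finrank (ZMod 2) (Coh (ZMod 2) (fun n => F n → ZMod 2) (fun n => altd (ZMod 2) faceF n) n) ≤
    ∑ n ∈ Finset.range N,
      finrank (ZMod 2) (Coh (ZMod 2) (fun n => S n → ZMod 2) (fun n => altd (ZMod 2) face n) n) := by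
  classical
  have : Fact (Nat.Prime 2) := ⟨Nat.prime_two⟩
  -- d preserves Isub
  have hI : ∀ n, ∀ f ∈ Isub γ n, altd (ZMod 2) face n f ∈ Isub γ (n + 1) := by
    rintro n f ⟨h1, h2⟩
    refine ⟨fun σ => ?_, fun σ hσ => ?_⟩
    · rw [altd_apply, altd_apply]
      refine Finset.sum_congr rfl fun i _ => ?_
      rw [← hγf, h1]
    · rw [altd_apply]
      apply Finset.sum_eq_zero
      intro i _
      rw [h2 _ (by rw [hγf, hσ]), mul_zero]
  let dS := fun n => altd (ZMod 2) face n
  let dF := fun n => altd (ZMod 2) faceF n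
  let dI : ∀ n, Isub γ n →ₗ[ZMod 2] Isub γ (n + 1) := fun n => (dS n).restrict (hI n)
  have hdS : ∀ n x, dS (n + 1) (dS n x) = 0 := fun n x => altd_altd face hface n x
  have hdF : ∀ n x, dF (n + 1) (dF n x) = 0 := fun n x => altd_altd faceF hfaceF n x
  have hdI : ∀ n x, dI (n + 1) (dI n x) = 0 := by
    intro n x
    apply Subtype.ext
    exact hdS n x.1
  -- sum map
  let sm : ∀ n, (S n → ZMod 2) →ₗ[ZMod 2] Isub γ n := fun n =>
    { toFun := fun f => ⟨fun σ => f σ + f (γ n σ), by
        refine ⟨fun σ => ?_, fun σ hσ => ?_⟩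
        · change f (γ n σ) + f (γ n (γ n σ)) = f σ + f (γ n σ)
          rw [hγγ, add_comm]
        · change f σ + f (γ n σ) = 0
          rw [hσ, zmod2_add_self]⟩
      map_add' := by
        intro f g
        apply Subtype.ext
        funext σ
        change f σ + g σ + (f (γ n σ) + g (γ n σ)) = f σ + f (γ n σ) + (g σ + g (γ n σ))
        ring
      map_smul' := by
        intro c f
        apply Subtype.ext
        funext σ
        change c * f σ + c * f (γ n σ) = c * (f σ + f (γ n σ))
        ring }
  let rs : ∀ n, (S n → ZMod 2) →ₗ[ZMod 2] (F n → ZMod 2) := fun n =>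
    { toFun := fun f x => f (ι n x)
      map_add' := fun _ _ => rfl
      map_smul' := fun _ _ => rfl }
  have les : ∀ n, finrank (ZMod 2) (Coh (ZMod 2) (fun n => Isub γ n × (F n → ZMod 2))
      (fun n => (dI n).prodMap (dF n)) n) ≤
      finrank (ZMod 2) (Coh (ZMod 2) (fun n => S n → ZMod 2) dS n) +
      finrank (ZMod 2) (Coh (ZMod 2) (fun n => Isub γ n) dI (n + 1)) := by
    intro n
    apply les_ineq dI dS (fun n => (dI n).prodMap (dF n)) (fun n => (Isub γ n).subtype)
      (fun n => (sm n).prod (rs n))
    · intro n; exact Subtype.val_injective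
    · -- surjective
      rintro n ⟨⟨g, hg1, hg2⟩, h⟩
      have := Fintype.ofFinite (S n)
      let e := Fintype.equivFin (S n)
      have hfx : ∀ σ, γ n σ = σ → ∃ x, ι n x = σ := fun σ => (hfix n σ).mp
      let f : S n → ZMod 2 := fun σ =>
        if hσ : γ n σ = σ then h (hfx σ hσ).choose
        else if e σ < e (γ n σ) then g σ else 0
      have hf1 : ∀ x, f (ι n x) = h x := by
        intro x
        have hσ : γ n (ι n x) = ι n x := (hfix n _).mpr ⟨x, rfl⟩
        have : f (ι n x) = h (hfx _ hσ).choose := dif_pos hσ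
        rw [this]
        congr 1
        exact hι n (hfx _ hσ).choose_spec
      refine ⟨f, ?_⟩
      apply Prod.ext
      · apply Subtype.ext
        funext σ
        change f σ + f (γ n σ) = g σ
        by_cases hσ : γ n σ = σ
        · rw [hσ, zmod2_add_self]
          exact (hg2 σ hσ).symm
        · have hσ' : ¬ γ n (γ n σ) = γ n σ := by
            intro h'
            rw [hγγ] at h'
            exact hσ h'.symm
          have e1 : f σ = if e σ < e (γ n σ) then g σ else 0 := dif_neg hσ
          have e2 : f (γ n σ) = if e (γ n σ) < e (γ n (γ n σ)) then g (γ n σ) else 0 := dif_neg hσ'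
          rw [e1, e2, hγγ]
          rcases lt_trichotomy (e σ) (e (γ n σ)) with hlt | heq | hgt
          · rw [if_pos hlt, if_neg (not_lt.mpr hlt.le), add_zero]
          · exact absurd (e.injective heq).symm hσ
          · rw [if_neg (not_lt.mpr hgt.le), if_pos hgt, zero_add]
            exact hg1 σ
      · funext x
        exact hf1 x
    · -- kernel
      intro n f hf
      have h1 : ∀ σ, f σ + f (γ n σ) = 0 := by
        intro σ
        have := congrArg (fun p : Isub γ n × (F n → ZMod 2) => p.1.1 σ) hf
        exact this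
      have h2 : ∀ x, f (ι n x) = 0 := by
        intro x
        have := congrArg (fun p : Isub γ n × (F n → ZMod 2) => p.2 x) hf
        exact this
      refine ⟨⟨f, ?_, ?_⟩, rfl⟩
      · intro σ
        have := h1 σ
        have h3 := zmod2_add_self (f σ)
        rw [← h3] at this
        exact add_left_cancel this
      · intro σ hσ
        obtain ⟨x, rfl⟩ := (hfix n σ).mp hσ
        exact h2 x
    · -- β α = 0
      rintro n ⟨f, hf1, hf2⟩
      apply Prod.ext
      · apply Subtype.ext
        funext σ
        change f σ + f (γ n σ) = 0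
        rw [hf1, zmod2_add_self]
      · funext x
        exact hf2 _ ((hfix n _).mpr ⟨x, rfl⟩)
    · -- α commutes
      intro n a
      rfl
    · -- β commutes
      intro n f
      apply Prod.ext
      · apply Subtype.ext
        funext σ
        change altd (ZMod 2) face n (fun σ => f σ + f (γ n σ)) σ =
          altd (ZMod 2) face n f σ + altd (ZMod 2) face n f (γ (n + 1) σ)
        rw [altd_apply, altd_apply, altd_apply, ← Finset.sum_add_distrib]
        refine Finset.sum_congr rfl fun i _ => ?_
        rw [hγf]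
        ring
      · funext x
        change altd (ZMod 2) faceF n (fun x => f (ι n x)) x = altd (ZMod 2) face n f (ι (n + 1) x)
        rw [altd_apply, altd_apply]
        refine Finset.sum_congr rfl fun i _ => ?_
        rw [hιf]
    · exact hdS
  have key : ∀ n, finrank (ZMod 2) (Coh (ZMod 2) (fun n => F n → ZMod 2) dF n) +
      finrank (ZMod 2) (Coh (ZMod 2) (fun n => Isub γ n) dI n) ≤
      finrank (ZMod 2) (Coh (ZMod 2) (fun n => S n → ZMod 2) dS n) +
      finrank (ZMod 2) (Coh (ZMod 2) (fun n => Isub γ n) dI (n + 1)) := by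
    intro n
    have h1 := les n
    rw [finrank_coh_prod dI dF hdI hdF] at h1
    omega
  have hsum : ∀ M : ℕ, ∑ n ∈ Finset.range M,
      finrank (ZMod 2) (Coh (ZMod 2) (fun n => F n → ZMod 2) dF n) +
      finrank (ZMod 2) (Coh (ZMod 2) (fun n => Isub γ n) dI 0) ≤
      ∑ n ∈ Finset.range M, finrank (ZMod 2) (Coh (ZMod 2) (fun n => S n → ZMod 2) dS n) +
      finrank (ZMod 2) (Coh (ZMod 2) (fun n => Isub γ n) dI M) := by
    intro M
    induction M with
    | zero => simp
    | succ M ih =>
      rw [Finset.sum_range_succ, Finset.sum_range_succ]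
      have := key M
      omega
  have h0 : finrank (ZMod 2) (Coh (ZMod 2) (fun n => Isub γ n) dI N) = 0 := by
    apply finrank_coh_top
    have := hN N le_rfl
    have : Subsingleton (Isub γ N) := by
      constructor
      intro a b
      apply Subtype.ext
      funext σ
      exact (IsEmpty.false σ).elim
    exact Module.finrank_zero_of_subsingleton
  have h9 := hsum N
  rw [h0, add_zero] at h9
  exact (Nat.le_add_right _ _).trans h9

end Smith

end Pool.Agent.Helper381
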