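import Mathlib

/-! The tensor product of inner product spaces, wrapped. -/

namespace Pool.Agent.Helper381

open TensorProduct
open scoped ContDiff RealInnerProductSpace

universe u v w

/-- tensor product of inner product spaces -/
def T (A : Type u) (B : Type v) [NormedAddCommGroup A] [NormedAddCommGroup B]
    [InnerProductSpace ℝ A] [InnerProductSpace ℝ B] : Type (max u v) := A ⊗[ℝ] B

namespace T

variable {A : Type u} {B : Type v} [NormedAddCommGroup A] [NormedAddCommGroup B]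
    [InnerProductSpace ℝ A] [InnerProductSpace ℝ B]

noncomputable instance : NormedAddCommGroup (T A B) :=
  inferInstanceAs (NormedAddCommGroup (A ⊗[ℝ] B))

noncomputable instance : InnerProductSpace ℝ (T A B) :=
  inferInstanceAs (InnerProductSpace ℝ (A ⊗[ℝ] B))

/-- bilinear map -/
noncomputable def L : A →L[ℝ] B →L[ℝ] T A B := TensorProduct.mkL ℝ A B

/-- pure tensor -/
noncomputable def tm (a : A) (b : B) : T A B := L a b

theorem tm_eq (a : A) (b : B) : (tm a b : T A B) = (a ⊗ₜ[ℝ] b : A ⊗[ℝ] B) := rfl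

theorem inner_tm (a a' : A) (b b' : B) : ⟪tm a b, tm a' b'⟫ = ⟪a, a'⟫ * ⟪b, b'⟫ :=
  TensorProduct.inner_tmul (𝕜 := ℝ) a a' b b'

theorem norm_tm (a : A) (b : B) : ‖tm a b‖ = ‖a‖ * ‖b‖ := TensorProduct.norm_tmul (𝕜 := ℝ) a b

theorem tm_smul (c c' : ℝ) (a : A) (b : B) : tm (c • a) (c' • b) = (c * c') • tm a b := by
  rw [mul_comm]
  simp only [tm, map_smul, _root_.smul_apply, smul_smul]

theorem tm_neg (a : A) (b : B) : tm (-a) b = -tm a b := by
  simp only [tm, map_neg, _root_.neg_apply]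

theorem contDiff_tm {F : Type*} [NormedAddCommGroup F] [NormedSpace ℝ F] {f : F → A} {g : F → B}
    (hf : ContDiff ℝ ∞ f) (hg : ContDiff ℝ ∞ g) : ContDiff ℝ ∞ (fun u => tm (f u) (g u)) := by
  have h0 : ContDiff ℝ ∞ (fun u => (L (f u) : B →L[ℝ] T A B)) := L.contDiff.comp hf
  exact h0.clm_apply hg

/-- tensor product of isometries -/
noncomputable def cg (f : A ≃ₗᵢ[ℝ] A) (g : B ≃ₗᵢ[ℝ] B) : T A B ≃ₗᵢ[ℝ] T A B :=
  (TensorProduct.congrIsometry f g : A ⊗[ℝ] B ≃ₗᵢ[ℝ] A ⊗[ℝ] B)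

theorem cg_tm (f : A ≃ₗᵢ[ℝ] A) (g : B ≃ₗᵢ[ℝ] B) (a : A) (b : B) :
    cg f g (tm a b) = tm (f a) (g b) := by
  have h := TensorProduct.congrIsometry_apply (𝕜 := ℝ) f g (a ⊗ₜ[ℝ] b)
  rw [TensorProduct.congr_tmul] at h
  exact h

theorem cg_symm (f : A ≃ₗᵢ[ℝ] A) (g : B ≃ₗᵢ[ℝ] B) : (cg f g).symm = cg f.symm g.symm :=
  TensorProduct.congrIsometry_symm (𝕜 := ℝ) f g

end T

end Pool.Agent.Helper381
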