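import Pool.Agent.Helper381.EmbDist
import Pool.Agent.Helper381.TenBase

/-! The counterexample: unit decomposable tensors in `ℝ² ⊗ ℝ³ ⊗ ℝ³`. -/

namespace Pool.Agent.Helper381

namespace Ten

open Set Manifold Bundle Bornology MeasureTheory
open scoped ContDiff Topology ENNReal RealInnerProductSpace

abbrev P := EuclideanSpace ℝ (Fin 2)
abbrev Q := EuclideanSpace ℝ (Fin 3)
abbrev W := T P (T Q Q)
abbrev EE := EuclideanSpace ℝ (Fin 5)

/-- decomposable tensor -/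
noncomputable def t (z : P) (x y : Q) : W := T.tm z (T.tm x y)

theorem inner_t (z z' : P) (x x' y y' : Q) :
    ⟪t z x y, t z' x' y'⟫ = ⟪z, z'⟫ * (⟪x, x'⟫ * ⟪y, y'⟫) := by
  simp only [t, T.inner_tm]

theorem norm_t (z : P) (x y : Q) : ‖t z x y‖ = ‖z‖ * (‖x‖ * ‖y‖) := by
  simp only [t, T.norm_tm]

theorem t_smul (a b c : ℝ) (z : P) (x y : Q) :
    t (a • z) (b • x) (c • y) = (a * (b * c)) • t z x y := by
  simp only [t, T.tm_smul]

theorem contDiff_t {F : Type*} [NormedAddCommGroup F] [NormedSpace ℝ F] {f : F → P} {g h : F → Q}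
    (hf : ContDiff ℝ ∞ f) (hg : ContDiff ℝ ∞ g) (hh : ContDiff ℝ ∞ h) :
    ContDiff ℝ ∞ (fun u => t (f u) (g u) (h u)) := by
  exact T.contDiff_tm hf (T.contDiff_tm hg hh)

theorem continuous_t : Continuous (fun p : P × Q × Q => t p.1 p.2.1 p.2.2) :=
  (contDiff_t (F := P × Q × Q) contDiff_fst (contDiff_fst.comp contDiff_snd)
    (contDiff_snd.comp contDiff_snd)).continuous

/-- basis vectors -/
noncomputable def e {n : ℕ} (i : Fin n) : EuclideanSpace ℝ (Fin n) := EuclideanSpace.single i 1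

theorem inner_e {n : ℕ} (i : Fin n) (v : EuclideanSpace ℝ (Fin n)) : ⟪e i, v⟫ = v i := by
  simp [e, EuclideanSpace.inner_single_left]

theorem norm_e {n : ℕ} (i : Fin n) : ‖(e i : EuclideanSpace ℝ (Fin n))‖ = 1 := by
  simp [e]

theorem inner_eee (i : Fin 2) (j k : Fin 3) (z : P) (x y : Q) :
    ⟪t (e i) (e j) (e k), t z x y⟫ = z i * (x j * y k) := by
  rw [inner_t, inner_e, inner_e, inner_e]

/-- the manifold -/
def M : Set W := {v | ∃ z x y, ‖z‖ = 1 ∧ ‖x‖ = 1 ∧ ‖y‖ = 1 ∧ v = t z x y}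

/-- coordinate functionals -/
noncomputable def co (i : Fin 2) (j k : Fin 3) (v : W) : ℝ := ⟪t (e i) (e j) (e k), v⟫

theorem co_t (i : Fin 2) (j k : Fin 3) (z : P) (x y : Q) :
    co i j k (t z x y) = z i * (x j * y k) := inner_eee i j k z x y

theorem co_smul (i : Fin 2) (j k : Fin 3) (c : ℝ) (v : W) : co i j k (c • v) = c * co i j k v := by
  exact real_inner_smul_right _ _ _

theorem contDiff_co (i : Fin 2) (j k : Fin 3) : ContDiff ℝ ∞ (co i j k) :=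
  (innerSL ℝ (t (e i) (e j) (e k))).contDiff

/-- chart -/
noncomputable def Φ (v : W) : EE :=
  !₂[co 1 0 0 v / co 0 0 0 v, co 0 1 0 v / co 0 0 0 v, co 0 2 0 v / co 0 0 0 v,
    co 0 0 1 v / co 0 0 0 v, co 0 0 2 v / co 0 0 0 v]

noncomputable def fz (u : EE) : P := e 0 + u 0 • e 1
noncomputable def fx (u : EE) : Q := e 0 + (u 1 • e 1 + u 2 • e 2)
noncomputable def fy (u : EE) : Q := e 0 + (u 3 • e 1 + u 4 • e 2)

/-- parametrization -/
noncomputable def ψ (u : EE) : W :=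
  (‖fz u‖ * (‖fx u‖ * ‖fy u‖))⁻¹ • t (fz u) (fx u) (fy u)

theorem e_ne {n : ℕ} {i j : Fin n} (h : i ≠ j) : (e i : EuclideanSpace ℝ (Fin n)) j = 0 := by
  simp [e, h.symm]

theorem e_same {n : ℕ} (i : Fin n) : (e i : EuclideanSpace ℝ (Fin n)) i = 1 := by
  simp [e]

theorem fz0 (u : EE) : fz u 0 = 1 := by simp [fz, e]
theorem fz1 (u : EE) : fz u 1 = u 0 := by simp [fz, e]
theorem fx0 (u : EE) : fx u 0 = 1 := by simp [fx, e]
theorem fx1 (u : EE) : fx u 1 = u 1 := by simp [fx, e]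
theorem fx2 (u : EE) : fx u 2 = u 2 := by simp [fx, e]
theorem fy0 (u : EE) : fy u 0 = 1 := by simp [fy, e]
theorem fy1 (u : EE) : fy u 1 = u 3 := by simp [fy, e]
theorem fy2 (u : EE) : fy u 2 = u 4 := by simp [fy, e]

theorem fz_ne (u : EE) : fz u ≠ 0 := by
  intro h
  have := fz0 u
  rw [h] at this
  simp at this

theorem fx_ne (u : EE) : fx u ≠ 0 := by
  intro h
  have := fx0 u
  rw [h] at this
  simp at this

theorem fy_ne (u : EE) : fy u ≠ 0 := by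
  intro h
  have := fy0 u
  rw [h] at this
  simp at this

theorem cpos (u : EE) : 0 < (‖fz u‖ * (‖fx u‖ * ‖fy u‖))⁻¹ := by
  have := norm_pos_iff.mpr (fz_ne u)
  have := norm_pos_iff.mpr (fx_ne u)
  have := norm_pos_iff.mpr (fy_ne u)
  positivity

theorem ψ_mem (u : EE) : ψ u ∈ M := by
  have h1 := norm_pos_iff.mpr (fz_ne u)
  have h2 := norm_pos_iff.mpr (fx_ne u)
  have h3 := norm_pos_iff.mpr (fy_ne u)
  refine ⟨‖fz u‖⁻¹ • fz u, ‖fx u‖⁻¹ • fx u, ‖fy u‖⁻¹ • fy u, ?_, ?_, ?_, ?_⟩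
  · rw [norm_smul, norm_inv, norm_norm, inv_mul_cancel₀ h1.ne']
  · rw [norm_smul, norm_inv, norm_norm, inv_mul_cancel₀ h2.ne']
  · rw [norm_smul, norm_inv, norm_norm, inv_mul_cancel₀ h3.ne']
  · rw [t_smul, ψ, mul_inv, mul_inv]

theorem ψ_O (u : EE) : 0 < co 0 0 0 (ψ u) := by
  rw [ψ, co_smul, co_t, fz0, fx0, fy0]
  simpa using cpos u

theorem Φ_ψ (u : EE) : Φ (ψ u) = u := by
  have hc := (cpos u).ne'
  have h0 : ∀ c : ℝ, c ≠ 0 → ∀ a, c * a / c = a := fun c hc a => by field_simp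
  rw [Φ]
  ext i
  fin_cases i <;>
  simp only [ψ, co_smul, co_t, fz0, fx0, fy0, fz1, fx1, fx2, fy1, fy2, mul_one, one_mul, h0 _ hc] <;>
  rfl

theorem eq_fz (z : P) (hz : z 0 ≠ 0) (u : EE) (hu : u 0 = z 1 / z 0) : fz u = (z 0)⁻¹ • z := by
  ext i
  fin_cases i
  · change fz u 0 = (z 0)⁻¹ * z 0
    rw [fz0, inv_mul_cancel₀ hz]
  · change fz u 1 = (z 0)⁻¹ * z 1
    rw [fz1, hu]; ring

theorem eq_fx (x : Q) (hx : x 0 ≠ 0) (u : EE) (hu : u 1 = x 1 / x 0) (hu2 : u 2 = x 2 / x 0) :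
    fx u = (x 0)⁻¹ • x := by
  ext i
  fin_cases i
  · change fx u 0 = (x 0)⁻¹ * x 0
    rw [fx0, inv_mul_cancel₀ hx]
  · change fx u 1 = (x 0)⁻¹ * x 1
    rw [fx1, hu]; ring
  · change fx u 2 = (x 0)⁻¹ * x 2
    rw [fx2, hu2]; ring

theorem eq_fy (x : Q) (hx : x 0 ≠ 0) (u : EE) (hu : u 3 = x 1 / x 0) (hu2 : u 4 = x 2 / x 0) :
    fy u = (x 0)⁻¹ • x := by
  ext i
  fin_cases i
  · change fy u 0 = (x 0)⁻¹ * x 0
    rw [fy0, inv_mul_cancel₀ hx]
  · change fy u 1 = (x 0)⁻¹ * x 1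
    rw [fy1, hu]; ring
  · change fy u 2 = (x 0)⁻¹ * x 2
    rw [fy2, hu2]; ring

theorem ψ_Φ (v : W) (hv : v ∈ M) (hv0 : 0 < co 0 0 0 v) : ψ (Φ v) = v := by
  obtain ⟨z, x, y, hz, hx, hy, rfl⟩ := hv
  rw [co_t] at hv0
  have hz0 : z 0 ≠ 0 := fun h => by simp [h] at hv0
  have hx0 : x 0 ≠ 0 := fun h => by simp [h] at hv0
  have hy0 : y 0 ≠ 0 := fun h => by simp [h] at hv0
  have e1 : fz (Φ (t z x y)) = (z 0)⁻¹ • z := by
    apply eq_fz z hz0
    change co 1 0 0 (t z x y) / co 0 0 0 (t z x y) = _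
    rw [co_t, co_t]
    field_simp
  have e2 : fx (Φ (t z x y)) = (x 0)⁻¹ • x := by
    apply eq_fx x hx0
    · change co 0 1 0 (t z x y) / co 0 0 0 (t z x y) = _
      rw [co_t, co_t]
      field_simp
    · change co 0 2 0 (t z x y) / co 0 0 0 (t z x y) = _
      rw [co_t, co_t]
      field_simp
  have e3 : fy (Φ (t z x y)) = (y 0)⁻¹ • y := by
    apply eq_fy y hy0
    · change co 0 0 1 (t z x y) / co 0 0 0 (t z x y) = _
      rw [co_t, co_t]
      field_simp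
    · change co 0 0 2 (t z x y) / co 0 0 0 (t z x y) = _
      rw [co_t, co_t]
      field_simp
  rw [ψ, e1, e2, e3, t_smul, smul_smul, norm_smul, norm_smul, norm_smul, hz, hx, hy, mul_one,
    mul_one, mul_one, ← norm_mul, ← norm_mul, ← mul_inv, ← mul_inv, Real.norm_eq_abs,
    abs_of_pos (inv_pos.mpr hv0), inv_inv, mul_inv_cancel₀ hv0.ne', one_smul]

theorem smoothΦ : ContDiffOn ℝ ∞ Φ {v | 0 < co 0 0 0 v} := by
  rw [contDiffOn_euclidean]
  have h : ∀ i j k, ContDiffOn ℝ ∞ (fun v => co i j k v / co 0 0 0 v) {v | 0 < co 0 0 0 v} := by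
    intro i j k
    apply (contDiff_co i j k).contDiffOn.div (contDiff_co 0 0 0).contDiffOn
    intro v hv
    exact ne_of_gt hv
  intro i
  fin_cases i
  · exact h 1 0 0
  · exact h 0 1 0
  · exact h 0 2 0
  · exact h 0 0 1
  · exact h 0 0 2

theorem contDiff_coord (i : Fin 5) : ContDiff ℝ ∞ (fun u : EE => u i) :=
  (EuclideanSpace.proj (𝕜 := ℝ) i : EE →L[ℝ] ℝ).contDiff

theorem contDiff_fz : ContDiff ℝ ∞ fz :=
  contDiff_const.add ((contDiff_coord 0).smul contDiff_const)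

theorem contDiff_fx : ContDiff ℝ ∞ fx :=
  contDiff_const.add (((contDiff_coord 1).smul contDiff_const).add
    ((contDiff_coord 2).smul contDiff_const))

theorem contDiff_fy : ContDiff ℝ ∞ fy :=
  contDiff_const.add (((contDiff_coord 3).smul contDiff_const).add
    ((contDiff_coord 4).smul contDiff_const))

theorem smoothψ : ContDiffOn ℝ ∞ ψ univ := by
  rw [contDiffOn_univ]
  change ContDiff ℝ ∞ ((fun u => (‖fz u‖ * (‖fx u‖ * ‖fy u‖))⁻¹) •
    (fun u => t (fz u) (fx u) (fy u)))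
  apply ContDiff.smul
  · apply ContDiff.inv
    · exact (contDiff_fz.norm ℝ fz_ne).mul ((contDiff_fx.norm ℝ fx_ne).mul (contDiff_fy.norm ℝ fy_ne))
    · intro u
      have := cpos u
      intro h
      rw [h] at this
      simp at this
  · exact contDiff_t contDiff_fz contDiff_fx contDiff_fy

theorem neg_mem {v : W} (hv : v ∈ M) : -v ∈ M := by
  obtain ⟨z, x, y, hz, hx, hy, rfl⟩ := hv
  refine ⟨-z, x, y, by rwa [norm_neg], hx, hy, ?_⟩
  simp only [t, T.tm_neg]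

/-- tensor product of isometries -/
noncomputable def kt (A : P ≃ₗᵢ[ℝ] P) (B C : Q ≃ₗᵢ[ℝ] Q) : W ≃ₗᵢ[ℝ] W :=
  T.cg A (T.cg B C)

theorem kt_t (A : P ≃ₗᵢ[ℝ] P) (B C : Q ≃ₗᵢ[ℝ] Q) (z : P) (x y : Q) :
    kt A B C (t z x y) = t (A z) (B x) (C y) := by
  simp only [kt, t, T.cg_tm]

theorem kt_symm (A : P ≃ₗᵢ[ℝ] P) (B C : Q ≃ₗᵢ[ℝ] Q) : (kt A B C).symm = kt A.symm B.symm C.symm := by
  rw [kt, T.cg_symm, T.cg_symm]; rfl

theorem kt_mem (A : P ≃ₗᵢ[ℝ] P) (B C : Q ≃ₗᵢ[ℝ] Q) {v : W} (hv : v ∈ M) : kt A B C v ∈ M := by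
  obtain ⟨z, x, y, hz, hx, hy, rfl⟩ := hv
  exact ⟨A z, B x, C y, by rwa [A.norm_map], by rwa [B.norm_map], by rwa [C.norm_map], kt_t ..⟩

theorem kt_pres (A : P ≃ₗᵢ[ℝ] P) (B C : Q ≃ₗᵢ[ℝ] Q) (v : W) : v ∈ M ↔ kt A B C v ∈ M := by
  constructor
  · exact kt_mem A B C
  · intro h
    have h2 := kt_mem A.symm B.symm C.symm h
    rw [← kt_symm, LinearIsometryEquiv.symm_apply_apply] at h2
    exact h2

theorem trans {F : Type*} [NormedAddCommGroup F] [InnerProductSpace ℝ F] [CompleteSpace F]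
    (a b : F) (ha : ‖a‖ = 1) (hb : ‖b‖ = 1) : ∃ A : F ≃ₗᵢ[ℝ] F, A a = b :=
  ⟨_, Submodule.reflection_sub (v := a) (w := b) (by rw [ha, hb])⟩

/-- the data -/
noncomputable def d : Emb W EE where
  M := M
  v₀ := t (e 0) (e 0) (e 0)
  O := {v | 0 < co 0 0 0 v}
  U := univ
  Φ := Φ
  ψ := ψ
  v₀M := ⟨e 0, e 0, e 0, norm_e 0, norm_e 0, norm_e 0, rfl⟩
  v₀O := by
    change 0 < co 0 0 0 (t (e 0) (e 0) (e 0))
    rw [co_t, e_same, e_same]
    norm_num
  openO := isOpen_lt continuous_const (contDiff_co 0 0 0).continuous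
  openU := isOpen_univ
  smΦ := smoothΦ
  smψ := smoothψ
  Φmem _ _ _ := trivial
  ψM u _ := ψ_mem u
  ψO u _ := ψ_O u
  Φψ u _ := Φ_ψ u
  ψΦ v hv hv0 := ψ_Φ v hv hv0
  trans := by
    rintro v ⟨z, x, y, hz, hx, hy, rfl⟩
    obtain ⟨A, hA⟩ := trans (e 0) z (norm_e 0) hz
    obtain ⟨B, hB⟩ := trans (e 0) x (norm_e 0) hx
    obtain ⟨C, hC⟩ := trans (e 0) y (norm_e 0) hy
    exact ⟨kt A B C, kt_pres A B C, by rw [kt_t, hA, hB, hC]⟩

theorem M_eq : M = (fun p : P × Q × Q => t p.1 p.2.1 p.2.2) ''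
    (Metric.sphere 0 1 ×ˢ (Metric.sphere 0 1 ×ˢ Metric.sphere 0 1)) := by
  ext v
  constructor
  · rintro ⟨z, x, y, hz, hx, hy, rfl⟩
    exact ⟨(z, x, y), ⟨by simpa using hz, by simpa using hx, by simpa using hy⟩, rfl⟩
  · rintro ⟨⟨z, x, y⟩, ⟨hz, hx, hy⟩, rfl⟩
    exact ⟨z, x, y, by simpa using hz, by simpa using hx, by simpa using hy, rfl⟩

theorem compact_M : IsCompact M := by
  rw [M_eq]
  exact ((isCompact_sphere _ _).prod ((isCompact_sphere _ _).prod (isCompact_sphere _ _))).image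
    continuous_t

theorem connected_M : IsConnected M := by
  rw [M_eq]
  have h2 : 1 < Module.rank ℝ P := by
    rw [← Module.finrank_eq_rank, finrank_euclideanSpace_fin]; norm_num
  have h3 : 1 < Module.rank ℝ Q := by
    rw [← Module.finrank_eq_rank, finrank_euclideanSpace_fin]; norm_num
  exact ((isConnected_sphere h2 _ zero_le_one).prod ((isConnected_sphere h3 _ zero_le_one).prod
    (isConnected_sphere h3 _ zero_le_one))).image _ continuous_t.continuousOn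

instance : CompactSpace d.X := isCompact_iff_compactSpace.mp compact_M

instance : ConnectedSpace d.X := isConnected_iff_connectedSpace.mp connected_M

end Ten

end Pool.Agent.Helper381
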