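import Pool.Agent.Helper381.TenSym

/-! The counterexample has total mod 2 Betti number at least ten. -/

namespace Pool.Agent.Helper381

namespace Ten

open Set
open scoped RealInnerProductSpace Topology

/-- sign change of the coordinates `i` with `b i = true` -/
noncomputable def D {n : ℕ} (b : Fin n → Bool) :
    EuclideanSpace ℝ (Fin n) ≃ₗᵢ[ℝ] EuclideanSpace ℝ (Fin n) :=
  LinearIsometryEquiv.piLpCongrRight 2 (fun i =>
    if b i then LinearIsometryEquiv.neg ℝ else LinearIsometryEquiv.refl ℝ ℝ)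

/-- sign of a boolean -/
def sg (b : Bool) : ℝ := if b then -1 else 1

theorem sg_xor (a b : Bool) : sg (xor a b) = sg a * sg b := by
  cases a <;> cases b <;> simp [sg]

theorem D_apply {n : ℕ} (b : Fin n → Bool) (v : EuclideanSpace ℝ (Fin n)) (i : Fin n) :
    D b v i = sg (b i) * v i := by
  rw [D, LinearIsometryEquiv.piLpCongrRight_apply]
  change (if b i then LinearIsometryEquiv.neg ℝ else LinearIsometryEquiv.refl ℝ ℝ) (v i) = _
  cases h : b i
  · simp [sg]
  · simp [sg]

theorem D_D {n : ℕ} (b : Fin n → Bool) (v : EuclideanSpace ℝ (Fin n)) : D b (D b v) = v := by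
  ext i
  rw [D_apply, D_apply, ← mul_assoc, ← sg_xor, Bool.xor_self]
  simp [sg]

theorem D_comm {n : ℕ} (b c : Fin n → Bool) (v : EuclideanSpace ℝ (Fin n)) :
    D b (D c v) = D c (D b v) := by
  ext i
  rw [D_apply, D_apply, D_apply, D_apply]
  ring

theorem D_e {n : ℕ} (b : Fin n → Bool) (j : Fin n) : D b (e j) = sg (b j) • e j := by
  ext i
  rw [D_apply]
  change sg (b i) * (e j : EuclideanSpace ℝ (Fin n)) i = sg (b j) * (e j : EuclideanSpace ℝ (Fin n)) i
  by_cases h : j = i
  · rw [h]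
  · rw [e_ne h]; ring

/-- the isometry of the manifold given by sign changes -/
noncomputable def gD (a : Fin 2 → Bool) (b c : Fin 3 → Bool) : d.X ≃ᵢ d.X :=
  d.iso (kt (D a) (D b) (D c)) (kp _ _ _)

theorem incl_gD (a : Fin 2 → Bool) (b c : Fin 3 → Bool) (q : d.X) :
    d.incl (gD a b c q) = kt (D a) (D b) (D c) (d.incl q) := rfl

theorem gD_gD (a : Fin 2 → Bool) (b c : Fin 3 → Bool) (q : d.X) : gD a b c (gD a b c q) = q := by
  apply d.incl_inj
  rw [incl_gD, incl_gD, incl_eq, kt_t, kt_t, D_D, D_D, D_D]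

theorem gD_comm (a a' : Fin 2 → Bool) (b b' c c' : Fin 3 → Bool) (q : d.X) :
    gD a b c (gD a' b' c' q) = gD a' b' c' (gD a b c q) := by
  apply d.incl_inj
  rw [incl_gD, incl_gD, incl_gD, incl_gD, incl_eq, kt_t, kt_t, kt_t, kt_t, D_comm, D_comm b,
    D_comm c]

/-- coordinates with non-trivial sign vanish at fixed points -/
theorem coord_zero (a : Fin 2 → Bool) (b c : Fin 3 → Bool) (q : d.X) (h : gD a b c q = q)
    (i : Fin 2) (j k : Fin 3) (hs : xor (a i) (xor (b j) (c k)) = true) :
    zz q i * (xx q j * yy q k) = 0 := by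
  have h1 : d.incl (gD a b c q) = d.incl q := by rw [h]
  rw [incl_gD, incl_eq, kt_t] at h1
  have h2 := congrArg (fun v => ⟪t (e i) (e j) (e k), v⟫) h1
  simp only [inner_eee, D_apply] at h2
  have h3 : sg (a i) * (sg (b j) * sg (c k)) = -1 := by
    rw [← sg_xor, ← sg_xor, hs]; simp [sg]
  have h4 : (sg (a i) * (sg (b j) * sg (c k))) * (zz q i * (xx q j * yy q k)) =
      zz q i * (xx q j * yy q k) := by
    linear_combination h2
  rw [h3] at h4
  linarith

/-- signs -/
def a1 : Fin 2 → Bool := ![false, true]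
def b1 : Fin 3 → Bool := ![false, true, false]
def a2 : Fin 2 → Bool := ![false, false]
def b2 : Fin 3 → Bool := ![false, false, true]

/-- the two involutions -/
noncomputable def gs : List (d.X ≃ᵢ d.X) := [gD a1 b1 b1, gD a2 b2 b2]

/-- weights of the fixed points -/
def wt : Fin 5 → Fin 2 × Fin 3 × Fin 3 := ![(0, 0, 0), (0, 1, 1), (0, 2, 2), (1, 0, 1), (1, 1, 0)]

/-- the ten fixed points -/
noncomputable def pts (w : Fin 5 × Bool) : d.X :=
  d.pt (t (sg w.2 • e (wt w.1).1) (e (wt w.1).2.1) (e (wt w.1).2.2))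
    ⟨_, _, _, by
      rw [norm_smul, norm_e, mul_one]
      cases w.2 <;> simp [sg], norm_e _, norm_e _, rfl⟩

theorem incl_pts (w : Fin 5 × Bool) : d.incl (pts w) =
    t (sg w.2 • e (wt w.1).1) (e (wt w.1).2.1) (e (wt w.1).2.2) := rfl

theorem t_smul1 (a : ℝ) (z : P) (x y : Q) : t (a • z) x y = a • t z x y := by
  have := t_smul a 1 1 z x y
  simpa using this

theorem pts_fixed (a : Fin 2 → Bool) (b c : Fin 3 → Bool) (w : Fin 5 × Bool)
    (h : xor (a (wt w.1).1) (xor (b (wt w.1).2.1) (c (wt w.1).2.2)) = false) :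
    gD a b c (pts w) = pts w := by
  apply d.incl_inj
  have h' : sg (a (wt w.1).1) * (sg (b (wt w.1).2.1) * sg (c (wt w.1).2.2)) = 1 := by
    rw [← sg_xor, ← sg_xor, h]; simp [sg]
  rw [incl_gD, incl_pts, kt_t, map_smul, D_e, D_e, D_e, smul_smul, t_smul, t_smul1]
  congr 1
  linear_combination (sg w.2) * h'

theorem gs_fixed : ∀ g ∈ gs, ∀ w, g (pts w) = pts w := by
  intro g hg w
  simp only [gs, List.mem_cons, List.not_mem_nil, or_false] at hg
  rcases hg with rfl | rfl
  · apply pts_fixed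
    generalize w.1 = i
    revert i; decide
  · apply pts_fixed
    generalize w.1 = i
    revert i; decide

theorem norm_eq_abs_of {n : ℕ} (v : EuclideanSpace ℝ (Fin n)) (i : Fin n) (h : ∀ j, j ≠ i → v j = 0) :
    v = v i • e i := by
  ext j
  change v j = v i * (e i : EuclideanSpace ℝ (Fin n)) j
  by_cases hj : i = j
  · subst hj; rw [e_same, mul_one]
  · rw [e_ne hj, h j (fun h => hj h.symm), mul_zero]

theorem isolated (w : Fin 5 × Bool) (q : d.X) (hq : ∀ g ∈ gs, g q = q)
    (hpos : 0 < ⟪d.incl (pts w), d.incl q⟫) : q = pts w := by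
  have h1 : gD a1 b1 b1 q = q := hq _ (by simp [gs])
  have h2 : gD a2 b2 b2 q = q := hq _ (by simp [gs])
  have hne : zz q (wt w.1).1 * (xx q (wt w.1).2.1 * yy q (wt w.1).2.2) ≠ 0 := by
    intro h0
    rw [incl_pts, incl_eq q, t_smul1, inner_smul_left, inner_eee, h0, mul_zero] at hpos
    exact lt_irrefl _ hpos
  have hz : zz q (wt w.1).1 ≠ 0 := fun h => hne (by rw [h, zero_mul])
  have hx : xx q (wt w.1).2.1 ≠ 0 := fun h => hne (by rw [h, zero_mul, mul_zero])
  have hy : yy q (wt w.1).2.2 ≠ 0 := fun h => hne (by rw [h, mul_zero, mul_zero])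
  have k1 : ∀ i j k, (xor (a1 i) (xor (b1 j) (b1 k)) = true ∨
      xor (a2 i) (xor (b2 j) (b2 k)) = true) → zz q i * (xx q j * yy q k) = 0 := by
    intro i j k h
    rcases h with h | h
    · exact coord_zero _ _ _ q h1 i j k h
    · exact coord_zero _ _ _ q h2 i j k h
  have ez : zz q = zz q (wt w.1).1 • e (wt w.1).1 := by
    apply norm_eq_abs_of
    intro j hj
    have h3 := k1 j (wt w.1).2.1 (wt w.1).2.2 (by
      revert j hj; generalize w.1 = i; revert i; decide)
    rcases mul_eq_zero.mp h3 with h | h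
    · exact h
    · rcases mul_eq_zero.mp h with h | h
      · exact absurd h hx
      · exact absurd h hy
  have ex : xx q = xx q (wt w.1).2.1 • e (wt w.1).2.1 := by
    apply norm_eq_abs_of
    intro j hj
    have h3 := k1 (wt w.1).1 j (wt w.1).2.2 (by
      revert j hj; generalize w.1 = i; revert i; decide)
    rcases mul_eq_zero.mp h3 with h | h
    · exact absurd h hz
    · rcases mul_eq_zero.mp h with h | h
      · exact h
      · exact absurd h hy
  have ey : yy q = yy q (wt w.1).2.2 • e (wt w.1).2.2 := by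
    apply norm_eq_abs_of
    intro j hj
    have h3 := k1 (wt w.1).1 (wt w.1).2.1 j (by
      revert j hj; generalize w.1 = i; revert i; decide)
    rcases mul_eq_zero.mp h3 with h | h
    · exact absurd h hz
    · rcases mul_eq_zero.mp h with h | h
      · exact absurd h hx
      · exact h
  set cz := zz q (wt w.1).1 with hcz
  set cx := xx q (wt w.1).2.1 with hcx
  set cy := yy q (wt w.1).2.2 with hcy
  have e1 : d.incl q = (sg w.2 * (cz * (cx * cy))) • d.incl (pts w) := by
    rw [incl_pts, t_smul1, smul_smul]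
    have : sg w.2 * (cz * (cx * cy)) * sg w.2 = cz * (cx * cy) := by
      have : sg w.2 * sg w.2 = 1 := by rw [← sg_xor, Bool.xor_self]; simp [sg]
      linear_combination (cz * (cx * cy)) * this
    rw [this, incl_eq q, ez, ex, ey, t_smul]
  have e2 : ⟪d.incl (pts w), d.incl q⟫ ^ 2 = 1 := by
    have h3 := norm_incl q
    rw [e1, norm_smul, norm_incl, mul_one, Real.norm_eq_abs] at h3
    rw [e1, inner_smul_right, real_inner_self_eq_norm_sq, norm_incl, ← sq_abs, one_pow, mul_one,
      h3]
    norm_num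
  exact d.incl_inj (eq_of_inner (norm_incl _) (norm_incl _) e2 hpos)

theorem pts_inj : Function.Injective pts := by
  intro w w' h
  have h1 : d.incl (pts w) = d.incl (pts w') := by rw [h]
  rw [incl_pts, incl_pts, t_smul1, t_smul1] at h1
  have h2 := congrArg (fun v => ⟪t (e (wt w.1).1) (e (wt w.1).2.1) (e (wt w.1).2.2), v⟫) h1
  simp only [inner_smul_right, inner_eee, e_same, mul_one] at h2
  have hsg : ∀ b, sg b ≠ 0 := by intro b; cases b <;> simp [sg]
  have h3 : wt w.1 = wt w'.1 := by
    by_contra hcon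
    have h4 : ¬ ((wt w'.1).1 = (wt w.1).1 ∧ (wt w'.1).2.1 = (wt w.1).2.1 ∧
        (wt w'.1).2.2 = (wt w.1).2.2) := by
      rintro ⟨g1, g2, g3⟩
      exact hcon (Prod.ext g1.symm (Prod.ext g2.symm g3.symm))
    have h5 : (e (wt w'.1).1 : P) (wt w.1).1 * ((e (wt w'.1).2.1 : Q) (wt w.1).2.1 *
        (e (wt w'.1).2.2 : Q) (wt w.1).2.2) = 0 := by
      by_cases g1 : (wt w'.1).1 = (wt w.1).1
      · by_cases g2 : (wt w'.1).2.1 = (wt w.1).2.1
        · by_cases g3 : (wt w'.1).2.2 = (wt w.1).2.2
          · exact absurd ⟨g1, g2, g3⟩ h4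
          · rw [e_ne g3]; ring
        · rw [e_ne g2]; ring
      · rw [e_ne g1]; ring
    rw [h5, mul_zero] at h2
    exact hsg _ h2
  have h6 : w.1 = w'.1 := by
    revert h3; generalize w.1 = i; generalize w'.1 = j; revert i j; decide
  rw [h6] at h2
  simp only [e_same, mul_one] at h2
  have h7 : w.2 = w'.2 := by
    revert h2; cases w.2 <;> cases w'.2 <;> simp [sg] <;> norm_num
  exact Prod.ext h6 h7

theorem ten_le : (10 : ℕ∞) ≤ totalBetti (ZMod 2) d.X := by
  classical
  obtain ⟨R, G⟩ := riemannian_geo (E := EE) (M := d.X)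
  have hex : ∀ w : Fin 5 × Bool, ∃ ε > 0, ∀ y : d.X, dist y (pts w) < ε →
      0 < ⟪d.incl (pts w), d.incl y⟫ := by
    intro w
    exact d.exists_ball (isOpen_pos (d.incl (pts w))) (pts w) (by
      change 0 < ⟪d.incl (pts w), d.incl (pts w)⟫
      rw [real_inner_self_eq_norm_sq, norm_incl]; norm_num)
  choose ε hε hball using hex
  obtain ⟨w0, _, hw0⟩ := Finset.exists_min_image (Finset.univ : Finset (Fin 5 × Bool)) ε
    ⟨(0, false), Finset.mem_univ _⟩
  have h := G.card_fix_le gs ?_ ?_ (Finset.univ.image pts) ?_ (ε w0) (hε w0) ?_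
  · rw [Finset.card_image_of_injective _ pts_inj] at h
    simpa using h
  · intro g hg x
    simp only [gs, List.mem_cons, List.not_mem_nil, or_false] at hg
    rcases hg with rfl | rfl
    · exact gD_gD ..
    · exact gD_gD ..
  · intro g hg g' hg' x
    simp only [gs, List.mem_cons, List.not_mem_nil, or_false] at hg hg'
    rcases hg with rfl | rfl <;> rcases hg' with rfl | rfl <;> exact gD_comm ..
  · intro g hg a ha
    obtain ⟨w, _, rfl⟩ := Finset.mem_image.mp ha
    exact gs_fixed g hg w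
  · intro a ha y hy hfix
    obtain ⟨w, _, rfl⟩ := Finset.mem_image.mp ha
    exact isolated w y hfix (hball w y (lt_of_lt_of_le hy (hw0 w (Finset.mem_univ _))))

end Ten

end Pool.Agent.Helper381
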