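import Pool.Agent.Helper381.Ten

/-! Combinatorics of antipodal sets in the counterexample. -/

namespace Pool.Agent.Helper381

namespace Ten

open Set
open scoped RealInnerProductSpace

theorem orth_card {ι : Type*} {n : ℕ} (S : Finset ι) (f : ι → EuclideanSpace ℝ (Fin n))
    (h1 : ∀ i ∈ S, ‖f i‖ = 1) (h2 : ∀ i ∈ S, ∀ j ∈ S, i ≠ j → ⟪f i, f j⟫ = 0) : S.card ≤ n := by
  classical
  have ho : Orthonormal ℝ (fun i : S => f i.1) := by
    constructor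
    · intro i; exact h1 i.1 i.2
    · intro i j hij
      exact h2 i.1 i.2 j.1 j.2 (fun h => hij (Subtype.ext h))
  have h3 := ho.linearIndependent.fintype_card_le_finrank
  rwa [Fintype.card_coe, finrank_euclideanSpace_fin] at h3

theorem bessel {ι : Type*} {n : ℕ} (S : Finset ι) (f : ι → EuclideanSpace ℝ (Fin n))
    (h1 : ∀ i ∈ S, ‖f i‖ = 1) (h2 : ∀ i ∈ S, ∀ j ∈ S, i ≠ j → ⟪f i, f j⟫ = 0)
    (v : EuclideanSpace ℝ (Fin n)) (hv : ‖v‖ = 1) : ∑ i ∈ S, ⟪f i, v⟫ ^ 2 ≤ 1 := by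
  classical
  have ho : Orthonormal ℝ (fun i : S => f i.1) := by
    constructor
    · intro i; exact h1 i.1 i.2
    · intro i j hij
      exact h2 i.1 i.2 j.1 j.2 (fun h => hij (Subtype.ext h))
  have h3 := ho.sum_inner_products_le v (s := Finset.univ)
  rw [hv] at h3
  have h4 : ∑ i ∈ S, ⟪f i, v⟫ ^ 2 = ∑ i : S, ‖⟪f i.1, v⟫‖ ^ 2 := by
    rw [← Finset.sum_coe_sort S]
    apply Finset.sum_congr rfl
    intro i _
    rw [Real.norm_eq_abs, sq_abs]
  rw [h4]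
  simpa using h3

theorem par_eq {F : Type*} [NormedAddCommGroup F] [InnerProductSpace ℝ F] {a b : F} (ha : ‖a‖ = 1)
    (hb : ‖b‖ = 1) (h : ⟪a, b⟫ ^ 2 = 1) : b = ⟪a, b⟫ • a := by
  have h1 : ‖b - ⟪a, b⟫ • a‖ ^ 2 = 0 := by
    rw [@norm_sub_sq_real, norm_smul, hb, ha, inner_smul_right, real_inner_comm, Real.norm_eq_abs]
    have : ⟪b, a⟫ = ⟪a, b⟫ := real_inner_comm _ _
    rw [mul_one, sq_abs, this]
    linear_combination -h
  rw [sq_eq_zero_iff, norm_eq_zero, sub_eq_zero] at h1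
  exact h1

theorem two_bound {ι : Type*} (S : Finset ι) (x y : ι → Q)
    (hx : ∀ i, ‖x i‖ = 1) (hy : ∀ i, ‖y i‖ = 1) (q : ι)
    (h1 : ∀ i ∈ S, ∀ j ∈ S, i ≠ j → ⟪x i, x j⟫ = 0)
    (h2 : ∀ i ∈ S, ∀ j ∈ S, i ≠ j → ⟪y i, y j⟫ = 0)
    (h : ∀ i ∈ S, ⟪x i, x q⟫ ^ 2 + ⟪y i, y q⟫ ^ 2 = 1) : S.card ≤ 2 := by
  have e1 := bessel S x (fun i _ => hx i) h1 (x q) (hx q)
  have e2 := bessel S y (fun i _ => hy i) h2 (y q) (hy q)
  have e3 : ∑ i ∈ S, (⟪x i, x q⟫ ^ 2 + ⟪y i, y q⟫ ^ 2) = S.card := by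
    rw [Finset.sum_congr rfl h]; simp
  rw [Finset.sum_add_distrib] at e3
  have : (S.card : ℝ) ≤ 2 := by linarith
  exact_mod_cast this

theorem comb {ι : Type*} (A : Finset ι) (z : ι → P) (x y : ι → Q)
    (hz : ∀ i, ‖z i‖ = 1) (hx : ∀ i, ‖x i‖ = 1) (hy : ∀ i, ‖y i‖ = 1)
    (h01 : ∀ p ∈ A, ∀ q ∈ A, p ≠ q → ⟪z p, z q⟫ ^ 2 = 0 ∨ ⟪z p, z q⟫ ^ 2 = 1)
    (hsum : ∀ p ∈ A, ∀ q ∈ A, p ≠ q →
      ⟪z p, z q⟫ ^ 2 + (⟪x p, x q⟫ ^ 2 + ⟪y p, y q⟫ ^ 2) = 1) : A.card ≤ 4 := by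
  classical
  rcases A.eq_empty_or_nonempty with rfl | ⟨p0, hp0⟩
  · simp
  set C1 := A.filter (fun q => ⟪z p0, z q⟫ ^ 2 = 1) with hC1
  set C2 := A.filter (fun q => ¬ ⟪z p0, z q⟫ ^ 2 = 1) with hC2
  have hcard : C1.card + C2.card = A.card := Finset.card_filter_add_card_filter_not _
  have hself : ∀ p, ⟪z p, z p⟫ ^ 2 = 1 := by
    intro p; rw [real_inner_self_eq_norm_sq, hz]; norm_num
  have m1 : ∀ q, q ∈ C1 ↔ q ∈ A ∧ ⟪z p0, z q⟫ ^ 2 = 1 := fun q => by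
    rw [hC1, Finset.mem_filter]
  have m2 : ∀ q, q ∈ C2 ↔ q ∈ A ∧ ⟪z p0, z q⟫ ^ 2 = 0 := fun q => by
    rw [hC2, Finset.mem_filter]
    constructor
    · rintro ⟨h1, h2⟩
      refine ⟨h1, ?_⟩
      have hne : p0 ≠ q := by rintro rfl; exact h2 (hself _)
      rcases h01 p0 hp0 q h1 hne with h | h
      · exact h
      · exact absurd h h2
    · rintro ⟨h1, h2⟩
      refine ⟨h1, ?_⟩
      rw [h2]; norm_num
  have hzero : ∀ a b c : ℝ, a = 1 → a + (b ^ 2 + c ^ 2) = 1 → b = 0 ∧ c = 0 := by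
    intro a b c ha h
    constructor
    · nlinarith [sq_nonneg b, sq_nonneg c]
    · nlinarith [sq_nonneg b, sq_nonneg c]
  -- inside C1 the first slot is parallel
  have a1 : ∀ p ∈ C1, ∀ q ∈ C1, ⟪z p, z q⟫ ^ 2 = 1 := by
    intro p hp q hq
    have hp' := par_eq (hz p0) (hz p) ((m1 p).mp hp).2
    rw [hp', inner_smul_left, mul_pow]
    simp only [conj_trivial]
    rw [((m1 p).mp hp).2, ((m1 q).mp hq).2, mul_one]
  have a2 : ∀ p ∈ C2, ∀ q ∈ C2, p ≠ q → ⟪z p, z q⟫ ^ 2 = 1 := by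
    intro p hp q hq hpq
    rcases h01 p ((m2 p).mp hp).1 q ((m2 q).mp hq).1 hpq with h | h
    · exfalso
      have g1 := pow_eq_zero_iff (two_ne_zero) |>.mp ((m2 p).mp hp).2
      have g2 := pow_eq_zero_iff (two_ne_zero) |>.mp ((m2 q).mp hq).2
      have g3 := pow_eq_zero_iff (two_ne_zero) |>.mp h
      have hself' : ∀ p, ⟪z p, z p⟫ ≠ 0 := by
        intro p h'
        have := hself p
        rw [h'] at this; norm_num at this
      have n1 : p0 ≠ p := by rintro rfl; exact hself' _ g1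
      have n2 : p0 ≠ q := by rintro rfl; exact hself' _ g2
      have h3 := orth_card ({p0, p, q} : Finset ι) z (fun i _ => hz i) ?_
      · rw [Finset.card_eq_three.mpr ⟨p0, p, q, n1, n2, hpq, rfl⟩] at h3
        omega
      · have g1' : ⟪z p, z p0⟫ = 0 := by rw [real_inner_comm]; exact g1
        have g2' : ⟪z q, z p0⟫ = 0 := by rw [real_inner_comm]; exact g2
        have g3' : ⟪z q, z p⟫ = 0 := by rw [real_inner_comm]; exact g3
        intro i hi j hj hij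
        simp only [Finset.mem_insert, Finset.mem_singleton] at hi hj
        rcases hi with rfl | rfl | rfl <;> rcases hj with rfl | rfl | rfl <;>
          first | exact absurd rfl hij | assumption
    · exact h
  have b1 : ∀ p ∈ C1, ∀ q ∈ C1, p ≠ q → ⟪x p, x q⟫ = 0 ∧ ⟪y p, y q⟫ = 0 := by
    intro p hp q hq hpq
    exact hzero _ _ _ (a1 p hp q hq) (hsum p ((m1 p).mp hp).1 q ((m1 q).mp hq).1 hpq)
  have b2 : ∀ p ∈ C2, ∀ q ∈ C2, p ≠ q → ⟪x p, x q⟫ = 0 ∧ ⟪y p, y q⟫ = 0 := by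
    intro p hp q hq hpq
    exact hzero _ _ _ (a2 p hp q hq hpq) (hsum p ((m2 p).mp hp).1 q ((m2 q).mp hq).1 hpq)
  rcases C2.eq_empty_or_nonempty with hE | ⟨q, hq⟩
  · rw [hE] at hcard
    have := orth_card C1 x (fun i _ => hx i) (fun p hp q hq h => (b1 p hp q hq h).1)
    simp only [Finset.card_empty] at hcard
    omega
  · have c1 : C1.card ≤ 2 := by
      apply two_bound C1 x y hx hy q (fun p hp q hq h => (b1 p hp q hq h).1)
        (fun p hp q hq h => (b1 p hp q hq h).2)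
      intro p hp
      have hp' := par_eq (hz p0) (hz p) ((m1 p).mp hp).2
      have h0 : ⟪z p, z q⟫ ^ 2 = 0 := by
        rw [hp', inner_smul_left, mul_pow, ((m2 q).mp hq).2, mul_zero]
      have hne : p ≠ q := by
        rintro rfl; rw [hself] at h0; norm_num at h0
      have := hsum p ((m1 p).mp hp).1 q ((m2 q).mp hq).1 hne
      linarith
    have c2 : C2.card ≤ 2 := by
      apply two_bound C2 x y hx hy p0 (fun p hp q hq h => (b2 p hp q hq h).1)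
        (fun p hp q hq h => (b2 p hp q hq h).2)
      intro p hp
      have h0 : ⟪z p, z p0⟫ ^ 2 = 0 := by rw [real_inner_comm]; exact ((m2 p).mp hp).2
      have hne : p ≠ p0 := by
        rintro rfl; rw [hself] at h0; norm_num at h0
      have := hsum p ((m2 p).mp hp).1 p0 hp0 hne
      linarith
    omega

end Ten

end Pool.Agent.Helper381
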