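import Pool.Agent.Helper381.TenComb
import Pool.Agent.Helper381.Riem3
import Pool.Agent.Helper381.Fix

/-! Symmetries of the counterexample and its two-number. -/

namespace Pool.Agent.Helper381

namespace Ten

open Set
open scoped RealInnerProductSpace Topology

section Refl

variable {F : Type*} [NormedAddCommGroup F] [InnerProductSpace ℝ F] [CompleteSpace F]

/-- reflection in a line -/
noncomputable def rr (a : F) : F ≃ₗᵢ[ℝ] F := (Submodule.span ℝ {a}).reflection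

theorem rr_apply (a v : F) (ha : ‖a‖ = 1) : rr a v = (2 * ⟪a, v⟫) • a - v := by
  rw [rr, Submodule.reflection_singleton_apply, ha]
  simp only [RCLike.ofReal_real_eq_id, id_eq, one_pow, div_one]
  module

theorem rr_self (a : F) (ha : ‖a‖ = 1) : rr a a = a := by
  rw [rr_apply a a ha, real_inner_self_eq_norm_sq, ha]
  module

theorem rr_rr (a v : F) : rr a (rr a v) = v := Submodule.reflection_reflection _ v

theorem inner_rr (a v : F) (ha : ‖a‖ = 1) (hv : ‖v‖ = 1) : ⟪rr a v, v⟫ = 2 * ⟪a, v⟫ ^ 2 - 1 := by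
  rw [rr_apply a v ha, inner_sub_left, inner_smul_left, real_inner_self_eq_norm_sq, hv]
  simp only [conj_trivial]
  ring

theorem sq_le_one (a v : F) (ha : ‖a‖ = 1) (hv : ‖v‖ = 1) : ⟪a, v⟫ ^ 2 ≤ 1 := by
  have h := abs_real_inner_le_norm a v
  rw [ha, hv, mul_one] at h
  rw [← sq_abs]
  nlinarith [abs_nonneg ⟪a, v⟫]

end Refl

theorem three_cases {a b c : ℝ} (ha0 : 0 ≤ a) (ha : a ≤ 1) (hb0 : 0 ≤ b) (hb : b ≤ 1)
    (hc0 : 0 ≤ c) (hc : c ≤ 1) (h : (2 * a - 1) * ((2 * b - 1) * (2 * c - 1)) = 1) :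
    a = 0 ∨ a = 1 := by
  have h1 : (2 * a - 1) ^ 2 * ((2 * b - 1) ^ 2 * (2 * c - 1) ^ 2) = 1 := by
    calc (2 * a - 1) ^ 2 * ((2 * b - 1) ^ 2 * (2 * c - 1) ^ 2)
        = ((2 * a - 1) * ((2 * b - 1) * (2 * c - 1))) ^ 2 := by ring
      _ = 1 := by rw [h]; norm_num
  have h2 : (2 * a - 1) ^ 2 ≤ 1 := by nlinarith
  have h3 : (2 * b - 1) ^ 2 ≤ 1 := by nlinarith
  have h4 : (2 * c - 1) ^ 2 ≤ 1 := by nlinarith
  have h5 : (2 * b - 1) ^ 2 * (2 * c - 1) ^ 2 ≤ 1 := by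
    have := mul_le_mul h3 h4 (sq_nonneg _) zero_le_one
    simpa using this
  have h6 : 1 ≤ (2 * a - 1) ^ 2 := by
    calc (1 : ℝ) = (2 * a - 1) ^ 2 * ((2 * b - 1) ^ 2 * (2 * c - 1) ^ 2) := h1.symm
      _ ≤ (2 * a - 1) ^ 2 * 1 := mul_le_mul_of_nonneg_left h5 (sq_nonneg _)
      _ = _ := mul_one _
  have h7 : a * (a - 1) = 0 := by nlinarith
  rcases mul_eq_zero.mp h7 with h | h
  · left; exact h
  · right; linarith

theorem three_cases' {a b c : ℝ} (ha0 : 0 ≤ a) (ha : a ≤ 1) (hb0 : 0 ≤ b) (hb : b ≤ 1)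
    (hc0 : 0 ≤ c) (hc : c ≤ 1) (h : (2 * a - 1) * ((2 * b - 1) * (2 * c - 1)) = 1) :
    (a = 0 ∨ a = 1) ∧ (a * (b * c) = 1 ∨ (a + (b + c) = 1 ∧ a * (b * c) = 0)) := by
  have h1 := three_cases ha0 ha hb0 hb hc0 hc h
  have h2 : b = 0 ∨ b = 1 := by
    apply three_cases hb0 hb ha0 ha hc0 hc
    linear_combination h
  have h3 : c = 0 ∨ c = 1 := by
    apply three_cases hc0 hc ha0 ha hb0 hb
    linear_combination h
  refine ⟨h1, ?_⟩
  rcases h1 with rfl | rfl <;> rcases h2 with rfl | rfl <;> rcases h3 with rfl | rfl <;>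
    first | (norm_num; done) | (exfalso; norm_num at h)

/-- fixed points of the product of line reflections -/
theorem fixed_cases {z z' : P} {x x' y y' : Q} (hz : ‖z‖ = 1) (hx : ‖x‖ = 1) (hy : ‖y‖ = 1)
    (hz' : ‖z'‖ = 1) (hx' : ‖x'‖ = 1) (hy' : ‖y'‖ = 1)
    (h : kt (rr z) (rr x) (rr y) (t z' x' y') = t z' x' y') :
    (⟪z, z'⟫ ^ 2 = 0 ∨ ⟪z, z'⟫ ^ 2 = 1) ∧
    (⟪z, z'⟫ ^ 2 * (⟪x, x'⟫ ^ 2 * ⟪y, y'⟫ ^ 2) = 1 ∨
      (⟪z, z'⟫ ^ 2 + (⟪x, x'⟫ ^ 2 + ⟪y, y'⟫ ^ 2) = 1 ∧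
        ⟪z, z'⟫ ^ 2 * (⟪x, x'⟫ ^ 2 * ⟪y, y'⟫ ^ 2) = 0)) := by
  have h1 : ⟪kt (rr z) (rr x) (rr y) (t z' x' y'), t z' x' y'⟫ = 1 := by
    rw [h, real_inner_self_eq_norm_sq, norm_t, hz', hx', hy']; norm_num
  rw [kt_t, inner_t, inner_rr z z' hz hz', inner_rr x x' hx hx', inner_rr y y' hy hy'] at h1
  exact three_cases' (sq_nonneg _) (sq_le_one _ _ hz hz') (sq_nonneg _) (sq_le_one _ _ hx hx')
    (sq_nonneg _) (sq_le_one _ _ hy hy') h1

theorem eq_of_inner {F : Type*} [NormedAddCommGroup F] [InnerProductSpace ℝ F] {a b : F}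
    (ha : ‖a‖ = 1) (hb : ‖b‖ = 1) (h : ⟪a, b⟫ ^ 2 = 1) (hpos : 0 < ⟪a, b⟫) : b = a := by
  have h1 := par_eq ha hb h
  have h2 : ⟪a, b⟫ = 1 := by nlinarith
  rw [h1, h2, one_smul]

theorem eq_or_of_inner {F : Type*} [NormedAddCommGroup F] [InnerProductSpace ℝ F] {a b : F}
    (ha : ‖a‖ = 1) (hb : ‖b‖ = 1) (h : ⟪a, b⟫ ^ 2 = 1) : b = a ∨ b = -a := by
  have h1 := par_eq ha hb h
  have h' : ⟪a, b⟫ * ⟪a, b⟫ = 1 := by rw [← sq]; exact h
  rcases mul_self_eq_one_iff.mp h' with h2 | h2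
  · left; rw [h1, h2, one_smul]
  · right; rw [h1, h2, neg_smul, one_smul]

/-- chosen factors -/
noncomputable def zz (p : d.X) : P := (d.incl_mem p).choose
noncomputable def xx (p : d.X) : Q := (d.incl_mem p).choose_spec.choose
noncomputable def yy (p : d.X) : Q := (d.incl_mem p).choose_spec.choose_spec.choose

theorem zz_norm (p : d.X) : ‖zz p‖ = 1 := (d.incl_mem p).choose_spec.choose_spec.choose_spec.1
theorem xx_norm (p : d.X) : ‖xx p‖ = 1 := (d.incl_mem p).choose_spec.choose_spec.choose_spec.2.1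
theorem yy_norm (p : d.X) : ‖yy p‖ = 1 := (d.incl_mem p).choose_spec.choose_spec.choose_spec.2.2.1
theorem incl_eq (p : d.X) : d.incl p = t (zz p) (xx p) (yy p) :=
  (d.incl_mem p).choose_spec.choose_spec.choose_spec.2.2.2

theorem norm_incl (p : d.X) : ‖d.incl p‖ = 1 := by
  rw [incl_eq, norm_t, zz_norm, xx_norm, yy_norm]; norm_num

theorem kp (A : P ≃ₗᵢ[ℝ] P) (B C : Q ≃ₗᵢ[ℝ] Q) : d.Pres (kt A B C) := kt_pres A B C

/-- the symmetry at a point -/
noncomputable def sy (p : d.X) : d.X ≃ᵢ d.X :=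
  d.iso (kt (rr (zz p)) (rr (xx p)) (rr (yy p))) (kp _ _ _)

theorem incl_sy (p q : d.X) : d.incl (sy p q) =
    kt (rr (zz p)) (rr (xx p)) (rr (yy p)) (t (zz q) (xx q) (yy q)) := by
  rw [sy, d.incl_iso, incl_eq q]

theorem sy_cases (p q : d.X) (h : sy p q = q) :
    (⟪zz p, zz q⟫ ^ 2 = 0 ∨ ⟪zz p, zz q⟫ ^ 2 = 1) ∧
    (⟪d.incl p, d.incl q⟫ ^ 2 = 1 ∨
      (⟪zz p, zz q⟫ ^ 2 + (⟪xx p, xx q⟫ ^ 2 + ⟪yy p, yy q⟫ ^ 2) = 1 ∧
        ⟪d.incl p, d.incl q⟫ = 0)) := by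
  have h1 : kt (rr (zz p)) (rr (xx p)) (rr (yy p)) (t (zz q) (xx q) (yy q)) =
      t (zz q) (xx q) (yy q) := by
    rw [← incl_sy, h, incl_eq]
  have h2 := fixed_cases (zz_norm p) (xx_norm p) (yy_norm p) (zz_norm q) (xx_norm q) (yy_norm q) h1
  have h3 : ⟪d.incl p, d.incl q⟫ = ⟪zz p, zz q⟫ * (⟪xx p, xx q⟫ * ⟪yy p, yy q⟫) := by
    rw [incl_eq p, incl_eq q, inner_t]
  refine ⟨h2.1, ?_⟩
  rcases h2.2 with h4 | ⟨h4, h5⟩
  · left
    rw [h3, mul_pow, mul_pow, h4]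
  · right
    refine ⟨h4, ?_⟩
    rw [h3]
    have : (⟪zz p, zz q⟫ * (⟪xx p, xx q⟫ * ⟪yy p, yy q⟫)) ^ 2 = 0 := by
      rw [mul_pow, mul_pow, h5]
    exact pow_eq_zero_iff (two_ne_zero) |>.mp this

theorem isOpen_pos (p : W) : IsOpen {v : W | 0 < ⟪p, v⟫} :=
  isOpen_lt continuous_const (continuous_const.inner continuous_id)

theorem symm_sy (p : d.X) : IsSymmetryAt p (sy p) := by
  refine ⟨?_, ?_, ?_⟩
  · intro y
    apply d.incl_inj
    rw [incl_sy, ← incl_eq, sy, d.incl_iso, incl_eq y, kt_t, kt_t, rr_rr, rr_rr, rr_rr]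
  · apply d.incl_inj
    rw [incl_sy, kt_t, rr_self _ (zz_norm p), rr_self _ (xx_norm p), rr_self _ (yy_norm p),
      ← incl_eq]
  · obtain ⟨ε, hε, h⟩ := d.exists_ball (isOpen_pos (d.incl p)) p (by
      change 0 < ⟪d.incl p, d.incl p⟫
      rw [real_inner_self_eq_norm_sq, norm_incl]; norm_num)
    refine ⟨ε, hε, fun y hy hs => ?_⟩
    have h1 : 0 < ⟪d.incl p, d.incl y⟫ := h y hy
    apply d.incl_inj
    rcases (sy_cases p y hs).2 with h2 | ⟨_, h2⟩
    · exact eq_of_inner (norm_incl p) (norm_incl y) h2 h1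
    · rw [h2] at h1; exact absurd h1 (lt_irrefl _)

theorem isSymmetric : IsSymmetric d.X := fun p => ⟨sy p, symm_sy p⟩

theorem card_antipodal (A : Finset d.X) (hA : IsAntipodal (A : Set d.X)) : A.card ≤ 8 := by
  classical
  obtain ⟨R, G⟩ := riemannian_geo (E := EE) (M := d.X)
  have hfix : ∀ p ∈ A, ∀ q ∈ A, sy p q = q := by
    intro p hp q hq
    obtain ⟨s, hs, hq'⟩ := hA p hp q hq
    rw [G.symm_unique (symm_sy p) hs]
    exact hq'
  -- unordered pairs up to sign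
  set f : d.X → Finset W := fun p => {d.incl p, -d.incl p} with hf
  have hcard : A.card ≤ 2 * (A.image f).card := by
    apply Finset.card_le_mul_card_image
    intro b hb
    obtain ⟨p, hp, rfl⟩ := Finset.mem_image.mp hb
    have h1 : ((A.filter (fun q => f q = f p)).image d.incl).card ≤ 2 := by
      refine le_trans (Finset.card_le_card (t := ({d.incl p, -d.incl p} : Finset W)) ?_)
        Finset.card_le_two
      intro v hv
      obtain ⟨q, hq, rfl⟩ := Finset.mem_image.mp hv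
      have h2 := (Finset.mem_filter.mp hq).2
      have h3 : d.incl q ∈ f q := by simp [hf]
      rw [h2] at h3
      exact h3
    rwa [Finset.card_image_of_injective _ d.incl_inj] at h1
  have hex : ∀ b ∈ A.image f, ∃ p ∈ A, f p = b := fun b hb => Finset.mem_image.mp hb
  choose! g hgA hgf using hex
  set B := (A.image f).image g with hB
  have hBcard : B.card = (A.image f).card := by
    apply Finset.card_image_of_injOn
    intro b hb c hc hbc
    rw [← hgf b hb, ← hgf c hc, hbc]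
  have hBA : ∀ p ∈ B, p ∈ A := by
    intro p hp
    obtain ⟨b, hb, rfl⟩ := Finset.mem_image.mp hp
    exact hgA b hb
  have hBf : ∀ p ∈ B, ∀ q ∈ B, f p = f q → p = q := by
    intro p hp q hq hpq
    obtain ⟨b, hb, rfl⟩ := Finset.mem_image.mp hp
    obtain ⟨c, hc, rfl⟩ := Finset.mem_image.mp hq
    rw [hgf b hb, hgf c hc] at hpq
    rw [hpq]
  have hne : ∀ p ∈ B, ∀ q ∈ B, p ≠ q → ⟪d.incl p, d.incl q⟫ ^ 2 ≠ 1 := by
    intro p hp q hq hpq h
    rcases eq_or_of_inner (norm_incl p) (norm_incl q) h with h1 | h1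
    · exact hpq (d.incl_inj h1.symm)
    · apply hpq
      apply hBf p hp q hq
      simp only [hf, h1, neg_neg]
      rw [Finset.pair_comm]
  have h4 : B.card ≤ 4 := by
    apply comb B zz xx yy zz_norm xx_norm yy_norm
    · intro p hp q hq _
      exact (sy_cases p q (hfix p (hBA p hp) q (hBA q hq))).1
    · intro p hp q hq hpq
      rcases (sy_cases p q (hfix p (hBA p hp) q (hBA q hq))).2 with h | h
      · exact absurd h (hne p hp q hq hpq)
      · exact h.1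
  omega

theorem twoNumber_le : twoNumber d.X ≤ 8 := by
  apply iSup_le
  rintro ⟨A, hA⟩
  by_contra hcon
  rw [not_le] at hcon
  have h9 : (9 : ℕ∞) ≤ A.encard := by
    have h1 : (8 : ℕ∞) + 1 ≤ A.encard := Order.add_one_le_of_lt hcon
    have h2 : (8 : ℕ∞) + 1 = 9 := by norm_num
    rwa [h2] at h1
  obtain ⟨B, hBA, hB⟩ := Set.exists_subset_encard_eq h9
  have hfin : B.Finite := by
    apply Set.finite_of_encard_eq_coe (k := 9)
    exact hB
  have h1 := card_antipodal hfin.toFinset (by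
    intro x hx y hy
    rw [hfin.coe_toFinset] at hx hy
    exact hA x (hBA hx) y (hBA hy))
  rw [hfin.encard_eq_coe_toFinset_card] at hB
  have h2 : hfin.toFinset.card = 9 := by exact_mod_cast hB
  omega

end Ten

end Pool.Agent.Helper381
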